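import Pool.Agent.FS31.FamMk

/-!
# Berkovich side: from cycles of indifferent components to families

`HasHoles`, `multiCycles`, `toRM`, `zpt` are defined in `FS31/Defs.lean`; `exists_fam` is proved in
`FS31/FamMk.lean` (all in the namespace `FS16`).
-/
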