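import Pool.Agent.FS16.NWorld

/-!
# Cycles of type B

MODULE N-WORLD-B.  All maps on the cycle of `ξ` have degree one and fix infinity, and there is an
infinite orbit of finite directions of a direction with positive surplus.
* `tailB`: from `typeB_bad`: `spl = rootMultiplicity ≥ 1` (`h ≠ 0`) and `mult ≥ 1` (`one_le_mult`).
* `cardB`: let `m = Function.minimalPeriod s ξ`, and `A : OnePoint k → OnePoint k` the composition of the
  maps on the cycle, starting at `ξ`.  `A ∞ = ∞`, and on finite points `A u = λ u + β` with `λ ≠ 0`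
  (a rational map of degree one which fixes infinity is affine: `q` is constant).  The infinite orbit
  `w` gives an infinite orbit of `A` (or a point of the orbit of `w` on the line of `ξ`).  If `A` has
  two different periodic finite points `u₁`, `u₂` then a power `A^n`, `n ≥ 1`, fixes `u₁`, `u₂` and
  is affine, so it is the identity, contradiction to the infinite orbit.  For every `i`
  as in the statement the direction `v i (b i) l` (`e i (b i) l = ξ`) is periodic for `A`, so it is `∞` or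
  the unique finite periodic point, and it determines `i` by `v_disj`.
-/

open Polynomial

noncomputable section

namespace FS16

universe u

variable {K k : Type u} [NontriviallyNormedField K] [Field k] {R : Residue K k}
  [IsUltrametricDist K] [IsAlgClosed K] [IsAlgClosed k]
  {f : RM K} {Ξ I : Type} [Fintype Ξ] [Fintype I]

theorem World.tailB (W : World R f Ξ I) {ξ : Ξ} (hξ : W.degOne ξ) :
    ∃ (n : ℕ) (w : ℕ → k), W.Tail (W.s^[n] ξ) w := by
  obtain ⟨n, w, h0, hT, hinj⟩ := W.typeB_bad ξ hξ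
  refine ⟨n, w, ⟨?_, ?_, ?_⟩⟩
  · intro l
    rw [← Function.iterate_add_apply, add_comm]
    exact hT l
  · intro a b hab hw
    refine hinj a b ?_ hw
    have h1 : W.s^[n] (W.s^[a] ξ) = W.s^[n] (W.s^[b] ξ) := by
      rw [← Function.iterate_add_apply, ← Function.iterate_add_apply, add_comm n a,
        add_comm n b, Function.iterate_add_apply, Function.iterate_add_apply]
      exact hab
    exact (W.s.injective.iterate n) h1
  · have hg := W.good (W.s^[n] ξ)
    have h1 : 1 ≤ (W.T (W.s^[n] ξ)).mult (w 0 : OnePoint k) := RM.one_le_mult _ hg.2.1 _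
    have h2 : 1 ≤ spl (f.cj (W.c (W.s^[n] ξ)) (W.c (W.s (W.s^[n] ξ)))) (W.h (W.s^[n] ξ))
        (W.T (W.s^[n] ξ)) (w 0 : OnePoint k) := by
      change 1 ≤ (W.h (W.s^[n] ξ)).rootMultiplicity (w 0)
      exact (rootMultiplicity_pos hg.1).2 h0
    omega

/-- a rational map of degree one which fixes infinity is affine -/
theorem NWB.exists_affine (T : RM k) (hd : T.deg = 1) (hT : T.map OnePoint.infty = OnePoint.infty) :
    ∃ a b : k, ∀ u : k, T.map (u : OnePoint k) = ((a * u + b : k) : OnePoint k) := by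
  have hq1 : T.q.natDegree ≠ T.deg := by
    intro h
    rw [T.map_infty h] at hT
    exact OnePoint.coe_ne_infty _ hT
  have hq2 : T.q.natDegree ≤ T.deg := le_max_right _ _
  have hq0 : T.q.natDegree = 0 := by omega
  have hp1 : T.p.natDegree ≤ 1 := hd ▸ le_max_left _ _
  have hp2 : T.p.natDegree = 1 := by
    unfold RM.deg at hd
    rw [hq0] at hd
    omega
  obtain ⟨c, hc⟩ := natDegree_eq_zero.1 hq0
  have hc0 : c ≠ 0 := by
    rintro rfl
    have h := T.cop
    rw [← hc, map_zero, isCoprime_zero_right] at h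
    have := natDegree_eq_zero_of_isUnit h
    omega
  have hp : T.p = C (T.p.coeff 1) * X + C (T.p.coeff 0) := eq_X_add_C_of_natDegree_le_one hp1
  refine ⟨T.p.coeff 1 / c, T.p.coeff 0 / c, fun u => ?_⟩
  have hqu : T.q.eval u = c := by rw [← hc, eval_C]
  rw [T.map_coe (by rw [hqu]; exact hc0)]
  have hev : T.ev u = T.p.coeff 1 / c * u + T.p.coeff 0 / c := by
    unfold RM.ev
    rw [hqu]
    conv_lhs => rw [hp]
    rw [eval_add, eval_mul, eval_C, eval_X, eval_C]
    ring
  rw [hev]

/-- the composition of the first maps on the orbit of a point -/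
def World.cmp (W : World R f Ξ I) (ξ : Ξ) : ℕ → OnePoint k → OnePoint k
  | 0, u => u
  | n + 1, u => (W.T (W.s^[n] ξ)).map (W.cmp ξ n u)

theorem World.degOne_iterate (W : World R f Ξ I) {ξ : Ξ} (hξ : W.degOne ξ) (n : ℕ) :
    W.degOne (W.s^[n] ξ) := by
  induction n with
  | zero => exact hξ
  | succ n ih =>
    rw [Function.iterate_succ_apply']
    exact (W.degOne_s _).2 ih

theorem World.cmp_affine (W : World R f Ξ I) {ξ : Ξ} (hξ : W.degOne ξ) (n : ℕ) :
    ∃ a b : k, ∀ u : k, W.cmp ξ n (u : OnePoint k) = ((a * u + b : k) : OnePoint k) := by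
  induction n with
  | zero => exact ⟨1, 0, fun u => by simp [World.cmp]⟩
  | succ n ih =>
    obtain ⟨a, b, hab⟩ := ih
    obtain ⟨h1, h2⟩ := W.typeB _ (W.degOne_iterate hξ n)
    obtain ⟨a', b', hab'⟩ := NWB.exists_affine _ h1 h2
    refine ⟨a' * a, a' * b + b', fun u => ?_⟩
    have : W.cmp ξ (n + 1) (u : OnePoint k) = (W.T (W.s^[n] ξ)).map (W.cmp ξ n u) := rfl
    rw [this, hab u, hab' _]
    congr 1
    ring

theorem World.cmp_v (W : World R f Ξ I) {ξ : Ξ} {i : I} {b : Bool} {l : ℕ}
    (h : W.e i b l = ξ) (n : ℕ) :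
    W.cmp ξ n (W.v i b l) = W.v i b (l + n) ∧ W.e i b (l + n) = W.s^[n] ξ := by
  induction n with
  | zero => exact ⟨rfl, h⟩
  | succ n ih =>
    constructor
    · have : W.cmp ξ (n + 1) (W.v i b l) = (W.T (W.s^[n] ξ)).map (W.cmp ξ n (W.v i b l)) := rfl
      rw [this, ih.1, ← ih.2, W.v_T]
      rfl
    · rw [Function.iterate_succ_apply', ← ih.2, ← W.e_s]
      rfl

theorem World.v_per_mul (W : World R f Ξ I) (i : I) (b : Bool) (l t : ℕ) :
    W.v i b (l + W.P i * t) = W.v i b l ∧ W.e i b (l + W.P i * t) = W.e i b l := by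
  induction t with
  | zero => exact ⟨rfl, rfl⟩
  | succ t ih =>
    rw [Nat.mul_succ, ← add_assoc, W.v_per, W.e_per]
    exact ih

/-- two different finite periodic directions at a point of type B -/
theorem World.not_two (W : World R f Ξ I) {ξ : Ξ} (hξ : W.degOne ξ) {b : I → Bool} {i i' : I}
    (hne : i ≠ i') {l l' : ℕ} (he : W.e i (b i) l = ξ) (he' : W.e i' (b i') l' = ξ)
    (hv : W.v i (b i) l ≠ OnePoint.infty) (hv' : W.v i' (b i') l' ≠ OnePoint.infty) : False := by
  obtain ⟨n, w, -, hT, hinj⟩ := W.typeB_bad ξ hξ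
  obtain ⟨N, hN⟩ : ∃ N, N = W.P i * W.P i' := ⟨_, rfl⟩
  have hN0 : 0 < N := by
    rw [hN]
    exact Nat.mul_pos (W.P_pos i) (W.P_pos i')
  have h1 := W.cmp_v he N
  have h2 := W.cmp_v he' N
  have h3 := W.v_per_mul i (b i) l (W.P i')
  have h4 := W.v_per_mul i' (b i') l' (W.P i)
  rw [← hN] at h3
  rw [mul_comm, ← hN] at h4
  rw [h3.1, h3.2, he] at h1
  rw [h4.1] at h2
  have hdis : W.v i (b i) l ≠ W.v i' (b i') l' := fun h =>
    hne (W.v_disj i i' (b i) (b i') l l' (he.trans he'.symm) h)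
  -- the composition is the identity on the finite points
  obtain ⟨a, c, hac⟩ := W.cmp_affine hξ N
  obtain ⟨u, hu⟩ : ∃ u : k, W.v i (b i) l = (u : OnePoint k) := ⟨_, (coe_toFin hv).symm⟩
  obtain ⟨u', hu'⟩ : ∃ u' : k, W.v i' (b i') l' = (u' : OnePoint k) := ⟨_, (coe_toFin hv').symm⟩
  have huu : u ≠ u' := by
    rintro rfl
    exact hdis (hu.trans hu'.symm)
  have e1 : a * u + c = u := by
    have := h1.1
    rw [hu, hac] at this
    exact OnePoint.coe_injective this
  have e2 : a * u' + c = u' := by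
    have := h2.1
    rw [hu', hac] at this
    exact OnePoint.coe_injective this
  have ha : a = 1 := by
    have h5 : (a - 1) * (u - u') = 0 := by linear_combination e1 - e2
    rcases mul_eq_zero.1 h5 with h5 | h5
    · exact sub_eq_zero.1 h5
    · exact absurd (sub_eq_zero.1 h5) huu
  have hc : c = 0 := by
    rw [ha] at e1
    linear_combination e1
  -- the infinite orbit
  obtain ⟨l0, hl0⟩ : ∃ l0, n + l0 = N * n := ⟨N * n - n, by
    have : n ≤ N * n := Nat.le_mul_of_pos_left n hN0
    omega⟩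
  have hs : W.s^[N] ξ = ξ := h1.2.symm
  have hsn : ∀ t, W.s^[N * t] ξ = ξ := by
    intro t
    induction t with
    | zero => rfl
    | succ t ih => rw [Nat.mul_succ, Function.iterate_add_apply, hs, ih]
  have hw : ∀ j, W.cmp ξ j (w l0 : OnePoint k) = (w (l0 + j) : OnePoint k) := by
    intro j
    induction j with
    | zero => rfl
    | succ j ih =>
      have h6 : W.cmp ξ (j + 1) (w l0 : OnePoint k) =
        (W.T (W.s^[j] ξ)).map (W.cmp ξ j (w l0 : OnePoint k)) := rfl
      have h7 : W.s^[n + (l0 + j)] ξ = W.s^[j] ξ := by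
        rw [← add_assoc, hl0, add_comm, Function.iterate_add_apply, hsn]
      rw [h6, ih, ← h7, hT]
      rfl
  have h8 := hw N
  rw [hac, ha, hc, one_mul, add_zero] at h8
  have h9 : w l0 = w (l0 + N) := OnePoint.coe_injective h8
  have h10 := hinj l0 (l0 + N) (by rw [Function.iterate_add_apply, hs]) h9
  omega

open Classical in
theorem World.cardB (W : World R f Ξ I) {ξ : Ξ} (hξ : W.degOne ξ) (b : I → Bool) :
    (Finset.univ.filter fun i => W.On i (b i) ξ).card ≤ 2 := by
  by_contra hcard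
  push Not at hcard
  obtain ⟨i₁, i₂, i₃, h1, h2, h3, h12, h13, h23⟩ := Finset.two_lt_card_iff.1 hcard
  simp only [Finset.mem_filter, Finset.mem_univ, true_and] at h1 h2 h3
  obtain ⟨l₁, e1⟩ := h1
  obtain ⟨l₂, e2⟩ := h2
  obtain ⟨l₃, e3⟩ := h3
  by_cases v1 : W.v i₁ (b i₁) l₁ = OnePoint.infty
  · by_cases v2 : W.v i₂ (b i₂) l₂ = OnePoint.infty
    · exact h12 (W.v_disj i₁ i₂ _ _ l₁ l₂ (e1.trans e2.symm) (v1.trans v2.symm))
    · by_cases v3 : W.v i₃ (b i₃) l₃ = OnePoint.infty
      · exact h13 (W.v_disj i₁ i₃ _ _ l₁ l₃ (e1.trans e3.symm) (v1.trans v3.symm))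
      · exact W.not_two hξ h23 e2 e3 v2 v3
  · by_cases v2 : W.v i₂ (b i₂) l₂ = OnePoint.infty
    · by_cases v3 : W.v i₃ (b i₃) l₃ = OnePoint.infty
      · exact h23 (W.v_disj i₂ i₃ _ _ l₂ l₃ (e2.trans e3.symm) (v2.trans v3.symm))
      · exact W.not_two hξ h13 e1 e3 v1 v3
    · exact W.not_two hξ h12 e1 e2 v1 v2

end FS16
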