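import Pool.Agent.FS16.NWorldA
import Pool.Agent.FS16.NWorldB

/-!
# The bound for a world

MODULE N-BOUND.  `world_bound`: `|I| ≤ 4 deg f - 4`.

Proof.  Let `S ⊆ k` be the finite set of the coefficients of the `T ξ` and of the directions
`toFin (v i b l)` (`l < P i`; the others are the same by periodicity).  `exists_embedding` gives `L`, `φ`,
`σ`.
Choice of the ends: `b i` is such that `degOne (e i (b i) 0)` if there is one; otherwise both products in
`mult_mul` are of the form `φ x`, `φ x'`, with `x x' = 1`, so `‖σ x‖ ‖σ x'‖ = 1`, and we choose `b i` with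
`‖σ x‖ ≤ 1` (`φ` is injective so `x` is unique).
For every `i` let `ξ_i = e i (b i) 0`.
For the cycles of type A use `tailsA` for a representative `ξ` of every cycle (every `i` belongs to
exactly one cycle: `On i (b i) ξ` iff `ξ` and `ξ_i` are on the same cycle of `s`), for the cycles of type
B use `tailB`.  So for every `i` we have a tail `(ζ i, w i)`, where `ζ i` is on the cycle of `ξ_i`, and
(type A) the tails of different `i`, `i'` on the same cycle are disjoint.  `exists_capture` gives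
`n i` and a critical point `z i` of `f`.
Claim: at most two `i` have the same `z i`.  By `capture_unique`, `z i = z i'` implies
`s^[n i] (ζ i) = s^[n i'] (ζ i')` (so `i`, `i'` are on the same cycle, and have the same type) and
`w i (n i + l) = w i' (n i' + l)` for all `l`.  Type A: `i = i'` by the disjointness.  Type B: all these
`i` satisfy `On i (b i) ξ` for a fixed `ξ`, `cardB`.
So `|I| ≤ 2 * (2 deg f - 2)` by `crit_card`.
-/

open Polynomial

noncomputable section

namespace FS16

universe u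

variable {K k : Type u} [NontriviallyNormedField K] [Field k] {R : Residue K k}
  [IsUltrametricDist K] [IsAlgClosed K] [IsAlgClosed k] [CharZero k]
  {f : RM K} {Ξ I : Type} [Fintype Ξ] [Fintype I]

section aux

set_option linter.unusedSectionVars false

omit [CharZero k]

theorem World.e_iter (W : World R f Ξ I) (i : I) (b : Bool) (l : ℕ) :
    W.e i b l = W.s^[l] (W.e i b 0) := by
  induction l with
  | zero => rfl
  | succ l ih => rw [W.e_s, ih, Function.iterate_succ_apply']

theorem World.degOne_iter (W : World R f Ξ I) (ξ : Ξ) (n : ℕ) :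
    W.degOne (W.s^[n] ξ) ↔ W.degOne ξ := by
  induction n with
  | zero => rfl
  | succ n ih => rw [Function.iterate_succ_apply', W.degOne_s, ih]

theorem World.sameCycle_iter (W : World R f Ξ I) (ξ : Ξ) (n : ℕ) :
    W.s.SameCycle ξ (W.s^[n] ξ) :=
  ⟨n, by rw [Equiv.Perm.iterate_eq_pow, zpow_natCast]⟩

theorem World.exists_iter (W : World R f Ξ I) {ξ ξ' : Ξ} (h : W.s.SameCycle ξ ξ') :
    ∃ n : ℕ, W.s^[n] ξ = ξ' := by
  obtain ⟨n, hn⟩ := h.exists_nat_pow_eq
  exact ⟨n, by rw [Equiv.Perm.iterate_eq_pow]; exact hn⟩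

theorem World.degOne_sameCycle (W : World R f Ξ I) {ξ ξ' : Ξ} (h : W.s.SameCycle ξ ξ') :
    W.degOne ξ ↔ W.degOne ξ' := by
  obtain ⟨n, rfl⟩ := W.exists_iter h
  exact (W.degOne_iter ξ n).symm

theorem World.on_iff (W : World R f Ξ I) (i : I) (b : Bool) (ξ : Ξ) :
    W.On i b ξ ↔ W.s.SameCycle (W.e i b 0) ξ := by
  constructor
  · rintro ⟨l, rfl⟩
    rw [W.e_iter i b l]
    exact W.sameCycle_iter _ _
  · intro h
    obtain ⟨n, hn⟩ := W.exists_iter h
    exact ⟨n, by rw [W.e_iter, hn]⟩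

/-- a representative of every cycle -/
def World.rep (W : World R f Ξ I) (ξ : Ξ) : Ξ :=
  (Quotient.mk (Equiv.Perm.SameCycle.setoid W.s) ξ).out

theorem World.rep_same (W : World R f Ξ I) (ξ : Ξ) : W.s.SameCycle ξ (W.rep ξ) :=
  (Quotient.mk_out (s := Equiv.Perm.SameCycle.setoid W.s) ξ : W.s.SameCycle _ _).symm

theorem World.rep_eq (W : World R f Ξ I) {ξ ξ' : Ξ} (h : W.s.SameCycle ξ ξ') :
    W.rep ξ = W.rep ξ' := by
  unfold World.rep
  rw [Quotient.sound (s := Equiv.Perm.SameCycle.setoid W.s) (a := ξ) (b := ξ') h]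

theorem World.v_mod (W : World R f Ξ I) (i : I) (b : Bool) (l n : ℕ) :
    W.v i b (l + n * W.P i) = W.v i b l := by
  induction n with
  | zero => simp
  | succ n ih => rw [Nat.add_mul, Nat.one_mul, ← Nat.add_assoc, W.v_per, ih]

end aux

/-- the data needed for the bound: one tail for each element of `I` -/
theorem World.exists_tails_all (W : World R f Ξ I) : ∃ (b : I → Bool) (ζ : I → Ξ) (w : I → ℕ → k),
    (∀ i, W.s.SameCycle (W.e i (b i) 0) (ζ i)) ∧ (∀ i, W.Tail (ζ i) (w i)) ∧
    ∀ i i', ¬ W.degOne (ζ i) → ∀ a a' : ℕ, W.s^[a] (ζ i) = W.s^[a'] (ζ i') →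
      w i a = w i' a' → i = i' := by
  classical
  -- the finite set of the coefficients
  set S : Set k :=
    (⋃ ξ : Ξ, (Set.range fun j : Fin ((W.T ξ).p.natDegree + 1) => (W.T ξ).p.coeff j) ∪
      Set.range fun j : Fin ((W.T ξ).q.natDegree + 1) => (W.T ξ).q.coeff j) ∪
    ⋃ i : I, ⋃ b : Bool, Set.range fun l : Fin (W.P i) => toFin (W.v i b l) with hS
  have hSfin : S.Finite := by
    refine Set.Finite.union (Set.finite_iUnion fun ξ => ?_)
      (Set.finite_iUnion fun i => Set.finite_iUnion fun b => Set.finite_range _)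
    exact Set.Finite.union (Set.finite_range _) (Set.finite_range _)
  obtain ⟨L, _, _, _, φ, σ, hφ⟩ := exists_embedding k S hSfin
  have hp : ∀ ζ j, (W.T ζ).p.coeff j ∈ Set.range φ := by
    intro ζ j
    by_cases hj : j < (W.T ζ).p.natDegree + 1
    · exact hφ (Or.inl (Set.mem_iUnion.2 ⟨ζ, Or.inl ⟨⟨j, hj⟩, rfl⟩⟩))
    · rw [Polynomial.coeff_eq_zero_of_natDegree_lt (by omega)]
      exact ⟨0, map_zero φ⟩
  have hq : ∀ ζ j, (W.T ζ).q.coeff j ∈ Set.range φ := by
    intro ζ j
    by_cases hj : j < (W.T ζ).q.natDegree + 1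
    · exact hφ (Or.inl (Set.mem_iUnion.2 ⟨ζ, Or.inr ⟨⟨j, hj⟩, rfl⟩⟩))
    · rw [Polynomial.coeff_eq_zero_of_natDegree_lt (by omega)]
      exact ⟨0, map_zero φ⟩
  have hv : ∀ i b l, toFin (W.v i b l) ∈ Set.range φ := by
    intro i b l
    have h1 : W.v i b l = W.v i b (l % W.P i) := by
      conv_lhs => rw [← Nat.mod_add_div l (W.P i), Nat.mul_comm (W.P i)]
      exact W.v_mod i b _ _
    rw [h1]
    exact hφ (Or.inr (Set.mem_iUnion.2 ⟨i, Set.mem_iUnion.2
      ⟨b, ⟨⟨l % W.P i, Nat.mod_lt _ (W.P_pos i)⟩, rfl⟩⟩⟩))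
  -- the multipliers are in the range of `φ`
  have hder : ∀ (ξ : Ξ) (x : k), x ∈ Set.range φ → (W.T ξ).der x ∈ Set.range φ := by
    rintro ξ x ⟨y, rfl⟩
    obtain ⟨T', hT'⟩ := exists_descent φ (W.T ξ) (hp ξ) (hq ξ)
    exact ⟨T'.der y, by rw [← hT', RM.mapF_der]⟩
  have hprod : ∀ i b, ∃ x : L, φ x = ∏ l ∈ Finset.range (W.P i),
      (W.T (W.e i b l)).der (toFin (W.v i b l)) := by
    intro i b
    have h1 : ∀ l, ∃ x : L, φ x = (W.T (W.e i b l)).der (toFin (W.v i b l)) := fun l =>
      hder _ _ (hv i b l)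
    choose x hx using h1
    exact ⟨∏ l ∈ Finset.range (W.P i), x l, by
      rw [map_prod]
      exact Finset.prod_congr rfl fun l _ => hx l⟩
  -- the choice of the ends
  have hb : ∀ i, ∃ b : Bool, W.degOne (W.e i b 0) ∨ ∀ x : L, φ x = ∏ l ∈ Finset.range (W.P i),
      (W.T (W.e i b l)).der (toFin (W.v i b l)) → ‖σ x‖ ≤ 1 := by
    intro i
    by_cases hd : ∃ b, W.degOne (W.e i b 0)
    · obtain ⟨b, hb⟩ := hd
      exact ⟨b, Or.inl hb⟩
    · push Not at hd
      have h1 := W.mult_mul i hd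
      obtain ⟨x, hx⟩ := hprod i true
      obtain ⟨x', hx'⟩ := hprod i false
      rw [← hx, ← hx', ← map_mul] at h1
      have h2 : x * x' = 1 := φ.injective (by rw [h1, map_one])
      have h3 : ‖σ x‖ * ‖σ x'‖ = 1 := by
        rw [← norm_mul, ← map_mul, h2, map_one, norm_one]
      by_cases h4 : ‖σ x‖ ≤ 1
      · refine ⟨true, Or.inr fun y hy => ?_⟩
        have : y = x := φ.injective (by rw [hy, hx])
        rw [this]
        exact h4
      · refine ⟨false, Or.inr fun y hy => ?_⟩
        have : y = x' := φ.injective (by rw [hy, hx'])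
        rw [this]
        push Not at h4
        by_contra h5
        push Not at h5
        have : 1 < ‖σ x‖ * ‖σ x'‖ := one_lt_mul_of_lt_of_le h4 h5.le
        linarith
  choose b hb using hb
  -- the tails
  have hA : ∀ ρ : Ξ, ¬ W.degOne ρ → ∃ (ζ : I → Ξ) (w : I → ℕ → k),
      (∀ i, W.On i (b i) ρ → (∃ n, W.s^[n] ρ = ζ i) ∧ W.Tail (ζ i) (w i)) ∧
      ∀ i i', W.On i (b i) ρ → W.On i' (b i') ρ → ∀ a a' : ℕ,
        W.s^[a] (ζ i) = W.s^[a'] (ζ i') → w i a = w i' a' → i = i' := by
    intro ρ hρ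
    refine W.tailsA hρ b φ σ hp hq hv ?_
    intro i hi
    rcases hb i with h | h
    · exact absurd ((W.degOne_sameCycle ((W.on_iff i (b i) ρ).1 hi)).1 h) hρ
    · exact h
  have hAll : ∀ ρ : Ξ, ∃ (ζ : I → Ξ) (w : I → ℕ → k),
      (∀ i, W.On i (b i) ρ → W.s.SameCycle ρ (ζ i) ∧ W.Tail (ζ i) (w i)) ∧
      (¬ W.degOne ρ → ∀ i i', W.On i (b i) ρ → W.On i' (b i') ρ → ∀ a a' : ℕ,
        W.s^[a] (ζ i) = W.s^[a'] (ζ i') → w i a = w i' a' → i = i') := by
    intro ρ
    by_cases hρ : W.degOne ρ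
    · obtain ⟨n, w, hw⟩ := W.tailB hρ
      exact ⟨fun _ => W.s^[n] ρ, fun _ => w, fun i _ => ⟨W.sameCycle_iter ρ n, hw⟩,
        fun h => absurd hρ h⟩
    · obtain ⟨ζ, w, h1, h2⟩ := hA ρ hρ
      refine ⟨ζ, w, fun i hi => ?_, fun _ => h2⟩
      obtain ⟨⟨n, hn⟩, h4⟩ := h1 i hi
      refine ⟨?_, h4⟩
      rw [← hn]
      exact W.sameCycle_iter ρ n
  choose Z w hZ1 hZ2 using hAll
  set ρ : I → Ξ := fun i => W.rep (W.e i (b i) 0) with hρ
  have hon : ∀ i, W.On i (b i) (ρ i) := fun i => (W.on_iff i (b i) _).2 (W.rep_same _)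
  have hsame : ∀ i, W.s.SameCycle (W.e i (b i) 0) (Z (ρ i) i) := fun i =>
    (W.rep_same _).trans (hZ1 (ρ i) i (hon i)).1
  refine ⟨b, fun i => Z (ρ i) i, fun i => w (ρ i) i, hsame, fun i => (hZ1 (ρ i) i (hon i)).2, ?_⟩
  intro i i' hd a a' hs hw
  -- `i`, `i'` are on the same cycle
  have h1 : W.s.SameCycle (Z (ρ i) i) (Z (ρ i') i') := by
    refine (W.sameCycle_iter (Z (ρ i) i) a).trans ?_
    have h2 := (W.sameCycle_iter (Z (ρ i') i') a').symm
    rw [← hs] at h2
    exact h2
  have h3 : W.s.SameCycle (W.e i (b i) 0) (W.e i' (b i') 0) :=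
    ((hsame i).trans h1).trans (hsame i').symm
  have h4 : ρ i = ρ i' := W.rep_eq h3
  have h5 : W.On i' (b i') (ρ i) := by
    rw [h4]
    exact hon i'
  have h6 : ¬ W.degOne (ρ i) := by
    intro h
    exact hd ((W.degOne_sameCycle (hZ1 (ρ i) i (hon i)).1).1 h)
  refine hZ2 (ρ i) h6 i i' (hon i) h5 a a' ?_ ?_
  · simpa only [h4] using hs
  · simpa only [h4] using hw

theorem World.bound (W : World R f Ξ I) (hK : ∀ n : ℕ, n ≠ 0 → ‖(n : K)‖ = 1) (hf : 1 ≤ f.deg) :
    Fintype.card I ≤ 4 * f.deg - 4 := by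
  classical
  haveI : CharZero K := by
    refine charZero_of_inj_zero fun n hn => ?_
    by_contra h0
    have := hK n h0
    rw [hn, norm_zero] at this
    exact zero_ne_one this
  obtain ⟨b, ζ, w, hsame, htail, hdisj⟩ := W.exists_tails_all
  have hcap : ∀ i, ∃ n z, f.IsCrit z ∧
      ∀ l, dirR R ((W.c (W.s^[n + l] (ζ i))).to (f.map^[l] z)) = (w i (n + l) : OnePoint k) :=
    fun i => exists_capture hK f W.s W.c W.T W.h W.good (ζ i) (w i) (htail i).T (htail i).inj
      (htail i).bad
  choose n z hz hdir using hcap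
  have key : ∀ i i', z i = z i' → W.s^[n i] (ζ i) = W.s^[n i'] (ζ i') ∧
      w i (n i) = w i' (n i') := by
    intro i i' hzz
    have h1 := capture_unique (R := R) f W.s W.c W.sep (ξ := W.s^[n i] (ζ i))
      (ξ' := W.s^[n i'] (ζ i')) (w := fun l => w i (n i + l)) (w' := fun l => w i' (n i' + l))
      (z := z i) ?_ ?_ ?_ ?_
    · refine ⟨h1.1, ?_⟩
      have h2 := congrFun h1.2 0
      simpa using h2
    · intro a c h2 h3
      rw [← Function.iterate_add_apply, ← Function.iterate_add_apply] at h2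
      have := (htail i).inj (a + n i) (c + n i) h2 (by rw [Nat.add_comm a, Nat.add_comm c]; exact h3)
      omega
    · intro a c h2 h3
      rw [← Function.iterate_add_apply, ← Function.iterate_add_apply] at h2
      have := (htail i').inj (a + n i') (c + n i') h2
        (by rw [Nat.add_comm a, Nat.add_comm c]; exact h3)
      omega
    · intro l
      rw [← Function.iterate_add_apply, Nat.add_comm l]
      exact hdir i l
    · intro l
      rw [← Function.iterate_add_apply, Nat.add_comm l, hzz]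
      exact hdir i' l
  obtain ⟨C, hC1, hC2⟩ := f.crit_card hf
  have hfib : ∀ y ∈ C, (Finset.univ.filter fun i => z i = y).card ≤ 2 := by
    intro y _
    by_cases hne : (Finset.univ.filter fun i => z i = y).Nonempty
    · obtain ⟨i₀, hi₀⟩ := hne
      have hz₀ : z i₀ = y := (Finset.mem_filter.1 hi₀).2
      by_cases hd : W.degOne (ζ i₀)
      · -- type B
        refine le_trans (Finset.card_le_card ?_) (W.cardB hd b)
        intro i hi
        rw [Finset.mem_filter] at hi ⊢
        refine ⟨Finset.mem_univ _, (W.on_iff i (b i) _).2 ?_⟩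
        have h1 := (key i i₀ (by rw [hi.2, hz₀])).1
        refine (hsame i).trans ?_
        refine (W.sameCycle_iter (ζ i) (n i)).trans ?_
        rw [h1]
        exact (W.sameCycle_iter (ζ i₀) (n i₀)).symm
      · -- type A
        have hsub : (Finset.univ.filter fun i => z i = y) ⊆ {i₀} := by
          intro i hi
          rw [Finset.mem_filter] at hi
          rw [Finset.mem_singleton]
          obtain ⟨h1, h2⟩ := key i₀ i (by rw [hi.2, hz₀])
          exact (hdisj i₀ i hd (n i₀) (n i) h1 h2).symm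
        refine le_trans (Finset.card_le_card hsub) ?_
        simp
    · rw [Finset.not_nonempty_iff_eq_empty] at hne
      rw [hne]
      simp
  have h := Finset.card_le_mul_card_image_of_maps_to (s := (Finset.univ : Finset I)) (t := C)
    (f := z) (fun i _ => hC2 _ (hz i)) 2 (fun y hy => by convert hfib y hy)
  rw [Finset.card_univ] at h
  omega

end FS16
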