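import Pool.Agent.FS16.NMoeb

/-!
# Choice of the directions at infinity

MODULE N-DINF.  Combinatorics of a finite set `Ξ` with a permutation `s` and maps `T ξ` from the projective
line `ξ` to the projective line `s ξ`, with periodic orbits `v i b l` of points on the line `e i b l` where
the maps have multiplicity one, which meet all lines.  `exists_dinf`: there are points `dinf ξ` such that
* on the cycles where all maps have degree one, `T ξ (dinf ξ) = dinf (s ξ)`;
* on every other cycle there is `ξ₀` with `T ξ₀` of degree at least two, such that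
  `T ξ (dinf ξ) = dinf (s ξ)` for all `ξ ≠ ξ₀` of the cycle, `T ξ₀ (dinf ξ₀)` is one of the `v i b l`,
  and all `v i b l` on this cycle are different from `dinf`.

Proof.  It suffices to define `dinf` on one cycle (choose a representative `r` of every cycle, and put the
functions together).  Let `m` be the length of the cycle of `r`.
Degree one: let `r` be any point of the cycle, `u` a fixed point of the return map
(`exists_fixed_cycle`), `dinf (s^[j] r) = orb s T r u j` for `j < m`.
Otherwise choose `r` with `2 ≤ deg (T r)`, and `i b l` with `e i b l = r` (`surj`; here we use that the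
orbits `v i b` meet all lines).  By `RM.exists_ne_of_mult` there is `w ≠ v i b l` with
`T r w = T r (v i b l) = v i b (l+1)`.  Define backwards `D 0 = w` and `D (t + 1)` a preimage of `D t` under
the map `T` of the line `s^[m - 1 - t] r` (`RM.map_surjective`), for `t + 1 < m`; `dinf (s^[m - t] r) = D t`
(`dinf r = w`).
Claim: `dinf ≠ v i' b' l'` on the cycle.  Suppose that `dinf (s^[j] r) = v i' b' l'`, `e i' b' l' = s^[j] r`.
Following both forward until the line `r` we may assume `w = v i' b' l'`, `e i' b' l' = r`.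
Then `v i' b' (l'+1) = T r w = v i b (l+1)`, so `v i' b' (l' + n) = v i b (l + n)` for all `n ≥ 1` and
for `n = P i * P i'` (if positive), this gives `w = v i b l`, contradiction.
-/

open Polynomial

noncomputable section

namespace FS16

variable {k : Type*} [Field k] [IsAlgClosed k]

namespace NDI

variable {Ξ I : Type}

/-- the forward orbit relation of a permutation of a finite set is symmetric -/
theorem back [Fintype Ξ] (s : Equiv.Perm Ξ) (ξ : Ξ) (n : ℕ) : ∃ m : ℕ, s^[m] (s^[n] ξ) = ξ := by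
  have h0 : 0 < orderOf s := orderOf_pos s
  refine ⟨orderOf s * n - n, ?_⟩
  have h1 : orderOf s * n - n + n = orderOf s * n := by
    have := Nat.le_mul_of_pos_left n h0
    omega
  rw [← Function.iterate_add_apply, h1, Equiv.Perm.iterate_eq_pow, pow_mul, pow_orderOf_eq_one,
    one_pow]
  rfl

theorem minPer_pos [Fintype Ξ] (s : Equiv.Perm Ξ) (r : Ξ) : 0 < Function.minimalPeriod s r := by
  obtain ⟨m, hm⟩ := back s r 1
  rw [← Function.iterate_add_apply] at hm
  exact Function.IsPeriodicPt.minimalPeriod_pos (Nat.succ_pos m) hm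

/-- a periodic sequence defines a function on the orbit -/
theorem exists_fun [Fintype Ξ] {α : Type*} [Nonempty α] (s : Equiv.Perm Ξ) (r : Ξ) (g : ℕ → α)
    (hg : ∀ n, g (n + Function.minimalPeriod s r) = g n) :
    ∃ d : Ξ → α, ∀ n, d (s^[n] r) = g n := by
  classical
  have hm := minPer_pos s r
  have hper : Function.Periodic g (Function.minimalPeriod s r) := hg
  have key : ∀ n n', s^[n] r = s^[n'] r → g n = g n' := by
    intro n n' h
    rw [← Function.iterate_mod_minimalPeriod_eq (n := n),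
      ← Function.iterate_mod_minimalPeriod_eq (n := n')] at h
    have h1 := Function.iterate_injOn_Iio_minimalPeriod (Nat.mod_lt n hm) (Nat.mod_lt n' hm) h
    rw [← hper.map_mod_nat n, ← hper.map_mod_nat n', h1]
  refine ⟨fun ξ => if h : ∃ n, s^[n] r = ξ then g h.choose else Classical.arbitrary α, ?_⟩
  intro n
  have h : ∃ n', s^[n'] r = s^[n] r := ⟨n, rfl⟩
  simp only [h, dite_true]
  exact key _ _ h.choose_spec

omit [Field k] [IsAlgClosed k] in
theorem iter_P {P : I → ℕ} {v : I → Bool → ℕ → OnePoint k}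
    (v_per : ∀ i b l, v i b (l + P i) = v i b l) (i : I) (b : Bool) (l t : ℕ) :
    v i b (l + P i * t) = v i b l := by
  induction t with
  | zero => rfl
  | succ t ih => rw [Nat.mul_succ, ← add_assoc, v_per, ih]

theorem e_iter {s : Equiv.Perm Ξ} {e : I → Bool → ℕ → Ξ}
    (e_s : ∀ i b l, e i b (l + 1) = s (e i b l)) (i : I) (b : Bool) (l n : ℕ) :
    e i b (l + n) = s^[n] (e i b l) := by
  induction n with
  | zero => rfl
  | succ n ih => rw [← add_assoc, e_s, ih, Function.iterate_succ_apply']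

theorem loc [Fintype Ξ] (s : Equiv.Perm Ξ) (T : Ξ → RM k)
    (hT : ∀ ξ, 1 ≤ (T ξ).deg) (P : I → ℕ) (P_pos : ∀ i, 0 < P i) (e : I → Bool → ℕ → Ξ)
    (e_s : ∀ i b l, e i b (l + 1) = s (e i b l))
    (e_surj : ∀ ξ, ∃ i b l, e i b l = ξ) (v : I → Bool → ℕ → OnePoint k)
    (v_T : ∀ i b l, (T (e i b l)).map (v i b l) = v i b (l + 1))
    (v_per : ∀ i b l, v i b (l + P i) = v i b l)
    (v_one : ∀ i b l, (T (e i b l)).mult (v i b l) = 1) (r : Ξ) :
    ∃ d : Ξ → OnePoint k, ∀ ξ, (∃ n, s^[n] r = ξ) →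
      ((∀ n : ℕ, (T (s^[n] ξ)).deg = 1) → (T ξ).map (d ξ) = d (s ξ)) ∧
      ((¬ ∀ n : ℕ, (T (s^[n] ξ)).deg = 1) → ∃ n : ℕ, 2 ≤ (T (s^[n] ξ)).deg ∧
        (∃ i b l, e i b l = s^[n + 1] ξ ∧ v i b l = (T (s^[n] ξ)).map (d (s^[n] ξ))) ∧
        ∀ n' : ℕ, s^[n'] ξ ≠ s^[n] ξ → (T (s^[n'] ξ)).map (d (s^[n'] ξ)) = d (s^[n' + 1] ξ)) ∧
      ∀ i b l, e i b l = ξ → (¬ ∀ n : ℕ, (T (s^[n] ξ)).deg = 1) → v i b l ≠ d ξ := by
  by_cases hdeg : ∀ n : ℕ, (T (s^[n] r)).deg = 1
  · -- all degrees are one
    obtain ⟨u, hu⟩ := exists_fixed_cycle s T r hdeg (Function.minimalPeriod s r)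
    have hper : ∀ n, orb s T r u (n + Function.minimalPeriod s r) = orb s T r u n := by
      intro n
      induction n with
      | zero => rw [zero_add, hu]; rfl
      | succ n ih =>
        have h1 : n + 1 + Function.minimalPeriod s r = n + Function.minimalPeriod s r + 1 := by
          omega
        rw [h1]
        change (T (s^[n + Function.minimalPeriod s r] r)).map (orb s T r u
          (n + Function.minimalPeriod s r)) = (T (s^[n] r)).map (orb s T r u n)
        rw [ih, Function.iterate_add_apply, Function.iterate_minimalPeriod]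
    obtain ⟨d, hd⟩ := exists_fun s r _ hper
    refine ⟨d, ?_⟩
    rintro ξ ⟨n, rfl⟩
    have hall : ∀ n' : ℕ, (T (s^[n'] (s^[n] r))).deg = 1 := by
      intro n'
      rw [← Function.iterate_add_apply]
      exact hdeg _
    refine ⟨fun _ => ?_, fun h => absurd hall h, fun _ _ _ _ h => absurd hall h⟩
    have h2 : s (s^[n] r) = s^[n + 1] r := (Function.iterate_succ_apply' s n r).symm
    rw [h2, hd, hd]
    rfl
  · -- there is a map of degree at least two
    push Not at hdeg
    obtain ⟨n₀, hn₀⟩ := hdeg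
    obtain ⟨r', hr'⟩ : ∃ r', r' = s^[n₀] r := ⟨_, rfl⟩
    rw [← hr'] at hn₀
    have h2 : 2 ≤ (T r').deg := by
      have := hT r'
      omega
    obtain ⟨i₀, b₀, l₀, he₀⟩ := e_surj r'
    have hone : (T r').mult (v i₀ b₀ l₀) = 1 := he₀ ▸ v_one i₀ b₀ l₀
    obtain ⟨w, hw, hTw⟩ := RM.exists_ne_of_mult (T r') h2 hone
    obtain ⟨m, hm⟩ : ∃ m, m = Function.minimalPeriod s r' := ⟨_, rfl⟩
    have hm0 : 0 < m := hm ▸ minPer_pos s r'
    -- a section
    have hsurj : ∀ ξ, ∃ q : OnePoint k → OnePoint k, ∀ u, (T ξ).map (q u) = u := by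
      intro ξ
      have h := RM.map_surjective (T ξ) (hT ξ)
      exact ⟨Function.surjInv h, Function.surjInv_eq h⟩
    choose q hq using hsurj
    obtain ⟨D, hD0, hD1⟩ : ∃ D : ℕ → OnePoint k, D 0 = w ∧
        ∀ t, (T (s^[m - 1 - t] r')).map (D (t + 1)) = D t :=
      ⟨fun t => Nat.rec w (fun t u => q (s^[m - 1 - t] r') u) t, rfl, fun t => hq _ _⟩
    obtain ⟨g, hg⟩ : ∃ g : ℕ → OnePoint k, ∀ n, g n = D ((m - n % m) % m) := ⟨_, fun _ => rfl⟩
    have hgper : ∀ n, g (n + Function.minimalPeriod s r') = g n := by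
      intro n
      rw [← hm, hg, hg, Nat.add_mod_right]
    have hmod : ∀ n, s^[n % m] r' = s^[n] r' := fun n => by
      rw [hm]
      exact Function.iterate_mod_minimalPeriod_eq
    have hstep : ∀ n, n % m ≠ 0 → (T (s^[n] r')).map (g n) = g (n + 1) ∧
        (m - n % m) % m = (m - (n + 1) % m) % m + 1 := by
      intro n hn
      have hlt := Nat.mod_lt n hm0
      have h3 : (m - n % m) % m = m - n % m := Nat.mod_eq_of_lt (by omega)
      have h4 : (n + 1) % m = (n % m + 1) % m := by rw [Nat.mod_add_mod]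
      have h5 : (m - (n + 1) % m) % m = m - n % m - 1 := by
        rw [h4]
        rcases Nat.lt_or_ge (n % m + 1) m with h6 | h6
        · rw [Nat.mod_eq_of_lt h6, Nat.mod_eq_of_lt (by omega)]
          omega
        · have h7 : n % m + 1 = m := by omega
          rw [h7, Nat.mod_self, Nat.sub_zero, Nat.mod_self]
          omega
      refine ⟨?_, by omega⟩
      rw [hg, hg, h3, h5, ← hmod n]
      have h8 := hD1 (m - n % m - 1)
      have h9 : m - 1 - (m - n % m - 1) = n % m := by omega
      have h10 : m - n % m - 1 + 1 = m - n % m := by omega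
      rw [h9, h10] at h8
      exact h8
    have hg0 : ∀ n, n % m = 0 → g n = w := by
      intro n hn
      rw [hg, hn, Nat.sub_zero, Nat.mod_self, hD0]
    -- the periodic points are different
    have hne0 : ∀ i b l, e i b l = r' → v i b l ≠ w := by
      intro i b l he hv
      have h11 : ∀ n, v i b (l + (n + 1)) = v i₀ b₀ (l₀ + (n + 1)) := by
        intro n
        induction n with
        | zero =>
          rw [zero_add, ← v_T, ← v_T, he, he₀, hv, hTw]
        | succ n ih =>
          have h12 := v_T i b (l + (n + 1))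
          have h13 := v_T i₀ b₀ (l₀ + (n + 1))
          rw [e_iter e_s, he, ih] at h12
          rw [e_iter e_s, he₀] at h13
          rw [← add_assoc l, ← add_assoc l₀, ← h12, ← h13]
      have h14 : 0 < P i * P i₀ := Nat.mul_pos (P_pos i) (P_pos i₀)
      have h15 := h11 (P i * P i₀ - 1)
      have h16 : P i * P i₀ - 1 + 1 = P i * P i₀ := by omega
      rw [h16] at h15
      have h17 : v i b (l + P i * P i₀) = v i b l :=
        iter_P v_per i b l (P i₀)
      have h18 : v i₀ b₀ (l₀ + P i * P i₀) = v i₀ b₀ l₀ := by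
        rw [mul_comm]
        exact iter_P v_per i₀ b₀ l₀ (P i)
      rw [h17, h18, hv] at h15
      exact hw h15
    have hne : ∀ t n i b l, (m - n % m) % m = t → e i b l = s^[n] r' → v i b l ≠ g n := by
      intro t
      induction t with
      | zero =>
        intro n i b l ht he
        have hn : n % m = 0 := by
          by_contra hn
          have := (hstep n hn).2
          omega
        have h19 : s^[n] r' = r' := by rw [← hmod n, hn]; rfl
        rw [hg0 n hn]
        exact hne0 i b l (he.trans h19)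
      | succ t ih =>
        intro n i b l ht he hv
        have hn : n % m ≠ 0 := by
          intro hn
          rw [hn, Nat.sub_zero, Nat.mod_self] at ht
          omega
        have h20 := hstep n hn
        refine ih (n + 1) i b (l + 1) (by omega) ?_ ?_
        · rw [e_s, he, Function.iterate_succ_apply']
        · rw [← v_T, he, hv, h20.1]
    obtain ⟨d, hd⟩ := exists_fun s r' g hgper
    refine ⟨d, ?_⟩
    intro ξ hξ
    -- the point is on the orbit of `r'`
    obtain ⟨n₁, hn₁⟩ : ∃ n, s^[n] r' = ξ := by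
      obtain ⟨n, rfl⟩ := hξ
      obtain ⟨a, ha⟩ := back s r n₀
      refine ⟨n + a, ?_⟩
      rw [Function.iterate_add_apply, hr', ha]
    obtain ⟨n₂, hn₂⟩ : ∃ n, s^[n] ξ = r' := by
      obtain ⟨a, ha⟩ := back s r' n₁
      exact ⟨a, by rw [← hn₁, ha]⟩
    have hnot : ¬ ∀ n : ℕ, (T (s^[n] ξ)).deg = 1 := by
      intro h
      have := h n₂
      rw [hn₂] at this
      omega
    refine ⟨fun h => absurd h hnot, fun _ => ⟨n₂, ?_, ?_, ?_⟩, ?_⟩
    · rw [hn₂]
      exact h2
    · refine ⟨i₀, b₀, l₀ + 1, ?_, ?_⟩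
      · rw [e_s, he₀, Function.iterate_succ_apply', hn₂]
      · rw [hn₂]
        have h21 : d r' = w := by
          have := hd 0
          rw [hg0 0 (Nat.zero_mod m)] at this
          exact this
        rw [h21, hTw, ← he₀, v_T]
    · intro n' hn'
      have h22 : s^[n'] ξ = s^[n' + n₁] r' := by
        rw [Function.iterate_add_apply, hn₁]
      have h23 : s^[n' + 1] ξ = s^[n' + n₁ + 1] r' := by
        rw [Function.iterate_succ_apply', Function.iterate_succ_apply', h22]
      rw [h23, h22, hd, hd]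
      refine (hstep _ ?_).1
      intro h24
      apply hn'
      rw [hn₂, h22, ← hmod, h24]
      rfl
    · intro i b l he _
      rw [← hn₁, hd]
      exact hne _ n₁ i b l rfl (by rw [he, hn₁])

end NDI

theorem exists_dinf {Ξ I : Type} [Fintype Ξ] (s : Equiv.Perm Ξ) (T : Ξ → RM k)
    (hT : ∀ ξ, 1 ≤ (T ξ).deg) (P : I → ℕ) (P_pos : ∀ i, 0 < P i) (e : I → Bool → ℕ → Ξ)
    (e_s : ∀ i b l, e i b (l + 1) = s (e i b l)) (e_per : ∀ i b l, e i b (l + P i) = e i b l)
    (e_surj : ∀ ξ, ∃ i b l, e i b l = ξ) (v : I → Bool → ℕ → OnePoint k)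
    (v_T : ∀ i b l, (T (e i b l)).map (v i b l) = v i b (l + 1))
    (v_per : ∀ i b l, v i b (l + P i) = v i b l)
    (v_one : ∀ i b l, (T (e i b l)).mult (v i b l) = 1) :
    ∃ dinf : Ξ → OnePoint k,
      (∀ ξ, (∀ n : ℕ, (T (s^[n] ξ)).deg = 1) → (T ξ).map (dinf ξ) = dinf (s ξ)) ∧
      (∀ ξ, (¬ ∀ n : ℕ, (T (s^[n] ξ)).deg = 1) → ∃ n : ℕ, 2 ≤ (T (s^[n] ξ)).deg ∧
        (∃ i b l, e i b l = s^[n + 1] ξ ∧ v i b l = (T (s^[n] ξ)).map (dinf (s^[n] ξ))) ∧
        ∀ n' : ℕ, s^[n'] ξ ≠ s^[n] ξ → (T (s^[n'] ξ)).map (dinf (s^[n'] ξ)) = dinf (s^[n' + 1] ξ)) ∧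
      ∀ i b l, (¬ ∀ n : ℕ, (T (s^[n] (e i b l))).deg = 1) → v i b l ≠ dinf (e i b l) := by
  have hloc := NDI.loc s T hT P P_pos e e_s e_surj v v_T v_per v_one
  choose d hd using hloc
  -- representatives of the cycles
  obtain ⟨rep, hrep, hs⟩ : ∃ rep : Ξ → Ξ, (∀ ξ, ∃ n, s^[n] (rep ξ) = ξ) ∧
      ∀ ξ, rep (s ξ) = rep ξ := by
    classical
    refine ⟨fun ξ => (Quotient.mk (Equiv.Perm.SameCycle.setoid s) ξ).out, ?_, ?_⟩
    · intro ξ
      have h : (Equiv.Perm.SameCycle.setoid s).r
          (Quotient.mk (Equiv.Perm.SameCycle.setoid s) ξ).out ξ :=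
        Quotient.exact (Quotient.out_eq _)
      have h1 : Equiv.Perm.SameCycle s
          (Quotient.mk (Equiv.Perm.SameCycle.setoid s) ξ).out ξ := h
      obtain ⟨n, -, hn⟩ := h1.exists_pow_eq'
      exact ⟨n, by rw [Equiv.Perm.iterate_eq_pow]; exact hn⟩
    · intro ξ
      have h : Quotient.mk (Equiv.Perm.SameCycle.setoid s) (s ξ) =
          Quotient.mk (Equiv.Perm.SameCycle.setoid s) ξ :=
        Quotient.sound (show Equiv.Perm.SameCycle s (s ξ) ξ from ⟨-1, by simp⟩)
      simp only [h]
  have hs' : ∀ n ξ, rep (s^[n] ξ) = rep ξ := by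
    intro n ξ
    induction n with
    | zero => rfl
    | succ n ih => rw [Function.iterate_succ_apply', hs, ih]
  refine ⟨fun ξ => d (rep ξ) ξ, ?_, ?_, ?_⟩
  · intro ξ h
    have := (hd (rep ξ) ξ (hrep ξ)).1 h
    simp only [hs]
    exact this
  · intro ξ h
    have := (hd (rep ξ) ξ (hrep ξ)).2.1 h
    simp only [hs']
    exact this
  · intro i b l h
    exact (hd _ _ (hrep (e i b l))).2.2 i b l rfl h

end FS16
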