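import Pool.Agent.FS16.LDefs

/-!
# Infinite critical orbits and finite sets which are almost invariant

MODULE L-TAIL.  Abstract combinatorics: `X` a type, `f : X → X`, `C` a finite set of points of `X`
(the critical points), `E` a finite forward invariant set, all of whose points have (of course)
finite orbits.  Let `C∞` be the set of the `c ∈ C` with infinite orbit, call `c, c' ∈ C∞` equivalent
if `f^a c = f^b c'` for some `a, b`, and let `R ⊆ C∞` be a set of representatives.  For `r ∈ R` there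
is a point `b_r` in the orbit of `r` such that every `c ∈ C∞` equivalent to `r` has
`b_r = f^(a c) c` for some `a c ≥ 1`.  Put
`B = E ∪ {f^i c | c ∈ C \ C∞, i ≥ 1} ∪ {f^i c | c ∈ C∞, 1 ≤ i ≤ a c}` and `A = B \ {b_r | r ∈ R}`.
Then `B` is finite, `f(A) ⊆ B` (if `x = f^i c` with `i < a c` then `f x = f^(i+1) c`; and
`f^(a c) c = b_r` is not in `A`), `f(C) ⊆ B`, `E ⊆ A` (the `b_r` have infinite orbits), and
`|B| = |A| + |R|` (the `b_r` are different for different `r`).
-/

noncomputable section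

namespace FS16

theorem exists_tails {X : Type*} [DecidableEq X] (f : X → X) (C E : Finset X)
    (hE : ∀ x ∈ E, f x ∈ E) :
    ∃ A B R : Finset X, A ⊆ B ∧ E ⊆ A ∧ (∀ x ∈ A, f x ∈ B) ∧ (∀ c ∈ C, f c ∈ B) ∧
      R ⊆ C ∧ B.card = A.card + R.card ∧
      (∀ x ∈ B, x ∈ E ∨ ∃ c ∈ C, ∃ n : ℕ, 1 ≤ n ∧ f^[n] c = x) ∧
      ∀ r ∈ R, ∀ r' ∈ R, ∀ a b : ℕ, f^[a] r = f^[b] r' → r = r' ∧ a = b := by
  classical
  let I : X → Prop := fun c => Function.Injective (fun n : ℕ => f^[n] c)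
  let Q : X → X → Prop := fun x y => ∃ a b : ℕ, f^[a] x = f^[b] y
  have hQr : ∀ x, Q x x := fun x => ⟨0, 0, rfl⟩
  have hQs : ∀ x y, Q x y → Q y x := fun x y ⟨a, b, h⟩ => ⟨b, a, h.symm⟩
  have hQt : ∀ x y z, Q x y → Q y z → Q x z := by
    rintro x y z ⟨a, b, h⟩ ⟨c, d, h'⟩
    refine ⟨c + a, b + d, ?_⟩
    rw [Function.iterate_add_apply, h, ← Function.iterate_add_apply, add_comm c b,
      Function.iterate_add_apply, h', ← Function.iterate_add_apply]
  let s : Setoid X := ⟨Q, hQr, fun {x y} h => hQs x y h, fun {x y z} h h' => hQt x y z h h'⟩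
  let q : X → Quotient s := Quotient.mk s
  have hq : ∀ x y, q x = q y ↔ Q x y := fun x y => Quotient.eq (r := s)
  obtain ⟨R0, hR0, hbij⟩ := Set.exists_subset_bijOn (C.filter I : Set X) q
  let R : Finset X := C.filter (fun x => x ∈ R0)
  have hRmem : ∀ x, x ∈ R ↔ x ∈ R0 := by
    intro x
    simp only [R, Finset.mem_filter, and_iff_right_iff_imp]
    intro hx
    have := hR0 hx
    simp at this
    exact this.1
  have hRI : ∀ r ∈ R, I r := by
    intro r hr
    have := hR0 ((hRmem r).1 hr)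
    simp at this
    exact this.2
  have hRC : R ⊆ C := Finset.filter_subset _ _
  have hRinj : ∀ r ∈ R, ∀ r' ∈ R, Q r r' → r = r' := by
    intro r hr r' hr' h
    exact hbij.injOn ((hRmem r).1 hr) ((hRmem r').1 hr') ((hq _ _).2 h)
  have hRsurj : ∀ c ∈ C, I c → ∃ r ∈ R, Q c r := by
    intro c hc hI
    have hc' : q c ∈ q '' (C.filter I : Set X) := ⟨c, by simp [hc, hI], rfl⟩
    obtain ⟨r, hr, he⟩ := hbij.surjOn hc'
    exact ⟨r, (hRmem r).2 hr, (hq _ _).1 he.symm⟩
  -- a common tail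
  have hN : ∀ r : X, ∃ N : ℕ, 1 ≤ N ∧ ∀ c ∈ C, Q c r → ∃ M, 1 ≤ M ∧ f^[M] c = f^[N] r := by
    intro r
    have h1 : ∀ c : X, ∃ p : ℕ × ℕ, Q c r → f^[p.1] c = f^[p.2] r := by
      intro c
      by_cases h : Q c r
      · obtain ⟨a, b, hab⟩ := h
        exact ⟨(a, b), fun _ => hab⟩
      · exact ⟨(0, 0), fun h' => absurd h' h⟩
    choose p hp using h1
    refine ⟨1 + ∑ c ∈ C, (p c).2, by omega, fun c hc hQ => ?_⟩
    have hle : (p c).2 ≤ ∑ c ∈ C, (p c).2 :=
      Finset.single_le_sum (f := fun c => (p c).2) (fun _ _ => Nat.zero_le _) hc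
    obtain ⟨k, hk⟩ := Nat.exists_eq_add_of_le hle
    refine ⟨(1 + k) + (p c).1, by omega, ?_⟩
    have he : (1 + k) + (p c).2 = 1 + ∑ c ∈ C, (p c).2 := by omega
    rw [Function.iterate_add_apply, hp c hQ, ← Function.iterate_add_apply, he]
  choose N hN1 hN2 using hN
  -- the length of the orbit of a critical point
  have hM : ∀ c : X, ∃ M : ℕ, 1 ≤ M ∧ (c ∈ C → (¬ I c → ∃ i, 1 ≤ i ∧ i ≤ M ∧ f^[M + 1] c = f^[i] c) ∧
      (I c → ∃ r ∈ R, Q c r ∧ f^[M] c = f^[N r] r)) := by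
    intro c
    by_cases hI : I c
    · by_cases hc : c ∈ C
      · obtain ⟨r, hr, hQ⟩ := hRsurj c hc hI
        obtain ⟨M, hM1, hM2⟩ := hN2 r c hc hQ
        exact ⟨M, hM1, fun _ => ⟨fun h => absurd hI h, fun _ => ⟨r, hr, hQ, hM2⟩⟩⟩
      · exact ⟨1, le_refl _, fun h => absurd h hc⟩
    · have : ∃ i j : ℕ, i < j ∧ f^[i] c = f^[j] c := by
        simp only [I, Function.Injective, not_forall] at hI
        obtain ⟨a, b, hab, hne⟩ := hI
        rcases lt_or_gt_of_ne hne with h | h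
        · exact ⟨a, b, h, hab⟩
        · exact ⟨b, a, h, hab.symm⟩
      obtain ⟨i, j, hij, he⟩ := this
      refine ⟨j, by omega, fun _ => ⟨fun _ => ⟨i + 1, by omega, by omega, ?_⟩,
        fun h => absurd h hI⟩⟩
      rw [Function.iterate_succ_apply', Function.iterate_succ_apply', he]
  choose M hM1 hM2 using hM
  let S : Finset X := R.image (fun r => f^[N r] r)
  let B : Finset X := E ∪ C.biUnion (fun c => (Finset.Icc 1 (M c)).image (fun i => f^[i] c))
  have hB : ∀ x, x ∈ B ↔ x ∈ E ∨ ∃ c ∈ C, ∃ i, (1 ≤ i ∧ i ≤ M c) ∧ f^[i] c = x := by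
    intro x
    simp [B]
  have hS : ∀ x, x ∈ S ↔ ∃ r ∈ R, f^[N r] r = x := by
    intro x
    simp [S]
  have hSinj : S.card = R.card := by
    apply Finset.card_image_of_injOn
    intro r hr r' hr' h
    exact hRinj r hr r' hr' ⟨_, _, h⟩
  have hSB : S ⊆ B := by
    intro x hx
    obtain ⟨r, hr, rfl⟩ := (hS x).1 hx
    obtain ⟨r', hr', hQ, he⟩ := (hM2 r (hRC hr)).2 (hRI r hr)
    have : r = r' := hRinj r hr r' hr' hQ
    subst this
    exact (hB _).2 (Or.inr ⟨r, hRC hr, M r, ⟨hM1 r, le_refl _⟩, he⟩)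
  have hSI : ∀ x ∈ S, x ∉ E := by
    intro x hx hxE
    obtain ⟨r, hr, rfl⟩ := (hS x).1 hx
    have hit : ∀ n, f^[n] (f^[N r] r) ∈ E := by
      intro n
      induction n with
      | zero => exact hxE
      | succ n ih =>
        rw [Function.iterate_succ_apply']
        exact hE _ ih
    have hinj : Function.Injective (fun n : ℕ => f^[n] (f^[N r] r)) := by
      intro a b hab
      have h1 : f^[a + N r] r = f^[b + N r] r := by
        rw [Function.iterate_add_apply, Function.iterate_add_apply]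
        exact hab
      have := hRI r hr h1
      omega
    have hfin : (Set.range (fun n : ℕ => f^[n] (f^[N r] r))).Finite :=
      E.finite_toSet.subset (by rintro _ ⟨n, rfl⟩; exact hit n)
    exact Set.infinite_range_of_injective hinj hfin
  refine ⟨B \ S, B, R, Finset.sdiff_subset, ?_, ?_, ?_, hRC, ?_, ?_, ?_⟩
  · intro x hx
    rw [Finset.mem_sdiff]
    exact ⟨(hB x).2 (Or.inl hx), fun h => hSI x h hx⟩
  · intro x hx
    rw [Finset.mem_sdiff] at hx
    obtain ⟨hxB, hxS⟩ := hx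
    rcases (hB x).1 hxB with h | ⟨c, hc, i, ⟨hi1, hi2⟩, rfl⟩
    · exact (hB _).2 (Or.inl (hE x h))
    · rcases Nat.lt_or_ge i (M c) with hlt | hge
      · refine (hB _).2 (Or.inr ⟨c, hc, i + 1, ⟨by omega, by omega⟩, ?_⟩)
        rw [Function.iterate_succ_apply']
      · have hiM : i = M c := le_antisymm hi2 hge
        subst hiM
        by_cases hI : I c
        · exfalso
          obtain ⟨r, hr, -, he⟩ := (hM2 c hc).2 hI
          exact hxS ((hS _).2 ⟨r, hr, he.symm⟩)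
        · obtain ⟨i, h1, h2, h3⟩ := (hM2 c hc).1 hI
          refine (hB _).2 (Or.inr ⟨c, hc, i, ⟨h1, h2⟩, ?_⟩)
          rw [← h3, Function.iterate_succ_apply']
  · intro c hc
    exact (hB _).2 (Or.inr ⟨c, hc, 1, ⟨le_refl _, hM1 c⟩, rfl⟩)
  · rw [← hSinj]
    exact (Finset.card_sdiff_add_card_eq_card hSB).symm
  · intro x hx
    rcases (hB x).1 hx with h | ⟨c, hc, i, ⟨hi1, -⟩, rfl⟩
    · exact Or.inl h
    · exact Or.inr ⟨c, hc, i, hi1, rfl⟩
  · intro r hr r' hr' a b h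
    have : r = r' := hRinj r hr r' hr' ⟨a, b, h⟩
    subst this
    exact ⟨rfl, hRI r hr h⟩

end FS16
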