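import Pool.Agent.FS16.LDefs

/-!
# Weights on the non-repelling cycles

MODULE L-WEIGHTS.  Let `D : SData σ m ι`.  For a sequence `v i` with period `P` (multiple of `m`) let
`t l = ‖σ ((T l).der (v i l))‖ > 0` (`der ≠ 0` by `v_q`, `v_w`).  The *exact* period of the sequence
of pairs `(l mod m, v i l)` is a divisor `P'` of `P` (the pair at time `l` determines the pair at time
`l + 1`; as the sequence is periodic it also determines the earlier ones), `m ∣ P'`, and
`∏_{l < P} t l = (∏_{l < P'} t l)^(P/P')`, so `∏_{l < P'} t l ≤ 1`.  Define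
`κ` on the orbit by `κ(0) = 1`, `κ(l + 1) = t l κ(l)` for `l + 1 < P'`; then `t_{P'-1} κ(P'-1) =
∏ t ≤ 1 = κ(0)`.  The orbits are disjoint (`v_disj`), so `κ` can be defined on the union.

A convenient way: on the finite set of the pairs `(l mod m, v i l)`; or define directly
`κ (j, z) = sup over n < P i of ∏_{l' < n} t (l + P i - n + l')`-like expressions (maximum over the
paths ending at `(j, z)`): the maximum `κ(x)` of the products of the `t`'s along all backward paths
of length `0 ≤ n < P` ending at `x` satisfies `t(x) κ(x) ≤ κ(T x)`, because a path of length `P`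
contributes a factor `≤ 1` (`∏ over a full period ≤ 1`, for each starting point) and may be removed.
-/

open Polynomial

noncomputable section

namespace FS16

variable {L : Type*} [Field L] {σ : L →+* ℂ} {m : ℕ} [NeZero m] {ι : Type}

theorem der_ne_zero (D : SData σ m ι) (i : ι) (l : ℕ) : (D.T l).der (D.v i l) ≠ 0 := by
  unfold RM.der
  exact div_ne_zero (D.v_w i l) (pow_ne_zero _ (D.v_q i l))

/-- the modulus of the derivative along the cycle -/
def tt (D : SData σ m ι) (i : ι) (l : ℕ) : ℝ := ‖σ ((D.T l).der (D.v i l))‖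

theorem tt_pos (D : SData σ m ι) (i : ι) (l : ℕ) : 0 < tt D i l := by
  unfold tt
  rw [norm_pos_iff]
  exact (map_ne_zero σ).2 (der_ne_zero D i l)

theorem tt_per (D : SData σ m ι) (i : ι) (l : ℕ) : tt D i (l + D.P i) = tt D i l := by
  unfold tt
  have h : ((l + D.P i : ℕ) : ZMod m) = (l : ZMod m) := by
    rw [Nat.cast_add, (ZMod.natCast_eq_zero_iff _ _).2 (D.P_m i), add_zero]
  rw [h, D.v_per]

theorem prod_tt_full (D : SData σ m ι) (i : ι) (l : ℕ) :
    ∏ k ∈ Finset.range (D.P i), tt D i (l + k) ≤ 1 := by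
  induction l with
  | zero =>
    have h := D.mult i
    rw [map_prod, norm_prod] at h
    refine le_trans (le_of_eq ?_) h
    exact Finset.prod_congr rfl fun k _ => by rw [Nat.zero_add, tt]
  | succ l ih =>
    have h1 : (∏ k ∈ Finset.range (D.P i), tt D i (l + 1 + k)) * tt D i l
        = (∏ k ∈ Finset.range (D.P i), tt D i (l + k)) * tt D i l := by
      have h2 := Finset.prod_range_succ' (fun k => tt D i (l + k)) (D.P i)
      rw [Finset.prod_range_succ] at h2
      have h3 : ∏ k ∈ Finset.range (D.P i), tt D i (l + (k + 1))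
          = ∏ k ∈ Finset.range (D.P i), tt D i (l + 1 + k) :=
        Finset.prod_congr rfl fun k _ => by rw [add_assoc, add_comm 1 k]
      rw [h3, Nat.add_zero, tt_per] at h2
      exact h2.symm
    rw [mul_right_cancel₀ (tt_pos D i l).ne' h1]
    exact ih

/-- the forward orbit -/
def lwOrb (D : SData σ m ι) (j : ZMod m) (z : L) : ℕ → L
  | 0 => z
  | n + 1 => (D.T (j + n)).ev (lwOrb D j z n)

/-- the products of the derivatives along the forward orbit -/
def SS (D : SData σ m ι) (j : ZMod m) (z : L) (n : ℕ) : ℝ :=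
  ∏ k ∈ Finset.range n, ‖σ ((D.T (j + k)).der (lwOrb D j z k))‖

theorem orb_shift (D : SData σ m ι) (j : ZMod m) (z : L) (n : ℕ) :
    lwOrb D (j + 1) ((D.T j).ev z) n = lwOrb D j z (n + 1) := by
  induction n with
  | zero => simp [lwOrb]
  | succ n ih =>
    rw [lwOrb, ih]
    have h : j + 1 + (n : ZMod m) = j + ((n + 1 : ℕ) : ZMod m) := by push_cast; ring
    rw [h]
    rfl

theorem SS_shift (D : SData σ m ι) (j : ZMod m) (z : L) (n : ℕ) :
    SS D (j + 1) ((D.T j).ev z) n * ‖σ ((D.T j).der z)‖ = SS D j z (n + 1) := by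
  unfold SS
  rw [Finset.prod_range_succ']
  congr 1
  · refine Finset.prod_congr rfl fun k _ => ?_
    rw [orb_shift]
    have h : j + 1 + (k : ZMod m) = j + ((k + 1 : ℕ) : ZMod m) := by push_cast; ring
    rw [h]
  · simp [lwOrb]

theorem orb_v (D : SData σ m ι) (i : ι) (l n : ℕ) : lwOrb D l (D.v i l) n = D.v i (l + n) := by
  induction n with
  | zero => rfl
  | succ n ih =>
    rw [lwOrb, ih]
    have h := D.v_T i (l + n)
    rw [Nat.cast_add] at h
    exact h

theorem SS_v (D : SData σ m ι) (i : ι) (l n : ℕ) :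
    SS D l (D.v i l) n = ∏ k ∈ Finset.range n, tt D i (l + k) := by
  unfold SS
  refine Finset.prod_congr rfl fun k _ => ?_
  rw [orb_v, tt, Nat.cast_add]

theorem prod_tt_bdd (D : SData σ m ι) (i : ι) (l n : ℕ) :
    ∏ k ∈ Finset.range n, tt D i (l + k) ≤
      ∑ r ∈ Finset.range (D.P i), ∏ k ∈ Finset.range r, tt D i (l + k) := by
  have hnn : ∀ r, 0 ≤ ∏ k ∈ Finset.range r, tt D i (l + k) := fun r =>
    Finset.prod_nonneg fun k _ => (tt_pos D i _).le
  induction n using Nat.strong_induction_on with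
  | _ n ih =>
    by_cases hn : n < D.P i
    · exact Finset.single_le_sum (f := fun r => ∏ k ∈ Finset.range r, tt D i (l + k))
        (fun r _ => hnn r) (Finset.mem_range.2 hn)
    · have hP := D.P_pos i
      obtain ⟨q, rfl⟩ := Nat.exists_eq_add_of_le (not_lt.1 hn)
      have h1 : ∏ k ∈ Finset.range (D.P i + q), tt D i (l + k)
          = (∏ k ∈ Finset.range (D.P i), tt D i (l + k)) * ∏ k ∈ Finset.range q, tt D i (l + k) := by
        rw [Finset.prod_range_add]
        congr 1
        refine Finset.prod_congr rfl fun k _ => ?_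
        rw [show l + (D.P i + k) = l + k + D.P i by ring, tt_per]
      rw [h1]
      calc _ ≤ 1 * ∏ k ∈ Finset.range q, tt D i (l + k) :=
            mul_le_mul_of_nonneg_right (prod_tt_full D i l) (hnn q)
        _ = ∏ k ∈ Finset.range q, tt D i (l + k) := one_mul _
        _ ≤ _ := ih q (by omega)

theorem SS_bdd (D : SData σ m ι) (i : ι) (l : ℕ) :
    BddAbove (Set.range (SS D l (D.v i l))) := by
  refine ⟨∑ r ∈ Finset.range (D.P i), ∏ k ∈ Finset.range r, tt D i (l + k), ?_⟩
  rintro _ ⟨n, rfl⟩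
  rw [SS_v]
  exact prod_tt_bdd D i l n

theorem exists_weights (D : SData σ m ι) : ∃ κ : ZMod m → L → ℝ, (∀ j z, 0 < κ j z) ∧
    ∀ i (l : ℕ), ‖σ ((D.T l).der (D.v i l))‖ * κ l (D.v i l) ≤ κ (l + 1) (D.v i (l + 1)) := by
  classical
  have hone : ∀ (j : ZMod m) (z : L), BddAbove (Set.range (SS D j z)) → 1 ≤ ⨆ n, SS D j z n := by
    intro j z h
    have h0 : SS D j z 0 = 1 := by simp [SS]
    rw [← h0]
    exact le_ciSup h 0
  refine ⟨fun j z => if BddAbove (Set.range (SS D j z)) then (⨆ n, SS D j z n)⁻¹ else 1, ?_, ?_⟩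
  · intro j z
    dsimp only
    split_ifs with h
    · exact inv_pos.2 (zero_lt_one.trans_le (hone j z h))
    · exact one_pos
  · intro i l
    have hb1 := SS_bdd D i l
    have hb2 := SS_bdd D i (l + 1)
    rw [Nat.cast_add, Nat.cast_one] at hb2
    dsimp only
    rw [if_pos hb1, if_pos hb2]
    have hA := zero_lt_one.trans_le (hone _ _ hb1)
    have hB := zero_lt_one.trans_le (hone _ _ hb2)
    have ht := tt_pos D i l
    unfold tt at ht
    have key : (⨆ n, SS D ((l : ZMod m) + 1) (D.v i (l + 1)) n)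
        ≤ (⨆ n, SS D (l : ZMod m) (D.v i l) n) / ‖σ ((D.T l).der (D.v i l))‖ := by
      refine ciSup_le fun n => ?_
      rw [le_div_iff₀ ht, ← D.v_T i l, SS_shift]
      exact le_ciSup hb1 (n + 1)
    rw [le_div_iff₀ ht] at key
    rw [← div_eq_mul_inv, div_le_iff₀ hA, ← div_eq_inv_mul, le_div_iff₀ hB, mul_comm]
    exact key

end FS16
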