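import Pool.Agent.FS16.CCore
import Pool.Agent.FS16.LWeights
import Pool.Agent.FS16.LTail

/-!
# The Fatou-Shishikura inequality for cyclic systems: infinite critical orbits

MODULE L-CORE.  Let `D : SData σ m ι`, `L` algebraically closed of characteristic `0`, `ι` finite.
Let `X` be the set of the points `(j, z)`, `j : ZMod m`, `z : OnePoint L` (or
`Option`), with the map `f (j, z) = (j + 1, T j z)` (values at infinity and at the poles as usual).
Let `C` be the finite set of the finite critical points `(j, c)`, `wr_j c = 0` (`RM.wr_ne_zero`).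
`E` = the union of: all `(l, v i l)`; the points `(j, ∞)`; the points `(j₀ + 1 + l, y l)`; and a
further orbit: `(j₀, π)`, `π` a pole of `T j₀` (exists: `T j₀ ∞` is finite, `deg ≥ 2`; it is finite),
`(j₀ - 1, π')` with `T π' = π` (finite, exists since `T (j₀-1) ∞ = ∞`, the map `p - w q` has positive
degree and `L` is algebraically closed), and so on back to `(j₀ + 1, π'')`: one point `π_j` on every
line, `T π_j = π_{j+1}` for `j ≠ j₀`, `T π_{j₀} = ∞`.  `E` is finite and forward invariant:
`(j, ∞) → (j+1, ∞) → … → (j₀, ∞) → (j₀+1, y 0) → …`.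

`exists_tails` gives `A ⊆ B`, `R`.  Take the finite parts `A_j`, `B_j` on every line, mapped to `ℂ` by
`σ`: they satisfy the hypotheses of `CData (ZMod m) ι` with `T_j = (T j).mapF σ` (a critical point of
`(T j).mapF σ` is the image of a critical point of `T j`, since `L` is algebraically closed); `B_j`
contains `v i l ≠ π_j` if `ι` is nonempty (`π_j` is not in the orbit of `v i`: its orbit contains
infinity, `v i l` stays finite), so `|B_j| ≥ 2`; `Z j` = the set of the `v i l`, `l = j`; weights by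
`exists_weights`.  All points `(j, ∞)` are in `E ⊆ A ⊆ B`, so `|B| - |A| = ∑ |B_j| - ∑ |A_j|`.
`core` gives `|ι| ≤ |R|`.  Choose an injection `ι → R`; the orbits of the elements of `R` are
infinite, so they never meet the `(j, ∞)` (whose orbits are finite), so they consist of finite
points.  (`ι` empty: nothing to prove.)
-/

open Polynomial

noncomputable section

namespace FS16

variable {L : Type*} [Field L] [IsAlgClosed L] [CharZero L] {σ : L →+* ℂ} {m : ℕ} [NeZero m]
  {ι : Type} [Fintype ι]

namespace LC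

open Classical in
/-- the map on the points of the projective line `j` -/
def val (D : SData σ m ι) (j : ZMod m) : Option L → Option L
  | none => if j = D.j₀ then some (D.T D.j₀).inf else none
  | some z => if (D.T j).q.eval z = 0 then none else some ((D.T j).ev z)

/-- the map of the disjoint union of the projective lines -/
def ff (D : SData σ m ι) (x : ZMod m × Option L) : ZMod m × Option L := (x.1 + 1, val D x.1 x.2)

omit [IsAlgClosed L] [CharZero L] [Fintype ι] in
theorem ff_none (D : SData σ m ι) {j : ZMod m} (h : j ≠ D.j₀) :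
    ff D (j, none) = (j + 1, none) := by
  simp [ff, val, h]

omit [IsAlgClosed L] [CharZero L] [Fintype ι] in
theorem ff_none₀ (D : SData σ m ι) : ff D (D.j₀, none) = (D.j₀ + 1, some (D.T D.j₀).inf) := by
  simp [ff, val]

omit [IsAlgClosed L] [CharZero L] [Fintype ι] in
theorem ff_some (D : SData σ m ι) {j : ZMod m} {z : L} (h : (D.T j).q.eval z ≠ 0) :
    ff D (j, some z) = (j + 1, some ((D.T j).ev z)) := by
  simp [ff, val, h]

omit [IsAlgClosed L] [CharZero L] [Fintype ι] in
theorem ff_pole (D : SData σ m ι) {j : ZMod m} {z : L} (h : (D.T j).q.eval z = 0) :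
    ff D (j, some z) = (j + 1, none) := by
  simp [ff, val, h]

omit [IsAlgClosed L] [CharZero L] [Fintype ι] in
theorem ff_fst (D : SData σ m ι) (n : ℕ) (x : ZMod m × Option L) :
    ((ff D)^[n] x).1 = x.1 + n := by
  induction n with
  | zero => simp
  | succ n ih =>
    rw [Function.iterate_succ_apply']
    show ((ff D)^[n] x).1 + 1 = _
    rw [ih]
    push_cast
    ring

omit [IsAlgClosed L] [CharZero L] [Fintype ι] in
theorem ff_v (D : SData σ m ι) (i : ι) (l n : ℕ) :
    (ff D)^[n] ((l : ZMod m), some (D.v i l)) = (((l + n : ℕ) : ZMod m), some (D.v i (l + n))) := by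
  induction n with
  | zero => simp
  | succ n ih =>
    rw [Function.iterate_succ_apply', ih, ff_some D (D.v_q i (l + n)), D.v_T i (l + n)]
    push_cast
    ring_nf

omit [CharZero L] [Fintype ι] in
theorem exists_pre (D : SData σ m ι) (j : ZMod m) (w : L) :
    ∃ z, j ≠ D.j₀ → (D.T j).q.eval z ≠ 0 ∧ (D.T j).ev z = w := by
  by_cases hj : j = D.j₀
  · exact ⟨0, fun h => absurd hj h⟩
  have h := D.inf_ne j hj
  have hp : (D.T j).p.natDegree = (D.T j).deg := by
    unfold RM.deg at h ⊢
    rcases Nat.le_total (D.T j).p.natDegree (D.T j).q.natDegree with h1 | h1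
    · rw [max_eq_right h1] at h; omega
    · rw [max_eq_left h1]
  have hdeg : ((D.T j).p - C w * (D.T j).q).natDegree = (D.T j).deg := by
    rw [natDegree_sub_eq_left_of_natDegree_lt]
    · exact hp
    · rw [hp]
      exact lt_of_le_of_lt (natDegree_C_mul_le w _) h
  have hd := D.deg_pos j
  have hne : ((D.T j).p - C w * (D.T j).q).degree ≠ 0 := by
    intro h0
    have := natDegree_eq_zero_iff_degree_le_zero.2 h0.le
    omega
  obtain ⟨z, hz⟩ := IsAlgClosed.exists_root _ hne
  refine ⟨z, fun _ => ?_⟩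
  classical
  rw [← (D.T j).mem_fib hd w z]
  unfold RM.fib
  rw [Multiset.mem_toFinset, mem_roots (CR.fib_ne_zero _ hd w)]
  exact hz

omit [CharZero L] [Fintype ι] in
theorem exists_rho (D : SData σ m ι) : ∃ ρ : ℕ → L, (D.T D.j₀).q.eval (ρ 0) = 0 ∧
    ∀ n : ℕ, D.j₀ - ((n + 1 : ℕ) : ZMod m) ≠ D.j₀ →
      (D.T (D.j₀ - ((n + 1 : ℕ) : ZMod m))).q.eval (ρ (n + 1)) ≠ 0 ∧
      (D.T (D.j₀ - ((n + 1 : ℕ) : ZMod m))).ev (ρ (n + 1)) = ρ n := by
  have h0 : ∃ z, (D.T D.j₀).q.eval z = 0 := by
    apply IsAlgClosed.exists_root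
    intro h
    have h1 := natDegree_eq_zero_iff_degree_le_zero.2 h.le
    have h2 := D.inf_j₀
    have h3 := D.deg_two
    omega
  obtain ⟨z0, hz0⟩ := h0
  choose g hg using exists_pre D
  exact ⟨fun n => Nat.rec z0 (fun n r => g (D.j₀ - ((n + 1 : ℕ) : ZMod m)) r) n, hz0,
    fun n hn => hg _ _ hn⟩

omit [IsAlgClosed L] [CharZero L] [Fintype ι] in
theorem sub_ne (D : SData σ m ι) {n : ℕ} (h : n + 1 < m) :
    D.j₀ - ((n + 1 : ℕ) : ZMod m) ≠ D.j₀ := by
  intro h0
  have h1 : ((n + 1 : ℕ) : ZMod m) = 0 := by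
    have := congrArg (fun x => D.j₀ - x) h0
    simpa using this
  rw [ZMod.natCast_eq_zero_iff] at h1
  have := Nat.le_of_dvd (by omega) h1
  omega

omit [IsAlgClosed L] [CharZero L] [Fintype ι] in
theorem ff_rho (D : SData σ m ι) {ρ : ℕ → L}
    (hρ : ∀ n : ℕ, D.j₀ - ((n + 1 : ℕ) : ZMod m) ≠ D.j₀ →
      (D.T (D.j₀ - ((n + 1 : ℕ) : ZMod m))).q.eval (ρ (n + 1)) ≠ 0 ∧
      (D.T (D.j₀ - ((n + 1 : ℕ) : ZMod m))).ev (ρ (n + 1)) = ρ n) {n : ℕ} (hn : n + 1 < m) :
    ff D (D.j₀ - ((n + 1 : ℕ) : ZMod m), some (ρ (n + 1))) =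
      (D.j₀ - (n : ZMod m), some (ρ n)) := by
  obtain ⟨h1, h2⟩ := hρ n (sub_ne D hn)
  rw [ff_some D h1, h2]
  push_cast
  ring_nf

omit [IsAlgClosed L] [CharZero L] [Fintype ι] in
theorem ff_rho_iter (D : SData σ m ι) {ρ : ℕ → L} (h0 : (D.T D.j₀).q.eval (ρ 0) = 0)
    (hρ : ∀ n : ℕ, D.j₀ - ((n + 1 : ℕ) : ZMod m) ≠ D.j₀ →
      (D.T (D.j₀ - ((n + 1 : ℕ) : ZMod m))).q.eval (ρ (n + 1)) ≠ 0 ∧
      (D.T (D.j₀ - ((n + 1 : ℕ) : ZMod m))).ev (ρ (n + 1)) = ρ n) (n : ℕ) (hn : n < m) :
    (ff D)^[n + 1] (D.j₀ - (n : ZMod m), some (ρ n)) = (D.j₀ + 1, none) := by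
  induction n with
  | zero =>
    rw [Nat.cast_zero, sub_zero]
    exact ff_pole D h0
  | succ n ih =>
    rw [Function.iterate_succ_apply, ff_rho D hρ hn]
    exact ih (by omega)

omit [IsAlgClosed L] [CharZero L] [NeZero m] [Field L] in
theorem some_inj (j : ZMod m) : Function.Injective (fun z : L => ((j, some z) : ZMod m × Option L)) := by
  intro a b hab
  simpa using hab

/-- the finite part on the line `j` -/
def fin (S : Finset (ZMod m × Option L)) (j : ZMod m) : Finset L :=
  S.preimage (fun z : L => (j, some z)) (some_inj j).injOn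

omit [IsAlgClosed L] [CharZero L] [NeZero m] [Field L] in
theorem mem_fin {S : Finset (ZMod m × Option L)} {j : ZMod m} {z : L} :
    z ∈ fin S j ↔ (j, some z) ∈ S := by
  unfold fin
  rw [Finset.mem_preimage]

omit [IsAlgClosed L] [CharZero L] [Field L] in
theorem card_fin (S : Finset (ZMod m × Option L)) (h : ∀ j, (j, none) ∈ S) :
    S.card = Fintype.card (ZMod m) + ∑ j, (fin S j).card := by
  classical
  have h1 := Finset.card_eq_sum_card_fiberwise (s := S) (t := Finset.univ)
    (f := fun x : ZMod m × Option L => x.1) (fun x _ => Finset.mem_coe.2 (Finset.mem_univ _))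
  rw [h1, ← Finset.card_univ, Finset.card_eq_sum_ones, ← Finset.sum_add_distrib]
  refine Finset.sum_congr rfl fun j _ => ?_
  have h2 : S.filter (fun x => x.1 = j)
      = insert (j, none) ((fin S j).image (fun z : L => ((j, some z) : ZMod m × Option L))) := by
    ext ⟨a, z⟩
    rw [Finset.mem_filter, Finset.mem_insert, Finset.mem_image]
    constructor
    · rintro ⟨hS, rfl⟩
      cases z with
      | none => exact Or.inl rfl
      | some z => exact Or.inr ⟨z, mem_fin.2 hS, rfl⟩
    · rintro (hz | ⟨z', hz', he⟩)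
      · rw [hz]; exact ⟨h j, rfl⟩
      · rw [← he]; exact ⟨mem_fin.1 hz', rfl⟩
  rw [h2, Finset.card_insert_of_notMem, Finset.card_image_of_injective]
  · ring
  · intro a b hab
    simpa using hab
  · simp

/-- the points of the cycles -/
def onZ (D : SData σ m ι) (j : ZMod m) (z : ℂ) (i : ι) : Prop :=
  ∃ l : ℕ, (l : ZMod m) = j ∧ σ (D.v i l) = z

omit [IsAlgClosed L] [CharZero L] [Fintype ι] in
theorem v_mod (D : SData σ m ι) (i : ι) (l : ℕ) :
    D.v i (l % D.P i) = D.v i l ∧ ((l % D.P i : ℕ) : ZMod m) = (l : ZMod m) := by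
  have hper : ∀ k, D.v i (l % D.P i + D.P i * k) = D.v i (l % D.P i) := by
    intro k
    induction k with
    | zero => simp
    | succ k ih => rw [mul_add, mul_one, ← add_assoc, D.v_per, ih]
  constructor
  · rw [← hper (l / D.P i), Nat.mod_add_div]
  · conv_rhs => rw [← Nat.mod_add_div l (D.P i)]
    rw [Nat.cast_add, Nat.cast_mul, (ZMod.natCast_eq_zero_iff _ _).2 (D.P_m i), zero_mul, add_zero]

omit [IsAlgClosed L] [CharZero L] [Fintype ι] in
theorem y_mod (D : SData σ m ι) (l : ℕ) :
    D.y (l % D.Py) = D.y l ∧ ((l % D.Py : ℕ) : ZMod m) = (l : ZMod m) := by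
  have hper : ∀ k, D.y (l % D.Py + D.Py * k) = D.y (l % D.Py) := by
    intro k
    induction k with
    | zero => simp
    | succ k ih => rw [mul_add, mul_one, ← add_assoc, D.y_per, ih]
  constructor
  · rw [← hper (l / D.Py), Nat.mod_add_div]
  · conv_rhs => rw [← Nat.mod_add_div l D.Py]
    rw [Nat.cast_add, Nat.cast_mul, (ZMod.natCast_eq_zero_iff _ _).2 D.Py_m, zero_mul, add_zero]

open Classical in
/-- the points of the cycles -/
def ZZ (D : SData σ m ι) (j : ZMod m) : Finset ℂ :=
  Finset.univ.biUnion fun i => ((Finset.range (D.P i)).filter (fun l : ℕ => (l : ZMod m) = j)).image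
    (fun l : ℕ => σ (D.v i l))

omit [IsAlgClosed L] [CharZero L] in
theorem mem_ZZ (D : SData σ m ι) {j : ZMod m} {z : ℂ} :
    z ∈ ZZ D j ↔ ∃ i, ∃ l : ℕ, (l : ZMod m) = j ∧ σ (D.v i l) = z := by
  classical
  unfold ZZ
  simp only [Finset.mem_biUnion, Finset.mem_univ, true_and, Finset.mem_image, Finset.mem_filter,
    Finset.mem_range]
  constructor
  · rintro ⟨i, l, ⟨-, h1⟩, h2⟩
    exact ⟨i, l, h1, h2⟩
  · rintro ⟨i, l, h1, h2⟩
    refine ⟨i, l % D.P i, ⟨Nat.mod_lt _ (D.P_pos i), ?_⟩, ?_⟩
    · rw [(v_mod D i l).2, h1]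
    · rw [(v_mod D i l).1, h2]

omit [IsAlgClosed L] [CharZero L] [Fintype ι] in
/-- the sequences are determined backwards -/
theorem v_back (D : SData σ m ι) {i : ι} {l l' : ℕ} (h : (l : ZMod m) = l')
    (hv : D.v i (l + 1) = D.v i (l' + 1)) : D.v i l = D.v i l' := by
  have key : ∀ k : ℕ, D.v i (l + 1 + k) = D.v i (l' + 1 + k) := by
    intro k
    induction k with
    | zero => exact hv
    | succ k ih =>
      have h1 := D.v_T i (l + 1 + k)
      have h2 := D.v_T i (l' + 1 + k)
      have h3 : ((l + 1 + k : ℕ) : ZMod m) = ((l' + 1 + k : ℕ) : ZMod m) := by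
        push_cast; rw [h]
      rw [← ih, ← h3, h1] at h2
      exact h2
  have h1 := key (D.P i - 1)
  have hP := D.P_pos i
  rw [show l + 1 + (D.P i - 1) = l + D.P i by omega,
    show l' + 1 + (D.P i - 1) = l' + D.P i by omega, D.v_per, D.v_per] at h1
  exact h1

open Classical in
/-- the cycle of a point -/
def oo [Nonempty ι] (D : SData σ m ι) (j : ZMod m) (z : ℂ) : ι :=
  if h : ∃ i, ∃ l : ℕ, (l : ZMod m) = j ∧ σ (D.v i l) = z then h.choose else Classical.arbitrary ι

omit [IsAlgClosed L] [CharZero L] in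
theorem oo_eq [Nonempty ι] (D : SData σ m ι) {j : ZMod m} {i : ι} {l : ℕ} (h : (l : ZMod m) = j) :
    oo D j (σ (D.v i l)) = i := by
  have hex : ∃ i', ∃ l' : ℕ, (l' : ZMod m) = j ∧ σ (D.v i' l') = σ (D.v i l) := ⟨i, l, h, rfl⟩
  unfold oo
  rw [dif_pos hex]
  obtain ⟨l', h1, h2⟩ := hex.choose_spec
  exact D.v_disj _ _ l' l (h1.trans h.symm) (σ.injective h2)

end LC

open LC

theorem levelA (D : SData σ m ι) : ∃ (j : ι → ZMod m) (w : ι → ℕ → L),
    (∀ i, (D.T (j i)).wr.eval (w i 0) = 0) ∧
    (∀ i (l : ℕ), (D.T (j i + l)).q.eval (w i l) ≠ 0 ∧ (D.T (j i + l)).ev (w i l) = w i (l + 1)) ∧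
    ∀ i i' (a b : ℕ), j i + a = j i' + b → w i a = w i' b → i = i' ∧ a = b := by
  classical
  rcases isEmpty_or_nonempty ι with hι | hι
  · exact ⟨fun i => isEmptyElim i, fun i => isEmptyElim i, fun i => isEmptyElim i,
      fun i => isEmptyElim i, fun i => isEmptyElim i⟩
  obtain ⟨ρ, hρ0, hρ⟩ := exists_rho D
  let f := ff D
  let E1 : Finset (ZMod m × Option L) := Finset.univ.biUnion fun i =>
    (Finset.range (D.P i)).image (fun l : ℕ => ((l : ZMod m), some (D.v i l)))
  let E2 : Finset (ZMod m × Option L) := Finset.univ.image (fun j => (j, none))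
  let E3 : Finset (ZMod m × Option L) :=
    (Finset.range D.Py).image (fun l : ℕ => (D.j₀ + 1 + (l : ZMod m), some (D.y l)))
  let E4 : Finset (ZMod m × Option L) :=
    (Finset.range m).image (fun n : ℕ => (D.j₀ - (n : ZMod m), some (ρ n)))
  let E : Finset (ZMod m × Option L) := E1 ∪ E2 ∪ E3 ∪ E4
  have hmem : ∀ x, x ∈ E ↔ x ∈ E1 ∨ x ∈ E2 ∨ x ∈ E3 ∨ x ∈ E4 := by
    intro x
    simp only [E, Finset.mem_union, or_assoc]
  have hE1 : ∀ i (l : ℕ), ((l : ZMod m), some (D.v i l)) ∈ E1 := by
    intro i l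
    simp only [E1, Finset.mem_biUnion, Finset.mem_univ, true_and, Finset.mem_image,
      Finset.mem_range]
    exact ⟨i, l % D.P i, Nat.mod_lt _ (D.P_pos i), by rw [(v_mod D i l).1, (v_mod D i l).2]⟩
  have hE2 : ∀ j, (j, none) ∈ E2 := by
    intro j
    simp only [E2, Finset.mem_image, Finset.mem_univ, true_and]
    exact ⟨j, rfl⟩
  have hE3 : ∀ l : ℕ, (D.j₀ + 1 + (l : ZMod m), some (D.y l)) ∈ E3 := by
    intro l
    simp only [E3, Finset.mem_image, Finset.mem_range]
    exact ⟨l % D.Py, Nat.mod_lt _ D.Py_pos, by rw [(y_mod D l).1, (y_mod D l).2]⟩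
  have hE4 : ∀ n : ℕ, n < m → (D.j₀ - (n : ZMod m), some (ρ n)) ∈ E4 := by
    intro n hn
    simp only [E4, Finset.mem_image, Finset.mem_range]
    exact ⟨n, hn, rfl⟩
  have hE : ∀ x ∈ E, f x ∈ E := by
    intro x hx
    rcases (hmem x).1 hx with h | h | h | h
    · simp only [E1, Finset.mem_biUnion, Finset.mem_univ, true_and, Finset.mem_image,
        Finset.mem_range] at h
      obtain ⟨i, l, -, rfl⟩ := h
      have h1 := ff_v D i l 1
      rw [Function.iterate_one] at h1
      exact (hmem _).2 (Or.inl (by rw [show f _ = _ from h1]; exact hE1 i (l + 1)))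
    · simp only [E2, Finset.mem_image, Finset.mem_univ, true_and] at h
      obtain ⟨j, rfl⟩ := h
      by_cases hj : j = D.j₀
      · subst hj
        refine (hmem _).2 (Or.inr (Or.inr (Or.inl ?_)))
        have h1 := hE3 0
        rw [Nat.cast_zero, add_zero, D.y_zero] at h1
        rw [show f _ = _ from ff_none₀ D]
        exact h1
      · exact (hmem _).2 (Or.inr (Or.inl (by rw [show f _ = _ from ff_none D hj]; exact hE2 _)))
    · simp only [E3, Finset.mem_image, Finset.mem_range] at h
      obtain ⟨l, -, rfl⟩ := h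
      refine (hmem _).2 (Or.inr (Or.inr (Or.inl ?_)))
      rw [show f _ = _ from ff_some D (D.y_q l), D.y_T l]
      have h1 := hE3 (l + 1)
      rw [Nat.cast_add, Nat.cast_one, ← add_assoc] at h1
      exact h1
    · simp only [E4, Finset.mem_image, Finset.mem_range] at h
      obtain ⟨n, hn, rfl⟩ := h
      cases n with
      | zero =>
        refine (hmem _).2 (Or.inr (Or.inl ?_))
        rw [Nat.cast_zero, sub_zero, show f _ = _ from ff_pole D hρ0]
        exact hE2 _
      | succ n =>
        refine (hmem _).2 (Or.inr (Or.inr (Or.inr ?_)))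
        rw [show f _ = _ from ff_rho D hρ hn]
        exact hE4 n (by omega)
  let C : Finset (ZMod m × Option L) := Finset.univ.biUnion fun j =>
    ((D.T j).wr.roots.toFinset).image (fun c => (j, some c))
  have hC : ∀ x, x ∈ C ↔ ∃ j c, (D.T j).wr.eval c = 0 ∧ x = (j, some c) := by
    intro x
    simp only [C, Finset.mem_biUnion, Finset.mem_univ, true_and, Finset.mem_image,
      Multiset.mem_toFinset]
    constructor
    · rintro ⟨j, c, h1, h2⟩
      rw [mem_roots ((D.T j).wr_ne_zero (D.deg_pos j))] at h1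
      exact ⟨j, c, h1, h2.symm⟩
    · rintro ⟨j, c, h1, h2⟩
      refine ⟨j, c, ?_, h2.symm⟩
      rw [mem_roots ((D.T j).wr_ne_zero (D.deg_pos j))]
      exact h1
  obtain ⟨A, B, R, hAB, hEA, hA, hCB, hRC, hcard, -, hR⟩ := exists_tails f C E hE
  have hAn : ∀ j, (j, none) ∈ A := fun j => hEA ((hmem _).2 (Or.inr (Or.inl (hE2 j))))
  have hBn : ∀ j, (j, none) ∈ B := fun j => hAB (hAn j)
  have hAv : ∀ i (l : ℕ), ((l : ZMod m), some (D.v i l)) ∈ A := fun i l =>
    hEA ((hmem _).2 (Or.inl (hE1 i l)))
  obtain ⟨κ₀, hκ1, hκ2⟩ := exists_weights D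
  have hinv : ∀ x : L, Function.invFun σ (σ x) = x := Function.leftInverse_invFun σ.injective
  have memF : ∀ (S : Finset (ZMod m × Option L)) (j : ZMod m) (a : ℂ),
      a ∈ (fin S j).image σ ↔ ∃ z, (j, some z) ∈ S ∧ σ z = a := by
    intro S j a
    rw [Finset.mem_image]
    simp only [mem_fin]
  let DD : CData (ZMod m) ι :=
    { s := Equiv.addRight 1
      trans := by
        intro j j'
        refine ⟨(j' - j).val, ?_⟩
        have h1 : ∀ n : ℕ, ((Equiv.addRight (1 : ZMod m)) ^ n) j = j + n := by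
          intro n
          induction n with
          | zero => simp
          | succ n ih =>
            rw [pow_succ', Equiv.Perm.mul_apply, ih, Equiv.coe_addRight]
            push_cast
            ring
        rw [h1, ZMod.natCast_zmod_val]
        ring
      T := fun j => (D.T j).mapF σ
      deg_pos := by
        intro j
        rw [RM.mapF_deg]
        exact D.deg_pos j
      A := fun j => (fin A j).image σ
      B := fun j => (fin B j).image σ
      AB := by
        intro j a ha
        obtain ⟨z, hz, rfl⟩ := (memF A j a).1 ha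
        exact (memF B j _).2 ⟨z, hAB hz, rfl⟩
      B_two := by
        intro j
        obtain ⟨i⟩ := hι
        obtain ⟨l, hl⟩ : ∃ l : ℕ, (l : ZMod m) = j := ⟨j.val, ZMod.natCast_zmod_val j⟩
        obtain ⟨n, hn, hj⟩ : ∃ n : ℕ, n < m ∧ D.j₀ - (n : ZMod m) = j :=
          ⟨(D.j₀ - j).val, ZMod.val_lt _, by rw [ZMod.natCast_zmod_val]; ring⟩
        have hne : D.v i l ≠ ρ n := by
          intro he
          have h1 := ff_rho_iter D hρ0 hρ n hn
          have h2 := ff_v D i l (n + 1)
          rw [he, hl, ← hj, h1] at h2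
          exact absurd (congrArg Prod.snd h2) (by simp)
        refine Finset.one_lt_card.2 ⟨σ (D.v i l), (memF B j _).2 ⟨D.v i l, ?_, rfl⟩, σ (ρ n),
          (memF B j _).2 ⟨ρ n, ?_, rfl⟩, fun h => hne (σ.injective h)⟩
        · rw [← hl]
          exact hAB (hAv i l)
        · rw [← hj]
          exact hAB (hEA ((hmem _).2 (Or.inr (Or.inr (Or.inr (hE4 n hn))))))
      TA := by
        intro j a ha hq
        obtain ⟨z, hz, rfl⟩ := (memF A j a).1 ha
        rw [RM.mapF_q_eval, Ne, map_eq_zero] at hq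
        have h1 := hA _ hz
        rw [show f _ = _ from ff_some D hq] at h1
        rw [RM.mapF_ev]
        exact (memF B _ _).2 ⟨_, h1, rfl⟩
      Tinf := by
        intro j h
        rw [RM.mapF_q_natDegree, RM.mapF_deg] at h
        have hj : j = D.j₀ := by
          by_contra hj
          have := D.inf_ne j hj
          omega
        subst hj
        have h1 := hA _ (hAn D.j₀)
        rw [show f _ = _ from ff_none₀ D] at h1
        rw [RM.mapF_inf]
        exact (memF B _ _).2 ⟨_, h1, rfl⟩
      Tcrit := by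
        intro j c hc hq
        have hw0 := (D.T j).wr_ne_zero (D.deg_pos j)
        rw [RM.mapF_wr] at hc
        have h1 : c ∈ ((D.T j).wr.map σ).roots := by
          rw [mem_roots ((Polynomial.map_ne_zero_iff σ.injective).2 hw0)]
          exact hc
        rw [(IsAlgClosed.splits _).roots_map σ, Multiset.mem_map] at h1
        obtain ⟨c', hc', rfl⟩ := h1
        rw [mem_roots hw0] at hc'
        rw [RM.mapF_q_eval, Ne, map_eq_zero] at hq
        have h2 := hCB (j, some c') ((hC _).2 ⟨j, c', hc', rfl⟩)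
        rw [show f _ = _ from ff_some D hq] at h2
        rw [RM.mapF_ev]
        exact (memF B _ _).2 ⟨_, h2, rfl⟩
      Z := ZZ D
      ZA := by
        intro j z hz
        obtain ⟨i, l, h1, h2⟩ := (mem_ZZ D).1 hz
        refine (memF A j z).2 ⟨D.v i l, ?_, h2⟩
        rw [← h1]
        exact hAv i l
      Zq := by
        intro j z hz
        obtain ⟨i, l, h1, h2⟩ := (mem_ZZ D).1 hz
        rw [← h1, ← h2, RM.mapF_q_eval, Ne, map_eq_zero]
        exact D.v_q i l
      Zw := by
        intro j z hz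
        obtain ⟨i, l, h1, h2⟩ := (mem_ZZ D).1 hz
        rw [← h1, ← h2, RM.mapF_wr_eval, Ne, map_eq_zero]
        exact D.v_w i l
      ZT := by
        intro j z hz
        obtain ⟨i, l, h1, h2⟩ := (mem_ZZ D).1 hz
        rw [← h1, ← h2, RM.mapF_ev, D.v_T]
        refine (mem_ZZ D).2 ⟨i, l + 1, ?_, rfl⟩
        rw [Equiv.coe_addRight]
        push_cast
        ring
      Zinj := by
        intro j z hz z' hz' he
        obtain ⟨i, l, h1, h2⟩ := (mem_ZZ D).1 hz
        obtain ⟨i', l', h1', h2'⟩ := (mem_ZZ D).1 hz'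
        rw [← h2, ← h2', RM.mapF_ev, RM.mapF_ev] at he
        have he' := σ.injective he
        have e1 : (D.T j).ev (D.v i l) = D.v i (l + 1) := by rw [← h1]; exact D.v_T i l
        have e2 : (D.T j).ev (D.v i' l') = D.v i' (l' + 1) := by rw [← h1']; exact D.v_T i' l'
        rw [e1, e2] at he'
        have hll : (l : ZMod m) = l' := h1.trans h1'.symm
        have hi : i = i' := D.v_disj i i' (l + 1) (l' + 1) (by push_cast; rw [hll]) he'
        subst hi
        rw [← h2, ← h2', v_back D hll he']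
      Zsurj := by
        intro j b hb
        obtain ⟨i, l, h1, h2⟩ := (mem_ZZ D).1 hb
        have hP := D.P_pos i
        have hPm : ((D.P i : ℕ) : ZMod m) = 0 := (ZMod.natCast_eq_zero_iff _ _).2 (D.P_m i)
        have hl : ((l + (D.P i - 1) : ℕ) : ZMod m) = j := by
          have h3 : ((l + (D.P i - 1) + 1 : ℕ) : ZMod m) = j + 1 := by
            rw [show l + (D.P i - 1) + 1 = l + D.P i by omega, Nat.cast_add, hPm, add_zero, h1,
              Equiv.coe_addRight]
          rw [Nat.cast_add _ 1, Nat.cast_one] at h3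
          exact add_right_cancel h3
        refine ⟨σ (D.v i (l + (D.P i - 1))), (mem_ZZ D).2 ⟨i, _, hl, rfl⟩, ?_⟩
        rw [RM.mapF_ev, ← hl, D.v_T, show l + (D.P i - 1) + 1 = l + D.P i by omega, D.v_per, h2]
      κ := fun j z => κ₀ j (Function.invFun σ z)
      κ_pos := fun j z => hκ1 _ _
      κ_le := by
        intro j z hz
        obtain ⟨i, l, h1, h2⟩ := (mem_ZZ D).1 hz
        rw [← h1, ← h2, RM.mapF_ev, RM.mapF_der, hinv, hinv, D.v_T, Equiv.coe_addRight]
        exact hκ2 i l
      o := oo D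
      o_T := by
        intro j z hz
        obtain ⟨i, l, h1, h2⟩ := (mem_ZZ D).1 hz
        rw [← h1, ← h2, RM.mapF_ev, D.v_T, oo_eq D rfl, oo_eq D]
        rw [Equiv.coe_addRight]
        push_cast
        ring
      o_surj := by
        intro i
        refine ⟨((0 : ℕ) : ZMod m), σ (D.v i 0), (mem_ZZ D).2 ⟨i, 0, rfl, rfl⟩, oo_eq D rfl⟩
      j₀ := D.j₀
      deg_two := by
        rw [RM.mapF_deg]
        exact D.deg_two }
  have hcore := core DD
  have hcA : ∀ S : Finset (ZMod m × Option L), ∀ j, ((fin S j).image σ).card = (fin S j).card :=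
    fun S j => Finset.card_image_of_injective _ σ.injective
  have h1 : Fintype.card ι + ∑ j, (fin A j).card ≤ ∑ j, (fin B j).card := by
    have h2 : ∀ j, (DD.A j).card = (fin A j).card := fun j => hcA A j
    have h3 : ∀ j, (DD.B j).card = (fin B j).card := fun j => hcA B j
    simp only [h2, h3] at hcore
    exact hcore
  have h2 := card_fin A hAn
  have h3 := card_fin B hBn
  have hle : Fintype.card ι ≤ Fintype.card {x // x ∈ R} := by
    rw [Fintype.card_coe]
    omega
  obtain ⟨e⟩ := Function.Embedding.nonempty_of_card_le hle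
  -- the orbits of the elements of R are infinite
  have hstay : ∀ x ∈ E, ∀ n, f^[n] x ∈ E := by
    intro x hx n
    induction n with
    | zero => exact hx
    | succ n ih =>
      rw [Function.iterate_succ_apply']
      exact hE _ ih
  have hnE : ∀ r ∈ R, ∀ n, f^[n] r ∉ E := by
    intro r hr n hn
    have hinj : Function.Injective (fun k : ℕ => f^[k] (f^[n] r)) := by
      intro a b hab
      have h4 : f^[a + n] r = f^[b + n] r := by
        rw [Function.iterate_add_apply, Function.iterate_add_apply]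
        exact hab
      have := (hR r hr r hr _ _ h4).2
      omega
    exact Set.infinite_range_of_injective hinj
      (E.finite_toSet.subset (by rintro _ ⟨k, rfl⟩; exact hstay _ hn k))
  have hfinite : ∀ (i : ι) (n : ℕ), ∃ w : L, f^[n] (e i : ZMod m × Option L)
      = ((e i : ZMod m × Option L).1 + n, some w) := by
    intro i n
    have h4 := ff_fst D n (e i : ZMod m × Option L)
    have h5 := hnE _ (e i).2 n
    rcases hx : f^[n] (e i : ZMod m × Option L) with ⟨a, z⟩
    rw [hx] at h5
    have h6 : a = (e i : ZMod m × Option L).1 + n := by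
      rw [← h4]
      show a = (f^[n] (e i : ZMod m × Option L)).1
      rw [hx]
    cases z with
    | none => exact absurd ((hmem _).2 (Or.inr (Or.inl (hE2 a)))) h5
    | some w => exact ⟨w, by rw [h6]⟩
  choose w hw using hfinite
  refine ⟨fun i => (e i : ZMod m × Option L).1, w, ?_, ?_, ?_⟩
  · intro i
    obtain ⟨j, c, h4, h5⟩ := (hC _).1 (hRC (e i).2)
    have h6 := hw i 0
    rw [Function.iterate_zero, id, Nat.cast_zero, add_zero, h5] at h6
    have h7 : w i 0 = c := by
      have := congrArg Prod.snd h6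
      simpa using this.symm
    show (D.T (e i : ZMod m × Option L).1).wr.eval (w i 0) = 0
    rw [h5, h7]
    exact h4
  · intro i l
    have h4 := hw i l
    have h5 := hw i (l + 1)
    rw [Function.iterate_succ_apply', h4] at h5
    by_cases hq : (D.T ((e i : ZMod m × Option L).1 + l)).q.eval (w i l) = 0
    · rw [show f _ = _ from ff_pole D hq] at h5
      exact absurd (congrArg Prod.snd h5) (by simp)
    · refine ⟨hq, ?_⟩
      rw [show f _ = _ from ff_some D hq] at h5
      have := congrArg Prod.snd h5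
      simpa using this
  · intro i i' a b hab hwab
    have h4 : f^[a] (e i : ZMod m × Option L) = f^[b] (e i' : ZMod m × Option L) := by
      rw [hw i a, hw i' b, hwab]
      exact congrArg (fun x => (x, some (w i' b))) hab
    obtain ⟨h5, h6⟩ := hR _ (e i).2 _ (e i').2 a b h4
    exact ⟨e.injective (Subtype.ext h5), h6⟩

end FS16
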