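import Pool.Agent.FS16.LDefs

/-!
# A finite part of an algebraically closed field of characteristic zero embeds into `ℂ`

MODULE L-EMB.  Let `S` be a finite subset of `k`.  Let `L` be the algebraic closure in `k` of the
subfield generated by `S` (`algebraicClosure (Subfield.closure S) k` or an `IntermediateField`); it is
algebraically closed because `k` is, and countable.  Let `M` be an algebraic closure of the field of
rational functions over `L` in continuum many variables (`FractionRing (MvPolynomial ℝ L)`): it has
the cardinality of the continuum, so `M ≃ ℂ` (`IsAlgClosed.ringEquivOfCardinalEqOfCharZero`), and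
`L → M ≃ ℂ`.  (Alternatively: transcendence bases.)
-/

open Polynomial

noncomputable section

namespace FS16

universe u

open Cardinal in
/-- a countable field of characteristic zero embeds into `ℂ` -/
theorem embC (L : Type u) [Field L] [CharZero L] (hL : #L ≤ ℵ₀) : Nonempty (L →+* ℂ) := by
  let R := MvPolynomial ℝ L
  let K := FractionRing R
  let M := AlgebraicClosure K
  have h1 : #R = Cardinal.lift.{u} (𝔠 : Cardinal.{0}) := by
    have := MvPolynomial.cardinalMk_eq_max_lift (σ := ℝ) (R := L)
    rw [this, Cardinal.mk_real]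
    have h2 : Cardinal.lift.{0} #L ≤ Cardinal.lift.{u} (𝔠 : Cardinal.{0}) := by
      rw [Cardinal.lift_id']
      refine hL.trans ?_
      rw [Cardinal.lift_continuum]
      exact Cardinal.aleph0_le_continuum
    rw [max_eq_right h2, max_eq_left]
    rw [Cardinal.lift_continuum]
    exact Cardinal.aleph0_le_continuum
  have h2 : #K = #R := IsFractionRing.cardinalMk R K
  have h3 : #M ≤ max #K ℵ₀ := Algebra.IsAlgebraic.cardinalMk_le_max K M
  have h4 : #K ≤ #M := Cardinal.mk_le_of_injective (algebraMap K M).injective
  have hc : (ℵ₀ : Cardinal.{u}) < #K := by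
    rw [h2, h1, Cardinal.lift_continuum]
    exact Cardinal.aleph0_lt_continuum
  have h5 : #M = #K := le_antisymm (by rwa [max_eq_left hc.le] at h3) h4
  haveI : CharZero R := inferInstance
  haveI : CharZero K := charZero_of_injective_algebraMap (IsFractionRing.injective R K)
  haveI : CharZero M := charZero_of_injective_algebraMap (algebraMap K M).injective
  have h6 : Nonempty (M ≃ ℂ) := by
    rw [← Cardinal.lift_mk_eq', h5, h2, h1, Cardinal.mk_complex]
    simp
  obtain ⟨e⟩ := IsAlgClosed.ringEquiv_of_equiv_of_charZero (K := M) (L := ℂ) (by rw [h5]; exact hc) h6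
  exact ⟨(e : M →+* ℂ).comp ((algebraMap K M).comp ((algebraMap R K).comp MvPolynomial.C))⟩

open Cardinal in
theorem exists_embedding (k : Type u) [Field k] [IsAlgClosed k] [CharZero k] (S : Set k)
    (hS : S.Finite) : ∃ (L : Type u) (_ : Field L) (_ : IsAlgClosed L) (_ : CharZero L)
      (φ : L →+* k) (_ : L →+* ℂ), S ⊆ Set.range φ := by
  let F := Subfield.closure S
  let L := algebraicClosure F k
  have hF : #F ≤ ℵ₀ := by
    refine (Subfield.cardinalMk_closure_le_max S).trans ?_
    rw [max_eq_right]
    exact (Cardinal.lt_aleph0_iff_set_finite.2 hS).le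
  have hL : #L ≤ ℵ₀ := by
    refine (Algebra.IsAlgebraic.cardinalMk_le_max F L).trans ?_
    rw [max_eq_right hF]
  haveI : IsAlgClosed L := (algebraicClosure.isAlgClosure F k).isAlgClosed
  haveI : CharZero L := charZero_of_injective_algebraMap (algebraMap F L).injective
  obtain ⟨ψ⟩ := embC L hL
  refine ⟨L, inferInstance, inferInstance, inferInstance, algebraMap L k, ψ, ?_⟩
  intro x hx
  have hx' : x ∈ L := by
    refine (algebraicClosure F k).algebraMap_mem ⟨x, Subfield.subset_closure hx⟩
  exact ⟨⟨x, hx'⟩, rfl⟩

/-- descent of a rational map -/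
theorem exists_descent {L k : Type u} [Field L] [Field k] (φ : L →+* k) (T : RM k)
    (hp : ∀ i, T.p.coeff i ∈ Set.range φ) (hq : ∀ i, T.q.coeff i ∈ Set.range φ) :
    ∃ T' : RM L, T'.mapF φ = T := by
  obtain ⟨p', hp'⟩ := (Polynomial.mem_lifts T.p).1 ((Polynomial.lifts_iff_coeff_lifts T.p).2 hp)
  obtain ⟨q', hq'⟩ := (Polynomial.mem_lifts T.q).1 ((Polynomial.lifts_iff_coeff_lifts T.q).2 hq)
  obtain ⟨p, q, h⟩ := T
  simp only at hp' hq'
  subst hp' hq'
  exact ⟨⟨p', q', (isCoprime_map φ).1 h⟩, rfl⟩

end FS16
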