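import Pool.Agent.FS16.NCap
import Pool.Agent.FS16.LCore
import Pool.Agent.FS16.LEmb

/-!
# Worlds: cycles of type II points with adjacent cycles of indifferent components

`World R f Ξ I`: `Ξ` is a finite set of type II points, permuted by `f` (`s`), with charts `c ξ`,
reductions `T ξ` from the chart at `ξ` to the chart at `s ξ`.  `I` is a finite set of cycles of
components; the component number `l` of the cycle `i` has two boundary points `e i b l`, `b : Bool`,
and it is in the direction `v i b l` at `e i b l`.  Points `ξ` of type B (`degOne ξ`) are on cycles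
where all maps have degree one, `∞` is fixed and there is a finite direction of positive surplus with
an infinite orbit; on the other cycles (type A) there is a map of degree at least two, and the charts
are chosen so that the periodic directions `v i b l` are finite.
-/

open Polynomial

noncomputable section

namespace FS16

universe u

variable {K k : Type u} [NontriviallyNormedField K] [Field k] (R : Residue K k)
  [IsUltrametricDist K] [IsAlgClosed K] [IsAlgClosed k]

structure World (f : RM K) (Ξ I : Type) [Fintype Ξ] [Fintype I] where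
  s : Equiv.Perm Ξ
  c : Ξ → Chart K
  T : Ξ → RM k
  h : Ξ → k[X]
  good : ∀ ξ, GoodRed R (f.cj (c ξ) (c (s ξ))) (h ξ) (T ξ)
  sep : ∀ ξ ξ', ξ ≠ ξ' → ∃ u u' : OnePoint k, ∀ z, dirR R ((c ξ).to z) = u ∨
      dirR R ((c ξ').to z) = u'
  /-- the periods of the cycles -/
  P : I → ℕ
  P_pos : ∀ i, 0 < P i
  /-- the boundary points -/
  e : I → Bool → ℕ → Ξ
  e_s : ∀ i b l, e i b (l + 1) = s (e i b l)
  e_per : ∀ i b l, e i b (l + P i) = e i b l
  /-- the directions of the components at the boundary points -/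
  v : I → Bool → ℕ → OnePoint k
  v_T : ∀ i b l, (T (e i b l)).map (v i b l) = v i b (l + 1)
  v_per : ∀ i b l, v i b (l + P i) = v i b l
  v_one : ∀ i b l, (T (e i b l)).mult (v i b l) = 1
  v_disj : ∀ i i' b b' l l', e i b l = e i' b' l' → v i b l = v i' b' l' → i = i'
  /-- the points on cycles of degree one -/
  degOne : Ξ → Prop
  degOne_s : ∀ ξ, degOne (s ξ) ↔ degOne ξ
  /-- the product of the two multipliers is one -/
  mult_mul : ∀ i, (∀ b, ¬ degOne (e i b 0)) →
    (∏ l ∈ Finset.range (P i), (T (e i true l)).der (toFin (v i true l))) *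
    (∏ l ∈ Finset.range (P i), (T (e i false l)).der (toFin (v i false l))) = 1
  typeB : ∀ ξ, degOne ξ → (T ξ).deg = 1 ∧ (T ξ).map OnePoint.infty = OnePoint.infty
  typeB_bad : ∀ ξ, degOne ξ → ∃ n : ℕ, ∃ w : ℕ → k, (h (s^[n] ξ)).eval (w 0) = 0 ∧
    (∀ l, (T (s^[n + l] ξ)).map (w l : OnePoint k) = (w (l + 1) : OnePoint k)) ∧
    ∀ a b, s^[a] ξ = s^[b] ξ → w a = w b → a = b
  typeA_fin : ∀ i b l, ¬ degOne (e i b l) → v i b l ≠ OnePoint.infty
  typeA : ∀ ξ, ¬ degOne ξ → ∃ n : ℕ, 2 ≤ (T (s^[n] ξ)).deg ∧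
    (T (s^[n] ξ)).q.natDegree = (T (s^[n] ξ)).deg ∧
    (∃ i b l, e i b l = s^[n + 1] ξ ∧ v i b l = ((T (s^[n] ξ)).inf : OnePoint k)) ∧
    ∀ n', s^[n'] ξ ≠ s^[n] ξ → (T (s^[n'] ξ)).q.natDegree < (T (s^[n'] ξ)).deg

variable {R}
variable {f : RM K} {Ξ I : Type} [Fintype Ξ] [Fintype I]

/-- a tail: an infinite orbit of finite directions, which starts at the point `ξ` with a direction
which is critical or of positive surplus -/
structure World.Tail (W : World R f Ξ I) (ξ : Ξ) (w : ℕ → k) : Prop where
  T : ∀ l, (W.T (W.s^[l] ξ)).map (w l : OnePoint k) = (w (l + 1) : OnePoint k)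
  inj : ∀ a b, W.s^[a] ξ = W.s^[b] ξ → w a = w b → a = b
  bad : 2 ≤ spl (f.cj (W.c ξ) (W.c (W.s ξ))) (W.h ξ) (W.T ξ) (w 0 : OnePoint k) +
    (W.T ξ).mult (w 0 : OnePoint k)

/-- the point `ξ` is on the cycle of the boundary point `b` of the component `i` -/
def World.On (W : World R f Ξ I) (i : I) (b : Bool) (ξ : Ξ) : Prop := ∃ l, W.e i b l = ξ

end FS16
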