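import Pool.Agent.FS16.NFamFacts
import Pool.Agent.FS16.NDinf
import Pool.Agent.FS16.NWorld

/-!
# Construction of a world from a family

MODULE N-FAM-WORLD.  Let `D₀` be charts of `F` with `D₀.c = F.c₀` (`exists_charts`), and apply `exists_dinf`
to `D₀.T`, `D₀.v` (`v_T`, `v_per`, `v_one`, `e_surj`; degrees are positive by `good`), to get
`dinf ξ`, the direction at `ξ` which has to become infinity.  `exists_chart_at` for `F.c₀ ξ` and `dinf ξ`
gives charts `c ξ`; let `D` be charts of `F` with `D.c = c`.  `exists_theta` gives bijections `θ ξ` with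
`dirR (c ξ) = θ ξ (dirR (c₀ ξ))`, and `θ ξ (dinf ξ) = ∞` (every direction contains points,
`exists_dirR_eq`).  `transfer`: `D.T ξ (θ ξ u) = θ (s ξ) (D₀.T ξ u)`, the multiplicities, surpluses and
degrees agree.  `D.v i b l = θ (D₀.v i b l)`.
The world: `s`, `P`, `e`, from `F`, `c`, `T`, `h`, `good` from `D`, `v = D.v`; `sep` from
`sep_of_not_same` (`SamePt` is an equivalence relation; `F.sep`);
`degOne ξ := ∀ n, (D.T (s^[n] ξ)).deg = 1` (`degOne_s`: `s` is a permutation of a finite set, so `ξ` is in the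
forward orbit of `s ξ`).
* `mult_mul`: `Fam.Charts.mult_mul`; all `D.v i b l` are finite by `typeA_fin` (`degOne` is constant on the
  cycle).
* `typeB`: `D.T ξ ∞ = D.T ξ (θ (dinf ξ)) = θ (D₀.T ξ (dinf ξ)) = θ (dinf (s ξ)) = ∞`.
* `typeB_bad`: `F.julia` for `D₀` gives `n`, `w`.  `w l ≠ dinf (s^[n + l] ξ)` for all `l`: otherwise
  `w (l + a) = dinf (s^[n + l + a] ξ)` for all `a`, and for `a ≥ 1` with `s^[a] = id` this contradicts
  injectivity.  So `θ (w l)` is finite, take its finite coordinate (`toFin`).  `spl ≠ 0` at a finite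
  direction means that it is a root of `h` (`h ≠ 0`).
* `typeA_fin`: `D₀.v i b l ≠ dinf`.
* `typeA`: `D.T (s^[n] ξ)` maps `∞` to the finite point `D.v i b l = θ (D₀.v i b l)` (`RM.map_infty`,
  `RM.map_infty_pole`: `q.natDegree = deg` because otherwise the image would be infinite), and the others
  map `∞` to `∞` (so `q.natDegree ≠ deg`, and it is `≤ deg`).
-/

open Polynomial

noncomputable section

namespace FS16

universe u

variable {K k : Type u} [NontriviallyNormedField K] [Field k] {R : Residue K k}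
  [IsUltrametricDist K] [IsAlgClosed K] [IsAlgClosed k]
  {f : RM K} {Ξ I : Type} [Fintype Ξ] [Fintype I]

namespace FamWorld

theorem samePt_refl {K : Type*} [NormedField K] (c : Chart K) : SamePt c c :=
  ⟨rfl, by rw [sub_self, norm_zero]; exact norm_nonneg _⟩

theorem samePt_symm {K : Type*} [NormedField K] {c c' : Chart K} (h : SamePt c c') :
    SamePt c' c := ⟨h.1.symm, by rw [norm_sub_rev, ← h.1]; exact h.2⟩

theorem samePt_trans {K : Type*} [NormedField K] [IsUltrametricDist K] {c c' c'' : Chart K}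
    (h : SamePt c c') (h' : SamePt c' c'') : SamePt c c'' := by
  refine ⟨h.1.trans h'.1, ?_⟩
  have e : c.a - c''.a = (c.a - c'.a) + (c'.a - c''.a) := by ring
  rw [e]
  refine (IsUltrametricDist.norm_add_le_max _ _).trans (max_le h.2 ?_)
  rw [h.1]
  exact h'.2

theorem exists_iterate_id {Ξ : Type} [Fintype Ξ] (s : Equiv.Perm Ξ) :
    ∃ m : ℕ, 0 < m ∧ ∀ ξ, s^[m] ξ = ξ := by
  classical
  refine ⟨orderOf s, orderOf_pos s, fun ξ => ?_⟩
  rw [Equiv.Perm.iterate_eq_pow, pow_orderOf_eq_one]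
  rfl

/-- a property of the forward orbit is invariant -/
theorem forall_iterate {Ξ : Type} [Fintype Ξ] (s : Equiv.Perm Ξ) (Q : Ξ → Prop) (ξ : Ξ) :
    (∀ n : ℕ, Q (s^[n] (s ξ))) ↔ ∀ n : ℕ, Q (s^[n] ξ) := by
  constructor
  · intro h n
    obtain ⟨m, hm, hid⟩ := exists_iterate_id s
    rcases Nat.eq_zero_or_pos n with h0 | h0
    · rw [h0]
      have h1 := h (m - 1)
      rw [← Function.iterate_succ_apply] at h1
      have e : (m - 1).succ = m := by omega
      rw [e, hid] at h1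
      exact h1
    · have h1 := h (n - 1)
      rw [← Function.iterate_succ_apply] at h1
      have e : (n - 1).succ = n := by omega
      rw [e] at h1
      exact h1
  · intro h n
    rw [← Function.iterate_succ_apply]
    exact h _

theorem forall_iterate_n {Ξ : Type} [Fintype Ξ] (s : Equiv.Perm Ξ) (Q : Ξ → Prop) (ξ : Ξ) (m : ℕ) :
    (∀ n : ℕ, Q (s^[n] (s^[m] ξ))) ↔ ∀ n : ℕ, Q (s^[n] ξ) := by
  induction m with
  | zero => exact Iff.rfl
  | succ m ih =>
    rw [Function.iterate_succ_apply', forall_iterate, ih]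

end FamWorld

open FamWorld in
theorem Fam.exists_world (F : Fam R f Ξ I) : Nonempty (World R f Ξ I) := by
  classical
  obtain ⟨D₀, hD₀⟩ := F.exists_charts F.c₀ (fun ξ => samePt_refl _)
  obtain ⟨dinf, hd1, hd2, hd3⟩ := exists_dinf F.s D₀.T (fun ξ => (D₀.good ξ).2.1) F.P F.P_pos F.e
    F.e_s F.e_per F.e_surj D₀.v D₀.v_T D₀.v_per D₀.v_one
  choose c hc hcinf using fun ξ => exists_chart_at R (F.c₀ ξ) (dinf ξ)
  obtain ⟨D, hD⟩ := F.exists_charts c hc
  subst hD
  choose θ hθ' using fun ξ => exists_theta R (hc ξ)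
  have hθ : ∀ ξ z, dirR R ((D.c ξ).to z) = θ ξ (dirR R ((D₀.c ξ).to z)) := by
    intro ξ z
    rw [hD₀]
    exact hθ' ξ z
  have tr := fun ξ => transfer (hθ ξ) (hθ (F.s ξ)) (D₀.good ξ) (D.good ξ)
  have hinf : ∀ ξ, θ ξ (dinf ξ) = OnePoint.infty := by
    intro ξ
    obtain ⟨z, hz⟩ := exists_dirR_eq R (F.c₀ ξ) (dinf ξ)
    have h1 := (hcinf ξ z).2 hz
    rw [hθ' ξ z, hz] at h1
    exact h1
  have hv : ∀ i b l, D.v i b l = θ (F.e i b l) (D₀.v i b l) := fun i b l =>
    hθ (F.e i b l) (F.pnt i l)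
  have hdeg : ∀ ξ, (∀ n : ℕ, (D.T (F.s^[n] ξ)).deg = 1) ↔ ∀ n : ℕ, (D₀.T (F.s^[n] ξ)).deg = 1 := by
    intro ξ
    constructor
    · intro h n
      rw [← (tr _).2.2.2]
      exact h n
    · intro h n
      rw [(tr _).2.2.2]
      exact h n
  have hdeg_s : ∀ ξ, (∀ n : ℕ, (D.T (F.s^[n] (F.s ξ))).deg = 1) ↔
      ∀ n : ℕ, (D.T (F.s^[n] ξ)).deg = 1 := fun ξ =>
    forall_iterate F.s (fun ξ => (D.T ξ).deg = 1) ξ
  have hdeg_n : ∀ ξ m, (∀ n : ℕ, (D.T (F.s^[n] (F.s^[m] ξ))).deg = 1) ↔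
      ∀ n : ℕ, (D.T (F.s^[n] ξ)).deg = 1 := fun ξ m =>
    forall_iterate_n F.s (fun ξ => (D.T ξ).deg = 1) ξ m
  have hfin : ∀ i b l, (¬ ∀ n : ℕ, (D.T (F.s^[n] (F.e i b l))).deg = 1) →
      D.v i b l ≠ OnePoint.infty := by
    intro i b l h e
    rw [hv, ← hinf (F.e i b l)] at e
    exact hd3 i b l (fun h1 => h ((hdeg _).2 h1)) ((θ _).injective e)
  have hdeg_e : ∀ i b l, (∀ n : ℕ, (D.T (F.s^[n] (F.e i b l))).deg = 1) ↔
      ∀ n : ℕ, (D.T (F.s^[n] (F.e i b 0))).deg = 1 := by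
    intro i b l
    induction l with
    | zero => exact Iff.rfl
    | succ l ih => rw [F.e_s, hdeg_s, ih]
  refine ⟨{
    s := F.s
    c := D.c
    T := D.T
    h := D.h
    good := D.good
    sep := ?_
    P := F.P
    P_pos := F.P_pos
    e := F.e
    e_s := F.e_s
    e_per := F.e_per
    v := D.v
    v_T := D.v_T
    v_per := D.v_per
    v_one := D.v_one
    v_disj := D.v_disj
    degOne := fun ξ => ∀ n : ℕ, (D.T (F.s^[n] ξ)).deg = 1
    degOne_s := hdeg_s
    mult_mul := ?_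
    typeB := ?_
    typeB_bad := ?_
    typeA_fin := hfin
    typeA := ?_ }⟩
  · -- sep
    intro ξ ξ' hne
    apply sep_of_not_same
    intro h
    exact hne (F.sep ξ ξ' (samePt_trans (D.same ξ) (samePt_trans h (samePt_symm (D.same ξ')))))
  · -- mult_mul
    intro i h
    exact D.mult_mul i fun b l => hfin i b l (fun h1 => h b ((hdeg_e i b l).1 h1))
  · -- typeB
    intro ξ h
    refine ⟨h 0, ?_⟩
    have h1 := (tr ξ).1 (dinf ξ)
    rw [hinf, hd1 ξ ((hdeg ξ).1 h), hinf] at h1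
    exact h1
  · -- typeB_bad
    intro ξ h
    have h0 := (hdeg ξ).1 h
    obtain ⟨n, w, hw0, hw, hinj⟩ := F.julia D₀.T D₀.h (by rw [← hD₀]; exact D₀.good) ξ h0
    rw [← hD₀] at hw0
    obtain ⟨m, hm, hid⟩ := exists_iterate_id F.s
    have hne : ∀ l, w l ≠ dinf (F.s^[n + l] ξ) := by
      intro l hl
      have h1 : ∀ a : ℕ, w (l + a) = dinf (F.s^[n + (l + a)] ξ) := by
        intro a
        induction a with
        | zero => exact hl
        | succ a ih =>
          have h2 := hw (l + a)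
          have h3 : (∀ j : ℕ, (D₀.T (F.s^[j] (F.s^[n + (l + a)] ξ))).deg = 1) := by
            rw [← hdeg, hdeg_n]
            exact h
          rw [ih, hd1 _ h3, ← Function.iterate_succ_apply' (⇑F.s)] at h2
          exact h2.symm
      have h2 := h1 m
      have h3 : F.s^[n + (l + m)] ξ = F.s^[n + l] ξ := by
        rw [← Nat.add_assoc, Function.iterate_add_apply, hid]
      rw [h3, ← hl] at h2
      have h4 := hinj (l + m) l (by rw [Function.iterate_add_apply, hid]) h2
      omega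
    have hcoe : ∀ l, ((toFin (θ (F.s^[n + l] ξ) (w l)) : k) : OnePoint k) =
        θ (F.s^[n + l] ξ) (w l) := by
      intro l
      apply coe_toFin
      rw [← hinf (F.s^[n + l] ξ)]
      exact fun e => hne l ((θ _).injective e)
    refine ⟨n, fun l => toFin (θ (F.s^[n + l] ξ) (w l)), ?_, ?_, ?_⟩
    · have h1 := (tr (F.s^[n] ξ)).2.1 (w 0)
      have h2 : θ (F.s^[n] ξ) (w 0) =
        ((toFin (θ (F.s^[n + 0] ξ) (w 0)) : k) : OnePoint k) := (hcoe 0).symm
      rw [← h1, h2] at hw0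
      have h3 : (D.h (F.s^[n] ξ)).rootMultiplicity (toFin (θ (F.s^[n + 0] ξ) (w 0))) ≠ 0 := hw0
      exact (rootMultiplicity_pos (D.good _).1).1 (Nat.pos_of_ne_zero h3)
    · intro l
      change (D.T (F.s^[n + l] ξ)).map ((toFin (θ (F.s^[n + l] ξ) (w l)) : k) : OnePoint k) =
        ((toFin (θ (F.s^[n + (l + 1)] ξ) (w (l + 1))) : k) : OnePoint k)
      rw [hcoe, hcoe, (tr _).1, hw l]
      have h1 : F.s (F.s^[n + l] ξ) = F.s^[n + (l + 1)] ξ := by
        rw [← Nat.add_assoc, ← Function.iterate_succ_apply' (⇑F.s)]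
      rw [h1]
    · intro a b hab hw'
      have h1 : F.s^[n + a] ξ = F.s^[n + b] ξ := by
        rw [Function.iterate_add_apply, Function.iterate_add_apply, hab]
      have h2 : θ (F.s^[n + a] ξ) (w a) = θ (F.s^[n + b] ξ) (w b) := by
        rw [← hcoe a, ← hcoe b]
        exact congrArg _ hw'
      rw [h1] at h2
      exact hinj a b hab ((θ _).injective h2)
  · -- typeA
    intro ξ h
    obtain ⟨n, hn, ⟨i, b, l, he, hv1⟩, hn'⟩ := hd2 ξ (fun h1 => h ((hdeg ξ).2 h1))
    have hTinf : ∀ η, (D.T η).map OnePoint.infty = θ (F.s η) ((D₀.T η).map (dinf η)) := by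
      intro η
      have h1 := (tr η).1 (dinf η)
      rw [hinf] at h1
      exact h1
    have hnot : ¬ ∀ j : ℕ, (D.T (F.s^[j] (F.e i b l))).deg = 1 := by
      rw [he, hdeg_n]
      exact h
    have h1 : (D.T (F.s^[n] ξ)).map OnePoint.infty = D.v i b l := by
      rw [hTinf, ← hv1, hv, he, ← Function.iterate_succ_apply' (⇑F.s)]
    have h2 : (D.T (F.s^[n] ξ)).q.natDegree = (D.T (F.s^[n] ξ)).deg := by
      by_contra h3
      rw [(D.T (F.s^[n] ξ)).map_infty_pole h3] at h1
      exact hfin i b l hnot h1.symm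
    refine ⟨n, by rw [(tr _).2.2.2]; exact hn, h2, ⟨i, b, l, he, ?_⟩, ?_⟩
    · rw [← h1, (D.T (F.s^[n] ξ)).map_infty h2]
    · intro n' hne
      have h3 := hTinf (F.s^[n'] ξ)
      rw [hn' n' hne, Function.iterate_succ_apply' (⇑F.s), hinf] at h3
      have h4 : (D.T (F.s^[n'] ξ)).q.natDegree ≠ (D.T (F.s^[n'] ξ)).deg := by
        intro h5
        rw [(D.T (F.s^[n'] ξ)).map_infty h5] at h3
        exact OnePoint.coe_ne_infty _ h3
      have h5 : (D.T (F.s^[n'] ξ)).q.natDegree ≤ (D.T (F.s^[n'] ξ)).deg := le_max_right _ _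
      omega

end FS16
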