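import Pool.Agent.FS16.BFace
import Pool.Agent.FS16.NFamWorld
import Pool.Agent.FS16.NBound

/-!
# Residue characteristic zero: at most `4 d - 4` cycles of non-disk indifferent components
-/

open Polynomial Pool.Agent

noncomputable section

namespace FS16

universe u

variable {K : Type u} [NontriviallyNormedField K] [IsUltrametricDist K] [IsAlgClosed K]

theorem multi_bound (hK : ∀ n : ℕ, n ≠ 0 → ‖(n : K)‖ = 1) (f : FIC.RatMap K) (hf : 2 ≤ f.degree) :
    (multiCycles f).Finite ∧ (multiCycles f).ncard ≤ 4 * f.degree - 4 := by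
  obtain ⟨k, i1, i2, i3, ⟨R⟩⟩ := exists_residue K hK
  have key : ∀ s : Finset (Set (Set (FIC.BerkP K))), (s : Set _) ⊆ multiCycles f →
      s.card ≤ 4 * f.degree - 4 := by
    intro s hs
    let e := Fintype.equivFin s
    obtain ⟨Ξ, i4, ⟨F⟩⟩ := exists_fam R f hf (I := Fin (Fintype.card s))
      (fun i => ((e.symm i : s) : Set (Set (FIC.BerkP K)))) (fun i => hs (e.symm i).2)
      (fun i j h => e.symm.injective (Subtype.ext h))
    obtain ⟨W⟩ := F.exists_world
    have := W.bound hK (by rw [toRM_deg]; omega)
    rw [toRM_deg] at this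
    simpa using this
  have hfin : (multiCycles f).Finite := by
    by_contra h
    obtain ⟨s, hs, hc⟩ := Set.Infinite.exists_subset_card_eq h (4 * f.degree - 4 + 1)
    have := key s hs
    omega
  refine ⟨hfin, ?_⟩
  rw [Set.ncard_eq_toFinset_card _ hfin]
  exact key _ (by simp)

end FS16
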