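import Pool.Agent.FS16.CDefs

/-!
# Functions with poles of order at most two

MODULE C-PF.  `liouville_pf`: put `r b = lim_{w → b} (w - b) (G w - β b/(w - b)²)`; it exists because
`(w - b)² G(w)` is analytic at `b` (removable singularity).  Then `G - pf B r β` has removable
singularities, extends to an entire function which tends to `0` at infinity, so it is zero
(Liouville).  `w² pf → 0` gives the two moments.

`pf_cube`: expansion at infinity:
`r/(z-a) + β/(z-a)² = r/z + (r a + β)/z² + O(1/|z|³)` for `|z| ≥ 2|a| + 1`.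
-/

open Polynomial Filter Topology

noncomputable section

namespace FS16

theorem pf_differentiableAt (A : Finset ℂ) (r β : ℂ → ℂ) {z : ℂ} (hz : z ∉ A) :
    DifferentiableAt ℂ (pf A r β) z := by
  unfold pf
  apply DifferentiableAt.fun_sum
  intro a ha
  have h : z - a ≠ 0 := fun h => hz (by rw [sub_eq_zero.1 h]; exact ha)
  have h2 : (z - a) ^ 2 ≠ 0 := pow_ne_zero _ h
  fun_prop (disch := assumption)

theorem pf_split_mem {A : Finset ℂ} {r β : ℂ → ℂ} {a : ℂ} (ha : a ∈ A) (z : ℂ) :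
    pf A r β z = (r a / (z - a) + β a / (z - a) ^ 2) + pf (A.erase a) r β z := by
  classical
  unfold pf
  rw [← Finset.add_sum_erase A _ ha]

open Classical in
/-- `(z-a)² pf` is a nice function -/
theorem pf_split (A : Finset ℂ) (r β : ℂ → ℂ) (a : ℂ) {z : ℂ} (hz : z ≠ a) :
    (z - a) ^ 2 * pf A r β z = (if a ∈ A then r a * (z - a) + β a else 0) +
      (z - a) ^ 2 * pf (A.erase a) r β z := by
  have h : z - a ≠ 0 := sub_ne_zero.2 hz
  split_ifs with ha
  · rw [pf_split_mem ha]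
    field_simp
  · rw [Finset.erase_eq_of_notMem ha, zero_add]

open Classical in
/-- the analytic extension of `(z-a)² pf` -/
def pfF (A : Finset ℂ) (r β : ℂ → ℂ) (a z : ℂ) : ℂ :=
  (if a ∈ A then r a * (z - a) + β a else 0) + (z - a) ^ 2 * pf (A.erase a) r β z

theorem pfF_eq (A : Finset ℂ) (r β : ℂ → ℂ) (a : ℂ) {z : ℂ} (hz : z ≠ a) :
    (z - a) ^ 2 * pf A r β z = pfF A r β a z := by
  unfold pfF
  exact pf_split A r β a hz

theorem pf_eventually_notMem (S : Finset ℂ) (a : ℂ) : ∀ᶠ z in 𝓝[≠] a, z ∉ S := by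
  classical
  have h : ∀ᶠ z in 𝓝 a, z ∉ S.erase a :=
    (S.erase a).finite_toSet.isClosed.isOpen_compl.mem_nhds (by simp)
  filter_upwards [h.filter_mono nhdsWithin_le_nhds, self_mem_nhdsWithin] with z hz hza hzS
  exact hz (Finset.mem_erase.2 ⟨hza, hzS⟩)

theorem pfF_analytic (A : Finset ℂ) (r β : ℂ → ℂ) (a : ℂ) : AnalyticAt ℂ (pfF A r β a) a := by
  classical
  have h1 : AnalyticAt ℂ (pf (A.erase a) r β) a := by
    unfold pf
    apply Finset.analyticAt_fun_sum
    intro b hb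
    have h : a - b ≠ 0 := fun h => (Finset.mem_erase.1 hb).1 (sub_eq_zero.1 h).symm
    have h2 : (a - b) ^ 2 ≠ 0 := pow_ne_zero _ h
    fun_prop (disch := assumption)
  unfold pfF
  split_ifs
  · fun_prop
  · fun_prop

open Classical in
theorem pfF_self (A : Finset ℂ) (r β : ℂ → ℂ) (a : ℂ) :
    pfF A r β a a = if a ∈ A then β a else 0 := by
  unfold pfF
  split_ifs <;> simp

/-- local behaviour at every point -/
theorem pf_tendsto (A : Finset ℂ) (r β : ℂ → ℂ) (a : ℂ) :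
    Tendsto (fun z => (z - a) ^ 2 * pf A r β z) (𝓝[≠] a) (𝓝 (open Classical in
      if a ∈ A then β a else 0)) := by
  rw [← pfF_self A r β a]
  have h := (pfF_analytic A r β a).continuousAt.tendsto.mono_left
    (nhdsWithin_le_nhds (s := {a}ᶜ))
  refine h.congr' ?_
  filter_upwards [self_mem_nhdsWithin] with z hz
  exact (pfF_eq A r β a hz).symm

theorem pf_term (r β a z : ℂ) (h : 2 * ‖a‖ + 1 ≤ ‖z‖) :
    ‖r / (z - a) + β / (z - a) ^ 2 - (r / z + (r * a + β) / z ^ 2)‖ ≤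
      (2 * ‖r‖ * ‖a‖ ^ 2 + 12 * ‖β‖ * ‖a‖) / ‖z‖ ^ 3 := by
  obtain ⟨m, hm⟩ : ∃ m, m = ‖a‖ := ⟨_, rfl⟩
  obtain ⟨n, hn⟩ : ∃ n, n = ‖z‖ := ⟨_, rfl⟩
  obtain ⟨d, hd⟩ : ∃ d, d = ‖z - a‖ := ⟨_, rfl⟩
  have hm0 : 0 ≤ m := by rw [hm]; exact norm_nonneg _
  have hr0 := norm_nonneg r
  have hb0 := norm_nonneg β
  rw [← hm, ← hn] at h
  have hn0 : 0 < n := by linarith
  have hdn : n / 2 ≤ d := by
    have := norm_sub_norm_le z a
    rw [← hm, ← hn, ← hd] at this
    linarith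
  have hd0 : 0 < d := by linarith
  have hz : z ≠ 0 := by
    intro h0
    rw [h0, norm_zero] at hn
    linarith
  have hza : z - a ≠ 0 := by
    intro h0
    rw [h0, norm_zero] at hd
    linarith
  have e : r / (z - a) + β / (z - a) ^ 2 - (r / z + (r * a + β) / z ^ 2) =
      r * a ^ 2 / (z ^ 2 * (z - a)) + β * (2 * a * z - a ^ 2) / (z ^ 2 * (z - a) ^ 2) := by
    field_simp
    ring
  rw [e]
  refine (norm_add_le _ _).trans ?_
  rw [norm_div, norm_div, norm_mul, norm_mul, norm_mul, norm_mul, norm_pow, norm_pow, norm_pow,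
    ← hm, ← hn, ← hd]
  have h3 : ‖2 * a * z - a ^ 2‖ ≤ 3 * m * n := by
    refine (norm_sub_le _ _).trans ?_
    rw [norm_mul, norm_mul, norm_pow, ← hm, ← hn]
    norm_num
    nlinarith
  have h1 : ‖r‖ * m ^ 2 / (n ^ 2 * d) ≤ 2 * ‖r‖ * m ^ 2 / n ^ 3 := by
    rw [div_le_div_iff₀ (by positivity) (by positivity)]
    have : ‖r‖ * m ^ 2 * n ^ 2 * (n / 2) ≤ ‖r‖ * m ^ 2 * n ^ 2 * d :=
      mul_le_mul_of_nonneg_left hdn (by positivity)
    nlinarith
  have h2 : ‖β‖ * ‖2 * a * z - a ^ 2‖ / (n ^ 2 * d ^ 2) ≤ 12 * ‖β‖ * m / n ^ 3 := by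
    have hdd : n ^ 2 / 4 ≤ d ^ 2 := by nlinarith
    calc ‖β‖ * ‖2 * a * z - a ^ 2‖ / (n ^ 2 * d ^ 2)
        ≤ ‖β‖ * (3 * m * n) / (n ^ 2 * (n ^ 2 / 4)) := by gcongr
      _ = 12 * ‖β‖ * m / n ^ 3 := by
        field_simp
        ring
  calc ‖r‖ * m ^ 2 / (n ^ 2 * d) + ‖β‖ * ‖2 * a * z - a ^ 2‖ / (n ^ 2 * d ^ 2)
      ≤ 2 * ‖r‖ * m ^ 2 / n ^ 3 + 12 * ‖β‖ * m / n ^ 3 := add_le_add h1 h2
    _ = _ := by ring

/-- expansion at infinity -/
theorem pf_expand (A : Finset ℂ) (r β : ℂ → ℂ) :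
    ∃ C R : ℝ, 0 ≤ C ∧ 1 ≤ R ∧ ∀ z : ℂ, R ≤ ‖z‖ →
      ‖pf A r β z - ((∑ a ∈ A, r a) / z + (∑ a ∈ A, (r a * a + β a)) / z ^ 2)‖ ≤ C / ‖z‖ ^ 3 := by
  refine ⟨∑ a ∈ A, (2 * ‖r a‖ * ‖a‖ ^ 2 + 12 * ‖β a‖ * ‖a‖), ∑ a ∈ A, (2 * ‖a‖) + 1,
    Finset.sum_nonneg fun a _ => by positivity, ?_, ?_⟩
  · have : 0 ≤ ∑ a ∈ A, (2 * ‖a‖) := Finset.sum_nonneg fun a _ => by positivity
    linarith
  · intro z hz
    unfold pf
    rw [Finset.sum_div, Finset.sum_div, ← Finset.sum_add_distrib, ← Finset.sum_sub_distrib,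
      Finset.sum_div]
    refine (norm_sum_le _ _).trans (Finset.sum_le_sum fun a ha => ?_)
    apply pf_term
    have : 2 * ‖a‖ ≤ ∑ a ∈ A, (2 * ‖a‖) :=
      Finset.single_le_sum (f := fun a : ℂ => 2 * ‖a‖) (fun b _ => by positivity) ha
    linarith

/-- decay at infinity -/
theorem pf_cube {A : Finset ℂ} {r β : ℂ → ℂ} (h : Mom A r β) :
    ∃ C R : ℝ, 0 < R ∧ ∀ z : ℂ, R ≤ ‖z‖ → ‖pf A r β z‖ ≤ C / ‖z‖ ^ 3 := by
  obtain ⟨C, R, -, hR, hh⟩ := pf_expand A r β
  refine ⟨C, R, by linarith, fun z hz => ?_⟩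
  have := hh z hz
  rw [h.1, h.2] at this
  simpa using this

/-- `w² pf w - S₁ w - S₂ → 0` -/
theorem pf_expand_tendsto (A : Finset ℂ) (r β : ℂ → ℂ) :
    Tendsto (fun z => z ^ 2 * pf A r β z - ((∑ a ∈ A, r a) * z + ∑ a ∈ A, (r a * a + β a)))
      (cocompact ℂ) (𝓝 0) := by
  obtain ⟨C, R, hC, hR, hh⟩ := pf_expand A r β
  have h1 : Tendsto (fun z : ℂ => C * ‖z‖⁻¹) (cocompact ℂ) (𝓝 0) := by
    have := (tendsto_inv_atTop_zero.comp (tendsto_norm_cocompact_atTop (E := ℂ))).const_mul C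
    simpa using this
  apply squeeze_zero_norm' _ h1
  filter_upwards [(tendsto_norm_cocompact_atTop (E := ℂ)).eventually (eventually_ge_atTop R)]
    with z hz
  have hz1 : 1 ≤ ‖z‖ := hR.trans hz
  have hz0 : z ≠ 0 := by
    rintro rfl
    rw [norm_zero] at hz1
    linarith
  have e : z ^ 2 * pf A r β z - ((∑ a ∈ A, r a) * z + ∑ a ∈ A, (r a * a + β a)) =
      z ^ 2 * (pf A r β z - ((∑ a ∈ A, r a) / z + (∑ a ∈ A, (r a * a + β a)) / z ^ 2)) := by
    field_simp
  rw [e, norm_mul, norm_pow]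
  calc ‖z‖ ^ 2 * ‖pf A r β z - ((∑ a ∈ A, r a) / z + (∑ a ∈ A, (r a * a + β a)) / z ^ 2)‖
      ≤ ‖z‖ ^ 2 * (C / ‖z‖ ^ 3) := mul_le_mul_of_nonneg_left (hh z hz) (by positivity)
    _ = C * ‖z‖⁻¹ := by
      have : ‖z‖ ≠ 0 := by positivity
      field_simp

theorem pf_inf {A : Finset ℂ} {r β : ℂ → ℂ} (h : Mom A r β) :
    Tendsto (fun z => z ^ 2 * pf A r β z) (cocompact ℂ) (𝓝 0) := by
  have := pf_expand_tendsto A r β
  rw [h.1, h.2] at this
  simpa using this

/-- uniqueness of partial fractions; the exceptional finite set `S` may be arbitrary -/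
theorem pf_unique {A : Finset ℂ} {r β : ℂ → ℂ} (S : Finset ℂ)
    (h : ∀ z, z ∉ A → z ∉ S → pf A r β z = 0) : ∀ a ∈ A, r a = 0 ∧ β a = 0 := by
  classical
  intro a ha
  have hev : ∀ᶠ z in 𝓝[≠] a, pf A r β z = 0 := by
    filter_upwards [pf_eventually_notMem A a, pf_eventually_notMem S a] with z h1 h2
    exact h z h1 h2
  have hβ : β a = 0 := by
    have h1 := pf_tendsto A r β a
    rw [if_pos ha] at h1
    have h2 : Tendsto (fun z => (z - a) ^ 2 * pf A r β z) (𝓝[≠] a) (𝓝 0) := by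
      apply tendsto_const_nhds.congr'
      filter_upwards [hev] with z hz
      rw [hz, mul_zero]
    exact tendsto_nhds_unique h1 h2
  refine ⟨?_, hβ⟩
  -- the function `(z - a) pf`
  have h3 : Tendsto (fun z => r a + (z - a) * pf (A.erase a) r β z) (𝓝[≠] a) (𝓝 (r a)) := by
    have hc : ContinuousAt (fun z => r a + (z - a) * pf (A.erase a) r β z) a := by
      have := (pf_differentiableAt (A.erase a) r β (z := a) (by simp)).continuousAt
      fun_prop
    have := hc.tendsto.mono_left (nhdsWithin_le_nhds (s := {a}ᶜ))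
    simpa using this
  have h4 : Tendsto (fun z => r a + (z - a) * pf (A.erase a) r β z) (𝓝[≠] a) (𝓝 0) := by
    apply tendsto_const_nhds.congr'
    filter_upwards [hev, self_mem_nhdsWithin] with z hz hza
    have hne : z - a ≠ 0 := sub_ne_zero.2 hza
    rw [pf_split_mem ha, hβ] at hz
    have h5 : (z - a) * (r a / (z - a) + 0 / (z - a) ^ 2 + pf (A.erase a) r β z) = 0 := by
      rw [hz, mul_zero]
    rw [← h5]
    field_simp
    ring
  exact tendsto_nhds_unique h3 h4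

/-- the numerator of `pf` -/
theorem pf_num (A : Finset ℂ) (r β : ℂ → ℂ) : ∃ Q : ℂ[X], ∀ z, z ∉ A →
    Q.eval z = pf A r β z * ∏ a ∈ A, (z - a) ^ 2 := by
  classical
  refine ⟨∑ a ∈ A, (C (r a) * (X - C a) + C (β a)) * ∏ b ∈ A.erase a, (X - C b) ^ 2, ?_⟩
  intro z hz
  unfold pf
  rw [eval_finsetSum, Finset.sum_mul]
  apply Finset.sum_congr rfl
  intro a ha
  have hne : z - a ≠ 0 := fun h => hz (by rw [sub_eq_zero.1 h]; exact ha)
  rw [← Finset.mul_prod_erase A _ ha]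
  simp only [eval_mul, eval_add, eval_C, eval_sub, eval_X, eval_prod, eval_pow]
  field_simp

/-- a function which is not identically zero has only finitely many zeros -/
theorem pf_zeros {A : Finset ℂ} {r β : ℂ → ℂ} (h : ∃ a ∈ A, r a ≠ 0 ∨ β a ≠ 0) :
    {z | z ∉ A ∧ pf A r β z = 0}.Finite := by
  classical
  obtain ⟨Q, hQ⟩ := pf_num A r β
  by_cases hQ0 : Q = 0
  · exfalso
    obtain ⟨a, ha, hab⟩ := h
    have := pf_unique (A := A) (r := r) (β := β) ∅ (fun z hz _ => by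
      have h1 := hQ z hz
      rw [hQ0, eval_zero] at h1
      have h2 : ∏ a ∈ A, (z - a) ^ 2 ≠ 0 := by
        rw [Finset.prod_ne_zero_iff]
        intro a ha
        exact pow_ne_zero _ fun h => hz (by rw [sub_eq_zero.1 h]; exact ha)
      rcases mul_eq_zero.1 h1.symm with h3 | h3
      · exact h3
      · exact absurd h3 h2) a ha
    rcases hab with h1 | h1
    · exact h1 this.1
    · exact h1 this.2
  · refine Q.roots.toFinset.finite_toSet.subset ?_
    rintro z ⟨hz, hz0⟩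
    rw [Finset.mem_coe, Multiset.mem_toFinset, mem_roots hQ0, IsRoot, hQ z hz, hz0, zero_mul]

theorem analyticAt_dslope_self {F : ℂ → ℂ} {b : ℂ} (h : AnalyticAt ℂ F b) :
    AnalyticAt ℂ (dslope F b) b := by
  obtain ⟨p, hp⟩ := h
  exact ⟨_, hp.has_fpower_series_dslope_fslope⟩

/-- the principal part at a double pole -/
theorem principal {G : ℂ → ℂ} {b L : ℂ} (hG : ∀ᶠ w in 𝓝[≠] b, DifferentiableAt ℂ G w)
    (hB : Tendsto (fun w => (w - b) ^ 2 * G w) (𝓝[≠] b) (𝓝 L)) :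
    ∃ ρ c : ℂ, Tendsto (fun w => G w - (ρ / (w - b) + L / (w - b) ^ 2)) (𝓝[≠] b) (𝓝 c) := by
  classical
  obtain ⟨F, hF⟩ : ∃ F, F = Function.update (fun w => (w - b) ^ 2 * G w) b L := ⟨_, rfl⟩
  have hFb : F b = L := by rw [hF]; simp
  have hFw : ∀ w, w ≠ b → F w = (w - b) ^ 2 * G w := fun w hw => by
    rw [hF, Function.update_of_ne hw]
  have hFc : ContinuousAt F b := by
    rw [continuousAt_iff_punctured_nhds, hFb]
    refine hB.congr' ?_
    filter_upwards [self_mem_nhdsWithin] with w hw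
    exact (hFw w hw).symm
  have hFd : ∀ᶠ w in 𝓝[≠] b, DifferentiableAt ℂ F w := by
    filter_upwards [hG, self_mem_nhdsWithin] with w hw hwb
    have h1 : DifferentiableAt ℂ (fun w => (w - b) ^ 2 * G w) w := by fun_prop
    refine h1.congr_of_eventuallyEq ?_
    filter_upwards [isOpen_ne.mem_nhds hwb] with w' hw'
    exact hFw w' hw'
  have hFa := Complex.analyticAt_of_differentiable_on_punctured_nhds_of_continuousAt hFd hFc
  have h1 := analyticAt_dslope_self hFa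
  have h2 := analyticAt_dslope_self h1
  refine ⟨dslope F b b, dslope (dslope F b) b b, ?_⟩
  refine (h2.continuousAt.tendsto.mono_left (nhdsWithin_le_nhds (s := {b}ᶜ))).congr' ?_
  filter_upwards [self_mem_nhdsWithin] with w hw
  have hne : w - b ≠ 0 := sub_ne_zero.2 hw
  rw [dslope_of_ne _ hw, slope_def_field]
  have h3 : dslope F b w = (F w - L) / (w - b) := by
    rw [dslope_of_ne _ hw, slope_def_field, hFb]
  rw [h3, hFw w hw]
  field_simp
  ring

/-- the converse of the above facts -/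
theorem liouville_pf {G : ℂ → ℂ} {B : Finset ℂ} {β : ℂ → ℂ}
    (hG : ∀ w, w ∉ B → DifferentiableAt ℂ G w)
    (hB : ∀ b ∈ B, Tendsto (fun w => (w - b) ^ 2 * G w) (𝓝[≠] b) (𝓝 (β b)))
    (hinf : Tendsto (fun w => w ^ 2 * G w) (cocompact ℂ) (𝓝 0)) :
    ∃ r : ℂ → ℂ, Mom B r β ∧ ∀ w, w ∉ B → G w = pf B r β w := by
  classical
  have hloc : ∀ b, ∃ ρ c : ℂ, b ∈ B →
      Tendsto (fun w => G w - (ρ / (w - b) + β b / (w - b) ^ 2)) (𝓝[≠] b) (𝓝 c) := by
    intro b
    by_cases hb : b ∈ B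
    · obtain ⟨ρ, c, h⟩ := principal (G := G) (b := b) (L := β b)
        ((pf_eventually_notMem B b).mono fun w hw => hG w hw) (hB b hb)
      exact ⟨ρ, c, fun _ => h⟩
    · exact ⟨0, 0, fun h => absurd h hb⟩
  choose r c hrc using hloc
  obtain ⟨E, hE⟩ : ∃ E : ℂ → ℂ, E = fun w => if w ∈ B then c w - pf (B.erase w) r β w else
    G w - pf B r β w := ⟨_, rfl⟩
  have hEo : ∀ w, w ∉ B → DifferentiableAt ℂ E w := by
    intro w hw
    have h1 : DifferentiableAt ℂ (fun w => G w - pf B r β w) w :=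
      (hG w hw).sub (pf_differentiableAt B r β hw)
    refine h1.congr_of_eventuallyEq ?_
    have h2 : ∀ᶠ z in 𝓝 w, z ∉ B := B.finite_toSet.isClosed.isOpen_compl.mem_nhds (by simpa using hw)
    filter_upwards [h2] with z hz
    rw [hE]
    exact if_neg hz
  have hEd : Differentiable ℂ E := by
    intro b
    by_cases hb : b ∈ B
    · refine (Complex.analyticAt_of_differentiable_on_punctured_nhds_of_continuousAt
        ((pf_eventually_notMem B b).mono fun w hw => hEo w hw) ?_).differentiableAt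
      rw [continuousAt_iff_punctured_nhds]
      have h1 : Tendsto (pf (B.erase b) r β) (𝓝[≠] b) (𝓝 (pf (B.erase b) r β b)) :=
        (pf_differentiableAt (B.erase b) r β (by simp)).continuousAt.tendsto.mono_left
          nhdsWithin_le_nhds
      have h2 := (hrc b hb).sub h1
      have h3 : E b = c b - pf (B.erase b) r β b := by rw [hE]; exact if_pos hb
      rw [h3]
      refine h2.congr' ?_
      filter_upwards [pf_eventually_notMem B b] with w hw
      rw [hE]
      simp only [if_neg hw]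
      rw [pf_split_mem hb]
      ring
    · exact hEo b hb
  have hnorm := tendsto_norm_cocompact_atTop (E := ℂ)
  have hinv : Tendsto (fun z : ℂ => z⁻¹) (cocompact ℂ) (𝓝 0) :=
    Metric.cobounded_eq_cocompact (α := ℂ) ▸ Filter.tendsto_inv₀_cobounded
  have hne0 : ∀ᶠ z : ℂ in cocompact ℂ, z ≠ 0 := by
    filter_upwards [hnorm.eventually (eventually_ge_atTop 1)] with z hz h0
    rw [h0, norm_zero] at hz
    linarith
  have hG0 : Tendsto G (cocompact ℂ) (𝓝 0) := by
    have h1 := (hinv.pow 2).mul hinf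
    simp only [ne_eq, OfNat.ofNat_ne_zero, not_false_eq_true, zero_pow, mul_zero] at h1
    refine h1.congr' ?_
    filter_upwards [hne0] with z hz
    field_simp
  have hP0 : Tendsto (pf B r β) (cocompact ℂ) (𝓝 0) := by
    have h1 := (hinv.pow 2).mul (pf_expand_tendsto B r β)
    have h2 := (hinv.const_mul (∑ a ∈ B, r a)).add
      ((hinv.pow 2).const_mul (∑ a ∈ B, (r a * a + β a)))
    have h3 := h1.add h2
    simp only [ne_eq, OfNat.ofNat_ne_zero, not_false_eq_true, zero_pow, mul_zero, add_zero] at h3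
    refine h3.congr' ?_
    filter_upwards [hne0] with z hz
    field_simp
    ring
  have hBev : ∀ᶠ z in cocompact ℂ, z ∉ B := by
    have := B.finite_toSet.isCompact.compl_mem_cocompact
    filter_upwards [this] with z hz
    simpa using hz
  have hE0 : Tendsto E (cocompact ℂ) (𝓝 0) := by
    have h1 := hG0.sub hP0
    rw [sub_zero] at h1
    refine h1.congr' ?_
    filter_upwards [hBev] with z hz
    rw [hE]
    simp only [if_neg hz]
  have hEz : ∀ w, E w = 0 := fun w => hEd.apply_eq_of_tendsto_cocompact w hE0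
  have hGp : ∀ w, w ∉ B → G w = pf B r β w := by
    intro w hw
    have := hEz w
    rw [hE] at this
    simp only [if_neg hw] at this
    exact sub_eq_zero.1 this
  refine ⟨r, ?_, hGp⟩
  -- moments
  have h1 : Tendsto (fun z => (∑ a ∈ B, r a) * z + ∑ a ∈ B, (r a * a + β a)) (cocompact ℂ)
      (𝓝 0) := by
    have h2 := hinf.sub (pf_expand_tendsto B r β)
    rw [sub_zero] at h2
    refine h2.congr' ?_
    filter_upwards [hBev] with z hz
    rw [hGp z hz]
    ring
  have h2 : Tendsto (fun z => (∑ a ∈ B, r a) + (∑ a ∈ B, (r a * a + β a)) * z⁻¹) (cocompact ℂ)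
      (𝓝 0) := by
    have h3 := hinv.mul h1
    rw [mul_zero] at h3
    refine h3.congr' ?_
    filter_upwards [hne0] with z hz
    field_simp
  have h3 : Tendsto (fun z => (∑ a ∈ B, r a) + (∑ a ∈ B, (r a * a + β a)) * z⁻¹) (cocompact ℂ)
      (𝓝 (∑ a ∈ B, r a)) := by
    have := (hinv.const_mul (∑ a ∈ B, (r a * a + β a))).const_add (∑ a ∈ B, r a)
    simpa using this
  have hS1 : ∑ a ∈ B, r a = 0 := tendsto_nhds_unique h3 h2
  refine ⟨hS1, ?_⟩
  rw [hS1] at h1
  simp only [zero_mul, zero_add] at h1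
  exact tendsto_nhds_unique tendsto_const_nhds h1

/-- the order at a point: `pf A r β = (z - a)^n u`, `u` analytic, `u a ≠ 0`, `n ≥ -2` -/
theorem pf_order {A : Finset ℂ} {r β : ℂ → ℂ} (h : ∃ a ∈ A, r a ≠ 0 ∨ β a ≠ 0) (a : ℂ) :
    ∃ (n : ℕ) (u : ℂ → ℂ), AnalyticAt ℂ u a ∧ u a ≠ 0 ∧
      ∀ᶠ z in 𝓝[≠] a, (z - a) ^ 2 * pf A r β z = (z - a) ^ n * u z := by
  classical
  have hF := pfF_analytic A r β a
  have hn : ¬ ∀ᶠ z in 𝓝 a, pfF A r β a z = 0 := by
    intro h0
    have hfin := pf_zeros h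
    have h1 := pf_eventually_notMem hfin.toFinset a
    have h2 := pf_eventually_notMem A a
    have h3 := h0.filter_mono (nhdsWithin_le_nhds (s := {a}ᶜ))
    obtain ⟨z, hz1, hz2, hz3, hz4⟩ := (h1.and (h2.and (h3.and self_mem_nhdsWithin))).exists
    apply hz1
    rw [Set.Finite.mem_toFinset]
    refine ⟨hz2, ?_⟩
    have h5 := pfF_eq A r β a (z := z) hz4
    rw [hz3] at h5
    have h6 : (z - a) ^ 2 ≠ 0 := pow_ne_zero _ (sub_ne_zero.2 hz4)
    exact (mul_eq_zero.1 h5).resolve_left h6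
  obtain ⟨n, u, hu, hua, hev⟩ := hF.exists_eventuallyEq_pow_smul_nonzero_iff.2 hn
  refine ⟨n, u, hu, hua, ?_⟩
  filter_upwards [hev.filter_mono (nhdsWithin_le_nhds (s := {a}ᶜ)), self_mem_nhdsWithin]
    with z hz hza
  rw [pfF_eq A r β a hza, hz, smul_eq_mul]

end FS16
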