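import Pool.Agent.FS16.CFibre
import Pool.Agent.FS16.CPF

/-!
# Existence of a fixed quadratic differential by a dimension count

MODULE C-ALG.  Let `X` be the space of the `(r, α)`, `r : ∀ j, A j → ℂ`, `α : ι → ℂ`, with the
moment conditions `Mom (A j) (r j) (β α j)` for all `j` (two linear conditions for every `j`):
`dim X ≥ ∑ |A j| + |ι| - 2 |J|`.  Let `Y` be the space of the `r' : ∀ j, B j → ℂ` with
`Mom (B j) (r' j) 0`: since `|B j| ≥ 2` the two conditions are independent, `dim Y = ∑ |B j| - 2|J|`.

For `(r, α) ∈ X` consider the functions `H j = g (s j) - push (T j) (g j)` on `ℂ \ B (s j)`.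
They are differentiable there (`push_differentiableAt`; a point `z` of the fibre of `w ∉ B (s j)` is
not in `A j` by `TA`); `(w - b)² push (T j) (g j) w` tends to `β α (s j) b` at `b ∈ B (s j)`
(`push_near`, `pf_tendsto`: the preimages of `b` in `Z j` are one point if `b ∈ Z (s j)` by `Zsurj`,
`Zinj`, with the same coefficient by `o_T`; there is none if `b ∉ Z (s j)` by `ZT`; the points of
`Z j` are not critical by `Zw`); `w² push → 0` at infinity (`push_inf`; the poles are not in `Z j`
by `Zq`).  So `(w-b)² H j w → 0` for all `b ∈ B (s j)` and `w² H j → 0` at infinity, and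
`liouville_pf` (with `β = 0`) gives an element of `Y` which represents `(H j)`; it depends linearly
on `(r, α)` (`pf_unique`, or use that the range of a linear map into a space of functions is
contained in the image of `Y`).  If `∑ |B j| < |ι| + ∑ |A j|` then `dim Y < dim X` and the kernel is
not zero.  A nonzero element of the kernel is `Fixed`: if `α i ≠ 0` then `β α j z = α i ≠ 0` for some
`z ∈ Z j ⊆ A j` by `o_surj`.
-/

open Polynomial Filter Topology

noncomputable section

namespace FS16

variable {J ι : Type} [Fintype J] [Fintype ι]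

/-! ### local data of `g` -/

omit [Fintype ι] in
theorem calg_beta_not_mem (D : CData J ι) (α : ι → ℂ) {j : J} {a : ℂ} (h : a ∉ D.A j) :
    D.β α j a = 0 := by
  have : a ∉ D.Z j := fun hz => h (D.ZA j hz)
  simp [CData.β, this]

omit [Fintype ι] in
theorem calg_g_tendsto (D : CData J ι) (r : J → ℂ → ℂ) (α : ι → ℂ) (j : J) (a : ℂ) :
    Tendsto (fun z => (z - a) ^ 2 * D.g r α j z) (𝓝[≠] a) (𝓝 (D.β α j a)) := by
  have h := pf_tendsto (D.A j) (r j) (D.β α j) a
  by_cases ha : a ∈ D.A j
  · simpa [ha, CData.g] using h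
  · simpa [ha, CData.g, calg_beta_not_mem D α ha] using h

omit [Fintype ι] in
theorem calg_sum_fib (D : CData J ι) (α : ι → ℂ) (j : J) (b : ℂ) :
    ∑ a ∈ (D.T j).fib b, D.β α j a = D.β α (D.s j) b := by
  classical
  by_cases hb : b ∈ D.Z (D.s j)
  · obtain ⟨z, hz, hzb⟩ := D.Zsurj j b hb
    have hzf : z ∈ (D.T j).fib b := ((D.T j).mem_fib (D.deg_pos j) b z).2 ⟨D.Zq j z hz, hzb⟩
    rw [Finset.sum_eq_single z]
    · have h1 : D.β α j z = α (D.o j z) := by simp [CData.β, hz]
      have h2 : D.β α (D.s j) b = α (D.o (D.s j) b) := by simp [CData.β, hb]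
      rw [h1, h2, ← hzb, D.o_T j z hz]
    · intro a ha haz
      have ha2 := ((D.T j).mem_fib (D.deg_pos j) b a).1 ha
      have : a ∉ D.Z j := fun h => haz (D.Zinj j a h z hz (ha2.2.trans hzb.symm))
      simp [CData.β, this]
    · intro h; exact absurd hzf h
  · have h2 : D.β α (D.s j) b = 0 := by simp [CData.β, hb]
    rw [h2]
    apply Finset.sum_eq_zero
    intro a ha
    have ha2 := ((D.T j).mem_fib (D.deg_pos j) b a).1 ha
    have : a ∉ D.Z j := fun h => hb (by rw [← ha2.2]; exact D.ZT j a h)
    simp [CData.β, this]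

/-- the double coefficients of the push forward -/
theorem push_beta (D : CData J ι) (r : J → ℂ → ℂ) (α : ι → ℂ)
    (hM : ∀ j, Mom (D.A j) (r j) (D.β α j)) (j : J) (b : ℂ) :
    Tendsto (fun w => (w - b) ^ 2 * push (D.T j) (D.g r α j) w) (𝓝[≠] b)
      (𝓝 (D.β α (D.s j) b)) := by
  classical
  have h := push_near (D.T j) (D.deg_pos j) b (D.g r α j) (D.β α j)
    (fun a _ => calg_g_tendsto D r α j a)
    (fun a _ => by
      by_cases ha : a ∈ D.Z j
      · exact Or.inr (D.Zw j a ha)
      · left; simp [CData.β, ha])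
    (fun _ _ => pf_inf (hM j))
  rwa [calg_sum_fib D α j b] at h

omit [Fintype ι] in
theorem calg_push_inf (D : CData J ι) (r : J → ℂ → ℂ) (α : ι → ℂ)
    (hM : ∀ j, Mom (D.A j) (r j) (D.β α j)) (j : J) :
    Tendsto (fun w => w ^ 2 * push (D.T j) (D.g r α j) w) (cocompact ℂ) (𝓝 0) := by
  classical
  refine push_inf (D.T j) (D.deg_pos j) (D.g r α j) ?_ (fun _ => pf_inf (hM j))
  intro a ha
  have h := calg_g_tendsto D r α j a
  have h0 : D.β α j a = 0 := by
    have : a ∉ D.Z j := fun hz => D.Zq j a hz ha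
    simp [CData.β, this]
  rwa [h0] at h

omit [Fintype ι] in
theorem calg_push_diff (D : CData J ι) (r : J → ℂ → ℂ) (α : ι → ℂ) (j : J) {w : ℂ}
    (hw : w ∉ D.B (D.s j)) : DifferentiableAt ℂ (push (D.T j) (D.g r α j)) w := by
  refine push_differentiableAt (D.T j) (D.deg_pos j) (D.reg hw) ?_
  intro z hz
  have hz2 := ((D.T j).mem_fib (D.deg_pos j) w z).1 hz
  have hzA : z ∉ D.A j := fun h => hw (by rw [← hz2.2]; exact D.TA j z h hz2.1)
  have hopen : IsOpen {z : ℂ | z ∉ D.A j} := by
    have : {z : ℂ | z ∉ D.A j} = (↑(D.A j) : Set ℂ)ᶜ := by ext; simp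
    rw [this]
    exact (D.A j).finite_toSet.isClosed.isOpen_compl
  filter_upwards [hopen.mem_nhds hzA] with z' hz'
  exact pf_differentiableAt _ _ _ hz'

/-- the difference is represented by partial fractions with simple poles in `B` -/
theorem calg_rep (D : CData J ι) (r : J → ℂ → ℂ) (α : ι → ℂ)
    (hM : ∀ j, Mom (D.A j) (r j) (D.β α j)) (j : J) :
    ∃ ρ : ℂ → ℂ, Mom (D.B (D.s j)) ρ (fun _ => 0) ∧ ∀ w, w ∉ D.B (D.s j) →
      D.g r α (D.s j) w - push (D.T j) (D.g r α j) w = pf (D.B (D.s j)) ρ (fun _ => 0) w := by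
  refine liouville_pf (G := fun w => D.g r α (D.s j) w - push (D.T j) (D.g r α j) w)
    (B := D.B (D.s j)) (β := fun _ => 0) ?_ ?_ ?_
  · intro w hw
    refine DifferentiableAt.sub ?_ (calg_push_diff D r α j hw)
    exact pf_differentiableAt _ _ _ (fun h => hw (D.AB _ h))
  · intro b _
    have h1 := calg_g_tendsto D r α (D.s j) b
    have h2 := push_beta D r α hM j b
    have h3 := h1.sub h2
    simp only [sub_self] at h3
    refine h3.congr (fun w => ?_)
    ring
  · have h1 : Tendsto (fun w => w ^ 2 * D.g r α (D.s j) w) (cocompact ℂ) (𝓝 0) :=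
      pf_inf (hM (D.s j))
    have h2 := calg_push_inf D r α hM j
    have h3 := h1.sub h2
    simp only [sub_self] at h3
    refine h3.congr (fun w => ?_)
    ring

/-! ### linear algebra -/

theorem calg_pf_add (A : Finset ℂ) (r r' β β' : ℂ → ℂ) (z : ℂ) :
    pf A (fun a => r a + r' a) (fun a => β a + β' a) z = pf A r β z + pf A r' β' z := by
  simp only [pf]
  rw [← Finset.sum_add_distrib]
  refine Finset.sum_congr rfl (fun a _ => ?_)
  ring

theorem calg_pf_smul (A : Finset ℂ) (c : ℂ) (r β : ℂ → ℂ) (z : ℂ) :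
    pf A (fun a => c * r a) (fun a => c * β a) z = c * pf A r β z := by
  simp only [pf]
  rw [Finset.mul_sum]
  refine Finset.sum_congr rfl (fun a _ => ?_)
  ring

section
variable (D : CData J ι)

/-- the space of coefficients -/
abbrev CalgV : Type := ((Σ j : J, {a // a ∈ D.A j}) ⊕ ι) → ℂ

/-- the space of coefficients of simple poles in `B` -/
abbrev CalgU : Type := (Σ j : J, {a // a ∈ D.B j}) → ℂ

open Classical in
/-- the residues -/
def calgR (v : CalgV D) (j : J) (a : ℂ) : ℂ := if h : a ∈ D.A j then v (Sum.inl ⟨j, a, h⟩) else 0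

/-- the double coefficients -/
def calgα (v : CalgV D) (i : ι) : ℂ := v (Sum.inr i)

open Classical in
/-- the residues -/
def calgS (u : CalgU D) (j : J) (a : ℂ) : ℂ := if h : a ∈ D.B j then u ⟨j, a, h⟩ else 0

omit [Fintype ι] in
theorem calgR_add (v v' : CalgV D) (j : J) (a : ℂ) :
    calgR D (v + v') j a = calgR D v j a + calgR D v' j a := by
  unfold calgR; split_ifs <;> simp

omit [Fintype ι] in
theorem calgR_smul (c : ℂ) (v : CalgV D) (j : J) (a : ℂ) :
    calgR D (c • v) j a = c * calgR D v j a := by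
  unfold calgR; split_ifs <;> simp

omit [Fintype ι] in
theorem calgβ_add (v v' : CalgV D) (j : J) (a : ℂ) :
    D.β (calgα D (v + v')) j a = D.β (calgα D v) j a + D.β (calgα D v') j a := by
  unfold CData.β calgα; split_ifs <;> simp

omit [Fintype ι] in
theorem calgβ_smul (c : ℂ) (v : CalgV D) (j : J) (a : ℂ) :
    D.β (calgα D (c • v)) j a = c * D.β (calgα D v) j a := by
  unfold CData.β calgα; split_ifs <;> simp

omit [Fintype ι] in
theorem calgS_add (v v' : CalgU D) (j : J) (a : ℂ) :
    calgS D (v + v') j a = calgS D v j a + calgS D v' j a := by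
  unfold calgS; split_ifs <;> simp

omit [Fintype ι] in
theorem calgS_smul (c : ℂ) (v : CalgU D) (j : J) (a : ℂ) :
    calgS D (c • v) j a = c * calgS D v j a := by
  unfold calgS; split_ifs <;> simp

/-- the quadratic differential of a vector -/
def calgG (v : CalgV D) (j : J) : ℂ → ℂ := D.g (calgR D v) (calgα D v) j

omit [Fintype ι] in
theorem calgG_add (v v' : CalgV D) (j : J) (z : ℂ) :
    calgG D (v + v') j z = calgG D v j z + calgG D v' j z := by
  unfold calgG CData.g
  rw [← calg_pf_add]
  congr 1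
  · ext a; exact calgR_add D v v' j a
  · ext a; exact calgβ_add D v v' j a

omit [Fintype ι] in
theorem calgG_smul (c : ℂ) (v : CalgV D) (j : J) (z : ℂ) :
    calgG D (c • v) j z = c * calgG D v j z := by
  unfold calgG CData.g
  rw [← calg_pf_smul]
  congr 1
  · ext a; exact calgR_smul D c v j a
  · ext a; exact calgβ_smul D c v j a

/-- the moments of a vector -/
def calgMomA : CalgV D →ₗ[ℂ] (J → ℂ × ℂ) where
  toFun v j := (∑ a ∈ D.A j, calgR D v j a,
    ∑ a ∈ D.A j, (calgR D v j a * a + D.β (calgα D v) j a))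
  map_add' v v' := by
    ext j
    · simp only [Pi.add_apply, Prod.fst_add]
      rw [← Finset.sum_add_distrib]
      exact Finset.sum_congr rfl (fun a _ => calgR_add D v v' j a)
    · simp only [Pi.add_apply, Prod.snd_add]
      rw [← Finset.sum_add_distrib]
      refine Finset.sum_congr rfl (fun a _ => ?_)
      rw [calgR_add, calgβ_add]; ring
  map_smul' c v := by
    ext j
    · simp only [Pi.smul_apply, Prod.smul_fst, RingHom.id_apply, smul_eq_mul]
      rw [Finset.mul_sum]
      exact Finset.sum_congr rfl (fun a _ => calgR_smul D c v j a)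
    · simp only [Pi.smul_apply, Prod.smul_snd, RingHom.id_apply, smul_eq_mul]
      rw [Finset.mul_sum]
      refine Finset.sum_congr rfl (fun a _ => ?_)
      rw [calgR_smul, calgβ_smul]; ring

/-- the moments of a vector of simple poles -/
def calgMomB : CalgU D →ₗ[ℂ] (J → ℂ × ℂ) where
  toFun v j := (∑ a ∈ D.B j, calgS D v j a, ∑ a ∈ D.B j, calgS D v j a * a)
  map_add' v v' := by
    ext j
    · simp only [Pi.add_apply, Prod.fst_add]
      rw [← Finset.sum_add_distrib]
      exact Finset.sum_congr rfl (fun a _ => calgS_add D v v' j a)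
    · simp only [Pi.add_apply, Prod.snd_add]
      rw [← Finset.sum_add_distrib]
      refine Finset.sum_congr rfl (fun a _ => ?_)
      rw [calgS_add]; ring
  map_smul' c v := by
    ext j
    · simp only [Pi.smul_apply, Prod.smul_fst, RingHom.id_apply, smul_eq_mul]
      rw [Finset.mul_sum]
      exact Finset.sum_congr rfl (fun a _ => calgS_smul D c v j a)
    · simp only [Pi.smul_apply, Prod.smul_snd, RingHom.id_apply, smul_eq_mul]
      rw [Finset.mul_sum]
      refine Finset.sum_congr rfl (fun a _ => ?_)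
      rw [calgS_smul]; ring

open Classical in
/-- the difference of `g` and its push forward -/
def calgΦ : CalgV D →ₗ[ℂ] (J → ℂ → ℂ) where
  toFun v j w := if w ∈ D.B (D.s j) then 0 else
    calgG D v (D.s j) w - push (D.T j) (calgG D v j) w
  map_add' v v' := by
    ext j w
    simp only [Pi.add_apply]
    split_ifs with h
    · simp
    · have : calgG D (v + v') j = fun z => calgG D v j z + calgG D v' j z := by
        ext z; exact calgG_add D v v' j z
      rw [calgG_add, this, push_add]; ring
  map_smul' c v := by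
    ext j w
    simp only [Pi.smul_apply, RingHom.id_apply, smul_eq_mul]
    split_ifs with h
    · simp
    · have : calgG D (c • v) j = fun z => c * calgG D v j z := by
        ext z; exact calgG_smul D c v j z
      rw [calgG_smul, this, push_smul]; ring

open Classical in
/-- the functions with simple poles in `B` -/
def calgΨ : CalgU D →ₗ[ℂ] (J → ℂ → ℂ) where
  toFun u j w := if w ∈ D.B (D.s j) then 0 else
    pf (D.B (D.s j)) (calgS D u (D.s j)) (fun _ => 0) w
  map_add' v v' := by
    ext j w
    simp only [Pi.add_apply]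
    split_ifs with h
    · simp
    · rw [← calg_pf_add]
      congr 1
      · ext a; exact calgS_add D v v' _ a
      · ext a; simp
  map_smul' c v := by
    ext j w
    simp only [Pi.smul_apply, RingHom.id_apply, smul_eq_mul]
    split_ifs with h
    · simp
    · rw [← calg_pf_smul]
      congr 1
      · ext a; exact calgS_smul D c v _ a
      · ext a; simp

omit [Fintype ι] in
theorem calgMomA_ker {v : CalgV D} (hv : v ∈ LinearMap.ker (calgMomA D)) (j : J) :
    Mom (D.A j) (calgR D v j) (D.β (calgα D v) j) := by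
  rw [LinearMap.mem_ker] at hv
  have h := congrFun hv j
  exact ⟨congrArg Prod.fst h, congrArg Prod.snd h⟩

theorem calg_range_le :
    Submodule.map (calgΦ D) (LinearMap.ker (calgMomA D)) ≤
      Submodule.map (calgΨ D) (LinearMap.ker (calgMomB D)) := by
  classical
  rintro _ ⟨v, hv, rfl⟩
  have hM := calgMomA_ker D hv
  choose ρ hρ1 hρ2 using fun j => calg_rep D (calgR D v) (calgα D v) hM j
  let u : CalgU D := fun x => ρ (D.s.symm x.1) x.2.1
  have hu : ∀ j a, a ∈ D.B j → calgS D u j a = ρ (D.s.symm j) a := by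
    intro j a ha
    simp [calgS, ha, u]
  have hρ1' : ∀ j, Mom (D.B j) (ρ (D.s.symm j)) (fun _ => 0) := by
    intro j
    have := hρ1 (D.s.symm j)
    rwa [Equiv.apply_symm_apply] at this
  refine ⟨u, ?_, ?_⟩
  · rw [SetLike.mem_coe, LinearMap.mem_ker]
    ext j
    · change ∑ a ∈ D.B j, calgS D u j a = 0
      rw [Finset.sum_congr rfl (fun a ha => hu j a ha)]
      exact (hρ1' j).1
    · change ∑ a ∈ D.B j, calgS D u j a * a = 0
      rw [Finset.sum_congr rfl (fun a ha => by rw [hu j a ha])]
      simpa using (hρ1' j).2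
  · ext j w
    change (if w ∈ D.B (D.s j) then (0 : ℂ) else
      pf (D.B (D.s j)) (calgS D u (D.s j)) (fun _ => 0) w) =
      (if w ∈ D.B (D.s j) then (0 : ℂ) else
        calgG D v (D.s j) w - push (D.T j) (calgG D v j) w)
    split_ifs with h
    · rfl
    · rw [show calgG D v (D.s j) w - push (D.T j) (calgG D v j) w =
        pf (D.B (D.s j)) (ρ j) (fun _ => 0) w from hρ2 j w h]
      unfold pf
      refine Finset.sum_congr rfl (fun a ha => ?_)
      rw [hu (D.s j) a ha, Equiv.symm_apply_apply]

omit [Fintype ι] in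
theorem calg_momB_surj : Function.Surjective (calgMomB D) := by
  classical
  intro c
  have h2 : ∀ j, ∃ b : ℂ × ℂ, b.1 ∈ D.B j ∧ b.2 ∈ D.B j ∧ b.1 ≠ b.2 := by
    intro j
    obtain ⟨x, hx, y, hy, hxy⟩ := Finset.one_lt_card.1 (D.B_two j)
    exact ⟨(x, y), hx, hy, hxy⟩
  choose b hb1 hb2 hb3 using h2
  let f : J → ℂ → ℂ := fun j a =>
    if a = (b j).1 then ((c j).2 - (c j).1 * (b j).2) / ((b j).1 - (b j).2)
    else if a = (b j).2 then ((c j).1 * (b j).1 - (c j).2) / ((b j).1 - (b j).2) else 0
  have hd : ∀ j, (b j).1 - (b j).2 ≠ 0 := fun j => sub_ne_zero.2 (hb3 j)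
  have key : ∀ (j : J) (φ : ℂ → ℂ), ∑ a ∈ D.B j, f j a * φ a =
      ((c j).2 - (c j).1 * (b j).2) / ((b j).1 - (b j).2) * φ (b j).1 +
      ((c j).1 * (b j).1 - (c j).2) / ((b j).1 - (b j).2) * φ (b j).2 := by
    intro j φ
    have hsub : ({(b j).1, (b j).2} : Finset ℂ) ⊆ D.B j := by
      intro x hx
      simp only [Finset.mem_insert, Finset.mem_singleton] at hx
      rcases hx with rfl | rfl
      · exact hb1 j
      · exact hb2 j
    rw [← Finset.sum_subset hsub]
    · rw [Finset.sum_pair (hb3 j)]
      simp [f, (hb3 j).symm]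
    · intro x _ hx
      simp only [Finset.mem_insert, Finset.mem_singleton, not_or] at hx
      simp [f, hx.1, hx.2]
  refine ⟨fun x => f x.1 x.2.1, ?_⟩
  have hu : ∀ j a, a ∈ D.B j →
      calgS D (fun x : (Σ j : J, {a // a ∈ D.B j}) => f x.1 x.2.1) j a = f j a := by
    intro j a ha
    simp [calgS, ha]
  ext j
  · change ∑ a ∈ D.B j, calgS D _ j a = (c j).1
    rw [Finset.sum_congr rfl (fun a ha => hu j a ha)]
    have := key j (fun _ => 1)
    simp only [mul_one] at this
    rw [this]
    field_simp [hd j]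
    ring
  · change ∑ a ∈ D.B j, calgS D _ j a * a = (c j).2
    rw [Finset.sum_congr rfl (fun a ha => by rw [hu j a ha])]
    rw [key j (fun a => a)]
    field_simp [hd j]
    ring

theorem exists_fixed (D : CData J ι)
    (h : ∑ j, (D.B j).card < Fintype.card ι + ∑ j, (D.A j).card) :
    ∃ (r : J → ℂ → ℂ) (α : ι → ℂ), D.Fixed r α := by
  classical
  -- dimensions
  have hV : Module.finrank ℂ (CalgV D) = Fintype.card ι + ∑ j, (D.A j).card := by
    rw [Module.finrank_fintype_fun_eq_card, Fintype.card_sum, Fintype.card_sigma, add_comm]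
    simp
  have hU : Module.finrank ℂ (CalgU D) = ∑ j, (D.B j).card := by
    rw [Module.finrank_fintype_fun_eq_card, Fintype.card_sigma]
    simp
  have hA := LinearMap.finrank_range_add_finrank_ker (calgMomA D)
  have hB := LinearMap.finrank_range_add_finrank_ker (calgMomB D)
  rw [LinearMap.range_eq_top.2 (calg_momB_surj D), finrank_top] at hB
  have hA1 : Module.finrank ℂ (LinearMap.range (calgMomA D)) ≤ Module.finrank ℂ (J → ℂ × ℂ) :=
    Submodule.finrank_le _
  let Φ' := (calgΦ D).domRestrict (LinearMap.ker (calgMomA D))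
  have hΦ := LinearMap.finrank_range_add_finrank_ker Φ'
  have hr : LinearMap.range Φ' = Submodule.map (calgΦ D) (LinearMap.ker (calgMomA D)) := by
    rw [LinearMap.range_domRestrict]
  have h1 : Module.finrank ℂ (LinearMap.range Φ') ≤
      Module.finrank ℂ (LinearMap.ker (calgMomB D)) := by
    rw [hr]
    exact (Submodule.finrank_mono (calg_range_le D)).trans (Submodule.finrank_map_le _ _)
  have h2 : 0 < Module.finrank ℂ (LinearMap.ker Φ') := by omega
  have h3 : LinearMap.ker Φ' ≠ ⊥ := by
    intro h0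
    rw [h0, finrank_bot] at h2
    exact lt_irrefl _ h2
  obtain ⟨⟨v, hv⟩, hvk, hv0⟩ := Submodule.exists_mem_ne_zero_of_ne_bot h3
  have hv0' : v ≠ 0 := fun h0 => hv0 (Subtype.ext h0)
  have hΦv : calgΦ D v = 0 := hvk
  refine ⟨calgR D v, calgα D v, calgMomA_ker D hv, ?_, ?_⟩
  · obtain ⟨x, hx⟩ := Function.ne_iff.1 hv0'
    rcases x with ⟨j, a, ha⟩ | i
    · refine ⟨j, a, ha, Or.inl ?_⟩
      simpa [calgR, ha] using hx
    · obtain ⟨j, z, hz, hzi⟩ := D.o_surj i
      refine ⟨j, z, D.ZA j hz, Or.inr ?_⟩
      simpa [CData.β, hz, hzi, calgα] using hx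
  · intro j w hw
    have h4 := congrFun (congrFun hΦv j) w
    change (if w ∈ D.B (D.s j) then (0 : ℂ) else
      calgG D v (D.s j) w - push (D.T j) (calgG D v j) w) = 0 at h4
    rw [if_neg hw, sub_eq_zero] at h4
    exact h4

end

end FS16
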