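import Pool.Agent.FS16.CRoots

/-!
# Local inverse branches over a regular value, differentiability of the push forward

MODULE C-BRANCH.  Let `w₀` be a regular value, `z₁, …, z_d` the points of the fibre (`card_fib`).
`T.ev` is analytic at `z_i` with derivative `T.der z_i ≠ 0` (`der_ne`); take the local inverse `h_i`
with `h_i w₀ = z_i` (e.g. `HasStrictDerivAt.localInverse`, or `AnalyticAt`/`OpenPartialHomeomorph`),
defined and differentiable on a small ball, with values in a small neighbourhood `N_i` of `z_i`; the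
`N_i` are disjoint and contain no pole.  The set of irregular values is finite (`finite_irreg`), so
the ball may be chosen inside the regular values.  For `w` in the ball the `h_i w` are `d` distinct
elements of `fib w`, which has `d` elements, so they are all.  Derivative of `h_i` by the chain rule.
-/

open Polynomial Metric

noncomputable section

namespace FS16

theorem hasStrictDerivAt_ev (T : RM ℂ) {z : ℂ} (hq : T.q.eval z ≠ 0) :
    HasStrictDerivAt T.ev (T.der z) z := by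
  have h := (T.p.hasStrictDerivAt z).div (T.q.hasStrictDerivAt z) hq
  have e : T.der z = ((derivative T.p).eval z * T.q.eval z - T.p.eval z * (derivative T.q).eval z) /
      T.q.eval z ^ 2 := by
    unfold RM.der RM.wr
    simp
  rw [e]
  exact h

/-- one local inverse branch -/
theorem exists_branch (T : RM ℂ) {z w₀ : ℂ} (hq : T.q.eval z ≠ 0) (hz : T.ev z = w₀)
    (hder : T.der z ≠ 0) :
    ∃ g : ℂ → ℂ, g w₀ = z ∧ (∀ᶠ w in nhds w₀, T.ev (g w) = w) ∧
      ∀ᶠ w in nhds w₀, ContinuousAt g w := by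
  subst hz
  have h1 := (hasStrictDerivAt_ev T hq).hasStrictFDerivAt_equiv hder
  set e := h1.toOpenPartialHomeomorph T.ev with he
  have hsrc : z ∈ e.source := h1.mem_toOpenPartialHomeomorph_source
  have htgt : T.ev z ∈ e.target := h1.image_mem_toOpenPartialHomeomorph_target
  have hcoe : ∀ x, e x = T.ev x := fun x => rfl
  refine ⟨e.symm, ?_, ?_, ?_⟩
  · rw [← hcoe z]
    exact e.left_inv hsrc
  · filter_upwards [e.open_target.mem_nhds htgt] with w hw
    rw [← hcoe]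
    exact e.right_inv hw
  · filter_upwards [e.open_target.mem_nhds htgt] with w hw
    exact e.symm.continuousAt hw

/-- local inverse branches, indexed by the points of the fibre of `w₀` -/
theorem exists_branches (T : RM ℂ) (hd : 1 ≤ T.deg) {w₀ : ℂ} (h₀ : T.Reg w₀) :
    ∃ ε > 0, ∃ h : ℂ → ℂ → ℂ,
      (∀ w ∈ ball w₀ ε, T.Reg w) ∧
      (∀ z ∈ T.fib w₀, h z w₀ = z) ∧
      (∀ z ∈ T.fib w₀, ∀ w ∈ ball w₀ ε, h z w ∈ T.fib w) ∧
      (∀ w ∈ ball w₀ ε, ∀ z ∈ T.fib w₀, ∀ z' ∈ T.fib w₀, h z w = h z' w → z = z') ∧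
      (∀ w ∈ ball w₀ ε, ∀ y ∈ T.fib w, ∃ z ∈ T.fib w₀, h z w = y) ∧
      (∀ z ∈ T.fib w₀, ∀ w ∈ ball w₀ ε, HasDerivAt (h z) (T.der (h z w))⁻¹ w) := by
  classical
  have hfib : ∀ z ∈ T.fib w₀, T.q.eval z ≠ 0 ∧ T.ev z = w₀ := fun z hz =>
    (T.mem_fib hd w₀ z).1 hz
  have hb : ∀ z ∈ T.fib w₀, ∃ g : ℂ → ℂ, g w₀ = z ∧ (∀ᶠ w in nhds w₀, T.ev (g w) = w) ∧
      ∀ᶠ w in nhds w₀, ContinuousAt g w := fun z hz =>
    exists_branch T (hfib z hz).1 (hfib z hz).2 (T.der_ne h₀ (hfib z hz).1 (hfib z hz).2)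
  choose! h hh1 hh2 hh3 using hb
  have e1 : ∀ᶠ w in nhds w₀, T.Reg w := by
    have h1 : IsOpen {w | ¬ T.Reg w}ᶜ := (T.finite_irreg hd).isClosed.isOpen_compl
    have h2 : w₀ ∈ {w | ¬ T.Reg w}ᶜ := fun h => h h₀
    filter_upwards [h1.mem_nhds h2] with w hw
    exact not_not.1 hw
  have e2 : ∀ᶠ w in nhds w₀, ∀ z ∈ T.fib w₀, ∀ᶠ w' in nhds w, T.ev (h z w') = w' :=
    (Filter.eventually_all_finset _).2 fun z hz => eventually_eventually_nhds.2 (hh2 z hz)
  have e3 : ∀ᶠ w in nhds w₀, ∀ z ∈ T.fib w₀, ContinuousAt (h z) w :=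
    (Filter.eventually_all_finset _).2 fun z hz => hh3 z hz
  have hc : ∀ z ∈ T.fib w₀, ContinuousAt (h z) w₀ := fun z hz => (hh3 z hz).self_of_nhds
  have e4 : ∀ᶠ w in nhds w₀, ∀ z ∈ T.fib w₀, T.q.eval (h z w) ≠ 0 := by
    refine (Filter.eventually_all_finset _).2 fun z hz => ?_
    have h1 : ContinuousAt (fun w => T.q.eval (h z w)) w₀ :=
      T.q.continuous.continuousAt.comp (hc z hz)
    refine h1.eventually_ne ?_
    rw [hh1 z hz]
    exact (hfib z hz).1
  have e5 : ∀ᶠ w in nhds w₀, ∀ z ∈ T.fib w₀, ∀ z' ∈ T.fib w₀, z ≠ z' → h z w ≠ h z' w := by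
    refine (Filter.eventually_all_finset _).2 fun z hz => ?_
    refine (Filter.eventually_all_finset _).2 fun z' hz' => ?_
    by_cases hne : z = z'
    · exact Filter.Eventually.of_forall fun w h => absurd hne h
    · have h1 : ContinuousAt (fun w => h z w - h z' w) w₀ := (hc z hz).sub (hc z' hz')
      have h2 : ∀ᶠ w in nhds w₀, h z w - h z' w ≠ 0 := by
        refine h1.eventually_ne ?_
        rw [hh1 z hz, hh1 z' hz']
        exact sub_ne_zero.2 hne
      filter_upwards [h2] with w hw _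
      exact sub_ne_zero.1 hw
  obtain ⟨ε, hε, H⟩ := Metric.eventually_nhds_iff_ball.1 (e1.and (e2.and (e3.and (e4.and e5))))
  have hmem : ∀ z ∈ T.fib w₀, ∀ w ∈ ball w₀ ε, h z w ∈ T.fib w := by
    intro z hz w hw
    obtain ⟨_, h2, _, h4, _⟩ := H w hw
    exact (T.mem_fib hd w _).2 ⟨h4 z hz, (h2 z hz).self_of_nhds⟩
  have hinj : ∀ w ∈ ball w₀ ε, ∀ z ∈ T.fib w₀, ∀ z' ∈ T.fib w₀, h z w = h z' w → z = z' := by
    intro w hw z hz z' hz' he
    by_contra hne
    exact (H w hw).2.2.2.2 z hz z' hz' hne he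
  refine ⟨ε, hε, h, fun w hw => (H w hw).1, hh1, hmem, hinj, ?_, ?_⟩
  · intro w hw y hy
    have h1 : (T.fib w₀).image (fun z => h z w) = T.fib w := by
      refine Finset.eq_of_subset_of_card_le ?_ ?_
      · intro x hx
        obtain ⟨z, hz, rfl⟩ := Finset.mem_image.1 hx
        exact hmem z hz w hw
      · rw [Finset.card_image_of_injOn, T.card_fib hd h₀, T.card_fib hd (H w hw).1]
        intro z hz z' hz' he
        exact hinj w hw z hz z' hz' he
    rw [← h1] at hy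
    obtain ⟨z, hz, rfl⟩ := Finset.mem_image.1 hy
    exact ⟨z, hz, rfl⟩
  · intro z hz w hw
    obtain ⟨h1, h2, h3, h4, _⟩ := H w hw
    exact HasDerivAt.of_local_left_inverse (h3 z hz) (hasDerivAt_ev T (h4 z hz))
      (T.der_ne h1 (h4 z hz) (h2 z hz).self_of_nhds) (h2 z hz)

/-- sums over the fibre, in terms of the branches -/
theorem sum_fib_eq {M : Type*} [AddCommMonoid M] (T : RM ℂ) {w₀ w : ℂ} {h : ℂ → ℂ → ℂ}
    (h1 : ∀ z ∈ T.fib w₀, h z w ∈ T.fib w)
    (h2 : ∀ z ∈ T.fib w₀, ∀ z' ∈ T.fib w₀, h z w = h z' w → z = z')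
    (h3 : ∀ y ∈ T.fib w, ∃ z ∈ T.fib w₀, h z w = y) (φ : ℂ → M) :
    ∑ y ∈ T.fib w, φ y = ∑ z ∈ T.fib w₀, φ (h z w) := by
  symm
  refine Finset.sum_bij (fun z _ => h z w) h1 (fun z hz z' hz' he => h2 z hz z' hz' he) ?_
    (fun z _ => rfl)
  intro y hy
  obtain ⟨z, hz, he⟩ := h3 y hy
  exact ⟨z, hz, he⟩

/-- the push forward is differentiable at regular values -/
theorem push_differentiableAt (T : RM ℂ) (hd : 1 ≤ T.deg) {w₀ : ℂ} (h₀ : T.Reg w₀) {g : ℂ → ℂ}
    (hg : ∀ z ∈ T.fib w₀, ∀ᶠ z' in nhds z, DifferentiableAt ℂ g z') :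
    DifferentiableAt ℂ (push T g) w₀ := by
  obtain ⟨ε, hε, h, hreg, h1, h2, h3, h4, h5⟩ := exists_branches T hd h₀
  have hfib : ∀ z ∈ T.fib w₀, T.q.eval z ≠ 0 ∧ T.ev z = w₀ := fun z hz =>
    (T.mem_fib hd w₀ z).1 hz
  have key : DifferentiableAt ℂ (fun w => ∑ z ∈ T.fib w₀, g (h z w) / T.der (h z w) ^ 2) w₀ := by
    refine DifferentiableAt.fun_sum fun z hz => ?_
    have hh : DifferentiableAt ℂ (h z) w₀ := (h5 z hz w₀ (mem_ball_self hε)).differentiableAt
    have hgz : DifferentiableAt ℂ g (h z w₀) := by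
      rw [h1 z hz]
      exact (hg z hz).self_of_nhds
    have hdz : DifferentiableAt ℂ T.der (h z w₀) := by
      rw [h1 z hz]
      exact differentiableAt_der T (hfib z hz).1
    have hne : T.der (h z w₀) ^ 2 ≠ 0 := by
      rw [h1 z hz]
      exact pow_ne_zero 2 (T.der_ne h₀ (hfib z hz).1 (hfib z hz).2)
    exact (hgz.comp w₀ hh).div ((hdz.comp w₀ hh).pow 2) hne
  refine key.congr_of_eventuallyEq ?_
  filter_upwards [ball_mem_nhds w₀ hε] with w hw
  exact sum_fib_eq T (fun z hz => h2 z hz w hw) (h3 w hw) (h4 w hw) _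

/-- continuity of the sum of the absolute values -/
theorem absPush_continuousAt (T : RM ℂ) (hd : 1 ≤ T.deg) {w₀ : ℂ} (h₀ : T.Reg w₀) {g : ℂ → ℂ}
    (hg : ∀ z ∈ T.fib w₀, ContinuousAt g z) :
    ContinuousAt (fun w => ∑ z ∈ T.fib w, ‖g z‖ / ‖T.der z‖ ^ 2) w₀ := by
  obtain ⟨ε, hε, h, hreg, h1, h2, h3, h4, h5⟩ := exists_branches T hd h₀
  have hfib : ∀ z ∈ T.fib w₀, T.q.eval z ≠ 0 ∧ T.ev z = w₀ := fun z hz =>
    (T.mem_fib hd w₀ z).1 hz
  have key : ContinuousAt (fun w => ∑ z ∈ T.fib w₀, ‖g (h z w)‖ / ‖T.der (h z w)‖ ^ 2) w₀ := by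
    refine tendsto_finsetSum _ fun z hz => ?_
    have hh : ContinuousAt (h z) w₀ := (h5 z hz w₀ (mem_ball_self hε)).continuousAt
    have hgz : ContinuousAt g (h z w₀) := by
      rw [h1 z hz]
      exact hg z hz
    have hdz : ContinuousAt T.der (h z w₀) := by
      rw [h1 z hz]
      exact (differentiableAt_der T (hfib z hz).1).continuousAt
    have hne : ‖T.der (h z w₀)‖ ^ 2 ≠ 0 := by
      rw [h1 z hz]
      exact pow_ne_zero 2 (norm_ne_zero_iff.2 (T.der_ne h₀ (hfib z hz).1 (hfib z hz).2))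
    exact (ContinuousAt.comp (f := h z) (g := g) hgz hh).norm.div
      (((ContinuousAt.comp (f := h z) (g := T.der) hdz hh).norm).pow 2) hne
  refine key.congr_of_eventuallyEq ?_
  filter_upwards [ball_mem_nhds w₀ hε] with w hw
  exact sum_fib_eq T (fun z hz => h2 z hz w hw) (h3 w hw) (h4 w hw) _

end FS16
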