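import Pool.Agent.FS16.CBranch

/-!
# Change of variables for a rational map

MODULE C-CHANGE.  `∫_{T⁻¹ S} g(z) dz = ∫_S ∑_{T z = w} g(z)/|T'(z)|² dw`.

Proof.  The irregular values are finitely many (`finite_irreg`), their fibres are finite; remove
them (null sets).  Cover the (open) set of regular values by countably many balls as in
`exists_branches` (Lindelöf) and write `S`, up to a null set, as a countable disjoint union of
measurable sets `S_k`, each inside such a ball with branches `h_z`, `z ∈ fib w_k`.  Then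
`{z | q z ≠ 0, T z ∈ S_k}` is the disjoint union of the `h_z '' S_k`, `z ∈ fib w_k`, and
`∫_{h_z '' S_k} g = ∫_{S_k} |h_z'(w)|² g(h_z w) dw` by
`MeasureTheory.lintegral_image_eq_lintegral_abs_det_fderiv_mul` (the real Jacobian determinant of
multiplication by `c` is `|c|²`), `h_z' = 1/T'(h_z)`; sum over `z` and use `sum_fib_eq`.
-/

open Polynomial MeasureTheory ENNReal

noncomputable section

namespace FS16

/-- change of variables for one injective branch -/
theorem lintegral_branch {h : ℂ → ℂ} {h' : ℂ → ℂ} {S : Set ℂ} (hS : MeasurableSet S)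
    (hh : ∀ w ∈ S, HasDerivAt h (h' w) w) (hinj : Set.InjOn h S) (g : ℂ → ℝ≥0∞) :
    ∫⁻ z in h '' S, g z = ∫⁻ w in S, ‖h' w‖ₑ ^ 2 * g (h w) := by
  have hF : ∀ w ∈ S, HasFDerivWithinAt h
      ((ContinuousLinearMap.toSpanSingleton ℂ (h' w)).restrictScalars ℝ) S w := by
    intro w hw
    have := (hh w hw).hasFDerivAt.restrictScalars ℝ
    exact this.hasFDerivWithinAt
  rw [lintegral_image_eq_lintegral_abs_det_fderiv_mul volume hS hF hinj g]
  apply setLIntegral_congr_fun hS
  intro w _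
  have hdet : ((ContinuousLinearMap.toSpanSingleton ℂ (h' w)).restrictScalars ℝ).det =
      Complex.normSq (h' w) := by
    rw [← Algebra.norm_complex_apply, Algebra.norm_apply]
    unfold ContinuousLinearMap.det
    congr 1
    ext
    simp [mul_comm]
  simp only
  rw [hdet, abs_of_nonneg (Complex.normSq_nonneg _), Complex.normSq_eq_norm_sq,
    ENNReal.ofReal_pow (norm_nonneg _), ofReal_norm]

theorem cc_measurable_ev (T : RM ℂ) : Measurable T.ev := by
  unfold RM.ev
  have h1 : Measurable fun z : ℂ => T.p.eval z := T.p.continuous.measurable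
  have h2 : Measurable fun z : ℂ => T.q.eval z := T.q.continuous.measurable
  exact h1.div h2

theorem cc_measurable_der (T : RM ℂ) : Measurable T.der := by
  unfold RM.der
  have h1 : Measurable fun z : ℂ => T.wr.eval z := T.wr.continuous.measurable
  have h2 : Measurable fun z : ℂ => T.q.eval z := T.q.continuous.measurable
  exact h1.div (h2.pow_const 2)

theorem cc_local (T : RM ℂ) (hd : 1 ≤ T.deg) {g : ℂ → ℝ≥0∞} (hg : Measurable g) {w₀ : ℂ}
    (h₀ : T.Reg w₀) : ∃ ε > 0, ∀ S ⊆ Metric.ball w₀ ε, MeasurableSet S →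
    ∫⁻ z in {z | T.q.eval z ≠ 0 ∧ T.ev z ∈ S}, g z =
      ∫⁻ w in S, ∑ z ∈ T.fib w, g z / ‖T.der z‖ₑ ^ 2 := by
  obtain ⟨ε, hε, h, hreg, -, hmem, hinj, hsurj, hder⟩ := exists_branches T hd h₀
  refine ⟨ε, hε, ?_⟩
  intro S hSb hS
  have hset : {z | T.q.eval z ≠ 0 ∧ T.ev z ∈ S} = ⋃ z ∈ T.fib w₀, h z '' S := by
    ext y
    simp only [Set.mem_ofPred_eq, Set.mem_iUnion, Set.mem_image, exists_prop]
    constructor
    · rintro ⟨hq, hy⟩
      have hyf : y ∈ T.fib (T.ev y) := (RM.mem_fib T hd _ _).mpr ⟨hq, rfl⟩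
      obtain ⟨z, hz, hzy⟩ := hsurj _ (hSb hy) y hyf
      exact ⟨z, hz, _, hy, hzy⟩
    · rintro ⟨z, hz, w, hw, rfl⟩
      have := (RM.mem_fib T hd _ _).mp (hmem z hz w (hSb hw))
      exact ⟨this.1, by rw [this.2]; exact hw⟩
  have hev : ∀ z ∈ T.fib w₀, ∀ w ∈ S, T.ev (h z w) = w := fun z hz w hw =>
    ((RM.mem_fib T hd _ _).mp (hmem z hz w (hSb hw))).2
  have hinjS : ∀ z ∈ T.fib w₀, Set.InjOn (h z) S := by
    intro z hz w hw w' hw' e
    rw [← hev z hz w hw, ← hev z hz w' hw', e]
  have hcont : ∀ z ∈ T.fib w₀, ContinuousOn (h z) S := fun z hz w hw =>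
    (hder z hz w (hSb hw)).continuousAt.continuousWithinAt
  have hmeas : ∀ z ∈ T.fib w₀, MeasurableSet (h z '' S) := fun z hz =>
    hS.image_of_continuousOn_injOn (hcont z hz) (hinjS z hz)
  have hdisj : (↑(T.fib w₀) : Set ℂ).PairwiseDisjoint fun z => h z '' S := by
    intro z hz z' hz' hne
    rw [Function.onFun, Set.disjoint_left]
    rintro y ⟨w, hw, rfl⟩ ⟨w', hw', e⟩
    have hww : w' = w := by
      rw [← hev z' hz' w' hw', ← hev z hz w hw, e]
    subst hww
    exact hne (hinj w' (hSb hw') z hz z' hz' e.symm)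
  rw [hset, lintegral_biUnion_finset hdisj hmeas]
  have h1 : ∀ z ∈ T.fib w₀, ∫⁻ y in h z '' S, g y =
      ∫⁻ w in S, g (h z w) / ‖T.der (h z w)‖ₑ ^ 2 := by
    intro z hz
    rw [lintegral_branch hS (fun w hw => hder z hz w (hSb hw)) (hinjS z hz)]
    apply setLIntegral_congr_fun hS
    intro w hw
    have hm := (RM.mem_fib T hd _ _).mp (hmem z hz w (hSb hw))
    have hne : T.der (h z w) ≠ 0 := T.der_ne (hreg w (hSb hw)) hm.1 hm.2
    simp only
    rw [enorm_inv hne, ENNReal.div_eq_inv_mul, ENNReal.inv_pow]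
  rw [Finset.sum_congr rfl h1, ← lintegral_finsetSum']
  · apply setLIntegral_congr_fun hS
    intro w hw
    simp only
    exact (sum_fib_eq T (fun z hz => hmem z hz w (hSb hw)) (hinj w (hSb hw)) (hsurj w (hSb hw))
      (fun y => g y / ‖T.der y‖ₑ ^ 2)).symm
  · intro z hz
    have hh : AEMeasurable (h z) (volume.restrict S) := (hcont z hz).aemeasurable hS
    exact (hg.comp_aemeasurable hh).div
      (((cc_measurable_der T).comp_aemeasurable hh).enorm.pow_const 2)

theorem lintegral_preimage (T : RM ℂ) (hd : 1 ≤ T.deg) {g : ℂ → ℝ≥0∞} (hg : Measurable g)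
    {S : Set ℂ} (hS : MeasurableSet S) :
    ∫⁻ z in {z | T.q.eval z ≠ 0 ∧ T.ev z ∈ S}, g z =
      ∫⁻ w in S, ∑ z ∈ T.fib w, g z / ‖T.der z‖ₑ ^ 2 := by
  classical
  have hqm : MeasurableSet {z : ℂ | T.q.eval z ≠ 0} :=
    (T.q.continuous.measurable (measurableSet_singleton 0)).compl
  set μ₁ : Measure ℂ := ((volume.restrict {z : ℂ | T.q.eval z ≠ 0}).withDensity g).map T.ev with hμ₁
  set μ₂ : Measure ℂ := volume.withDensity fun w => ∑ z ∈ T.fib w, g z / ‖T.der z‖ₑ ^ 2 with hμ₂
  have e₁ : ∀ S, MeasurableSet S → μ₁ S = ∫⁻ z in {z | T.q.eval z ≠ 0 ∧ T.ev z ∈ S}, g z := by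
    intro S hS
    rw [hμ₁, Measure.map_apply (cc_measurable_ev T) hS, withDensity_apply _
      (cc_measurable_ev T hS), Measure.restrict_restrict (cc_measurable_ev T hS)]
    congr 2
    ext z
    simp [and_comm]
  have e₂ : ∀ S, MeasurableSet S → μ₂ S = ∫⁻ w in S, ∑ z ∈ T.fib w, g z / ‖T.der z‖ₑ ^ 2 := by
    intro S hS
    rw [hμ₂, withDensity_apply _ hS]
  have hfin := T.finite_irreg hd
  have hreg : MeasurableSet {w | T.Reg w} := by
    have := hfin.measurableSet.compl
    convert this using 1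
    ext w
    simp
  -- the irregular values do not matter
  have n₁ : μ₁ {w | ¬ T.Reg w} = 0 := by
    rw [e₁ _ hfin.measurableSet]
    apply setLIntegral_measure_zero
    have hsub : {z | T.q.eval z ≠ 0 ∧ T.ev z ∈ {w | ¬ T.Reg w}} ⊆
        ⋃ w ∈ {w | ¬ T.Reg w}, (↑(T.fib w) : Set ℂ) := by
      rintro z ⟨hq, hz⟩
      simp only [Set.mem_iUnion]
      exact ⟨T.ev z, hz, (RM.mem_fib T hd _ _).mpr ⟨hq, rfl⟩⟩
    have : (⋃ w ∈ {w | ¬ T.Reg w}, (↑(T.fib w) : Set ℂ)).Finite :=
      hfin.biUnion fun w _ => (T.fib w).finite_toSet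
    exact (this.subset hsub).measure_zero _
  have n₂ : μ₂ {w | ¬ T.Reg w} = 0 := by
    rw [e₂ _ hfin.measurableSet]
    exact setLIntegral_measure_zero _ _ (hfin.measure_zero _)
  -- the regular values
  have hR : μ₁.restrict {w | T.Reg w} = μ₂.restrict {w | T.Reg w} := by
    choose! ε hε hloc using fun w₀ (h₀ : T.Reg w₀) => cc_local T hd hg h₀
    obtain ⟨t, ht, htc, hcov⟩ := TopologicalSpace.countable_cover_nhdsWithin
      (f := fun w => Metric.ball w (ε w)) (s := {w | T.Reg w})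
      (fun w hw => mem_nhdsWithin_of_mem_nhds (Metric.ball_mem_nhds w (hε w hw)))
    have hU : μ₁.restrict (⋃ w ∈ t, Metric.ball w (ε w)) =
        μ₂.restrict (⋃ w ∈ t, Metric.ball w (ε w)) := by
      rw [Measure.restrict_biUnion_congr htc]
      intro w hw
      ext S hS
      rw [Measure.restrict_apply hS, Measure.restrict_apply hS,
        e₁ _ (hS.inter measurableSet_ball), e₂ _ (hS.inter measurableSet_ball)]
      exact hloc w (ht hw) _ Set.inter_subset_right (hS.inter measurableSet_ball)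
    rw [← Measure.restrict_restrict_of_subset hcov, hU, Measure.restrict_restrict_of_subset hcov]
  have key : μ₁ = μ₂ := by
    have a₁ : μ₁.restrict {w | T.Reg w} = μ₁ := by
      apply Measure.restrict_eq_self_of_ae_mem
      exact n₁
    have a₂ : μ₂.restrict {w | T.Reg w} = μ₂ := by
      apply Measure.restrict_eq_self_of_ae_mem
      exact n₂
    rw [← a₁, hR, a₂]
  rw [← e₁ S hS, key, e₂ S hS]

/-- measurability of the integrand -/
theorem measurable_sum_fib (T : RM ℂ) (hd : 1 ≤ T.deg) {g : ℂ → ℂ}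
    (S : Finset ℂ) (hg : ∀ z ∉ S, ContinuousAt g z) :
    AEMeasurable fun w => ∑ z ∈ T.fib w, ‖g z‖ₑ / ‖T.der z‖ₑ ^ 2 := by
  classical
  set E : Set ℂ := {w | ¬ T.Reg w} ∪ ↑(S.image T.ev) with hE
  have hfin : E.Finite := (T.finite_irreg hd).union (Finset.finite_toSet _)
  have hcont : ContinuousOn (fun w => ∑ z ∈ T.fib w, ‖g z‖ / ‖T.der z‖ ^ 2) Eᶜ := by
    intro w hw
    have hreg : T.Reg w := by
      by_contra h
      exact hw (Or.inl h)
    refine (absPush_continuousAt T hd hreg ?_).continuousWithinAt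
    intro z hz
    apply hg
    intro hzS
    apply hw
    right
    rw [Finset.coe_image]
    exact ⟨z, hzS, ((RM.mem_fib T hd _ _).mp hz).2⟩
  have h1 := hcont.aemeasurable (μ := volume) hfin.measurableSet.compl
  have hae : ∀ᵐ w : ℂ, w ∈ Eᶜ := by
    have : volume E = 0 := hfin.measure_zero _
    rw [MeasureTheory.ae_iff]
    simpa using this
  rw [Measure.restrict_eq_self_of_ae_mem hae] at h1
  refine h1.ennreal_ofReal.congr ?_
  filter_upwards [hae] with w hw
  have hreg : T.Reg w := by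
    by_contra h
    exact hw (Or.inl h)
  rw [ENNReal.ofReal_sum_of_nonneg]
  · apply Finset.sum_congr rfl
    intro z hz
    have hm := (RM.mem_fib T hd _ _).mp hz
    have hne : T.der z ≠ 0 := T.der_ne hreg hm.1 hm.2
    rw [ENNReal.ofReal_div_of_pos (by positivity), ofReal_norm,
      ENNReal.ofReal_pow (norm_nonneg _), ofReal_norm]
  · intro z _
    positivity

end FS16
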