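import Pool.Agent.FS16.CDefs

/-!
# Fibres of a rational map

MODULE C-ROOTS.  `T = p/q`, `d = T.deg = max (deg p) (deg q) ≥ 1`, `w` a regular value.

* `natDegree (p - C w * q) = d`: if `deg q < d` then `deg p = d` is the degree; if `deg q = d` the
  coefficient of `X^d` is `p_d - w q_d ≠ 0` because `w ≠ T.inf = p_d / q_d`.
* a root `z` of `p - w q`: `q z ≠ 0` (otherwise `p z = 0`, contradicting coprimality), `T.ev z = w`.
* the roots are simple: the derivative is `p' - w q'`; if it vanishes at the root `z` too then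
  `wr z = p' q - p q' = w q' q - w q q' = 0` at `z`, so `z` is a critical point with value `w`,
  contradicting regularity.  So `p - w q` is separable, it has `d` distinct roots in `ℂ`.
* `push` is linear in `g`.
-/

open Polynomial

noncomputable section

namespace FS16

variable {F : Type*} [Field F]

theorem RM.p_ne {T : RM F} {z : F} (h : T.q.eval z = 0) : T.p.eval z ≠ 0 := by
  intro hp
  obtain ⟨a, b, hab⟩ := T.cop
  have := congrArg (Polynomial.eval z) hab
  rw [eval_add, eval_mul, eval_mul, hp, h, eval_one] at this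
  simp at this

namespace CR

theorem isUnit_of_dvd {p q : F[X]} (h : IsCoprime p q) (hd : q ∣ p) : IsUnit q := by
  obtain ⟨c, rfl⟩ := hd
  exact (IsCoprime.of_mul_left_left h).isUnit_of_dvd' dvd_rfl dvd_rfl

theorem fib_ne_zero (T : RM F) (hd : 1 ≤ T.deg) (w : F) : T.p - C w * T.q ≠ 0 := by
  intro h
  have h1 : T.p = C w * T.q := sub_eq_zero.1 h
  have hu : IsUnit T.q := isUnit_of_dvd T.cop ⟨C w, by rw [h1]; ring⟩
  have h2 : T.q.natDegree = 0 := natDegree_eq_zero_of_isUnit hu
  have h3 : T.p.natDegree = 0 := by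
    rw [h1]
    have := natDegree_C_mul_le w T.q
    omega
  unfold RM.deg at hd
  rw [h2, h3] at hd
  simp at hd

end CR

/-- for every `w` with `p ≠ w q`: the members of the fibre -/
theorem RM.mem_fib (T : RM F) (hd : 1 ≤ T.deg) (w z : F) :
    z ∈ T.fib w ↔ T.q.eval z ≠ 0 ∧ T.ev z = w := by
  classical
  unfold RM.fib
  rw [Multiset.mem_toFinset, mem_roots (CR.fib_ne_zero T hd w), IsRoot.def, eval_sub, eval_mul,
    eval_C, sub_eq_zero]
  unfold RM.ev
  constructor
  · intro h
    have hq : T.q.eval z ≠ 0 := by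
      intro hq
      exact RM.p_ne hq (by rw [h, hq, mul_zero])
    exact ⟨hq, by rw [h]; field_simp⟩
  · rintro ⟨hq, h⟩
    rw [← h]; field_simp

theorem RM.wr_ne (T : RM F) {w z : F} (hw : T.Reg w) (hq : T.q.eval z ≠ 0) (hz : T.ev z = w) :
    T.wr.eval z ≠ 0 := fun h => hw.2 z h hq hz

namespace CR

theorem natDegree_fib (T : RM F) (hd : 1 ≤ T.deg) {w : F} (hw : T.Reg w) :
    (T.p - C w * T.q).natDegree = T.deg := by
  rcases Nat.lt_or_ge T.q.natDegree T.deg with h | h
  · have hp : T.p.natDegree = T.deg := by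
      unfold RM.deg at h ⊢
      rcases Nat.le_total T.p.natDegree T.q.natDegree with h1 | h1
      · rw [max_eq_right h1] at h; omega
      · rw [max_eq_left h1]
    rw [natDegree_sub_eq_left_of_natDegree_lt]
    · exact hp
    · rw [hp]
      exact lt_of_le_of_lt (natDegree_C_mul_le w T.q) h
  · have hq : T.q.natDegree = T.deg := le_antisymm (le_max_right _ _) h
    have hq0 : T.q ≠ 0 := by
      intro h0
      rw [h0, natDegree_zero] at hq
      omega
    have hlead : T.q.coeff T.deg ≠ 0 := by
      rw [← hq]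
      exact leadingCoeff_ne_zero.2 hq0
    refine natDegree_eq_of_le_of_coeff_ne_zero ?_ ?_
    · refine (natDegree_sub_le _ _).trans (max_le (le_max_left _ _) ?_)
      exact (natDegree_C_mul_le w T.q).trans (le_max_right _ _)
    · rw [coeff_sub, coeff_C_mul]
      intro h0
      apply hw.1 hq
      unfold RM.inf
      rw [sub_eq_zero.1 h0]
      field_simp

end CR

theorem RM.card_fib (T : RM ℂ) (hd : 1 ≤ T.deg) {w : ℂ} (hw : T.Reg w) :
    (T.fib w).card = T.deg := by
  have h0 := CR.fib_ne_zero T hd w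
  have hnodup : (T.p - C w * T.q).roots.Nodup := by
    classical
    rw [Multiset.nodup_iff_count_le_one]
    intro z
    rw [count_roots]
    by_contra hlt
    have hlt' : 1 < rootMultiplicity z (T.p - C w * T.q) := by omega
    obtain ⟨h1, h2⟩ := (one_lt_rootMultiplicity_iff_isRoot h0).1 hlt'
    have hz : z ∈ T.fib w := by
      unfold RM.fib
      rw [Multiset.mem_toFinset, mem_roots h0]
      exact h1
    obtain ⟨hq, hev⟩ := (T.mem_fib hd w z).1 hz
    refine T.wr_ne hw hq hev ?_
    rw [IsRoot.def, eval_sub, eval_mul, eval_C, sub_eq_zero] at h1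
    rw [IsRoot.def, derivative_sub, derivative_C_mul, eval_sub, eval_mul, eval_C, sub_eq_zero] at h2
    unfold RM.wr
    rw [eval_sub, eval_mul, eval_mul, h1, h2]
    ring
  unfold RM.fib
  rw [Multiset.toFinset_card_of_nodup hnodup, IsAlgClosed.card_roots_eq_natDegree]
  exact CR.natDegree_fib T hd hw

theorem RM.der_ne (T : RM F) {w z : F} (hw : T.Reg w) (hq : T.q.eval z ≠ 0) (hz : T.ev z = w) :
    T.der z ≠ 0 := by
  unfold RM.der
  exact div_ne_zero (T.wr_ne hw hq hz) (pow_ne_zero 2 hq)

/-- the Wronskian of a non-constant rational map is not zero -/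
theorem RM.wr_ne_zero [CharZero F] (T : RM F) (hd : 1 ≤ T.deg) : T.wr ≠ 0 := by
  intro h
  unfold RM.wr at h
  have h1 : T.q ∣ T.p * derivative T.q := ⟨derivative T.p, by rw [← sub_eq_zero.1 h]; ring⟩
  have h2 : T.q ∣ derivative T.q := T.cop.symm.dvd_of_dvd_mul_left h1
  have h1' : T.p ∣ derivative T.p * T.q := ⟨derivative T.q, by rw [sub_eq_zero.1 h]⟩
  have h3 : T.p ∣ derivative T.p := T.cop.dvd_of_dvd_mul_right h1'
  have key : ∀ f : F[X], f ∣ derivative f → f.natDegree = 0 := by
    intro f hf
    by_contra hne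
    have h4 : derivative f ≠ 0 := by
      intro h5
      exact hne (derivative_eq_zero.1 h5)
    have h5 := natDegree_le_of_dvd hf h4
    have h6 := natDegree_derivative_lt hne
    omega
  unfold RM.deg at hd
  rw [key _ h2, key _ h3] at hd
  simp at hd

/-- there are only finitely many irregular values -/
theorem RM.finite_irreg [CharZero F] (T : RM F) (hd : 1 ≤ T.deg) : {w | ¬ T.Reg w}.Finite := by
  classical
  refine (Set.Finite.union (Set.finite_singleton T.inf)
    ((T.wr.roots.toFinset.finite_toSet).image T.ev)).subset ?_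
  intro w hw
  by_contra hcon
  apply hw
  rw [Set.mem_union, not_or] at hcon
  refine ⟨fun _ h => hcon.1 (by rw [Set.mem_singleton_iff]; exact h.symm), fun c hc _ h => ?_⟩
  apply hcon.2
  refine ⟨c, ?_, h⟩
  rw [Finset.mem_coe, Multiset.mem_toFinset, mem_roots (T.wr_ne_zero hd)]
  exact hc

theorem hasDerivAt_ev (T : RM ℂ) {z : ℂ} (hq : T.q.eval z ≠ 0) : HasDerivAt T.ev (T.der z) z := by
  have h := (T.p.hasDerivAt z).div (T.q.hasDerivAt z) hq
  unfold RM.der RM.wr
  rw [eval_sub, eval_mul, eval_mul]
  exact h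

theorem differentiableAt_der (T : RM ℂ) {z : ℂ} (hq : T.q.eval z ≠ 0) :
    DifferentiableAt ℂ T.der z := by
  unfold RM.der
  exact (T.wr.differentiableAt).div ((T.q.differentiableAt).pow 2) (pow_ne_zero 2 hq)

theorem push_add (T : RM ℂ) (g g' : ℂ → ℂ) (w : ℂ) :
    push T (fun z => g z + g' z) w = push T g w + push T g' w := by
  unfold push
  rw [← Finset.sum_add_distrib]
  exact Finset.sum_congr rfl fun z _ => by rw [add_div]

theorem push_smul (T : RM ℂ) (c : ℂ) (g : ℂ → ℂ) (w : ℂ) :
    push T (fun z => c * g z) w = c * push T g w := by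
  unfold push
  rw [Finset.mul_sum]
  exact Finset.sum_congr rfl fun z _ => by rw [mul_div_assoc]

end FS16
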