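import Pool.Agent.FS16.CPF
import Pool.Agent.FS16.CRoots

/-!
# The rigid equation contradicts the existence of a non-repelling cycle

MODULE C-CONTRA.  Put `G_j z = (z - ζ)² g_j z` near `ζ ∈ Z j`; by `pf_order`
`(z - ζ)² g_j z = (z - ζ)^n u(z)`, `n = n(ζ) ∈ ℕ`, `u(ζ) ≠ 0`.  Let `ζ' = T_j ζ ∈ Z (s j)` and
`n' = n(ζ')`, `u'`.  The equation `g_j z = ρ_j T_j'(z)² g_{s j}(T_j z)` (valid for all `z ≠ ζ` near
`ζ`, as `T_j z ∉ B (s j)`, `T_j z ≠ ζ'` there: `T_j` is not constant; `T_j' ζ ≠ 0`) gives, after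
multiplication by `(z - ζ)²`,
`(z - ζ)^n u(z) = ρ_j T_j'(z)² ((z - ζ)/(T_j z - ζ'))² (T_j z - ζ')^n' u'(T_j z)`.
As `(T_j z - ζ')/(z - ζ) → T_j'(ζ) =: t ≠ 0`, the comparison of orders gives `n = n'`, and dividing by
`(z - ζ)^n` and letting `z → ζ`: `u(ζ) = ρ_j t^n u'(ζ')`.
So `b(ζ) = |u(ζ)| κ_j(ζ)^n` satisfies
`b(ζ) = ρ_j (|t| κ_j ζ)^n |u'(ζ')| ≤ ρ_j κ_{s j}(ζ')^n |u'(ζ')| = b(ζ')/deg T_j`.
The finite set of the `(j, ζ)`, `ζ ∈ Z j`, is not empty; take one with `j = j₀` (every `Z j` is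
nonempty, by `trans` and `ZT`) for which `b` is maximal among all `(j₀, ζ)`.  Going round once the
`J`-cycle from `j₀` to `j₀` we get `b(ζ) ≤ b(ζ'')/2` with another point `ζ'' ∈ Z j₀`:
contradiction, as `b > 0`.
-/

open Polynomial Filter Topology

noncomputable section

namespace FS16

variable {J ι : Type} [Fintype J]

/-- comparison of the orders of two functions -/
theorem contra_orders {a b : ℂ → ℂ} {ζ A B : ℂ} {n n' : ℕ} (ha : Tendsto a (𝓝[≠] ζ) (𝓝 A))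
    (hb : Tendsto b (𝓝[≠] ζ) (𝓝 B)) (hA : A ≠ 0) (hB : B ≠ 0)
    (h : ∀ᶠ z in 𝓝[≠] ζ, a z * (z - ζ) ^ n' = b z * (z - ζ) ^ n) : n = n' ∧ A = B := by
  -- the case `n ≤ n'`
  have key : ∀ {a b : ℂ → ℂ} {A B : ℂ} {n n' : ℕ}, Tendsto a (𝓝[≠] ζ) (𝓝 A) →
      Tendsto b (𝓝[≠] ζ) (𝓝 B) → B ≠ 0 → n ≤ n' →
      (∀ᶠ z in 𝓝[≠] ζ, a z * (z - ζ) ^ n' = b z * (z - ζ) ^ n) → n = n' ∧ A = B := by
    intro a b A B n n' ha hb hB hle h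
    obtain ⟨k, rfl⟩ := Nat.exists_eq_add_of_le hle
    have h1 : Tendsto (fun z => a z * (z - ζ) ^ k) (𝓝[≠] ζ) (𝓝 B) := by
      refine hb.congr' ?_
      filter_upwards [h, self_mem_nhdsWithin] with z hz hzζ
      have hne : (z - ζ) ^ n ≠ 0 := pow_ne_zero _ (sub_ne_zero.2 hzζ)
      rw [pow_add] at hz
      have h2 : (a z * (z - ζ) ^ k) * (z - ζ) ^ n = b z * (z - ζ) ^ n := by
        rw [← hz]; ring
      exact (mul_right_cancel₀ hne h2).symm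
    have h3 : Tendsto (fun z : ℂ => (z - ζ) ^ k) (𝓝[≠] ζ) (𝓝 ((ζ - ζ) ^ k)) := by
      have hc : ContinuousAt (fun z : ℂ => (z - ζ) ^ k) ζ := by fun_prop
      exact hc.tendsto.mono_left nhdsWithin_le_nhds
    have h4 := tendsto_nhds_unique h1 (ha.mul h3)
    rcases Nat.eq_zero_or_pos k with hk | hk
    · subst hk
      rw [pow_zero, mul_one] at h4
      exact ⟨rfl, h4.symm⟩
    · rw [sub_self, zero_pow hk.ne', mul_zero] at h4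
      exact absurd h4 hB
  rcases le_total n n' with hle | hle
  · exact key ha hb hB hle h
  · have h' := key hb ha hA hle (h.mono fun z hz => hz.symm)
    exact ⟨h'.1.symm, h'.2.symm⟩

/-- the local comparison -/
theorem order_step {T : RM ℂ} {ζ : ℂ} (hq : T.q.eval ζ ≠ 0) (hw : T.wr.eval ζ ≠ 0) {g g' : ℂ → ℂ}
    {ρ : ℂ} (hρ : ρ ≠ 0)
    (h : ∀ᶠ z in 𝓝[≠] ζ, g z = ρ * T.der z ^ 2 * g' (T.ev z)) {n n' : ℕ} {u u' : ℂ → ℂ}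
    (hu : AnalyticAt ℂ u ζ) (hu0 : u ζ ≠ 0) (hu' : AnalyticAt ℂ u' (T.ev ζ)) (hu0' : u' (T.ev ζ) ≠ 0)
    (hg : ∀ᶠ z in 𝓝[≠] ζ, (z - ζ) ^ 2 * g z = (z - ζ) ^ n * u z)
    (hg' : ∀ᶠ z in 𝓝[≠] (T.ev ζ), (z - T.ev ζ) ^ 2 * g' z = (z - T.ev ζ) ^ n' * u' z) :
    n = n' ∧ u ζ = ρ * T.der ζ ^ n * u' (T.ev ζ) := by
  have hder := hasDerivAt_ev T hq
  have ht : T.der ζ ≠ 0 := div_ne_zero hw (pow_ne_zero 2 hq)
  -- the difference quotient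
  set S : ℂ → ℂ := fun z => (T.ev z - T.ev ζ) / (z - ζ) with hS
  have hSt : Tendsto S (𝓝[≠] ζ) (𝓝 (T.der ζ)) := by
    have h1 := hasDerivAt_iff_tendsto_slope.1 hder
    refine h1.congr fun z => ?_
    rw [slope_def_field]
  have hS0 : ∀ᶠ z in 𝓝[≠] ζ, S z ≠ 0 := hSt.eventually_ne ht
  have hev : Tendsto T.ev (𝓝[≠] ζ) (𝓝 (T.ev ζ)) :=
    hder.continuousAt.tendsto.mono_left nhdsWithin_le_nhds
  have hevne : Tendsto T.ev (𝓝[≠] ζ) (𝓝[≠] (T.ev ζ)) := by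
    refine tendsto_nhdsWithin_of_tendsto_nhds_of_eventually_within _ hev ?_
    filter_upwards [hS0] with z hz
    intro he
    apply hz
    rw [hS]
    simp only
    rw [show T.ev z = T.ev ζ from he, sub_self, zero_div]
  have hg1 := hevne.eventually hg'
  have hder1 : Tendsto T.der (𝓝[≠] ζ) (𝓝 (T.der ζ)) :=
    (differentiableAt_der T hq).continuousAt.tendsto.mono_left nhdsWithin_le_nhds
  have hu1 : Tendsto u (𝓝[≠] ζ) (𝓝 (u ζ)) :=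
    hu.continuousAt.tendsto.mono_left nhdsWithin_le_nhds
  have hu2 : Tendsto (fun z => u' (T.ev z)) (𝓝[≠] ζ) (𝓝 (u' (T.ev ζ))) :=
    hu'.continuousAt.tendsto.comp hev
  have ha : Tendsto (fun z => ρ * T.der z ^ 2 * S z ^ n' * u' (T.ev z)) (𝓝[≠] ζ)
      (𝓝 (ρ * T.der ζ ^ 2 * T.der ζ ^ n' * u' (T.ev ζ))) :=
    (((hder1.pow 2).const_mul ρ).mul (hSt.pow n')).mul hu2
  have hb : Tendsto (fun z => S z ^ 2 * u z) (𝓝[≠] ζ) (𝓝 (T.der ζ ^ 2 * u ζ)) :=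
    (hSt.pow 2).mul hu1
  have hA : ρ * T.der ζ ^ 2 * T.der ζ ^ n' * u' (T.ev ζ) ≠ 0 :=
    mul_ne_zero (mul_ne_zero (mul_ne_zero hρ (pow_ne_zero _ ht)) (pow_ne_zero _ ht)) hu0'
  have hB : T.der ζ ^ 2 * u ζ ≠ 0 := mul_ne_zero (pow_ne_zero _ ht) hu0
  obtain ⟨h1, h2⟩ := contra_orders (n := n) (n' := n') ha hb hA hB (by
    filter_upwards [h, hg, hg1, self_mem_nhdsWithin] with z e1 e2 e3 hz
    have hzne : z - ζ ≠ 0 := sub_ne_zero.2 hz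
    have e4 : T.ev z - T.ev ζ = S z * (z - ζ) := by
      rw [hS]
      simp only
      rw [div_mul_cancel₀ _ hzne]
    rw [e4] at e3
    rw [e1] at e2
    calc ρ * T.der z ^ 2 * S z ^ n' * u' (T.ev z) * (z - ζ) ^ n'
        = ρ * T.der z ^ 2 * ((S z * (z - ζ)) ^ n' * u' (T.ev z)) := by rw [mul_pow]; ring
      _ = ρ * T.der z ^ 2 * ((S z * (z - ζ)) ^ 2 * g' (T.ev z)) := by rw [e3]
      _ = S z ^ 2 * ((z - ζ) ^ 2 * (ρ * T.der z ^ 2 * g' (T.ev z))) := by ring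
      _ = S z ^ 2 * ((z - ζ) ^ n * u z) := by rw [e2]
      _ = S z ^ 2 * u z * (z - ζ) ^ n := by ring)
  refine ⟨h1, ?_⟩
  subst h1
  have h3 : T.der ζ ^ 2 ≠ 0 := pow_ne_zero _ ht
  refine mul_left_cancel₀ h3 ?_
  rw [← h2]
  ring

theorem contra (D : CData J ι) {r : J → ℂ → ℂ} {α : ι → ℂ}
    (hne : ∀ j, ∃ a ∈ D.A j, r j a ≠ 0 ∨ D.β α j a ≠ 0)
    (hr : ∀ j z, (D.T j).q.eval z ≠ 0 → (D.T j).ev z ∉ D.B (D.s j) →
      D.g r α j z = ((D.T j).deg : ℂ)⁻¹ * (D.T j).der z ^ 2 * D.g r α (D.s j) ((D.T j).ev z))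
    (i : ι) : False := by
  classical
  have hord := fun (j : J) (ζ : ℂ) => pf_order (hne j) ζ
  choose n u hu hu0 hev using hord
  -- the quantity `b`
  obtain ⟨b, hb⟩ : ∃ b : J → ℂ → ℝ, ∀ j ζ, b j ζ = ‖u j ζ ζ‖ * D.κ j ζ ^ n j ζ := ⟨_, fun _ _ => rfl⟩
  have hbpos : ∀ j ζ, 0 < b j ζ := fun j ζ => by
    rw [hb]
    exact mul_pos (norm_pos_iff.2 (hu0 j ζ)) (pow_pos (D.κ_pos j ζ) _)
  have hstep : ∀ j, ∀ ζ ∈ D.Z j, ((D.T j).deg : ℝ) * b j ζ ≤ b (D.s j) ((D.T j).ev ζ) := by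
    intro j ζ hζ
    have hq := D.Zq j ζ hζ
    have hw := D.Zw j ζ hζ
    have hd0 : ((D.T j).deg : ℂ) ≠ 0 := by
      have := D.deg_pos j
      exact Nat.cast_ne_zero.2 (by omega)
    have hder := hasDerivAt_ev (D.T j) hq
    have ht : (D.T j).der ζ ≠ 0 := div_ne_zero hw (pow_ne_zero 2 hq)
    have hevne : Tendsto (D.T j).ev (𝓝[≠] ζ) (𝓝[≠] ((D.T j).ev ζ)) := hder.tendsto_nhdsNE ht
    have h1 : ∀ᶠ z in 𝓝[≠] ζ, D.g r α j z =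
        ((D.T j).deg : ℂ)⁻¹ * (D.T j).der z ^ 2 * D.g r α (D.s j) ((D.T j).ev z) := by
      have h2 := hevne.eventually (pf_eventually_notMem (D.B (D.s j)) ((D.T j).ev ζ))
      have h3 : ∀ᶠ z in 𝓝[≠] ζ, (D.T j).q.eval z ≠ 0 :=
        ((D.T j).q.continuous.continuousAt.eventually_ne hq).filter_mono nhdsWithin_le_nhds
      filter_upwards [h2, h3] with z hz1 hz2
      exact hr j z hz2 hz1
    obtain ⟨e1, e2⟩ := order_step hq hw (inv_ne_zero hd0) h1 (hu j ζ) (hu0 j ζ)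
      (hu (D.s j) ((D.T j).ev ζ)) (hu0 (D.s j) ((D.T j).ev ζ)) (hev j ζ)
      (hev (D.s j) ((D.T j).ev ζ))
    have hdpos : (0 : ℝ) < (D.T j).deg := by
      have := D.deg_pos j
      exact_mod_cast this
    rw [hb, hb, e2, ← e1, norm_mul, norm_mul, norm_inv, norm_pow, Complex.norm_natCast]
    have h4 : (‖(D.T j).der ζ‖ * D.κ j ζ) ^ n j ζ ≤ D.κ (D.s j) ((D.T j).ev ζ) ^ n j ζ :=
      pow_le_pow_left₀ (mul_nonneg (norm_nonneg _) (D.κ_pos j ζ).le) (D.κ_le j ζ hζ) _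
    calc ((D.T j).deg : ℝ) * (((D.T j).deg : ℝ)⁻¹ * ‖(D.T j).der ζ‖ ^ n j ζ *
          ‖u (D.s j) ((D.T j).ev ζ) ((D.T j).ev ζ)‖ * D.κ j ζ ^ n j ζ)
        = (((D.T j).deg : ℝ) * ((D.T j).deg : ℝ)⁻¹) * (‖u (D.s j) ((D.T j).ev ζ) ((D.T j).ev ζ)‖ *
            (‖(D.T j).der ζ‖ * D.κ j ζ) ^ n j ζ) := by rw [mul_pow]; ring
      _ = ‖u (D.s j) ((D.T j).ev ζ) ((D.T j).ev ζ)‖ * (‖(D.T j).der ζ‖ * D.κ j ζ) ^ n j ζ := by
          rw [mul_inv_cancel₀ hdpos.ne', one_mul]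
      _ ≤ ‖u (D.s j) ((D.T j).ev ζ) ((D.T j).ev ζ)‖ * D.κ (D.s j) ((D.T j).ev ζ) ^ n j ζ :=
          mul_le_mul_of_nonneg_left h4 (norm_nonneg _)
  -- iteration
  have hiter : ∀ (m : ℕ) (j : J), ∀ ζ ∈ D.Z j, ∃ ζ' ∈ D.Z ((D.s ^ m) j), b j ζ ≤ b ((D.s ^ m) j) ζ' := by
    intro m
    induction m with
    | zero => intro j ζ hζ; exact ⟨ζ, hζ, le_rfl⟩
    | succ m ih =>
      intro j ζ hζ
      obtain ⟨ζ', h1, h2⟩ := ih (D.s j) ((D.T j).ev ζ) (D.ZT j ζ hζ)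
      have e : (D.s ^ (m + 1)) j = (D.s ^ m) (D.s j) := by
        rw [pow_succ, Equiv.Perm.mul_apply]
      rw [e]
      refine ⟨ζ', h1, le_trans ?_ h2⟩
      have h3 := hstep j ζ hζ
      have h4 : (1 : ℝ) ≤ (D.T j).deg := by exact_mod_cast D.deg_pos j
      nlinarith [hbpos j ζ]
  have hnon : (D.Z D.j₀).Nonempty := by
    obtain ⟨j, z, hz, _⟩ := D.o_surj i
    obtain ⟨m, hm⟩ := D.trans j D.j₀
    obtain ⟨ζ', h1, _⟩ := hiter m j z hz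
    rw [hm] at h1
    exact ⟨ζ', h1⟩
  obtain ⟨ζ, hζ, hmax⟩ := (D.Z D.j₀).exists_max_image (b D.j₀) hnon
  obtain ⟨m, hm⟩ := D.trans (D.s D.j₀) D.j₀
  obtain ⟨ζ', h1, h2⟩ := hiter m (D.s D.j₀) ((D.T D.j₀).ev ζ) (D.ZT _ ζ hζ)
  rw [hm] at h1 h2
  have h3 := hstep D.j₀ ζ hζ
  have h4 : (2 : ℝ) ≤ (D.T D.j₀).deg := by exact_mod_cast D.deg_two
  have h5 := hmax ζ' h1
  have h6 := hbpos D.j₀ ζ
  nlinarith

end FS16
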