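import Pool.Agent.FS16.CPF
import Pool.Agent.FS16.CRoots

/-!
# The mass of the quadratic differential away from the cycles

MODULE C-MASS.  `E D j ε` is the complement of the disks of radius `κ j ζ * ε` about the points
`ζ ∈ Z j`.

* `mass_finite`: near a simple pole `|g| ≤ C/|z - a|`, integrable in the plane; near infinity
  `|g| ≤ C/|z|³` (`pf_cube`); elsewhere in `E` the function is bounded (continuous on a compact set).
  Possible: `|r/(z-a)|` on a ball is integrable (polar coordinates, or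
  `Complex.lintegral_comp_polarCoord_symm`); on `{|z| ≥ R}`: `1/|z|³ ≤ C (1 + |z|)^(-3)`,
  `integrable_one_add_norm`.
* `mass_annulus`: `E (ε - C ε²) \ E ε` is contained in the union of the annuli
  `κ (ε - C ε²) ≤ |z - ζ| < κ ε`, of area `≤ 2π κ² C ε³`, where `|g| ≤ M/|z - ζ|² ≤ 4M/(κ ε)²`.
* `preimage_subset`: Taylor: `|T z - T ζ| ≤ |T' ζ| |z - ζ| + C₁ |z - ζ|²` near `ζ ∈ Z j`, and
  `|T' ζ| κ ζ ≤ κ (T ζ)`, `T ζ ∈ Z (s j)`.
-/

open Polynomial MeasureTheory ENNReal Filter Topology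

noncomputable section

namespace FS16

variable {J ι : Type} [Fintype J]

def CData.E (D : CData J ι) (j : J) (ε : ℝ) : Set ℂ := {z | ∀ ζ ∈ D.Z j, D.κ j ζ * ε ≤ ‖z - ζ‖}

theorem measurableSet_E (D : CData J ι) (j : J) (ε : ℝ) : MeasurableSet (D.E j ε) := by
  have h : D.E j ε = ⋂ ζ ∈ D.Z j, {z | D.κ j ζ * ε ≤ ‖z - ζ‖} := by
    ext z
    simp [CData.E]
  rw [h]
  refine Finset.measurableSet_biInter _ fun ζ _ => ?_
  exact measurableSet_le measurable_const (by fun_prop)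

namespace CM

theorem inv_ball (a : ℂ) (R : ℝ) : IntegrableOn (fun z : ℂ => ‖z - a‖⁻¹) (Metric.ball a R) := by
  have h0 : IntegrableOn (fun z : ℂ => ‖z‖⁻¹) (Metric.ball 0 R) := by
    refine (integrableOn_fun_norm_addHaar (E := ℂ) volume (f := fun y : ℝ => y⁻¹) (r := R)).2 ?_
    rw [Complex.finrank_real_complex]
    refine IntegrableOn.of_bound (C := 1) (by simp) ?_ ?_
    · exact Measurable.aestronglyMeasurable (by fun_prop)
    · refine Eventually.of_forall fun y => ?_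
      by_cases hy : y = 0
      · simp [hy]
      · simp [hy]
  have h1 := (measurePreserving_sub_right (volume : Measure ℂ) a)
  have h2 := h1.integrableOn_comp_preimage (MeasurableEquiv.subRight a).measurableEmbedding
    (f := fun z : ℂ => ‖z‖⁻¹) (s := Metric.ball 0 R)
  have h3 : (fun z : ℂ => z - a) ⁻¹' (Metric.ball 0 R) = Metric.ball a R := by
    ext z
    simp [dist_eq_norm]
  rw [h3] at h2
  exact h2.2 h0

theorem cube_inf {R : ℝ} (hR : 0 < R) : IntegrableOn (fun z : ℂ => (‖z‖ ^ 3)⁻¹) {z | R ≤ ‖z‖} := by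
  have h := (integrable_fun_norm_addHaar (E := ℂ) volume
    (f := fun y : ℝ => (Set.Ici R).indicator (fun y => (y ^ 3)⁻¹) y)).2 ?_
  · have h2 : (fun z : ℂ => (Set.Ici R).indicator (fun y : ℝ => (y ^ 3)⁻¹) ‖z‖) =
        ({z : ℂ | R ≤ ‖z‖}).indicator (fun z => (‖z‖ ^ 3)⁻¹) := by
      funext z
      simp [Set.indicator]
    rw [h2] at h
    exact (integrable_indicator_iff (measurableSet_le measurable_const (by fun_prop))).1 h
  · rw [Complex.finrank_real_complex]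
    have h3 : (fun y : ℝ => y ^ (2 - 1) • (Set.Ici R).indicator (fun y => (y ^ 3)⁻¹) y) =
        (Set.Ici R).indicator (fun y : ℝ => y ^ (-2 : ℝ)) := by
      funext y
      by_cases hy : y ∈ Set.Ici R
      · have hy0 : 0 < y := lt_of_lt_of_le hR hy
        rw [Set.indicator_of_mem hy, Set.indicator_of_mem hy, Real.rpow_neg hy0.le]
        norm_num
        field_simp
      · rw [Set.indicator_of_notMem hy, Set.indicator_of_notMem hy, smul_zero]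
    rw [h3]
    have h4 : IntegrableOn (fun y : ℝ => y ^ (-2 : ℝ)) (Set.Ici R) := by
      rw [integrableOn_Ici_iff_integrableOn_Ioi]
      exact integrableOn_Ioi_rpow_of_lt (by norm_num) hR
    exact ((integrable_indicator_iff measurableSet_Ici).2 h4).integrableOn

theorem measurable_pf (A : Finset ℂ) (r β : ℂ → ℂ) : Measurable (pf A r β) := by
  unfold pf
  fun_prop

end CM

theorem mass_finite (D : CData J ι) {r : J → ℂ → ℂ} {α : ι → ℂ} {j : J}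
    (hM : Mom (D.A j) (r j) (D.β α j)) {ε : ℝ} (hε : 0 < ε) :
    ∫⁻ z in D.E j ε, ‖D.g r α j z‖ₑ ≠ ∞ := by
  obtain ⟨C, R, hR, hC⟩ := pf_cube hM
  have hfar : IntegrableOn (D.g r α j) {z | R ≤ ‖z‖} := by
    refine Integrable.mono' ((CM.cube_inf hR).const_mul C)
      (CM.measurable_pf _ _ _).aestronglyMeasurable ?_
    refine (ae_restrict_iff' (measurableSet_le measurable_const (by fun_prop))).2
      (Eventually.of_forall fun z hz => ?_)
    exact (hC z hz).trans (le_of_eq (div_eq_mul_inv _ _))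
  have hnear : IntegrableOn (D.g r α j) (D.E j ε ∩ Metric.ball 0 R) := by
    unfold CData.g pf
    refine integrable_finsetSum _ fun a ha => ?_
    by_cases haZ : a ∈ D.Z j
    · have hk : 0 < D.κ j a * ε := mul_pos (D.κ_pos j a) hε
      refine IntegrableOn.of_bound
        (C := ‖r j a‖ / (D.κ j a * ε) + ‖D.β α j a‖ / (D.κ j a * ε) ^ 2) ?_ ?_ ?_
      · refine (measure_mono Set.inter_subset_right).trans_lt ?_
        exact measure_ball_lt_top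
      · exact Measurable.aestronglyMeasurable (by fun_prop)
      · refine (ae_restrict_iff' ((measurableSet_E D j ε).inter measurableSet_ball)).2
          (Eventually.of_forall fun z hz => ?_)
        have h1 : D.κ j a * ε ≤ ‖z - a‖ := hz.1 a haZ
        refine (norm_add_le _ _).trans ?_
        rw [norm_div, norm_div, norm_pow]
        gcongr
    · have hb : D.β α j a = 0 := by
        unfold CData.β
        rw [if_neg haZ]
      rw [hb]
      have h1 : IntegrableOn (fun z : ℂ => ‖z - a‖⁻¹) (Metric.ball a (R + ‖a‖)) := CM.inv_ball _ _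
      have h2 : IntegrableOn (fun z : ℂ => ‖z - a‖⁻¹) (D.E j ε ∩ Metric.ball 0 R) := by
        refine h1.mono_set fun z hz => ?_
        have hz2 : ‖z‖ < R := by simpa using hz.2
        rw [Metric.mem_ball, dist_eq_norm]
        exact (norm_sub_le _ _).trans_lt (by linarith)
      refine Integrable.mono' (h2.const_mul ‖r j a‖)
        (Measurable.aestronglyMeasurable (by fun_prop)) (Eventually.of_forall fun z => ?_)
      rw [zero_div, add_zero, norm_div, div_eq_mul_inv]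
  have hall : IntegrableOn (D.g r α j) (D.E j ε) := by
    refine (hnear.union hfar).mono_set fun z hz => ?_
    by_cases h : ‖z‖ < R
    · exact Or.inl ⟨hz, by simpa using h⟩
    · exact Or.inr (not_lt.1 h)
  exact hall.hasFiniteIntegral.ne

namespace CM

theorem annulus_measure (ζ : ℂ) {a b : ℝ} (hb : 0 ≤ b) (hab : b ≤ a) :
    volume (Metric.ball ζ a \ Metric.ball ζ b) = ENNReal.ofReal (Real.pi * (a ^ 2 - b ^ 2)) := by
  rw [measure_sdiff (Metric.ball_subset_ball hab) measurableSet_ball.nullMeasurableSet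
    measure_ball_lt_top.ne, Complex.volume_ball, Complex.volume_ball]
  have hpi : (NNReal.pi : ℝ≥0∞) = ENNReal.ofReal Real.pi := by
    rw [← NNReal.coe_real_pi, ENNReal.ofReal_coe_nnreal]
  rw [hpi, ← ENNReal.ofReal_pow hb, ← ENNReal.ofReal_pow (hb.trans hab),
    ← ENNReal.ofReal_mul (by positivity), ← ENNReal.ofReal_mul (by positivity),
    ← ENNReal.ofReal_sub _ (by positivity)]
  congr 1
  ring

theorem pf_local (A : Finset ℂ) (r β : ℂ → ℂ) (a : ℂ) :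
    ∃ K δ : ℝ, 0 ≤ K ∧ 0 < δ ∧ ∀ z, z ≠ a → ‖z - a‖ < δ → ‖pf A r β z‖ ≤ K / ‖z - a‖ ^ 2 := by
  obtain ⟨L, h⟩ : ∃ L : ℂ, Tendsto (fun z => (z - a) ^ 2 * pf A r β z) (𝓝[≠] a) (𝓝 L) :=
    ⟨_, pf_tendsto A r β a⟩
  have h2 : ∀ᶠ z in 𝓝[≠] a, ‖(z - a) ^ 2 * pf A r β z‖ < ‖L‖ + 1 :=
    h.norm.eventually (gt_mem_nhds (lt_add_one _))
  rw [eventually_nhdsWithin_iff, Metric.eventually_nhds_iff] at h2
  obtain ⟨δ, hδ, hh⟩ := h2
  refine ⟨‖L‖ + 1, δ, by positivity, hδ, fun z hz hzd => ?_⟩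
  have h3 := hh (by rw [dist_eq_norm]; exact hzd) hz
  have h4 : 0 < ‖z - a‖ ^ 2 := pow_pos (norm_pos_iff.2 (sub_ne_zero.2 hz)) 2
  rw [le_div_iff₀ h4, mul_comm, ← norm_pow, ← norm_mul]
  exact h3.le

end CM

theorem mass_annulus (D : CData J ι) (r : J → ℂ → ℂ) (α : ι → ℂ) (j : J) (C : ℝ) :
    ∃ M : ℝ, ∀ᶠ ε in 𝓝[>] (0 : ℝ),
      ∫⁻ z in D.E j (ε - C * ε ^ 2) \ D.E j ε, ‖D.g r α j z‖ₑ ≤ ENNReal.ofReal (M * ε) := by
  classical
  choose K δ hK hδ hh using fun ζ => CM.pf_local (D.A j) (r j) (D.β α j) ζ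
  refine ⟨∑ ζ ∈ D.Z j, 8 * Real.pi * K ζ * |C|, ?_⟩
  have e1 : ∀ᶠ ε in 𝓝[>] (0 : ℝ), |C| * ε ≤ 1 / 2 := by
    have : Tendsto (fun ε : ℝ => |C| * ε) (𝓝[>] 0) (𝓝 0) := by
      have h : Tendsto (fun ε : ℝ => |C| * ε) (𝓝 0) (𝓝 (|C| * 0)) :=
        (continuous_const.mul continuous_id).tendsto 0
      rw [mul_zero] at h
      exact h.mono_left nhdsWithin_le_nhds
    exact this.eventually_le_const (by norm_num)
  have e2 : ∀ᶠ ε in 𝓝[>] (0 : ℝ), ∀ ζ ∈ D.Z j, D.κ j ζ * ε < δ ζ := by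
    rw [Filter.eventually_all_finset]
    intro ζ _
    have : Tendsto (fun ε : ℝ => D.κ j ζ * ε) (𝓝[>] 0) (𝓝 0) := by
      have h : Tendsto (fun ε : ℝ => D.κ j ζ * ε) (𝓝 0) (𝓝 (D.κ j ζ * 0)) :=
        (continuous_const.mul continuous_id).tendsto 0
      rw [mul_zero] at h
      exact h.mono_left nhdsWithin_le_nhds
    exact this.eventually_lt_const (hδ ζ)
  filter_upwards [e1, e2, self_mem_nhdsWithin] with ε h1 h2 hε
  rw [Set.mem_Ioi] at hε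
  obtain ⟨ε', hε'⟩ : ∃ ε', ε' = ε - |C| * ε ^ 2 := ⟨_, rfl⟩
  have hb1 : ε / 2 ≤ ε' := by rw [hε']; nlinarith
  have hb2 : ε' ≤ ε - C * ε ^ 2 := by
    rw [hε']
    have := mul_le_mul_of_nonneg_right (le_abs_self C) (sq_nonneg ε)
    linarith
  have hb3 : ε' ≤ ε := by
    rw [hε']
    have : 0 ≤ |C| * ε ^ 2 := by positivity
    linarith
  have hsub : D.E j (ε - C * ε ^ 2) \ D.E j ε ⊆
      ⋃ ζ : D.Z j, (Metric.ball (ζ : ℂ) (D.κ j ζ * ε) \ Metric.ball (ζ : ℂ) (D.κ j ζ * ε')) := by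
    rintro z ⟨hz1, hz2⟩
    unfold CData.E at hz2
    rw [Set.mem_ofPred_eq] at hz2
    push Not at hz2
    obtain ⟨ζ, hζ, hlt⟩ := hz2
    refine Set.mem_iUnion.2 ⟨⟨ζ, hζ⟩, ?_, ?_⟩
    · rw [Metric.mem_ball, dist_eq_norm]
      exact hlt
    · rw [Metric.mem_ball, dist_eq_norm, not_lt]
      exact (mul_le_mul_of_nonneg_left hb2 (D.κ_pos j ζ).le).trans (hz1 ζ hζ)
  refine (lintegral_mono_set hsub).trans ((lintegral_iUnion_le _ _).trans ?_)
  rw [tsum_fintype, Finset.sum_mul, ENNReal.ofReal_sum_of_nonneg (fun ζ _ => by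
    have := hK ζ
    positivity), ← Finset.sum_coe_sort (D.Z j)]
  refine Finset.sum_le_sum fun ζ _ => ?_
  have hk := D.κ_pos j ζ
  have hKζ := hK ζ
  have hε'0 : 0 < ε' := by linarith
  have hpt : ∀ z ∈ Metric.ball (ζ : ℂ) (D.κ j ζ * ε) \ Metric.ball (ζ : ℂ) (D.κ j ζ * ε'),
      ‖D.g r α j z‖ₑ ≤ ENNReal.ofReal (K ζ / (D.κ j ζ * (ε / 2)) ^ 2) := by
    rintro z ⟨hz1, hz2⟩
    rw [Metric.mem_ball, dist_eq_norm] at hz1 hz2
    rw [not_lt] at hz2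
    have hp : 0 < ‖z - ζ‖ := lt_of_lt_of_le (by positivity) hz2
    rw [← ofReal_norm]
    refine ENNReal.ofReal_le_ofReal ?_
    refine (hh ζ z (fun h => ?_) (hz1.trans (h2 ζ ζ.2))).trans ?_
    · rw [h, sub_self, norm_zero] at hp
      exact lt_irrefl _ hp
    · have : D.κ j ζ * (ε / 2) ≤ ‖z - ζ‖ :=
        (mul_le_mul_of_nonneg_left hb1 hk.le).trans hz2
      have h5 : 0 < D.κ j ζ * (ε / 2) := by positivity
      gcongr
  refine (setLIntegral_mono' (measurableSet_ball.diff measurableSet_ball) hpt).trans ?_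
  rw [setLIntegral_const, CM.annulus_measure _ (by positivity)
    (mul_le_mul_of_nonneg_left hb3 hk.le), ← ENNReal.ofReal_mul (by positivity)]
  refine ENNReal.ofReal_le_ofReal ?_
  have h6 : (D.κ j ζ * ε) ^ 2 - (D.κ j ζ * ε') ^ 2 ≤ D.κ j ζ ^ 2 * (|C| * ε ^ 2 * (2 * ε)) := by
    have h7 : (D.κ j ζ * ε) ^ 2 - (D.κ j ζ * ε') ^ 2 =
        D.κ j ζ ^ 2 * ((ε - ε') * (ε + ε')) := by ring
    rw [h7]
    have h8 : ε - ε' = |C| * ε ^ 2 := by rw [hε']; ring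
    rw [h8]
    have h9 : ε + ε' ≤ 2 * ε := by linarith
    gcongr
  calc K ζ / (D.κ j ζ * (ε / 2)) ^ 2 * (Real.pi * ((D.κ j ζ * ε) ^ 2 - (D.κ j ζ * ε') ^ 2))
      ≤ K ζ / (D.κ j ζ * (ε / 2)) ^ 2 * (Real.pi * (D.κ j ζ ^ 2 * (|C| * ε ^ 2 * (2 * ε)))) := by
        gcongr
    _ = 8 * Real.pi * K ζ * |C| * ε := by
        field_simp
        ring

namespace CM

theorem taylor (T : RM ℂ) {ζ : ℂ} (hq : T.q.eval ζ ≠ 0) :
    ∃ K δ : ℝ, 0 ≤ K ∧ 0 < δ ∧ ∀ z, ‖z - ζ‖ < δ →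
      ‖T.ev z - T.ev ζ‖ ≤ ‖T.der ζ‖ * ‖z - ζ‖ + K * ‖z - ζ‖ ^ 2 := by
  have ha : AnalyticAt ℂ T.ev ζ := by
    have h1 : AnalyticAt ℂ (fun z => T.p.eval z) ζ := T.p.differentiable.analyticAt ζ
    have h2 : AnalyticAt ℂ (fun z => T.q.eval z) ζ := T.q.differentiable.analyticAt ζ
    exact h1.div h2 hq
  have hd := analyticAt_dslope_self ha
  obtain ⟨K, hK⟩ := hd.differentiableAt.isBigO_sub.bound
  rw [Metric.eventually_nhds_iff] at hK
  obtain ⟨δ, hδ, hh⟩ := hK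
  refine ⟨|K|, δ, abs_nonneg _, hδ, fun z hz => ?_⟩
  have h3 : ‖dslope T.ev ζ z - dslope T.ev ζ ζ‖ ≤ K * ‖z - ζ‖ := hh (by rw [dist_eq_norm]; exact hz)
  have h4 : T.ev z - T.ev ζ = (z - ζ) * dslope T.ev ζ z := by
    have := sub_smul_dslope T.ev ζ z
    rw [smul_eq_mul] at this
    exact this.symm
  have h5 : dslope T.ev ζ ζ = T.der ζ := by
    rw [dslope_same]
    exact (hasDerivAt_ev T hq).deriv
  rw [h5] at h3
  rw [h4, norm_mul]
  have h6 : ‖dslope T.ev ζ z‖ ≤ ‖T.der ζ‖ + |K| * ‖z - ζ‖ := by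
    have h7 : dslope T.ev ζ z = T.der ζ + (dslope T.ev ζ z - T.der ζ) := by ring
    rw [h7]
    refine (norm_add_le _ _).trans (by
      have := mul_le_mul_of_nonneg_right (le_abs_self K) (norm_nonneg (z - ζ))
      linarith)
  nlinarith [norm_nonneg (z - ζ)]

end CM

theorem preimage_subset (D : CData J ι) (j : J) :
    ∃ C : ℝ, ∀ᶠ ε in 𝓝[>] (0 : ℝ),
      {z | (D.T j).q.eval z ≠ 0 ∧ (D.T j).ev z ∈ D.E (D.s j) ε} ⊆ D.E j (ε - C * ε ^ 2) := by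
  classical
  have hT : ∀ ζ : ℂ, ∃ K δ : ℝ, 0 ≤ K ∧ 0 < δ ∧ (ζ ∈ D.Z j → ∀ z, ‖z - ζ‖ < δ →
      ‖(D.T j).ev z - (D.T j).ev ζ‖ ≤ ‖(D.T j).der ζ‖ * ‖z - ζ‖ + K * ‖z - ζ‖ ^ 2) := by
    intro ζ
    by_cases hζ : ζ ∈ D.Z j
    · obtain ⟨K, δ, h1, h2, h3⟩ := CM.taylor (D.T j) (D.Zq j ζ hζ)
      exact ⟨K, δ, h1, h2, fun _ => h3⟩
    · exact ⟨0, 1, le_rfl, one_pos, fun h => absurd h hζ⟩
  choose K δ hK hδ hh using hT
  obtain ⟨C, hC⟩ : ∃ C : ℝ, C = ∑ ζ ∈ D.Z j, K ζ * D.κ j ζ / ‖(D.T j).der ζ‖ := ⟨_, rfl⟩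
  have hterm : ∀ ζ : ℂ, 0 ≤ K ζ * D.κ j ζ / ‖(D.T j).der ζ‖ := fun ζ => by
    have h1 := hK ζ
    have h2 := D.κ_pos j ζ
    positivity
  have hC0 : 0 ≤ C := by
    rw [hC]
    exact Finset.sum_nonneg fun ζ _ => hterm ζ
  refine ⟨C, ?_⟩
  have e2 : ∀ᶠ ε in 𝓝[>] (0 : ℝ), ∀ ζ ∈ D.Z j, D.κ j ζ * ε < δ ζ := by
    rw [Filter.eventually_all_finset]
    intro ζ _
    have : Tendsto (fun ε : ℝ => D.κ j ζ * ε) (𝓝[>] 0) (𝓝 0) := by
      have h : Tendsto (fun ε : ℝ => D.κ j ζ * ε) (𝓝 0) (𝓝 (D.κ j ζ * 0)) :=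
        (continuous_const.mul continuous_id).tendsto 0
      rw [mul_zero] at h
      exact h.mono_left nhdsWithin_le_nhds
    exact this.eventually_lt_const (hδ ζ)
  filter_upwards [e2, self_mem_nhdsWithin] with ε h2 hε
  rw [Set.mem_Ioi] at hε
  rintro z ⟨hzq, hz⟩ ζ hζ
  by_contra hlt
  rw [not_le] at hlt
  have hk := D.κ_pos j ζ
  have h3 : ‖z - ζ‖ < D.κ j ζ * ε := by
    refine hlt.trans_le (mul_le_mul_of_nonneg_left ?_ hk.le)
    have : 0 ≤ C * ε ^ 2 := by positivity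
    linarith
  have h4 := hh ζ hζ z (h3.trans (h2 ζ hζ))
  have h5 : D.κ (D.s j) ((D.T j).ev ζ) * ε ≤ ‖(D.T j).ev z - (D.T j).ev ζ‖ :=
    hz _ (D.ZT j ζ hζ)
  have h6 := D.κ_le j ζ hζ
  have hder : 0 < ‖(D.T j).der ζ‖ := by
    rw [norm_pos_iff]
    unfold RM.der
    exact div_ne_zero (D.Zw j ζ hζ) (pow_ne_zero 2 (D.Zq j ζ hζ))
  have h7 : K ζ * D.κ j ζ ≤ C * ‖(D.T j).der ζ‖ := by
    rw [← div_le_iff₀ hder, hC]
    exact Finset.single_le_sum (f := fun ζ => K ζ * D.κ j ζ / ‖(D.T j).der ζ‖)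
      (fun ζ _ => hterm ζ) hζ
  have hKζ := hK ζ
  obtain ⟨m, hm⟩ : ∃ m, m = ‖(D.T j).der ζ‖ := ⟨_, rfl⟩
  obtain ⟨t, ht⟩ : ∃ t, t = ‖z - ζ‖ := ⟨_, rfl⟩
  rw [← hm] at h4 h6 h7 hder
  rw [← ht] at h4 h3 hlt
  have ht0 : 0 ≤ t := by rw [ht]; exact norm_nonneg _
  have h8 : m * t < m * (D.κ j ζ * (ε - C * ε ^ 2)) := mul_lt_mul_of_pos_left hlt hder
  have h9 : K ζ * t ^ 2 ≤ K ζ * (D.κ j ζ * ε) ^ 2 := by gcongr
  have h10 : m * D.κ j ζ * ε ≤ D.κ (D.s j) ((D.T j).ev ζ) * ε :=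
    mul_le_mul_of_nonneg_right h6 hε.le
  have h11 : K ζ * (D.κ j ζ * ε) ^ 2 ≤ C * m * (D.κ j ζ * ε ^ 2) := by
    have h12 : K ζ * (D.κ j ζ * ε) ^ 2 = K ζ * D.κ j ζ * (D.κ j ζ * ε ^ 2) := by ring
    rw [h12]
    gcongr
  nlinarith

end FS16
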