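import Pool.Agent.FS16.CChange
import Pool.Agent.FS16.CMass

/-!
# There is no cancellation in the push forward of a fixed quadratic differential

MODULE C-DEFECT.  Let `S j w = ∑_{z ∈ fib w} |g_j z|/|T'(z)|²`.  Then `S j w ≥ |g_{s j} w|` for
`w ∉ B (s j)`, because `g` is fixed.  For small `ε`
`∑_j ∫_{E (s j) ε} S j = ∑_j ∫_{T_j⁻¹ (E (s j) ε)} |g_j| ≤ ∑_j ∫_{E j (ε - C ε²)} |g_j|`
`≤ ∑_j ∫_{E j ε} |g_j| + M ε = ∑_j ∫_{E (s j) ε} |g_{s j}| + M ε`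
(`lintegral_preimage`, `preimage_subset`, `mass_annulus`; `C` and `M` may be taken the same for all
`j`), and the integrals are finite (`mass_finite`), so `∑_j ∫_{E (s j) ε} (S j - |g_{s j}|) ≤ M ε`.
For `ε < ε₀` the set `E ε` contains `E ε₀`; let `ε → 0`: `S j = |g_{s j}|` almost everywhere on
`E (s j) ε₀`; both sides are continuous off `B (s j)` (`absPush_continuousAt`), and every
`w ∉ B (s j)` is in the interior of some `E (s j) ε₀`.
-/

open Polynomial MeasureTheory ENNReal Filter Topology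

noncomputable section

namespace FS16

variable {J ι : Type} [Fintype J]

namespace CDf

/-- the sum of the absolute values over the fibre, as an extended nonnegative number -/
def SE (D : CData J ι) (r : J → ℂ → ℂ) (α : ι → ℂ) (j : J) (w : ℂ) : ℝ≥0∞ :=
  ∑ z ∈ (D.T j).fib w, ‖D.g r α j z‖ₑ / ‖(D.T j).der z‖ₑ ^ 2

/-- the same as a real number -/
def SR (D : CData J ι) (r : J → ℂ → ℂ) (α : ι → ℂ) (j : J) (w : ℂ) : ℝ :=
  ∑ z ∈ (D.T j).fib w, ‖D.g r α j z‖ / ‖(D.T j).der z‖ ^ 2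

theorem SR_nonneg (D : CData J ι) (r : J → ℂ → ℂ) (α : ι → ℂ) (j : J) (w : ℂ) :
    0 ≤ SR D r α j w := Finset.sum_nonneg fun z _ => by positivity

theorem SE_eq (D : CData J ι) (r : J → ℂ → ℂ) (α : ι → ℂ) (j : J) {w : ℂ}
    (hw : w ∉ D.B (D.s j)) : SE D r α j w = ENNReal.ofReal (SR D r α j w) := by
  unfold SE SR
  rw [ENNReal.ofReal_sum_of_nonneg (fun z _ => by positivity)]
  apply Finset.sum_congr rfl
  intro z hz
  have hm := (RM.mem_fib (D.T j) (D.deg_pos j) _ _).mp hz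
  have hne : (D.T j).der z ≠ 0 := (D.T j).der_ne (D.reg hw) hm.1 hm.2
  rw [ENNReal.ofReal_div_of_pos (by positivity), ofReal_norm,
    ENNReal.ofReal_pow (norm_nonneg _), ofReal_norm]

theorem le_SR (D : CData J ι) {r : J → ℂ → ℂ} {α : ι → ℂ} (hF : D.Fixed r α) (j : J) {w : ℂ}
    (hw : w ∉ D.B (D.s j)) : ‖D.g r α (D.s j) w‖ ≤ SR D r α j w := by
  rw [hF.2.2 j w hw]
  unfold push SR
  refine (norm_sum_le _ _).trans (Finset.sum_le_sum fun z _ => ?_)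
  rw [norm_div, norm_pow]

theorem fib_notMem (D : CData J ι) (j : J) {w z : ℂ} (hw : w ∉ D.B (D.s j))
    (hz : z ∈ (D.T j).fib w) : z ∉ D.A j := by
  intro hzA
  have hm := (RM.mem_fib (D.T j) (D.deg_pos j) _ _).mp hz
  exact hw (hm.2 ▸ D.TA j z hzA hm.1)

theorem SR_continuousAt (D : CData J ι) (r : J → ℂ → ℂ) (α : ι → ℂ) (j : J) {w : ℂ}
    (hw : w ∉ D.B (D.s j)) : ContinuousAt (SR D r α j) w :=
  absPush_continuousAt (D.T j) (D.deg_pos j) (D.reg hw) fun _ hz =>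
    (pf_differentiableAt _ _ _ (fib_notMem D j hw hz)).continuousAt

theorem g_continuousAt (D : CData J ι) (r : J → ℂ → ℂ) (α : ι → ℂ) (j : J) {w : ℂ}
    (hw : w ∉ D.B j) : ContinuousAt (D.g r α j) w :=
  (pf_differentiableAt _ _ _ (fun h => hw (D.AB j h))).continuousAt

theorem aemeasurable_SE (D : CData J ι) (r : J → ℂ → ℂ) (α : ι → ℂ) (j : J) :
    AEMeasurable (SE D r α j) :=
  measurable_sum_fib (D.T j) (D.deg_pos j) (D.A j) fun _ hz =>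
    (pf_differentiableAt _ _ _ hz).continuousAt

theorem measurable_g (D : CData J ι) (r : J → ℂ → ℂ) (α : ι → ℂ) (j : J) :
    Measurable fun z => ‖D.g r α j z‖ₑ := (CM.measurable_pf _ _ _).enorm

/-- one map: the mass of the push forward exceeds the mass by at most `M ε` -/
theorem one_map (D : CData J ι) (r : J → ℂ → ℂ) (α : ι → ℂ) (j : J) :
    ∃ M : ℝ, ∀ᶠ ε in 𝓝[>] (0 : ℝ),
      ∫⁻ w in D.E (D.s j) ε, SE D r α j w ≤
        (∫⁻ z in D.E j ε, ‖D.g r α j z‖ₑ) + ENNReal.ofReal (M * ε) := by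
  obtain ⟨C, hC⟩ := preimage_subset D j
  obtain ⟨M, hM⟩ := mass_annulus D r α j C
  refine ⟨M, ?_⟩
  filter_upwards [hC, hM] with ε h1 h2
  unfold SE
  rw [← lintegral_preimage (D.T j) (D.deg_pos j) (measurable_g D r α j)
    (measurableSet_E D (D.s j) ε)]
  refine (lintegral_mono_set h1).trans ?_
  have h3 : D.E j (ε - C * ε ^ 2) ⊆ D.E j ε ∪ (D.E j (ε - C * ε ^ 2) \ D.E j ε) := by
    intro z hz
    by_cases h : z ∈ D.E j ε
    · exact Or.inl h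
    · exact Or.inr ⟨hz, h⟩
  refine (lintegral_mono_set h3).trans ((lintegral_union_le _ _ _).trans ?_)
  gcongr

theorem all_maps (D : CData J ι) {r : J → ℂ → ℂ} {α : ι → ℂ} (hF : D.Fixed r α) :
    ∃ M : ℝ, ∀ᶠ ε in 𝓝[>] (0 : ℝ),
      ∑ j, ∫⁻ w in D.E (D.s j) ε, (SE D r α j w - ‖D.g r α (D.s j) w‖ₑ) ≤
        ENNReal.ofReal (M * ε) := by
  classical
  choose M hM using fun j => one_map D r α j
  refine ⟨∑ j, |M j|, ?_⟩
  have h1 : ∀ᶠ ε in 𝓝[>] (0 : ℝ), ∀ j, ∫⁻ w in D.E (D.s j) ε, SE D r α j w ≤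
        (∫⁻ z in D.E j ε, ‖D.g r α j z‖ₑ) + ENNReal.ofReal (M j * ε) := by
    rw [Filter.eventually_all]
    exact hM
  filter_upwards [h1, self_mem_nhdsWithin] with ε h2 hε
  rw [Set.mem_Ioi] at hε
  have hfin : ∀ j, ∫⁻ z in D.E j ε, ‖D.g r α j z‖ₑ ≠ ∞ := fun j => mass_finite D (hF.1 j) hε
  have hsum : ∑ j, ∫⁻ w in D.E (D.s j) ε, ‖D.g r α (D.s j) w‖ₑ =
      ∑ j, ∫⁻ w in D.E j ε, ‖D.g r α j w‖ₑ :=
    Equiv.sum_comp D.s fun j => ∫⁻ w in D.E j ε, ‖D.g r α j w‖ₑ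
  have hsplit : ∀ j, ∫⁻ w in D.E (D.s j) ε, SE D r α j w =
      (∫⁻ w in D.E (D.s j) ε, (SE D r α j w - ‖D.g r α (D.s j) w‖ₑ)) +
        ∫⁻ w in D.E (D.s j) ε, ‖D.g r α (D.s j) w‖ₑ := by
    intro j
    rw [← lintegral_add_right _ (measurable_g D r α (D.s j))]
    apply lintegral_congr_ae
    apply ae_restrict_of_ae
    have hae : ∀ᵐ w : ℂ, w ∉ D.B (D.s j) := by
      have : volume (↑(D.B (D.s j)) : Set ℂ) = 0 := (D.B (D.s j)).finite_toSet.measure_zero _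
      rw [MeasureTheory.ae_iff]
      simpa using this
    filter_upwards [hae] with w hw
    refine (tsub_add_cancel_of_le ?_).symm
    rw [SE_eq D r α j hw, ← ofReal_norm]
    exact ENNReal.ofReal_le_ofReal (le_SR D hF j hw)
  have hle : (∑ j, ∫⁻ w in D.E (D.s j) ε, (SE D r α j w - ‖D.g r α (D.s j) w‖ₑ)) +
      ∑ j, ∫⁻ w in D.E j ε, ‖D.g r α j w‖ₑ ≤
      ENNReal.ofReal ((∑ j, |M j|) * ε) + ∑ j, ∫⁻ w in D.E j ε, ‖D.g r α j w‖ₑ := by
    calc (∑ j, ∫⁻ w in D.E (D.s j) ε, (SE D r α j w - ‖D.g r α (D.s j) w‖ₑ)) +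
          ∑ j, ∫⁻ w in D.E j ε, ‖D.g r α j w‖ₑ
        = ∑ j, ∫⁻ w in D.E (D.s j) ε, SE D r α j w := by
          rw [← hsum, ← Finset.sum_add_distrib]
          exact Finset.sum_congr rfl fun j _ => (hsplit j).symm
      _ ≤ ∑ j, ((∫⁻ z in D.E j ε, ‖D.g r α j z‖ₑ) + ENNReal.ofReal (M j * ε)) :=
          Finset.sum_le_sum fun j _ => h2 j
      _ ≤ _ := by
          rw [Finset.sum_add_distrib, add_comm, Finset.sum_mul,
            ENNReal.ofReal_sum_of_nonneg (fun j _ => by positivity)]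
          gcongr with j _
          exact le_abs_self _
  exact (ENNReal.add_le_add_iff_right (ENNReal.sum_ne_top.2 fun j _ => hfin j)).1 hle

theorem E_anti (D : CData J ι) (j : J) {ε ε' : ℝ} (h : ε ≤ ε') : D.E j ε' ⊆ D.E j ε := by
  intro z hz ζ hζ
  exact (mul_le_mul_of_nonneg_left h (D.κ_pos j ζ).le).trans (hz ζ hζ)

theorem zero_int (D : CData J ι) {r : J → ℂ → ℂ} {α : ι → ℂ} (hF : D.Fixed r α) (j : J)
    {ε₀ : ℝ} (hε₀ : 0 < ε₀) :
    ∫⁻ w in D.E (D.s j) ε₀, (SE D r α j w - ‖D.g r α (D.s j) w‖ₑ) = 0 := by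
  obtain ⟨M, hM⟩ := all_maps D hF
  have h1 : ∀ᶠ ε in 𝓝[>] (0 : ℝ),
      ∫⁻ w in D.E (D.s j) ε₀, (SE D r α j w - ‖D.g r α (D.s j) w‖ₑ) ≤
        ENNReal.ofReal (M * ε) := by
    have h2 : ∀ᶠ ε in 𝓝[>] (0 : ℝ), ε < ε₀ := by
      have : Tendsto (fun ε : ℝ => ε) (𝓝[>] 0) (𝓝 0) := nhdsWithin_le_nhds
      exact this.eventually_lt_const hε₀
    filter_upwards [hM, h2] with ε h3 h4
    refine (lintegral_mono_set (E_anti D _ h4.le)).trans (le_trans ?_ h3)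
    exact Finset.single_le_sum
      (f := fun j => ∫⁻ w in D.E (D.s j) ε, (SE D r α j w - ‖D.g r α (D.s j) w‖ₑ))
      (fun _ _ => zero_le) (Finset.mem_univ j)
  have h5 : Tendsto (fun ε : ℝ => ENNReal.ofReal (M * ε)) (𝓝[>] 0) (𝓝 0) := by
    have h : Tendsto (fun ε : ℝ => ENNReal.ofReal (M * ε)) (𝓝 0) (𝓝 (ENNReal.ofReal (M * 0))) :=
      (ENNReal.continuous_ofReal.comp (continuous_const.mul continuous_id)).tendsto 0
    rw [mul_zero, ENNReal.ofReal_zero] at h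
    exact h.mono_left nhdsWithin_le_nhds
  exact le_antisymm (ge_of_tendsto h5 h1) zero_le

end CDf

theorem defect (D : CData J ι) {r : J → ℂ → ℂ} {α : ι → ℂ} (hF : D.Fixed r α) (j : J) {w : ℂ}
    (hw : w ∉ D.B (D.s j)) :
    ∑ z ∈ (D.T j).fib w, ‖D.g r α j z‖ / ‖(D.T j).der z‖ ^ 2 = ‖D.g r α (D.s j) w‖ := by
  classical
  refine le_antisymm ?_ (CDf.le_SR D hF j hw)
  by_contra hlt
  rw [not_le] at hlt
  have hev1 : ∀ᶠ w' in 𝓝 w, ‖D.g r α (D.s j) w'‖ < CDf.SR D r α j w' :=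
    ContinuousAt.eventually_lt (CDf.g_continuousAt D r α (D.s j) hw).norm
      (CDf.SR_continuousAt D r α j hw) hlt
  have hev2 : ∀ᶠ w' in 𝓝 w, w' ∉ D.B (D.s j) :=
    (D.B (D.s j)).finite_toSet.isClosed.isOpen_compl.mem_nhds hw
  -- the distance to the points of `Z`
  obtain ⟨ε₀, hε₀, hev3⟩ : ∃ ε₀ : ℝ, 0 < ε₀ ∧ ∀ᶠ w' in 𝓝 w, w' ∈ D.E (D.s j) ε₀ := by
    have h : ∀ ζ ∈ D.Z (D.s j), ∀ᶠ ε in 𝓝[>] (0 : ℝ), D.κ (D.s j) ζ * ε < ‖w - ζ‖ := by
      intro ζ hζ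
      have hne : 0 < ‖w - ζ‖ := by
        rw [norm_pos_iff, sub_ne_zero]
        rintro rfl
        exact hw (D.AB _ (D.ZA _ hζ))
      have : Tendsto (fun ε : ℝ => D.κ (D.s j) ζ * ε) (𝓝[>] 0) (𝓝 0) := by
        have h : Tendsto (fun ε : ℝ => D.κ (D.s j) ζ * ε) (𝓝 0) (𝓝 (D.κ (D.s j) ζ * 0)) :=
          (continuous_const.mul continuous_id).tendsto 0
        rw [mul_zero] at h
        exact h.mono_left nhdsWithin_le_nhds
      exact this.eventually_lt_const hne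
    have h2 : ∀ᶠ ε in 𝓝[>] (0 : ℝ), ∀ ζ ∈ D.Z (D.s j), D.κ (D.s j) ζ * ε < ‖w - ζ‖ := by
      rw [Filter.eventually_all_finset]
      exact h
    obtain ⟨ε₀, h3, h4⟩ := (h2.and self_mem_nhdsWithin).exists
    refine ⟨ε₀, h4, ?_⟩
    have h5 : ∀ᶠ w' in 𝓝 w, ∀ ζ ∈ D.Z (D.s j), D.κ (D.s j) ζ * ε₀ < ‖w' - ζ‖ := by
      rw [Filter.eventually_all_finset]
      intro ζ hζ
      have hc : ContinuousAt (fun w' : ℂ => ‖w' - ζ‖) w := by fun_prop
      exact hc.tendsto.eventually_const_lt (h3 ζ hζ)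
    filter_upwards [h5] with w' h6 ζ hζ
    exact (h6 ζ hζ).le
  obtain ⟨ρ, hρ, hball⟩ := Metric.eventually_nhds_iff_ball.1 (hev1.and (hev2.and hev3))
  have h0 := CDf.zero_int D hF j hε₀
  have h1 : ∫⁻ w' in Metric.ball w ρ, (CDf.SE D r α j w' - ‖D.g r α (D.s j) w'‖ₑ) = 0 := by
    refine le_antisymm ((lintegral_mono_set fun w' hw' => (hball w' hw').2.2).trans h0.le) zero_le
  have hmeas : AEMeasurable (fun w' => CDf.SE D r α j w' - ‖D.g r α (D.s j) w'‖ₑ)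
      (volume.restrict (Metric.ball w ρ)) :=
    ((CDf.aemeasurable_SE D r α j).restrict).sub
      (CDf.measurable_g D r α (D.s j)).aemeasurable
  rw [lintegral_eq_zero_iff' hmeas] at h1
  rw [Filter.EventuallyEq, ae_restrict_iff' measurableSet_ball] at h1
  have h2 : ∀ᵐ w' : ℂ, w' ∉ Metric.ball w ρ := by
    filter_upwards [h1] with w' h3 h4
    have h5 := h3 h4
    simp only [Pi.zero_apply] at h5
    obtain ⟨h6, h7, -⟩ := hball w' h4
    rw [CDf.SE_eq D r α j h7, ← ofReal_norm, tsub_eq_zero_iff_le,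
      ENNReal.ofReal_le_ofReal_iff (norm_nonneg _)] at h5
    exact absurd h6 (not_lt.2 h5)
  have h3 : volume (Metric.ball w ρ) = 0 := by
    rw [MeasureTheory.ae_iff] at h2
    simp only [not_not] at h2
    exact h2
  exact (Metric.measure_ball_pos volume w hρ).ne' h3

end FS16
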