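import Pool.Agent.FS16.CPF
import Pool.Agent.FS16.CBranch

/-!
# Equality in the triangle inequality

MODULE C-RIGID.  Input: a fixed `g` and the conclusion of `defect`.

* `ne_all`: no `g_j` vanishes identically: if the coefficients of `g_j` vanish then so do those of
  `g_{s j}`, as `g` is fixed (`zero_step`, `pf_unique`); go round by `trans`.
* For `w ∉ B (s j)` with `g_{s j} w ≠ 0`: `g_{s j} w = ∑ a_z`, `|g_{s j} w| = ∑ |a_z|` with
  `a_z = g_j z/T'(z)²`, so every `a_z` is a real nonnegative multiple of `g_{s j} w`.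
* `φ z = g_j z/(T'(z)² g_{s j}(T z))` is analytic on the complement of a finite set (connected) and
  has real values, so it is constant `= ρ` (open mapping theorem:
  `AnalyticOnNhd.is_constant_or_isOpen`, or Cauchy-Riemann).  Summing over the `deg` points of a
  fibre gives `deg * ρ = 1` (`card_fib`).  The formula extends to the points where
  `g_{s j}(T z) = 0` (by `defect`, `g_j z = 0` there).
-/

open Polynomial Filter Topology

noncomputable section

namespace FS16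

variable {J ι : Type} [Fintype J]

/-- if all the coefficients on the sphere `j` vanish, then so do those on the sphere `s j` -/
theorem zero_step (D : CData J ι) {r : J → ℂ → ℂ} {α : ι → ℂ} (hF : D.Fixed r α) (j : J)
    (h : ∀ a ∈ D.A j, r j a = 0 ∧ D.β α j a = 0) :
    ∀ a ∈ D.A (D.s j), r (D.s j) a = 0 ∧ D.β α (D.s j) a = 0 := by
  apply pf_unique (D.B (D.s j))
  intro w _ hw
  have h1 := hF.2.2 j w hw
  have h0 : ∀ z, D.g r α j z = 0 := by
    intro z
    unfold CData.g pf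
    apply Finset.sum_eq_zero
    intro a ha
    obtain ⟨e1, e2⟩ := h a ha
    rw [e1, e2]
    simp
  have h2 : push (D.T j) (D.g r α j) w = 0 := by
    unfold push
    apply Finset.sum_eq_zero
    intro z _
    rw [h0 z, zero_div]
  rw [h2] at h1
  exact h1

theorem ne_all (D : CData J ι) {r : J → ℂ → ℂ} {α : ι → ℂ} (hF : D.Fixed r α)
    (hdef : ∀ j w, w ∉ D.B (D.s j) →
      ∑ z ∈ (D.T j).fib w, ‖D.g r α j z‖ / ‖(D.T j).der z‖ ^ 2 = ‖D.g r α (D.s j) w‖) (j : J) :
    ∃ a ∈ D.A j, r j a ≠ 0 ∨ D.β α j a ≠ 0 := by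
  by_contra hcon
  push Not at hcon
  obtain ⟨j', a, ha, hne⟩ := hF.2.1
  obtain ⟨n, hn⟩ := D.trans j j'
  have key : ∀ n : ℕ, ∀ a ∈ D.A ((D.s ^ n) j),
      r ((D.s ^ n) j) a = 0 ∧ D.β α ((D.s ^ n) j) a = 0 := by
    intro n
    induction n with
    | zero => simpa using hcon
    | succ n ih =>
      rw [pow_succ', Equiv.Perm.mul_apply]
      exact zero_step D hF _ ih
  have h1 := key n
  rw [hn] at h1
  obtain ⟨e1, e2⟩ := h1 a ha
  rcases hne with h | h
  · exact h e1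
  · exact h e2

/-- a real valued analytic function on the complement of a finite set is constant -/
theorem const_of_real {φ : ℂ → ℂ} (S : Finset ℂ) (hφ : ∀ z ∉ S, DifferentiableAt ℂ φ z)
    (hr : ∀ z ∉ S, (φ z).im = 0) : ∃ ρ : ℂ, ∀ z ∉ S, φ z = ρ := by
  have hopen : IsOpen ((S : Set ℂ)ᶜ) := S.finite_toSet.isClosed.isOpen_compl
  have hpre : IsPreconnected ((S : Set ℂ)ᶜ) :=
    (Set.Countable.isConnected_compl_of_one_lt_rank (by simp) S.countable_toSet).2
  have han : AnalyticOnNhd ℂ φ ((S : Set ℂ)ᶜ) := by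
    apply DifferentiableOn.analyticOnNhd _ hopen
    intro z hz
    exact (hφ z (by simpa using hz)).differentiableWithinAt
  rcases han.is_constant_or_isOpen hpre with ⟨ρ, h⟩ | h
  · exact ⟨ρ, fun z hz => h z (by simpa using hz)⟩
  · exfalso
    have h1 := h _ le_rfl hopen
    obtain ⟨z₀, hz₀⟩ := Infinite.exists_notMem_finset S
    have h2 : φ z₀ ∈ φ '' ((S : Set ℂ)ᶜ) := ⟨z₀, by simpa using hz₀, rfl⟩
    rw [Metric.isOpen_iff] at h1
    obtain ⟨ε, hε, hball⟩ := h1 _ h2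
    have h3 : φ z₀ + (ε / 2 : ℝ) * Complex.I ∈ Metric.ball (φ z₀) ε := by
      rw [Metric.mem_ball, dist_eq_norm, add_sub_cancel_left, norm_mul, Complex.norm_I, mul_one,
        Complex.norm_real, Real.norm_of_nonneg (by positivity)]
      linarith
    obtain ⟨z, hz, hz2⟩ := hball h3
    have h4 := hr z (by simpa using hz)
    have h5 := hr z₀ hz₀
    rw [hz2] at h4
    simp only [Complex.add_im, Complex.mul_im, Complex.ofReal_re, Complex.I_im, mul_one,
      Complex.ofReal_im, Complex.I_re, mul_zero, add_zero, h5, zero_add] at h4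
    linarith

/-- equality in the triangle inequality -/
theorem im_div_sum {σ : Type*} (s : Finset σ) (a : σ → ℂ)
    (h : ∑ y ∈ s, ‖a y‖ = ‖∑ y ∈ s, a y‖) {y : σ} (hy : y ∈ s) :
    (a y / ∑ y ∈ s, a y).im = 0 := by
  set S := ∑ y ∈ s, a y with hS
  rcases eq_or_ne S 0 with h0 | h0
  · rw [h0, div_zero]; rfl
  have hSn : 0 < ‖S‖ := norm_pos_iff.2 h0
  set u : ℂ := (starRingEnd ℂ) S with hu
  have h1 : ∑ x ∈ s, (u * a x).re = ∑ x ∈ s, ‖u * a x‖ := by
    rw [← Complex.re_sum, ← Finset.mul_sum, ← hS]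
    simp only [norm_mul]
    rw [← Finset.mul_sum, h, hu, RCLike.norm_conj, mul_comm, Complex.mul_conj,
      Complex.normSq_eq_norm_sq, Complex.ofReal_re, sq]
  have h2 : ∀ x ∈ s, (u * a x).re = ‖u * a x‖ := by
    have h3 := (Finset.sum_eq_sum_iff_of_le (fun x _ => Complex.re_le_norm (u * a x))).1 h1
    exact h3
  have h4 := h2 y hy
  have h5 : (u * a y).im = 0 := by
    have h6 : ‖u * a y‖ ^ 2 = (u * a y).re ^ 2 + (u * a y).im ^ 2 := by
      rw [← Complex.normSq_eq_norm_sq, Complex.normSq_apply]; ring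
    rw [h4] at h6
    nlinarith
  have h7 : a y / S = (u * a y) / ((‖S‖ ^ 2 : ℝ) : ℂ) := by
    have h8 : u * S = ((‖S‖ ^ 2 : ℝ) : ℂ) := by
      rw [hu, mul_comm, Complex.mul_conj, Complex.normSq_eq_norm_sq]
    have hu0 : u ≠ 0 := by
      rw [hu]
      simpa using h0
    rw [← h8]
    field_simp
  rw [h7, Complex.div_ofReal_im, h5, zero_div]

theorem RM.crigid_q_ne_zero {T : RM ℂ} (hd : 1 ≤ T.deg) : T.q ≠ 0 := by
  intro h
  have h1 := T.cop
  rw [h, isCoprime_zero_right] at h1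
  have h2 := Polynomial.natDegree_eq_zero_of_isUnit h1
  unfold RM.deg at hd
  rw [h, h2] at hd
  simp at hd

theorem rigid (D : CData J ι) {r : J → ℂ → ℂ} {α : ι → ℂ} (hF : D.Fixed r α)
    (hdef : ∀ j w, w ∉ D.B (D.s j) →
      ∑ z ∈ (D.T j).fib w, ‖D.g r α j z‖ / ‖(D.T j).der z‖ ^ 2 = ‖D.g r α (D.s j) w‖) (j : J) {z : ℂ}
    (hq : (D.T j).q.eval z ≠ 0) (hw : (D.T j).ev z ∉ D.B (D.s j)) :
    D.g r α j z = ((D.T j).deg : ℂ)⁻¹ * (D.T j).der z ^ 2 * D.g r α (D.s j) ((D.T j).ev z) := by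
  classical
  have hd := D.deg_pos j
  have hmem : ∀ w y, y ∈ (D.T j).fib w ↔ (D.T j).q.eval y ≠ 0 ∧ (D.T j).ev y = w :=
    (D.T j).mem_fib hd
  have hder : ∀ y, (D.T j).q.eval y ≠ 0 → (D.T j).ev y ∉ D.B (D.s j) → (D.T j).der y ≠ 0 :=
    fun y h1 h2 => (D.T j).der_ne (D.reg h2) h1 rfl
  -- the zeros of the target differential
  have hzf := pf_zeros (ne_all D hF hdef (D.s j))
  obtain ⟨Z', hZ'⟩ : ∃ Z' : Finset ℂ, ∀ w, w ∈ Z' ↔ w ∉ D.A (D.s j) ∧ D.g r α (D.s j) w = 0 :=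
    ⟨hzf.toFinset, fun w => by rw [Set.Finite.mem_toFinset]; rfl⟩
  -- the exceptional set
  obtain ⟨S, hS⟩ : ∃ S : Finset ℂ, S = (D.T j).q.roots.toFinset ∪
      (D.B (D.s j) ∪ Z').biUnion (D.T j).fib := ⟨_, rfl⟩
  have hS1 : ∀ y, y ∉ S ↔ (D.T j).q.eval y ≠ 0 ∧ (D.T j).ev y ∉ D.B (D.s j) ∧
      D.g r α (D.s j) ((D.T j).ev y) ≠ 0 := by
    intro y
    rw [hS, Finset.mem_union, Multiset.mem_toFinset, Polynomial.mem_roots (RM.crigid_q_ne_zero hd),
      Polynomial.IsRoot, Finset.mem_biUnion]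
    constructor
    · intro h
      push Not at h
      obtain ⟨h1, h2⟩ := h
      have h3 : (D.T j).ev y ∉ D.B (D.s j) := by
        intro h4
        exact h2 _ (Finset.mem_union_left _ h4) ((hmem _ _).2 ⟨h1, rfl⟩)
      refine ⟨h1, h3, ?_⟩
      intro h4
      refine h2 _ (Finset.mem_union_right _ ((hZ' _).2 ⟨?_, h4⟩)) ((hmem _ _).2 ⟨h1, rfl⟩)
      exact fun h5 => h3 (D.AB _ h5)
    · rintro ⟨h1, h2, h3⟩ (h4 | ⟨w, hw1, hw2⟩)
      · exact h1 h4
      · obtain ⟨_, h5⟩ := (hmem _ _).1 hw2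
        rw [← h5] at hw1
        rcases Finset.mem_union.1 hw1 with h6 | h6
        · exact h2 h6
        · exact h3 ((hZ' _).1 h6).2
  obtain ⟨φ, hφ⟩ : ∃ φ : ℂ → ℂ, φ = fun y => D.g r α j y / (D.T j).der y ^ 2 /
      D.g r α (D.s j) ((D.T j).ev y) := ⟨_, rfl⟩
  have hdiff : ∀ y ∉ S, DifferentiableAt ℂ φ y := by
    intro y hy
    obtain ⟨h1, h2, h3⟩ := (hS1 y).1 hy
    have hyA : y ∉ D.A j := fun h4 => h2 (D.TA j y h4 h1)
    have hTA : (D.T j).ev y ∉ D.A (D.s j) := fun h5 => h2 (D.AB _ h5)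
    rw [hφ]
    apply DifferentiableAt.div
    · apply DifferentiableAt.div
      · exact pf_differentiableAt _ _ _ hyA
      · exact (differentiableAt_der _ h1).pow 2
      · exact pow_ne_zero 2 (hder y h1 h2)
    · have h4 : DifferentiableAt ℂ (D.g r α (D.s j)) ((D.T j).ev y) :=
        pf_differentiableAt _ _ _ hTA
      exact h4.comp y (hasDerivAt_ev _ h1).differentiableAt
    · exact h3
  have hreal : ∀ y ∉ S, (φ y).im = 0 := by
    intro y hy
    obtain ⟨h1, h2, h3⟩ := (hS1 y).1 hy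
    have h4 := hF.2.2 j _ h2
    have h5 := hdef j _ h2
    rw [hφ]
    simp only
    rw [h4]
    unfold push
    apply im_div_sum (((D.T j).fib ((D.T j).ev y))) (fun x => D.g r α j x / (D.T j).der x ^ 2)
    · rw [h4] at h5
      unfold push at h5
      rw [← h5]
      apply Finset.sum_congr rfl
      intro x _
      rw [norm_div, norm_pow]
    · exact (hmem _ _).2 ⟨h1, rfl⟩
  obtain ⟨ρ, hρ⟩ := const_of_real S hdiff hreal
  -- the constant
  have hρ1 : ρ = ((D.T j).deg : ℂ)⁻¹ := by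
    obtain ⟨w, hw⟩ := Infinite.exists_notMem_finset (D.B (D.s j) ∪ Z')
    rw [Finset.mem_union] at hw
    push Not at hw
    obtain ⟨hw1, hw2⟩ := hw
    have hw3 : D.g r α (D.s j) w ≠ 0 := by
      intro h
      exact hw2 ((hZ' w).2 ⟨fun h5 => hw1 (D.AB _ h5), h⟩)
    have h4 := hF.2.2 j _ hw1
    unfold push at h4
    have h5 : ∀ x ∈ (D.T j).fib w, D.g r α j x / (D.T j).der x ^ 2 = ρ * D.g r α (D.s j) w := by
      intro x hx
      obtain ⟨h6, h7⟩ := (hmem _ _).1 hx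
      have h8 := hρ x ((hS1 x).2 ⟨h6, by rw [h7]; exact hw1, by rw [h7]; exact hw3⟩)
      rw [hφ] at h8
      simp only at h8
      rw [h7] at h8
      rw [← h8]
      field_simp
    rw [Finset.sum_congr rfl h5, Finset.sum_const, (D.T j).card_fib hd (D.reg hw1)] at h4
    have h9 : ((D.T j).deg : ℂ) * ρ = 1 := by
      rw [nsmul_eq_mul] at h4
      have h10 : D.g r α (D.s j) w * (((D.T j).deg : ℂ) * ρ) = D.g r α (D.s j) w * 1 := by
        rw [mul_one]
        nth_rewrite 2 [h4]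
        ring
      exact mul_left_cancel₀ hw3 h10
    exact eq_inv_of_mul_eq_one_right h9
  by_cases h0 : D.g r α (D.s j) ((D.T j).ev z) = 0
  · have h5 := hdef j _ hw
    rw [h0, norm_zero] at h5
    have h6 := (Finset.sum_eq_zero_iff_of_nonneg (fun x _ => by positivity)).1 h5 z
      ((hmem _ _).2 ⟨hq, rfl⟩)
    have h7 : ‖(D.T j).der z‖ ^ 2 ≠ 0 := pow_ne_zero 2 (norm_ne_zero_iff.2 (hder z hq hw))
    rw [div_eq_zero_iff] at h6
    rcases h6 with h6 | h6
    · rw [norm_eq_zero] at h6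
      rw [h6, h0, mul_zero]
    · exact absurd h6 h7
  · have h8 := hρ z ((hS1 z).2 ⟨hq, hw, h0⟩)
    rw [hφ] at h8
    simp only at h8
    rw [div_eq_iff h0, div_eq_iff (pow_ne_zero 2 (hder z hq hw)), hρ1] at h8
    rw [h8]
    ring

end FS16
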