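import Pool.Agent.FS16.CAlg
import Pool.Agent.FS16.CDefect
import Pool.Agent.FS16.CRigid
import Pool.Agent.FS16.CContra

/-!
# The Fatou-Shishikura inequality for cyclic systems: finite form
-/

open Polynomial

noncomputable section

namespace FS16

variable {J ι : Type} [Fintype J] [Fintype ι]

theorem core (D : CData J ι) :
    Fintype.card ι + ∑ j, (D.A j).card ≤ ∑ j, (D.B j).card := by
  by_contra hlt
  rw [not_le] at hlt
  obtain ⟨r, α, hF⟩ := exists_fixed D hlt
  rcases isEmpty_or_nonempty ι with hι | ⟨⟨i⟩⟩
  · have h1 : ∑ j, (D.A j).card ≤ ∑ j, (D.B j).card :=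
      Finset.sum_le_sum fun j _ => Finset.card_le_card (D.AB j)
    rw [Fintype.card_eq_zero] at hlt
    omega
  · have hdef := fun j w hw => defect D hF j (w := w) hw
    exact contra D (ne_all D hF hdef) (fun j z hq hw => rigid D hF hdef j hq hw) i

end FS16
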