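import Mathlib

/-!
# Fatou-Shishikura inequality for cyclic systems of rational maps: definitions (MP_448b21_nt, FS16)

`RM F`: a rational map `p/q` over a field (coprime polynomials).  `CData J ι`: a cyclic system of
rational maps `T j` of the Riemann sphere (from the sphere `j` to the sphere `s j`), with finite sets
`A j ⊆ B j` (the point at infinity is tacitly an element of all these sets) such that `T j` maps
`A j ∪ {∞}` and the critical points into `B (s j) ∪ {∞}`, and with non-repelling cycles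
`Z j ⊆ A j` (this is encoded by the weights `κ`).  The theorem of `CCore.lean` says
`|ι| + ∑ |A j| ≤ ∑ |B j|` where `ι` is the set of the cycles in `Z`.

Quadratic differentials: `pf A r β` is the function `∑ (r a/(z-a) + β a/(z-a)²)`, and `push T g` is
the push forward `w ↦ ∑_{T z = w} g z / T'(z)²`.
-/

open Polynomial

noncomputable section

namespace FS16

/-- a rational map over a field: `p / q` with `p`, `q` coprime -/
structure RM (F : Type*) [Field F] where
  p : F[X]
  q : F[X]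
  cop : IsCoprime p q

variable {F : Type*} [Field F]

/-- the degree -/
def RM.deg (T : RM F) : ℕ := max T.p.natDegree T.q.natDegree

/-- the Wronskian `p' q - p q'` -/
def RM.wr (T : RM F) : F[X] := derivative T.p * T.q - T.p * derivative T.q

/-- the value at a finite point (junk at the poles) -/
def RM.ev (T : RM F) (z : F) : F := T.p.eval z / T.q.eval z

/-- the derivative at a finite point (junk at the poles) -/
def RM.der (T : RM F) (z : F) : F := T.wr.eval z / T.q.eval z ^ 2

/-- the value at infinity, if it is finite (that is, if `T.q.natDegree = T.deg`) -/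
def RM.inf (T : RM F) : F := T.p.coeff T.deg / T.q.coeff T.deg

/-- `w` is a regular value: it is neither the value at infinity nor the value of a critical point -/
def RM.Reg (T : RM F) (w : F) : Prop :=
  (T.q.natDegree = T.deg → T.inf ≠ w) ∧ ∀ c, T.wr.eval c = 0 → T.q.eval c ≠ 0 → T.ev c ≠ w

open Classical in
/-- the finite part of the fibre of `w` -/
def RM.fib (T : RM F) (w : F) : Finset F := (T.p - C w * T.q).roots.toFinset

/-- the push forward of the quadratic differential `g dz²` -/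
def push (T : RM ℂ) (g : ℂ → ℂ) (w : ℂ) : ℂ := ∑ z ∈ T.fib w, g z / T.der z ^ 2

/-- a function given by its partial fractions, with poles of order at most two in `A` -/
def pf (A : Finset ℂ) (r β : ℂ → ℂ) (z : ℂ) : ℂ := ∑ a ∈ A, (r a / (z - a) + β a / (z - a) ^ 2)

/-- the first two moments vanish, so that `pf A r β z = O(z⁻³)` -/
def Mom (A : Finset ℂ) (r β : ℂ → ℂ) : Prop :=
  ∑ a ∈ A, r a = 0 ∧ ∑ a ∈ A, (r a * a + β a) = 0

/-- a cyclic system of rational maps with non-repelling cycles -/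
structure CData (J ι : Type) [Fintype J] where
  /-- the cyclic permutation of the indices -/
  s : Equiv.Perm J
  trans : ∀ j j' : J, ∃ n : ℕ, (s ^ n) j = j'
  /-- the maps, `T j` goes from the sphere `j` to the sphere `s j` -/
  T : J → RM ℂ
  deg_pos : ∀ j, 1 ≤ (T j).deg
  A : J → Finset ℂ
  B : J → Finset ℂ
  AB : ∀ j, A j ⊆ B j
  B_two : ∀ j, 2 ≤ (B j).card
  TA : ∀ j, ∀ a ∈ A j, (T j).q.eval a ≠ 0 → (T j).ev a ∈ B (s j)
  Tinf : ∀ j, (T j).q.natDegree = (T j).deg → (T j).inf ∈ B (s j)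
  Tcrit : ∀ j c, (T j).wr.eval c = 0 → (T j).q.eval c ≠ 0 → (T j).ev c ∈ B (s j)
  /-- the points of the non-repelling cycles -/
  Z : J → Finset ℂ
  ZA : ∀ j, Z j ⊆ A j
  Zq : ∀ j, ∀ z ∈ Z j, (T j).q.eval z ≠ 0
  Zw : ∀ j, ∀ z ∈ Z j, (T j).wr.eval z ≠ 0
  ZT : ∀ j, ∀ z ∈ Z j, (T j).ev z ∈ Z (s j)
  Zinj : ∀ j, ∀ z ∈ Z j, ∀ z' ∈ Z j, (T j).ev z = (T j).ev z' → z = z'
  Zsurj : ∀ j, ∀ b ∈ Z (s j), ∃ z ∈ Z j, (T j).ev z = b
  /-- weights: the cycles are non-repelling -/
  κ : J → ℂ → ℝ
  κ_pos : ∀ j z, 0 < κ j z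
  κ_le : ∀ j, ∀ z ∈ Z j, ‖(T j).der z‖ * κ j z ≤ κ (s j) ((T j).ev z)
  /-- the cycle of a point of `Z` -/
  o : J → ℂ → ι
  o_T : ∀ j, ∀ z ∈ Z j, o (s j) ((T j).ev z) = o j z
  o_surj : ∀ i, ∃ j, ∃ z ∈ Z j, o j z = i
  /-- one of the maps has degree at least two -/
  j₀ : J
  deg_two : 2 ≤ (T j₀).deg

variable {J ι : Type} [Fintype J]

open Classical in
/-- the coefficients of the double poles -/
def CData.β (D : CData J ι) (α : ι → ℂ) (j : J) (a : ℂ) : ℂ := if a ∈ D.Z j then α (D.o j a) else 0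

/-- the quadratic differential with the given coefficients, on the sphere `j` -/
def CData.g (D : CData J ι) (r : J → ℂ → ℂ) (α : ι → ℂ) (j : J) : ℂ → ℂ :=
  pf (D.A j) (r j) (D.β α j)

/-- `g` is fixed by the push forward -/
def CData.Fixed (D : CData J ι) (r : J → ℂ → ℂ) (α : ι → ℂ) : Prop :=
  (∀ j, Mom (D.A j) (r j) (D.β α j)) ∧
  (∃ j, ∃ a ∈ D.A j, r j a ≠ 0 ∨ D.β α j a ≠ 0) ∧
  ∀ j w, w ∉ D.B (D.s j) → D.g r α (D.s j) w = push (D.T j) (D.g r α j) w

theorem CData.reg (D : CData J ι) {j : J} {w : ℂ} (hw : w ∉ D.B (D.s j)) : (D.T j).Reg w :=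
  ⟨fun h e => hw (e ▸ D.Tinf j h), fun c h1 h2 e => hw (e ▸ D.Tcrit j c h1 h2)⟩

end FS16
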