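import Pool.Agent.FS16.CRoots

/-!
# Local behaviour of `(T z - b)² / T'(z)²`

MODULE C-LOCAL.  Let `1 ≤ T.deg`.

* `local_fin`: `q a ≠ 0`, `T a = b`.  `p - b q = (X - a)^m u` with `m ≥ 1`, `u a ≠ 0`, so
  `T z - b = (z - a)^m v(z)`, `v` analytic, `v a ≠ 0`; `T' = (z - a)^(m-1) (m v + (z - a) v')`, so
  `(T z - b)/T'(z) = (z - a) * k(z)` with `k(z) = v / (m v + (z - a) v') → 1/m`.  Hence
  `(T z - b)²/T'² * g z = k(z)² * ((z - a)² g z) → α / m²`, which is `α` if `α = 0` or `m = 1`
  (`m = 1` iff `wr a ≠ 0`).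
  As polynomials: `(T z - b)/T' = (p - b q) q / wr`, where `wr = (p - b q)' q - (p - b q) q'`.
* `local_inf`: `deg q = d`, `b = T.inf`: `p - b q` has degree `e < d`, it is not zero;
  `(T z - b)/T'(z) = (p - b q) q/wr`, and `wr = (p - b q)' q - (p - b q) q'` has leading coefficient
  `(e - d) * lead (p - b q) * lead q` in degree `e + d - 1`; so `(T z - b)/(z T'(z)) → 1/(e - d)` as
  `z → ∞`.
* `local_pole`: `q a = 0`, `q = (X - a)^m u`: `T/T' = p q/wr`, `wr = p' q - p q'` vanishes to the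
  order `m - 1` exactly; so `T/T' = (z - a) k(z)`, `k → -1/m`.
* `local_inf_inf`: `deg q < d = deg p`: `T/(z T') → 1/(d - deg q)`.
-/

open Polynomial Filter Topology

noncomputable section

namespace FS16

/-- the basic limit at a finite point -/
theorem cl_fin_aux (P Q : ℂ[X]) (hP : P ≠ 0) {a : ℂ} (hPa : P.eval a = 0) (hQ : Q.eval a ≠ 0) :
    ∃ c : ℂ, (c = 1 ∨ (derivative P * Q - P * derivative Q).eval a = 0) ∧
      Tendsto (fun z => (P.eval z * Q.eval z) /
        ((z - a) * (derivative P * Q - P * derivative Q).eval z)) (𝓝[≠] a) (𝓝 c) := by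
  obtain ⟨u, hu, hua⟩ := Polynomial.exists_eq_pow_rootMultiplicity_mul_and_not_dvd P hP a
  set m := P.rootMultiplicity a with hm
  have hm1 : 1 ≤ m := by
    rw [hm, Nat.one_le_iff_ne_zero, Ne, Polynomial.rootMultiplicity_eq_zero_iff]
    intro h
    exact hP (h hPa)
  have hu0 : u.eval a ≠ 0 := by
    intro h
    exact hua (Polynomial.dvd_iff_isRoot.mpr h)
  obtain ⟨k, hk⟩ : ∃ k, m = k + 1 := ⟨m - 1, by omega⟩
  have hW : ∀ z, (derivative P * Q - P * derivative Q).eval z = (z - a) ^ k *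
      (m * u.eval z * Q.eval z + (z - a) * ((derivative u).eval z * Q.eval z -
        u.eval z * (derivative Q).eval z)) := by
    intro z
    rw [hu, hk]
    simp only [derivative_mul, derivative_X_sub_C_pow, eval_sub, eval_mul, eval_add, eval_pow,
      eval_X, eval_C, Nat.add_sub_cancel]
    push_cast
    ring
  have hPz : ∀ z, P.eval z = (z - a) ^ (k + 1) * u.eval z := by
    intro z
    conv_lhs => rw [hu, hk]
    simp
  have hm0 : (m : ℂ) ≠ 0 := by exact_mod_cast (by omega : m ≠ 0)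
  refine ⟨1 / m, ?_, ?_⟩
  · rcases Nat.eq_zero_or_pos k with h0 | h0
    · left
      rw [hk, h0]
      simp
    · right
      rw [hW]
      rw [sub_self, zero_pow (by omega), zero_mul]
  · have hlim : Tendsto (fun z => u.eval z * Q.eval z /
        (m * u.eval z * Q.eval z + (z - a) * ((derivative u).eval z * Q.eval z -
        u.eval z * (derivative Q).eval z))) (𝓝[≠] a) (𝓝 (1 / m)) := by
      have hc : ContinuousAt (fun z => u.eval z * Q.eval z /
        (m * u.eval z * Q.eval z + (z - a) * ((derivative u).eval z * Q.eval z -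
        u.eval z * (derivative Q).eval z))) a := by
        apply ContinuousAt.div
        · fun_prop
        · fun_prop
        · simp only [sub_self, zero_mul, add_zero]
          exact mul_ne_zero (mul_ne_zero hm0 hu0) hQ
      have := hc.tendsto
      simp only [sub_self, zero_mul, add_zero] at this
      have he : u.eval a * Q.eval a / (m * u.eval a * Q.eval a) = 1 / m := by
        field_simp
      rw [he] at this
      exact this.mono_left nhdsWithin_le_nhds
    refine hlim.congr' ?_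
    filter_upwards [self_mem_nhdsWithin] with z hz
    have hz' : z - a ≠ 0 := sub_ne_zero.mpr hz
    rw [hW, hPz]
    have h1 : (z - a) ^ (k + 1) ≠ 0 := pow_ne_zero _ hz'
    rw [show (z - a) ^ (k + 1) * u.eval z * Q.eval z = (z - a) ^ (k + 1) * (u.eval z * Q.eval z)
      by ring, ← mul_assoc (z - a) ((z - a) ^ k), show (z - a) * (z - a) ^ k = (z - a) ^ (k + 1)
      by ring, mul_div_mul_left _ _ h1]

theorem cl_lim_eval_div_pow (P : ℂ[X]) {n : ℕ} (hn : P.natDegree ≤ n) :
    Tendsto (fun z => P.eval z / z ^ n) (cocompact ℂ) (𝓝 (P.coeff n)) := by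
  have hinv : Tendsto (fun z : ℂ => z⁻¹) (cocompact ℂ) (𝓝 0) := by
    have := Filter.tendsto_inv₀_cobounded (α := ℂ)
    rwa [← Metric.cobounded_eq_cocompact]
  have h1 : Tendsto (fun z : ℂ => ∑ i ∈ Finset.range (n + 1), P.coeff i * (z⁻¹) ^ (n - i))
      (cocompact ℂ) (𝓝 (∑ i ∈ Finset.range (n + 1), P.coeff i * (0 : ℂ) ^ (n - i))) := by
    apply tendsto_finsetSum
    intro i _
    exact (hinv.pow _).const_mul _
  have h2 : (∑ i ∈ Finset.range (n + 1), P.coeff i * (0 : ℂ) ^ (n - i)) = P.coeff n := by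
    rw [Finset.sum_range_succ, Finset.sum_eq_zero]
    · simp
    · intro i hi
      have := Finset.mem_range.mp hi
      rw [zero_pow (by omega), mul_zero]
  rw [h2] at h1
  refine h1.congr' ?_
  have hne : ∀ᶠ z : ℂ in cocompact ℂ, z ≠ 0 := by
    have : ({0} : Set ℂ)ᶜ ∈ cocompact ℂ := isCompact_singleton.compl_mem_cocompact
    filter_upwards [this] with z hz
    simpa using hz
  filter_upwards [hne] with z hz
  rw [Polynomial.eval_eq_sum_range' (Nat.lt_succ_of_le hn), Finset.sum_div]
  apply Finset.sum_congr rfl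
  intro i hi
  have hi' := Finset.mem_range.mp hi
  rw [inv_pow, mul_div_assoc]
  congr 1
  rw [eq_div_iff (pow_ne_zero _ hz), inv_mul_eq_div, div_eq_iff (pow_ne_zero _ hz), ← pow_add]
  congr 1
  omega

/-- the basic limit at infinity -/
theorem cl_inf_aux (P Q : ℂ[X]) (hP : P ≠ 0) (hQ : Q ≠ 0) (hne : P.natDegree ≠ Q.natDegree) :
    ∃ c : ℂ, Tendsto (fun z => (P.eval z * Q.eval z) /
        (z * (derivative P * Q - P * derivative Q).eval z)) (cocompact ℂ) (𝓝 c) := by
  set e := P.natDegree with he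
  set d := Q.natDegree with hd
  have hX : ∀ R : ℂ[X], (X * derivative R).natDegree ≤ R.natDegree := by
    intro R
    rcases Nat.eq_zero_or_pos R.natDegree with h | h
    · rw [Polynomial.derivative_of_natDegree_zero h]
      simp
    · refine le_trans Polynomial.natDegree_mul_le ?_
      have := Polynomial.natDegree_derivative_le R
      rw [natDegree_X]
      omega
  have hXc : ∀ R : ℂ[X], (X * derivative R).coeff R.natDegree = R.natDegree * R.leadingCoeff := by
    intro R
    rcases Nat.eq_zero_or_pos R.natDegree with h | h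
    · rw [Polynomial.derivative_of_natDegree_zero h, h]
      simp
    · obtain ⟨k, hk⟩ : ∃ k, R.natDegree = k + 1 := ⟨R.natDegree - 1, by omega⟩
      rw [hk, Polynomial.coeff_X_mul, Polynomial.coeff_derivative, Polynomial.leadingCoeff, hk]
      push_cast
      ring
  have l1 := cl_lim_eval_div_pow P (le_refl _)
  have l2 := cl_lim_eval_div_pow Q (le_refl _)
  have l3 := cl_lim_eval_div_pow (X * derivative P) (hX P)
  have l4 := cl_lim_eval_div_pow (X * derivative Q) (hX Q)
  rw [hXc] at l3 l4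
  rw [Polynomial.coeff_natDegree] at l1 l2
  have hl := (l1.mul l2).div ((l3.mul l2).sub (l1.mul l4)) ?_
  · refine ⟨_, hl.congr' ?_⟩
    have hne : ∀ᶠ z : ℂ in cocompact ℂ, z ≠ 0 := by
      have : ({0} : Set ℂ)ᶜ ∈ cocompact ℂ := isCompact_singleton.compl_mem_cocompact
      filter_upwards [this] with z hz
      simpa using hz
    filter_upwards [hne] with z hz
    have h1 : z ^ P.natDegree ≠ 0 := pow_ne_zero _ hz
    have h2 : z ^ Q.natDegree ≠ 0 := pow_ne_zero _ hz
    simp only [Pi.div_apply, eval_sub, eval_mul, eval_X]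
    rw [div_mul_div_comm, div_mul_div_comm, div_mul_div_comm, ← sub_div,
      div_div_div_cancel_right₀ (mul_ne_zero h1 h2)]
    congr 1
    ring
  · have hp := Polynomial.leadingCoeff_ne_zero.mpr hP
    have hq := Polynomial.leadingCoeff_ne_zero.mpr hQ
    have : (P.natDegree : ℂ) * P.leadingCoeff * Q.leadingCoeff -
      P.leadingCoeff * (Q.natDegree * Q.leadingCoeff) =
        ((P.natDegree : ℂ) - Q.natDegree) * (P.leadingCoeff * Q.leadingCoeff) := by ring
    rw [this]
    refine mul_ne_zero ?_ (mul_ne_zero hp hq)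
    rw [sub_ne_zero]
    exact_mod_cast hne

theorem RM.cl_sub_ne (T : RM ℂ) (hd : 1 ≤ T.deg) (b : ℂ) : T.p - C b * T.q ≠ 0 := by
  intro h
  have hp : T.p = C b * T.q := sub_eq_zero.mp h
  have hc := T.cop
  rw [hp] at hc
  have hu : IsUnit T.q := by
    have : IsCoprime T.q T.q := (IsCoprime.of_mul_left_right hc)
    exact isCoprime_self.mp this
  have h1 := Polynomial.natDegree_eq_zero_of_isUnit hu
  have h2 : T.p.natDegree ≤ 0 := by
    rw [hp]
    refine le_trans Polynomial.natDegree_mul_le ?_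
    rw [natDegree_C, h1]
  unfold RM.deg at hd
  omega

theorem RM.cl_q_ne (T : RM ℂ) (hd : 1 ≤ T.deg) : T.q ≠ 0 := by
  intro h
  have hc := T.cop
  rw [h] at hc
  have hu : IsUnit T.p := isCoprime_zero_right.mp hc
  have h1 := Polynomial.natDegree_eq_zero_of_isUnit hu
  unfold RM.deg at hd
  rw [h, h1] at hd
  simp at hd

theorem cl_eventually_ne_cocompact (P : ℂ[X]) (hP : P ≠ 0) : ∀ᶠ z : ℂ in cocompact ℂ, P.eval z ≠ 0 := by
  have hf : {z | P.eval z = 0}.Finite := by
    refine (P.roots.toFinset.finite_toSet).subset ?_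
    intro z hz
    simp only [Finset.mem_coe, Multiset.mem_toFinset, Polynomial.mem_roots hP]
    exact hz
  have := hf.isCompact.compl_mem_cocompact
  filter_upwards [this] with z hz
  exact hz

theorem local_fin (T : RM ℂ) (hd : 1 ≤ T.deg) {a b α : ℂ} (hq : T.q.eval a ≠ 0) (hb : T.ev a = b)
    {g : ℂ → ℂ} (hg : Tendsto (fun z => (z - a) ^ 2 * g z) (𝓝[≠] a) (𝓝 α))
    (hα : α = 0 ∨ T.wr.eval a ≠ 0) :
    Tendsto (fun z => (T.ev z - b) ^ 2 * (g z / T.der z ^ 2)) (𝓝[≠] a) (𝓝 α) := by
  have hP := T.cl_sub_ne hd b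
  have hPa : (T.p - C b * T.q).eval a = 0 := by
    rw [eval_sub, eval_mul, eval_C, ← hb, RM.ev, div_mul_cancel₀ _ hq, sub_self]
  obtain ⟨c, hc, hlim⟩ := cl_fin_aux _ T.q hP hPa hq
  have hwr : derivative (T.p - C b * T.q) * T.q - (T.p - C b * T.q) * derivative T.q = T.wr := by
    rw [RM.wr, derivative_sub, derivative_C_mul]
    ring
  rw [hwr] at hc hlim
  have hcα : c ^ 2 * α = α := by
    rcases hα with h | h
    · rw [h, mul_zero]
    · rcases hc with h' | h'
      · rw [h']; ring
      · exact absurd h' h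
  have h := (hlim.pow 2).mul hg
  rw [hcα] at h
  refine h.congr' ?_
  have hqe : ∀ᶠ z in 𝓝[≠] a, T.q.eval z ≠ 0 := by
    have : ContinuousAt (fun z => T.q.eval z) a := by fun_prop
    exact (this.eventually_ne hq).filter_mono nhdsWithin_le_nhds
  filter_upwards [self_mem_nhdsWithin, hqe] with z hz hqz
  have hz' : z - a ≠ 0 := sub_ne_zero.mpr hz
  have hPz : (T.p - C b * T.q).eval z = T.p.eval z - b * T.q.eval z := by
    rw [eval_sub, eval_mul, eval_C]
  rw [hPz, RM.ev, RM.der]
  by_cases hw : T.wr.eval z = 0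
  · rw [hw]; simp
  · field_simp

theorem local_inf (T : RM ℂ) (hd : 1 ≤ T.deg) (hq : T.q.natDegree = T.deg) {g : ℂ → ℂ}
    (hg : Tendsto (fun z => z ^ 2 * g z) (cocompact ℂ) (𝓝 0)) :
    Tendsto (fun z => (T.ev z - T.inf) ^ 2 * (g z / T.der z ^ 2)) (cocompact ℂ) (𝓝 0) := by
  have hP := T.cl_sub_ne hd T.inf
  have hQ := T.cl_q_ne hd
  have hpd : T.p.natDegree ≤ T.deg := le_max_left _ _
  have hlt : (T.p - C T.inf * T.q).natDegree < T.q.natDegree := by
    have hle : (T.p - C T.inf * T.q).natDegree ≤ T.deg := by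
      refine le_trans (Polynomial.natDegree_sub_le _ _) (max_le hpd ?_)
      refine le_trans Polynomial.natDegree_mul_le ?_
      rw [natDegree_C, zero_add, hq]
    have hc : (T.p - C T.inf * T.q).coeff T.deg = 0 := by
      rw [coeff_sub, coeff_C_mul, RM.inf, div_mul_cancel₀, sub_self]
      rw [← hq, Polynomial.coeff_natDegree]
      exact Polynomial.leadingCoeff_ne_zero.mpr hQ
    rw [hq]
    rcases hle.lt_or_eq with h | h
    · exact h
    · exfalso
      rw [← h, Polynomial.coeff_natDegree, Polynomial.leadingCoeff_eq_zero] at hc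
      exact hP hc
  obtain ⟨c, hlim⟩ := cl_inf_aux _ T.q hP hQ hlt.ne
  have hwr : derivative (T.p - C T.inf * T.q) * T.q - (T.p - C T.inf * T.q) * derivative T.q
      = T.wr := by
    rw [RM.wr, derivative_sub, derivative_C_mul]
    ring
  rw [hwr] at hlim
  have h := (hlim.pow 2).mul hg
  rw [mul_zero] at h
  refine h.congr' ?_
  filter_upwards [cl_eventually_ne_cocompact _ hQ, cl_eventually_ne_cocompact X X_ne_zero] with z hqz hz
  rw [eval_X] at hz
  have hPz : (T.p - C T.inf * T.q).eval z = T.p.eval z - T.inf * T.q.eval z := by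
    rw [eval_sub, eval_mul, eval_C]
  rw [hPz, RM.ev, RM.der]
  by_cases hw : T.wr.eval z = 0
  · rw [hw]; simp
  · field_simp

theorem local_pole (T : RM ℂ) (hd : 1 ≤ T.deg) {a : ℂ} (hq : T.q.eval a = 0)
    {g : ℂ → ℂ} (hg : Tendsto (fun z => (z - a) ^ 2 * g z) (𝓝[≠] a) (𝓝 0)) :
    Tendsto (fun z => T.ev z ^ 2 * (g z / T.der z ^ 2)) (𝓝[≠] a) (𝓝 0) := by
  have hQ := T.cl_q_ne hd
  have hp : T.p.eval a ≠ 0 := RM.p_ne hq
  obtain ⟨c, hc, hlim⟩ := cl_fin_aux T.q T.p hQ hq hp
  have hwr : ∀ z, (derivative T.q * T.p - T.q * derivative T.p).eval z = - T.wr.eval z := by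
    intro z
    rw [RM.wr]
    simp only [eval_sub, eval_mul]
    ring
  simp only [hwr] at hlim
  have h := (hlim.pow 2).mul hg
  rw [mul_zero] at h
  refine h.congr' ?_
  have hqe : ∀ᶠ z in 𝓝[≠] a, T.q.eval z ≠ 0 := by
    have hf : {z | T.q.eval z = 0}.Finite := by
      refine (T.q.roots.toFinset.finite_toSet).subset ?_
      intro z hz
      simp only [Finset.mem_coe, Multiset.mem_toFinset, Polynomial.mem_roots hQ]
      exact hz
    have hcl : IsClosed ({z | T.q.eval z = 0} \ {a}) := (hf.subset Set.sdiff_subset).isClosed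
    have : ({z | T.q.eval z = 0} \ {a})ᶜ ∈ 𝓝 a := hcl.isOpen_compl.mem_nhds (by simp)
    filter_upwards [self_mem_nhdsWithin, nhdsWithin_le_nhds this] with z hz hz2 h0
    exact hz2 ⟨h0, hz⟩
  filter_upwards [self_mem_nhdsWithin, hqe] with z hz hqz
  have hz' : z - a ≠ 0 := sub_ne_zero.mpr hz
  rw [RM.ev, RM.der]
  by_cases hw : T.wr.eval z = 0
  · rw [hw]; simp
  · field_simp

theorem local_inf_inf (T : RM ℂ) (hd : 1 ≤ T.deg) (hq : T.q.natDegree < T.deg) {g : ℂ → ℂ}
    (hg : Tendsto (fun z => z ^ 2 * g z) (cocompact ℂ) (𝓝 0)) :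
    Tendsto (fun z => T.ev z ^ 2 * (g z / T.der z ^ 2)) (cocompact ℂ) (𝓝 0) := by
  have hQ := T.cl_q_ne hd
  have hpd : T.p.natDegree = T.deg := by
    unfold RM.deg at hq ⊢
    rcases le_total T.p.natDegree T.q.natDegree with h | h
    · rw [max_eq_right h] at hq
      exact absurd hq (lt_irrefl _)
    · rw [max_eq_left h]
  have hP : T.p ≠ 0 := by
    intro h
    rw [h, natDegree_zero] at hpd
    omega
  obtain ⟨c, hlim⟩ := cl_inf_aux T.p T.q hP hQ (by omega)
  have hwr : derivative T.p * T.q - T.p * derivative T.q = T.wr := rfl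
  rw [hwr] at hlim
  have h := (hlim.pow 2).mul hg
  rw [mul_zero] at h
  refine h.congr' ?_
  filter_upwards [cl_eventually_ne_cocompact _ hQ, cl_eventually_ne_cocompact X X_ne_zero] with z hqz hz
  rw [eval_X] at hz
  rw [RM.ev, RM.der]
  by_cases hw : T.wr.eval z = 0
  · rw [hw]; simp
  · field_simp

end FS16
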