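import Pool.Agent.FS16.CBranch
import Pool.Agent.FS16.CLocal

/-!
# The push forward near a point and near infinity

MODULE C-FIBRE.  `push_near`: as `w → b`, `w ≠ b`, the points of the fibre of `w` (all finite) tend
to the finite set of the `a` with `T a = b` (and to infinity, if `T.inf = b`): given neighbourhoods
`N_a` of these points and a neighbourhood `N_∞` of infinity if `T.inf = b` with `deg q = d`, the rest
`R` of the sphere is compact and `T` is continuous there with value `≠ b`, so `|T z - b| ≥ δ > 0` on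
`R` (near poles and near infinity, if `T.inf ≠ b`, `|T z - b|` is bounded below too).  By
`local_fin`, `local_inf` the terms `(w - b)² g z / T'(z)² = (T z - b)² g z/T'(z)²` are close to `α a`
for `z ∈ N_a`.  If `wr a ≠ 0` then `T` is injective near `a` and every `w` near `b` has exactly one
preimage in `N_a` (`HasStrictDerivAt`); if `wr a = 0` then `α a = 0` and the at most `d` terms are
small.  (`w` close to `b`, `w ≠ b`, is regular by `finite_irreg`.)

`push_inf`: as `w → ∞` the points of the fibre tend to the poles of `T`, and to infinity if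
`deg q < d`; the terms `w² g z/T'(z)² = T(z)² g z/T'(z)²` tend to `0` by `local_pole`,
`local_inf_inf`, and there are at most `d` of them.
-/

open Polynomial Filter Topology

noncomputable section

namespace FS16

/-- a quotient of polynomials with a limit at infinity is bounded on closed sets without zeros of
the denominator -/
theorem cf_bdd_closed (P Q : ℂ[X]) {K : Set ℂ} (hK : IsClosed K) (hQ : ∀ z ∈ K, Q.eval z ≠ 0)
    {c : ℂ} (hlim : Tendsto (fun z => P.eval z / Q.eval z) (cocompact ℂ) (𝓝 c)) :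
    ∃ C > 0, ∀ z ∈ K, ‖P.eval z‖ ≤ C * ‖Q.eval z‖ := by
  have h1 : ∀ᶠ z in cocompact ℂ, ‖P.eval z / Q.eval z‖ < ‖c‖ + 1 :=
    (hlim.norm).eventually_lt_const (by linarith)
  obtain ⟨L, hL, hLc⟩ := mem_cocompact.mp h1
  have hKL : IsCompact (K ∩ L) := hL.inter_left hK
  have hcont : ContinuousOn (fun z => ‖P.eval z / Q.eval z‖) (K ∩ L) := by
    apply ContinuousOn.norm
    apply ContinuousOn.div
    · exact P.continuous.continuousOn
    · exact Q.continuous.continuousOn
    · intro z hz
      exact hQ z hz.1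
  obtain ⟨C, hC⟩ := hKL.bddAbove_image hcont
  refine ⟨max C (‖c‖ + 1), lt_of_lt_of_le (by positivity) (le_max_right _ _), fun z hz => ?_⟩
  have hq : 0 < ‖Q.eval z‖ := norm_pos_iff.mpr (hQ z hz)
  have hb : ‖P.eval z / Q.eval z‖ ≤ max C (‖c‖ + 1) := by
    by_cases hzL : z ∈ L
    · exact le_trans (hC (Set.mem_image_of_mem _ ⟨hz, hzL⟩)) (le_max_left _ _)
    · have := hLc hzL
      exact le_trans (le_of_lt this) (le_max_right _ _)
  rw [norm_div, div_le_iff₀ hq] at hb
  exact hb

/-- the same on a compact set -/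
theorem cf_bdd_compact (P Q : ℂ[X]) {K : Set ℂ} (hK : IsCompact K) (hQ : ∀ z ∈ K, Q.eval z ≠ 0) :
    ∃ C > 0, ∀ z ∈ K, ‖P.eval z‖ ≤ C * ‖Q.eval z‖ := by
  have hcont : ContinuousOn (fun z => ‖P.eval z / Q.eval z‖) K := by
    apply ContinuousOn.norm
    apply ContinuousOn.div
    · exact P.continuous.continuousOn
    · exact Q.continuous.continuousOn
    · intro z hz
      exact hQ z hz
  obtain ⟨C, hC⟩ := hK.bddAbove_image hcont
  refine ⟨max C 1, lt_of_lt_of_le one_pos (le_max_right _ _), fun z hz => ?_⟩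
  have hq : 0 < ‖Q.eval z‖ := norm_pos_iff.mpr (hQ z hz)
  have hb : ‖P.eval z / Q.eval z‖ ≤ max C 1 :=
    le_trans (hC (Set.mem_image_of_mem _ hz)) (le_max_left _ _)
  rw [norm_div, div_le_iff₀ hq] at hb
  exact hb

/-- limit of a quotient at infinity, degree of the denominator at least that of the numerator -/
theorem cf_lim_quot (P Q : ℂ[X]) {n : ℕ} (hP : P.natDegree ≤ n) (hQ : Q.natDegree ≤ n)
    (hc : Q.coeff n ≠ 0) :
    Tendsto (fun z => P.eval z / Q.eval z) (cocompact ℂ) (𝓝 (P.coeff n / Q.coeff n)) := by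
  refine ((cl_lim_eval_div_pow P hP).div (cl_lim_eval_div_pow Q hQ) hc).congr' ?_
  filter_upwards [cl_eventually_ne_cocompact X X_ne_zero] with z hz
  rw [eval_X] at hz
  simp only [Pi.div_apply]
  rw [div_div_div_cancel_right₀ (pow_ne_zero _ hz)]

theorem RM.cf_card_fib_le (T : RM ℂ) (w : ℂ) : (T.fib w).card ≤ T.deg := by
  classical
  unfold RM.fib
  refine (Multiset.toFinset_card_le _).trans ((Polynomial.card_roots' _).trans ?_)
  refine (natDegree_sub_le _ _).trans (max_le (le_max_left _ _) ?_)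
  exact (natDegree_C_mul_le w T.q).trans (le_max_right _ _)

/-- the points of the fibre of `w` near `b` are near the points of the fibre of `b` -/
theorem cf_near_aux (T : RM ℂ) (hd : 1 ≤ T.deg) (b : ℂ) (U : Set ℂ)
    (hU : ∀ a ∈ T.fib b, U ∈ 𝓝[≠] a)
    (hinf : T.q.natDegree = T.deg → T.inf = b → U ∈ cocompact ℂ) :
    ∀ᶠ w in 𝓝[≠] b, ∀ z ∈ T.fib w, z ∈ U := by
  classical
  set V : Set ℂ := interior (U ∪ (T.fib b : Set ℂ)) with hV
  have hVo : IsOpen V := isOpen_interior
  have hVa : ∀ a ∈ T.fib b, a ∈ V := by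
    intro a ha
    rw [hV, mem_interior_iff_mem_nhds]
    have h1 := hU a ha
    rw [mem_nhdsWithin_iff_eventually, eventually_iff_exists_mem] at h1
    obtain ⟨v, hv, hv2⟩ := h1
    refine mem_of_superset hv fun z hz => ?_
    by_cases hza : z = a
    · right; rw [hza]; exact ha
    · left; exact hv2 z hz hza
  have hPK : ∀ z ∈ Vᶜ, (T.p - C b * T.q).eval z ≠ 0 := by
    intro z hz h0
    apply hz
    apply hVa
    unfold RM.fib
    rw [Multiset.mem_toFinset, mem_roots (CR.fib_ne_zero T hd b)]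
    exact h0
  have hkey : ∃ C > 0, ∀ z ∈ Vᶜ, z ∈ U ∨ ‖T.q.eval z‖ ≤ C * ‖(T.p - Polynomial.C b * T.q).eval z‖ := by
    by_cases hc : T.q.natDegree = T.deg ∧ T.inf = b
    · obtain ⟨L, hL, hLU⟩ := mem_cocompact.mp (hinf hc.1 hc.2)
      obtain ⟨C, hC, h⟩ := cf_bdd_compact T.q (T.p - Polynomial.C b * T.q)
        (hL.inter_left (hVo.isClosed_compl)) (fun z hz => hPK z hz.1)
      refine ⟨C, hC, fun z hz => ?_⟩
      by_cases hzL : z ∈ L
      · right; exact h z ⟨hz, hzL⟩
      · left; exact hLU hzL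
    · have hpd : (T.p - Polynomial.C b * T.q).natDegree ≤ T.deg :=
        (natDegree_sub_le _ _).trans (max_le (le_max_left _ _)
          ((natDegree_C_mul_le b T.q).trans (le_max_right _ _)))
      have hne : (T.p - Polynomial.C b * T.q).coeff T.deg ≠ 0 := by
        rw [coeff_sub, coeff_C_mul]
        intro h0
        rcases Nat.lt_or_ge T.q.natDegree T.deg with h | h
        · rw [coeff_eq_zero_of_natDegree_lt h, mul_zero, sub_zero] at h0
          have hp : T.p.natDegree = T.deg := by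
            unfold RM.deg at h ⊢
            rcases Nat.le_total T.p.natDegree T.q.natDegree with h1 | h1
            · rw [max_eq_right h1] at h; omega
            · rw [max_eq_left h1]
          rw [← hp, coeff_natDegree, leadingCoeff_eq_zero] at h0
          rw [h0, natDegree_zero] at hp
          omega
        · have hq : T.q.natDegree = T.deg := le_antisymm (le_max_right _ _) h
          have hlead : T.q.coeff T.deg ≠ 0 := by
            rw [← hq]
            exact leadingCoeff_ne_zero.2 (T.cl_q_ne hd)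
          apply hc
          refine ⟨hq, ?_⟩
          unfold RM.inf
          rw [sub_eq_zero.1 h0]
          field_simp
      obtain ⟨C, hC, h⟩ := cf_bdd_closed T.q (T.p - Polynomial.C b * T.q) (hVo.isClosed_compl) hPK
        (cf_lim_quot T.q _ (le_max_right _ _) hpd hne)
      exact ⟨C, hC, fun z hz => Or.inr (h z hz)⟩
  obtain ⟨C, hC, hkey⟩ := hkey
  have hball : Metric.ball b (1 / C) ∈ 𝓝[≠] b :=
    nhdsWithin_le_nhds (Metric.ball_mem_nhds _ (by positivity))
  filter_upwards [hball, self_mem_nhdsWithin] with w hw hwb z hz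
  obtain ⟨hqz, hez⟩ := (T.mem_fib hd w z).1 hz
  have hne : z ∉ T.fib b := by
    intro h
    exact hwb (hez.symm.trans ((T.mem_fib hd b z).1 h).2)
  by_cases hzV : z ∈ V
  · rcases interior_subset hzV with h | h
    · exact h
    · exact absurd h hne
  · rcases hkey z hzV with h | h
    · exact h
    · exfalso
      have hev : (T.p - Polynomial.C b * T.q).eval z = (w - b) * T.q.eval z := by
        rw [eval_sub, eval_mul, eval_C, ← hez, RM.ev]
        field_simp
      rw [hev, norm_mul] at h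
      have hq : 0 < ‖T.q.eval z‖ := norm_pos_iff.mpr hqz
      rw [Metric.mem_ball, dist_eq_norm, lt_div_iff₀ hC] at hw
      nlinarith

/-- the points of the fibre of `w` near infinity are near the poles -/
theorem cf_inf_aux (T : RM ℂ) (hd : 1 ≤ T.deg) (U : Set ℂ)
    (hU : ∀ a, T.q.eval a = 0 → U ∈ 𝓝[≠] a)
    (hinf : T.q.natDegree < T.deg → U ∈ cocompact ℂ) :
    ∀ᶠ w in cocompact ℂ, ∀ z ∈ T.fib w, z ∈ U := by
  classical
  set V : Set ℂ := interior (U ∪ {z | T.q.eval z = 0}) with hV
  have hVo : IsOpen V := isOpen_interior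
  have hVa : ∀ a, T.q.eval a = 0 → a ∈ V := by
    intro a ha
    rw [hV, mem_interior_iff_mem_nhds]
    have h1 := hU a ha
    rw [mem_nhdsWithin_iff_eventually, eventually_iff_exists_mem] at h1
    obtain ⟨v, hv, hv2⟩ := h1
    refine mem_of_superset hv fun z hz => ?_
    by_cases hza : z = a
    · right; rw [hza]; exact ha
    · left; exact hv2 z hz hza
  have hPK : ∀ z ∈ Vᶜ, T.q.eval z ≠ 0 := fun z hz h0 => hz (hVa z h0)
  have hkey : ∃ C > 0, ∀ z ∈ Vᶜ, z ∈ U ∨ ‖T.p.eval z‖ ≤ C * ‖T.q.eval z‖ := by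
    rcases Nat.lt_or_ge T.q.natDegree T.deg with hc | hc
    · obtain ⟨L, hL, hLU⟩ := mem_cocompact.mp (hinf hc)
      obtain ⟨C, hC, h⟩ := cf_bdd_compact T.p T.q
        (hL.inter_left (hVo.isClosed_compl)) (fun z hz => hPK z hz.1)
      refine ⟨C, hC, fun z hz => ?_⟩
      by_cases hzL : z ∈ L
      · right; exact h z ⟨hz, hzL⟩
      · left; exact hLU hzL
    · have hq : T.q.natDegree = T.deg := le_antisymm (le_max_right _ _) hc
      have hlead : T.q.coeff T.deg ≠ 0 := by
        rw [← hq]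
        exact leadingCoeff_ne_zero.2 (T.cl_q_ne hd)
      obtain ⟨C, hC, h⟩ := cf_bdd_closed T.p T.q (hVo.isClosed_compl) hPK
        (cf_lim_quot T.p _ (le_max_left _ _) (le_max_right _ _) hlead)
      exact ⟨C, hC, fun z hz => Or.inr (h z hz)⟩
  obtain ⟨C, hC, hkey⟩ := hkey
  have hball : (Metric.closedBall (0 : ℂ) C)ᶜ ∈ cocompact ℂ :=
    (isCompact_closedBall _ _).compl_mem_cocompact
  filter_upwards [hball] with w hw z hz
  obtain ⟨hqz, hez⟩ := (T.mem_fib hd w z).1 hz
  by_cases hzV : z ∈ V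
  · rcases interior_subset hzV with h | h
    · exact h
    · exact absurd h hqz
  · rcases hkey z hzV with h | h
    · exact h
    · exfalso
      have hq : 0 < ‖T.q.eval z‖ := norm_pos_iff.mpr hqz
      apply hw
      rw [Metric.mem_closedBall, dist_zero_right, ← hez, RM.ev, norm_div, div_le_iff₀ hq]
      exact h

theorem cf_injOn (T : RM ℂ) {a : ℂ} (hq : T.q.eval a ≠ 0) (hder : T.der a ≠ 0) :
    ∃ V ∈ 𝓝 a, Set.InjOn T.ev V := by
  have h1 := (hasStrictDerivAt_ev T hq).hasStrictFDerivAt_equiv hder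
  set e := h1.toOpenPartialHomeomorph T.ev with he
  exact ⟨e.source, e.open_source.mem_nhds h1.mem_toOpenPartialHomeomorph_source, e.injOn⟩

theorem push_near (T : RM ℂ) (hd : 1 ≤ T.deg) (b : ℂ) (g α : ℂ → ℂ)
    (hg : ∀ a ∈ T.fib b, Tendsto (fun z => (z - a) ^ 2 * g z) (𝓝[≠] a) (𝓝 (α a)))
    (hα : ∀ a ∈ T.fib b, α a = 0 ∨ T.wr.eval a ≠ 0)
    (hinf : T.q.natDegree = T.deg → T.inf = b →
      Tendsto (fun z => z ^ 2 * g z) (cocompact ℂ) (𝓝 0)) :
    Tendsto (fun w => (w - b) ^ 2 * push T g w) (𝓝[≠] b) (𝓝 (∑ a ∈ T.fib b, α a)) := by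
  classical
  set G : ℂ → ℂ := fun z => (T.ev z - b) ^ 2 * (g z / T.der z ^ 2) with hG
  have hfib : ∀ a ∈ T.fib b, T.q.eval a ≠ 0 ∧ T.ev a = b := fun a ha => (T.mem_fib hd b a).1 ha
  have hloc : ∀ a ∈ T.fib b, Tendsto G (𝓝[≠] a) (𝓝 (α a)) := fun a ha =>
    local_fin T hd (hfib a ha).1 (hfib a ha).2 (hg a ha) (hα a ha)
  set S := (T.fib b).filter (fun a => T.wr.eval a ≠ 0) with hS
  have hSf : ∀ a ∈ S, a ∈ T.fib b := fun a ha => (Finset.mem_filter.1 ha).1
  have hSw : ∀ a ∈ S, T.wr.eval a ≠ 0 := fun a ha => (Finset.mem_filter.1 ha).2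
  have hder : ∀ a ∈ S, T.der a ≠ 0 := fun a ha =>
    div_ne_zero (hSw a ha) (pow_ne_zero 2 (hfib a (hSf a ha)).1)
  have hbr : ∀ a ∈ S, ∃ h : ℂ → ℂ, h b = a ∧ (∀ᶠ w in nhds b, T.ev (h w) = w) ∧
      ∀ᶠ w in nhds b, ContinuousAt h w := fun a ha =>
    exists_branch T (hfib a (hSf a ha)).1 (hfib a (hSf a ha)).2 (hder a ha)
  choose! h h1 h2 h3 using hbr
  have hinj : ∀ a ∈ S, ∃ V ∈ 𝓝 a, Set.InjOn T.ev V := fun a ha =>
    cf_injOn T (hfib a (hSf a ha)).1 (hder a ha)
  choose! V hV hVi using hinj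
  have hcont : ∀ a ∈ S, Tendsto (h a) (𝓝 b) (𝓝 a) := by
    intro a ha
    have := (h3 a ha).self_of_nhds.tendsto
    rwa [h1 a ha] at this
  have hcont' : ∀ a ∈ S, Tendsto (h a) (𝓝[≠] b) (𝓝[≠] a) := by
    intro a ha
    refine tendsto_nhdsWithin_iff.2 ⟨(hcont a ha).mono_left nhdsWithin_le_nhds, ?_⟩
    filter_upwards [self_mem_nhdsWithin, nhdsWithin_le_nhds (h2 a ha)] with w hw hw2 hw3
    apply hw
    rw [Set.mem_singleton_iff] at hw3 ⊢
    rw [← hw2, hw3]
    exact (hfib a (hSf a ha)).2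
  -- the main part
  have hmain : Tendsto (fun w => ∑ a ∈ S, G (h a w)) (𝓝[≠] b) (𝓝 (∑ a ∈ S, α a)) :=
    tendsto_finsetSum _ fun a ha => (hloc a (hSf a ha)).comp (hcont' a ha)
  have hsum : ∑ a ∈ T.fib b, α a = ∑ a ∈ S, α a := by
    rw [hS, Finset.sum_filter]
    apply Finset.sum_congr rfl
    intro a ha
    rcases hα a ha with h0 | h0
    · rw [h0]; simp
    · rw [if_pos h0]
  rw [hsum]
  -- the rest is small
  have hfibw : ∀ᶠ w in 𝓝[≠] b, ∀ a ∈ S, h a w ∈ T.fib w := by
    refine (Filter.eventually_all_finset _).2 fun a ha => ?_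
    have hqc : Tendsto (fun w => T.q.eval (h a w)) (𝓝 b) (𝓝 (T.q.eval a)) :=
      (T.q.continuous.tendsto a).comp (hcont a ha)
    filter_upwards [nhdsWithin_le_nhds (h2 a ha),
      nhdsWithin_le_nhds (hqc.eventually_ne (hfib a (hSf a ha)).1)] with w hw1 hw2
    exact (T.mem_fib hd w _).2 ⟨hw2, hw1⟩
  have hVw : ∀ᶠ w in 𝓝[≠] b, ∀ a ∈ S, h a w ∈ V a := by
    refine (Filter.eventually_all_finset _).2 fun a ha => ?_
    exact nhdsWithin_le_nhds ((hcont a ha) (hV a ha))
  have hne : ∀ᶠ w in 𝓝[≠] b, ∀ a ∈ S, ∀ a' ∈ S, h a w = h a' w → a = a' := by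
    refine (Filter.eventually_all_finset _).2 fun a ha => ?_
    refine (Filter.eventually_all_finset _).2 fun a' ha' => ?_
    by_cases haa : a = a'
    · exact Eventually.of_forall fun _ _ => haa
    · obtain ⟨u, v, hu, hv, huv⟩ := t2_separation_nhds haa
      filter_upwards [nhdsWithin_le_nhds ((hcont a ha) hu),
        nhdsWithin_le_nhds ((hcont a' ha') hv)] with w hw1 hw2 he
      exfalso
      have hw1' : h a w ∈ u := hw1
      have hw2' : h a' w ∈ v := hw2
      rw [← he] at hw2'
      exact Set.disjoint_left.1 huv hw1' hw2'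
  have hrest : Tendsto (fun w => (w - b) ^ 2 * push T g w - ∑ a ∈ S, G (h a w)) (𝓝[≠] b) (𝓝 0) := by
    rw [Metric.tendsto_nhds]
    intro ε hε
    set δ : ℝ := ε / (2 * T.deg) with hδ
    have hdpos : (0 : ℝ) < T.deg := by exact_mod_cast hd
    have hδ0 : 0 < δ := by positivity
    have hU := cf_near_aux T hd b ({z | ‖G z‖ < δ} ∪ ⋃ a ∈ S, V a) (by
      intro a ha
      by_cases haw : T.wr.eval a = 0
      · have h0 : α a = 0 := by
          rcases hα a ha with h0 | h0
          · exact h0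
          · exact absurd haw h0
        have hl := hloc a ha
        rw [h0] at hl
        have : ∀ᶠ z in 𝓝[≠] a, ‖G z‖ < δ := by
          have := hl.norm
          rw [norm_zero] at this
          exact this.eventually_lt_const hδ0
        exact mem_of_superset this Set.subset_union_left
      · have haS : a ∈ S := Finset.mem_filter.2 ⟨ha, haw⟩
        refine mem_of_superset (nhdsWithin_le_nhds (hV a haS)) ?_
        exact (Set.subset_biUnion_of_mem (u := V) haS).trans Set.subset_union_right) (by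
      intro hq hb
      have hl := local_inf T hd hq (hinf hq hb)
      rw [hb] at hl
      have : ∀ᶠ z in cocompact ℂ, ‖G z‖ < δ := by
        have := hl.norm
        rw [norm_zero] at this
        exact this.eventually_lt_const hδ0
      exact mem_of_superset this Set.subset_union_left)
    filter_upwards [hU, hfibw, hVw, hne] with w hw1 hw2 hw3 hw4
    have hpush : (w - b) ^ 2 * push T g w = ∑ z ∈ T.fib w, G z := by
      unfold push
      rw [Finset.mul_sum]
      apply Finset.sum_congr rfl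
      intro z hz
      rw [hG]
      simp only
      rw [((T.mem_fib hd w z).1 hz).2]
    have himg : ∑ a ∈ S, G (h a w) = ∑ z ∈ S.image (fun a => h a w), G z := by
      rw [Finset.sum_image]
      intro a ha a' ha' he
      exact hw4 a ha a' ha' he
    have hsub : S.image (fun a => h a w) ⊆ T.fib w := by
      intro z hz
      obtain ⟨a, ha, rfl⟩ := Finset.mem_image.1 hz
      exact hw2 a ha
    rw [dist_zero_right, hpush, himg, ← Finset.sum_sdiff hsub, add_sub_cancel_right]
    have hle : ‖∑ z ∈ T.fib w \ S.image (fun a => h a w), G z‖ ≤ T.deg * δ := by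
      refine (norm_sum_le _ _).trans ?_
      refine (Finset.sum_le_card_nsmul _ _ δ ?_).trans ?_
      · intro z hz
        rw [Finset.mem_sdiff] at hz
        rcases hw1 z hz.1 with h0 | h0
        · exact le_of_lt h0
        · exfalso
          rw [Set.mem_iUnion₂] at h0
          obtain ⟨a, ha, hza⟩ := h0
          apply hz.2
          rw [Finset.mem_image]
          refine ⟨a, ha, ?_⟩
          apply hVi a ha (hw3 a ha) hza
          rw [((T.mem_fib hd w z).1 hz.1).2, ((T.mem_fib hd w _).1 (hw2 a ha)).2]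
      · rw [nsmul_eq_mul]
        apply mul_le_mul_of_nonneg_right _ hδ0.le
        exact_mod_cast (Finset.card_le_card Finset.sdiff_subset).trans (T.cf_card_fib_le w)
    have : (T.deg : ℝ) * δ = ε / 2 := by
      rw [hδ]; field_simp
    linarith
  have := hrest.add hmain
  rw [zero_add] at this
  refine this.congr fun w => ?_
  ring

theorem push_inf (T : RM ℂ) (hd : 1 ≤ T.deg) (g : ℂ → ℂ)
    (hg : ∀ a, T.q.eval a = 0 → Tendsto (fun z => (z - a) ^ 2 * g z) (𝓝[≠] a) (𝓝 0))
    (hinf : T.q.natDegree < T.deg → Tendsto (fun z => z ^ 2 * g z) (cocompact ℂ) (𝓝 0)) :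
    Tendsto (fun w => w ^ 2 * push T g w) (cocompact ℂ) (𝓝 0) := by
  classical
  rw [Metric.tendsto_nhds]
  intro ε hε
  set G : ℂ → ℂ := fun z => T.ev z ^ 2 * (g z / T.der z ^ 2) with hG
  set δ : ℝ := ε / (2 * T.deg) with hδ
  have hdpos : (0 : ℝ) < T.deg := by exact_mod_cast hd
  have hδ0 : 0 < δ := by positivity
  have hU := cf_inf_aux T hd {z | ‖G z‖ < δ} (by
    intro a ha
    have hl := (local_pole T hd ha (hg a ha)).norm
    rw [norm_zero] at hl
    exact hl.eventually_lt_const hδ0) (by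
    intro hq
    have hl := (local_inf_inf T hd hq (hinf hq)).norm
    rw [norm_zero] at hl
    exact hl.eventually_lt_const hδ0)
  filter_upwards [hU] with w hw
  have hpush : w ^ 2 * push T g w = ∑ z ∈ T.fib w, G z := by
    unfold push
    rw [Finset.mul_sum]
    apply Finset.sum_congr rfl
    intro z hz
    rw [hG]
    simp only
    rw [((T.mem_fib hd w z).1 hz).2]
  rw [dist_zero_right, hpush]
  have hle : ‖∑ z ∈ T.fib w, G z‖ ≤ T.deg * δ := by
    refine (norm_sum_le _ _).trans ?_
    refine (Finset.sum_le_card_nsmul _ _ δ fun z hz => le_of_lt (hw z hz)).trans ?_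
    rw [nsmul_eq_mul]
    apply mul_le_mul_of_nonneg_right _ hδ0.le
    exact_mod_cast T.cf_card_fib_le w
  have : (T.deg : ℝ) * δ = ε / 2 := by
    rw [hδ]; field_simp
  linarith

end FS16
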