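import Pool.Agent.FS16.CRoots

/-!
# Cyclic systems over an algebraically closed subfield: definitions (MP_448b21_nt, FS16)

`SData σ m ι`: rational maps `T j`, `j ∈ ℤ/m`, over a field `L` with an embedding `σ : L → ℂ`, from the
projective line `j` to the projective line `j + 1`.  The point at infinity is fixed by all `T j`,
`j ≠ j₀`, and `T j₀ ∞` is a finite point of a finite periodic orbit `y`.  `v i`, `i ∈ ι`, are periodic
orbits (sequences; `v i l` is a point of the line `l mod m`) of non-critical finite points, pairwise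
disjoint, and non-repelling for `σ`.
-/

open Polynomial

noncomputable section

namespace FS16

/-- the image of a rational map under a homomorphism of fields -/
def RM.mapF {F G : Type*} [Field F] [Field G] (φ : F →+* G) (T : RM F) : RM G :=
  ⟨T.p.map φ, T.q.map φ, (isCoprime_map φ).2 T.cop⟩

section
variable {F G : Type*} [Field F] [Field G] (φ : F →+* G) (T : RM F)

@[simp] theorem RM.mapF_q_eval (z : F) : (T.mapF φ).q.eval (φ z) = φ (T.q.eval z) := by
  simp [RM.mapF]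

@[simp] theorem RM.mapF_p_eval (z : F) : (T.mapF φ).p.eval (φ z) = φ (T.p.eval z) := by
  simp [RM.mapF]

@[simp] theorem RM.mapF_ev (z : F) : (T.mapF φ).ev (φ z) = φ (T.ev z) := by
  simp [RM.ev]

theorem RM.mapF_wr : (T.mapF φ).wr = T.wr.map φ := by
  simp [RM.mapF, RM.wr]

@[simp] theorem RM.mapF_wr_eval (z : F) : (T.mapF φ).wr.eval (φ z) = φ (T.wr.eval z) := by
  simp [RM.mapF_wr]

@[simp] theorem RM.mapF_der (z : F) : (T.mapF φ).der (φ z) = φ (T.der z) := by
  simp [RM.der]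

@[simp] theorem RM.mapF_q_natDegree : (T.mapF φ).q.natDegree = T.q.natDegree := by
  simp [RM.mapF]

@[simp] theorem RM.mapF_deg : (T.mapF φ).deg = T.deg := by
  simp [RM.mapF, RM.deg]

@[simp] theorem RM.mapF_inf : (T.mapF φ).inf = φ T.inf := by
  rw [RM.inf, RM.inf, RM.mapF_deg]
  simp [RM.mapF]

end

/-- a cyclic system with non-repelling cycles, over a subfield of `ℂ` -/
structure SData {L : Type*} [Field L] (σ : L →+* ℂ) (m : ℕ) [NeZero m] (ι : Type) where
  T : ZMod m → RM L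
  deg_pos : ∀ j, 1 ≤ (T j).deg
  j₀ : ZMod m
  deg_two : 2 ≤ (T j₀).deg
  inf_ne : ∀ j, j ≠ j₀ → (T j).q.natDegree < (T j).deg
  inf_j₀ : (T j₀).q.natDegree = (T j₀).deg
  /-- the orbit of `T j₀ ∞`; `y l` is on the line `j₀ + 1 + l` -/
  y : ℕ → L
  y_zero : y 0 = (T j₀).inf
  y_q : ∀ l : ℕ, (T (j₀ + 1 + l)).q.eval (y l) ≠ 0
  y_T : ∀ l : ℕ, (T (j₀ + 1 + l)).ev (y l) = y (l + 1)
  Py : ℕ
  Py_pos : 0 < Py
  Py_m : m ∣ Py
  y_per : ∀ l, y (l + Py) = y l
  /-- the non-repelling cycles; `v i l` is on the line `l` -/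
  v : ι → ℕ → L
  P : ι → ℕ
  P_pos : ∀ i, 0 < P i
  P_m : ∀ i, m ∣ P i
  v_per : ∀ i l, v i (l + P i) = v i l
  v_q : ∀ i (l : ℕ), (T l).q.eval (v i l) ≠ 0
  v_w : ∀ i (l : ℕ), (T l).wr.eval (v i l) ≠ 0
  v_T : ∀ i (l : ℕ), (T l).ev (v i l) = v i (l + 1)
  v_disj : ∀ i i' (l l' : ℕ), (l : ZMod m) = l' → v i l = v i' l' → i = i'
  mult : ∀ i, ‖σ (∏ l ∈ Finset.range (P i), (T l).der (v i l))‖ ≤ 1

end FS16
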