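import Pool.Agent.FS16.NGood

/-!
# Reduction of a rational map at a type II point: thin annuli

MODULE N-THIN.
* `thin_dir`, `thin`, `thin_der` for `u`, `T u = u'` finite: let `x`, `y` be lifts of `u`, `u'`.
  The reduction of `N = c (g.p - y g.q)` is `h (T.p - u' T.q) = (X - u)^(s+m) H`, `H u ≠ 0`,
  `s = spl u`, `m = T.mult u`; expand `N (x + w) = ∑ n_i w^i`: `‖n_i‖ < 1` for `i < s + m`,
  `‖n_(s+m)‖ = 1` with reduction `H u`.  So for `‖w‖ < 1` close to `1` the term `n_(s+m) w^(s+m)` is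
  strictly larger than all other terms: `‖N (x + w) / w^(s+m) - n_(s+m)‖ < 1`.  Similarly for
  `c g.q` with reduction `h T.q = (X - u)^s H₁`.  So `(g z - y) / w^m` has norm one and reduces to
  `H u / H₁ u`; for `m = 1` this is `(T.p - u' T.q)' (u) / T.q u = T.wr u / T.q u ^ 2 = T.der u`.
  `u = ∞` or `u' = ∞`: expand in powers of `1/w`, resp. consider `g.q / g.p`; or conjugate with the
  chart `z ↦ 1/z` (`RM.cj`): `dirR (1/z) = 1/(dirR z)` and the reduction of the conjugated map is the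
  conjugated reduction.
  (`radR` does not depend on the choice of the lift near the boundary of the direction.)
-/

open Polynomial

noncomputable section

namespace FS16

universe u

variable {K k : Type u} [NormedField K] [Field k] {R : Residue K k} [IsUltrametricDist K]
  [IsAlgClosed K] [IsAlgClosed k]

/-! ### auxiliary facts on radii and polynomials -/

private theorem tpow {m : ℝ} (hm0 : 0 ≤ m) (hm : m < 1) (s : ℕ) :
    ∃ t : ℝ, 0 ≤ t ∧ t < 1 ∧ ∀ w : ℝ, t < w → m < w ^ s := by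
  have hs : (0 : ℝ) < s + 1 := by positivity
  have h1 : (1 - m) / (s + 1) ≤ 1 := by
    rw [div_le_one hs]
    have : (0 : ℝ) ≤ s := Nat.cast_nonneg s
    linarith
  have h2 : 0 < (1 - m) / (s + 1) := div_pos (by linarith) hs
  refine ⟨1 - (1 - m) / (s + 1), by linarith, by linarith, fun w hw => ?_⟩
  have h3 : (1 - (1 - m) / (s + 1)) ^ s ≤ w ^ s := pow_le_pow_left₀ (by linarith) hw.le s
  have h4 := one_add_mul_le_pow (a := -((1 - m) / (s + 1))) (by linarith) s
  rw [← sub_eq_add_neg] at h4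
  have h5 : (s : ℝ) * ((1 - m) / (s + 1)) < 1 - m := by
    rw [← mul_div_assoc, div_lt_iff₀ hs]
    nlinarith
  nlinarith

omit [IsUltrametricDist K] [IsAlgClosed K] [IsAlgClosed k] in
private theorem isRed_C {x : K} (hx : ‖x‖ ≤ 1) : IsRed R (C x) (C (R.red x)) := by
  intro i
  rw [coeff_C, coeff_C]
  split_ifs
  · exact ⟨hx, rfl⟩
  · exact ⟨by simp, R.zero⟩

omit [IsUltrametricDist K] [IsAlgClosed K] [IsAlgClosed k] in
private theorem isRed_X : IsRed R X X := by
  intro i
  rw [coeff_X, coeff_X]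
  split_ifs
  · exact ⟨by simp, R.one⟩
  · exact ⟨by simp, R.zero⟩

omit [IsAlgClosed K] [IsAlgClosed k] in
private theorem isRed_pow {g : K[X]} {a : k[X]} (h : IsRed R g a) (n : ℕ) :
    IsRed R (g ^ n) (a ^ n) := by
  induction n with
  | zero =>
    rw [pow_zero, pow_zero]
    have := isRed_C (R := R) (x := 1) (by simp)
    rwa [R.one, map_one, map_one] at this
  | succ n ih =>
    rw [pow_succ, pow_succ]
    exact ih.mul h

omit [IsUltrametricDist K] [IsAlgClosed K] [IsAlgClosed k] in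
/-- lift of a polynomial -/
private theorem exists_lift (a : k[X]) : ∃ g : K[X], IsRed R g a := by
  classical
  refine ⟨∑ i ∈ a.support, monomial i (R.lift (a.coeff i)), fun i => ?_⟩
  rw [finsetSum_coeff]
  simp only [coeff_monomial]
  rw [Finset.sum_ite_eq' a.support i (fun i => R.lift (a.coeff i))]
  split_ifs with h
  · exact ⟨R.norm_lift _, R.red_lift _⟩
  · rw [notMem_support_iff.1 h]
    exact ⟨by simp, R.zero⟩

omit [IsUltrametricDist K] [IsAlgClosed K] [IsAlgClosed k] in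
/-- a bound `< 1` for the coefficients which reduce to zero -/
private theorem exists_coeff_bound {g : K[X]} {a : k[X]} (h : IsRed R g a) :
    ∃ m : ℝ, 0 ≤ m ∧ m < 1 ∧ ∀ i, a.coeff i = 0 → ‖g.coeff i‖ ≤ m := by
  classical
  set S := (Finset.range (g.natDegree + 1)).filter (fun i => a.coeff i = 0) with hS
  have hlt : ∀ i, a.coeff i = 0 → ‖g.coeff i‖ < 1 := by
    intro i hi
    rw [← R.zero_iff _ (h i).1, (h i).2, hi]
  by_cases hne : S.Nonempty
  · obtain ⟨j, hj, hmax⟩ := S.exists_max_image (fun i => ‖g.coeff i‖) hne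
    refine ⟨‖g.coeff j‖, norm_nonneg _, hlt j (Finset.mem_filter.1 hj).2, fun i hi => ?_⟩
    by_cases hin : i ≤ g.natDegree
    · exact hmax i (by rw [hS, Finset.mem_filter, Finset.mem_range]; exact ⟨by omega, hi⟩)
    · rw [coeff_eq_zero_of_natDegree_lt (by omega), norm_zero]
      exact norm_nonneg _
  · refine ⟨0, le_rfl, one_pos, fun i hi => ?_⟩
    by_cases hin : i ≤ g.natDegree
    · exact absurd ⟨i, by rw [hS, Finset.mem_filter, Finset.mem_range]; exact ⟨by omega, hi⟩⟩ hne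
    · rw [coeff_eq_zero_of_natDegree_lt (by omega), norm_zero]

omit [IsAlgClosed K] [IsAlgClosed k] in
/-- an element near to an element of norm one -/
private theorem near_one {x y : K} (hy : ‖y‖ = 1) (h : ‖x - y‖ < 1) :
    ‖x‖ = 1 ∧ R.red x = R.red y := by
  have hx : ‖x‖ ≤ 1 := by
    have := IsUltrametricDist.norm_add_le_max (x - y) y
    rw [sub_add_cancel] at this
    exact this.trans (max_le h.le hy.le)
  have h1 := (R.eq_iff hx hy.le).2 h
  refine ⟨?_, h1⟩
  rw [← R.norm_eq_one hx, h1, ne_eq, R.zero_iff y hy.le]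
  linarith

omit [IsAlgClosed K] [IsAlgClosed k] in
/-- values near the boundary of a finite direction -/
private theorem bd_fin {N : K[X]} {a b : k[X]} (hN : IsRed R N a) {x : K} {u : k}
    (hx : ‖x‖ ≤ 1) (hxu : R.red x = u) {s : ℕ} (hab : a = (X - C u) ^ s * b)
    (hb : b.eval u ≠ 0) : ∃ t : ℝ, 0 ≤ t ∧ t < 1 ∧ ∀ z : K, t < ‖z - x‖ → ‖z - x‖ < 1 →
      ‖N.eval z‖ = ‖z - x‖ ^ s ∧ ‖N.eval z / (z - x) ^ s‖ = 1 ∧
      R.red (N.eval z / (z - x) ^ s) = b.eval u := by
  obtain ⟨B, hB⟩ := exists_lift (R := R) b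
  have hXx : IsRed R (X - C x) (X - C u) := by
    have := isRed_C (R := R) hx
    rw [hxu] at this
    exact isRed_X.sub this
  have hRm : IsRed R (N - (X - C x) ^ s * B) 0 := by
    have := hN.sub ((isRed_pow hXx s).mul hB)
    rwa [← hab, sub_self] at this
  obtain ⟨m, hm0, hm1, hm⟩ := exists_coeff_bound hRm
  obtain ⟨t, ht0, ht1, ht⟩ := tpow hm0 hm1 s
  refine ⟨t, ht0, ht1, fun z hz hz1 => ?_⟩
  have hzn : ‖z‖ ≤ 1 := by
    have := IsUltrametricDist.norm_add_le_max (z - x) x
    rw [sub_add_cancel] at this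
    exact this.trans (max_le hz1.le hx)
  have hzx : z - x ≠ 0 := by
    intro h
    rw [h, norm_zero] at hz
    linarith
  have hzu : R.red z = u := by
    rw [← hxu]
    exact (R.eq_iff hzn hx).2 hz1
  have hpos : 0 < ‖z - x‖ ^ s := by positivity
  -- the remainder
  have hrem : ‖(N - (X - C x) ^ s * B).eval z‖ ≤ m := by
    rw [eval_eq_sum_range]
    refine IsUltrametricDist.norm_sum_le_of_forall_le_of_nonneg hm0 fun i _ => ?_
    rw [norm_mul, norm_pow]
    calc _ ≤ m * 1 := mul_le_mul (hm i (by simp)) (pow_le_one₀ (norm_nonneg _) hzn)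
          (by positivity) hm0
      _ = m := mul_one m
  have hBz := hB.eval hzn
  rw [hzu] at hBz
  have hB1 : ‖B.eval z‖ = 1 := by
    rw [← R.norm_eq_one hBz.1, hBz.2]
    exact hb
  have hdiff : ‖N.eval z / (z - x) ^ s - B.eval z‖ < 1 := by
    have h1 : N.eval z / (z - x) ^ s - B.eval z =
        (N - (X - C x) ^ s * B).eval z / (z - x) ^ s := by
      rw [eval_sub, eval_mul, eval_pow, eval_sub, eval_X, eval_C]
      field_simp
    rw [h1, norm_div, norm_pow, div_lt_one hpos]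
    exact lt_of_le_of_lt hrem (ht _ hz)
  have h2 := near_one (R := R) hB1 hdiff
  refine ⟨?_, h2.1, by rw [h2.2, hBz.2]⟩
  have h3 := h2.1
  rw [norm_div, norm_pow, div_eq_one_iff_eq hpos.ne'] at h3
  exact h3

omit [IsAlgClosed K] [IsAlgClosed k] in
/-- values near the boundary of the infinite direction -/
private theorem bd_inf {N : K[X]} {a : k[X]} (hN : IsRed R N a) (ha : a ≠ 0) :
    ∃ t : ℝ, 0 ≤ t ∧ t < 1 ∧ ∀ z : K, t < ‖z‖⁻¹ → 1 < ‖z‖ →
      ‖N.eval z‖ = ‖z‖ ^ a.natDegree := by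
  obtain ⟨m, hm0, hm1, hm⟩ := exists_coeff_bound hN
  obtain ⟨t, ht0, ht1, ht⟩ := tpow hm0 hm1 N.natDegree
  refine ⟨t, ht0, ht1, fun z hz hz1 => ?_⟩
  have hz0 : z ≠ 0 := by
    rintro rfl
    rw [norm_zero] at hz1
    linarith
  have hzp : 0 < ‖z‖ := norm_pos_iff.2 hz0
  have hw1 : ‖z‖⁻¹ < 1 := inv_lt_one_of_one_lt₀ hz1
  have hw0 : 0 < ‖z‖⁻¹ := inv_pos.2 hzp
  set e := a.natDegree with he
  have hlead : ‖N.coeff e‖ = 1 := by
    rw [← R.norm_eq_one (hN e).1, (hN e).2]
    exact leadingCoeff_ne_zero.2 ha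
  have heN : e ∈ Finset.range (N.natDegree + 1) := by
    rw [Finset.mem_range]
    by_contra h
    have h1 : N.coeff e = 0 := coeff_eq_zero_of_natDegree_lt (by omega)
    rw [h1, norm_zero] at hlead
    exact zero_ne_one hlead
  have hM : max (‖z‖⁻¹) (m * ‖z‖ ^ N.natDegree) < 1 := by
    refine max_lt hw1 ?_
    have h1 := ht _ hz
    rw [inv_pow, ← one_div, lt_div_iff₀ (by positivity)] at h1
    exact h1
  have hdiff : ‖N.eval z / z ^ e - N.coeff e‖ < 1 := by
    have h1 : N.eval z / z ^ e - N.coeff e =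
        ∑ i ∈ (Finset.range (N.natDegree + 1)).erase e, N.coeff i * z ^ i / z ^ e := by
      have h2 : N.eval z = N.coeff e * z ^ e +
          ∑ i ∈ (Finset.range (N.natDegree + 1)).erase e, N.coeff i * z ^ i := by
        rw [eval_eq_sum_range]
        exact (Finset.add_sum_erase _ (fun i => N.coeff i * z ^ i) heN).symm
      rw [h2, ← Finset.sum_div, add_div, mul_div_assoc, div_self (pow_ne_zero _ hz0), mul_one]
      ring
    rw [h1]
    refine lt_of_le_of_lt (IsUltrametricDist.norm_sum_le_of_forall_le_of_nonneg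
      (le_max_of_le_left hw0.le) fun i hi => ?_) hM
    rw [Finset.mem_erase, Finset.mem_range] at hi
    rw [norm_div, norm_mul, norm_pow, norm_pow]
    have hep : 0 < ‖z‖ ^ e := by positivity
    rcases lt_or_gt_of_ne hi.1 with hlt | hgt
    · refine le_max_of_le_left ?_
      rw [div_le_iff₀ hep]
      have h3 : ‖z‖ ^ (i + 1) ≤ ‖z‖ ^ e := pow_le_pow_right₀ hz1.le hlt
      have h4 : ‖z‖⁻¹ * ‖z‖ ^ (i + 1) = ‖z‖ ^ i := by
        rw [pow_succ]
        field_simp
      calc ‖N.coeff i‖ * ‖z‖ ^ i ≤ 1 * ‖z‖ ^ i := by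
            gcongr
            exact (hN i).1
        _ = ‖z‖⁻¹ * ‖z‖ ^ (i + 1) := by rw [h4, one_mul]
        _ ≤ ‖z‖⁻¹ * ‖z‖ ^ e := by gcongr
    · refine le_max_of_le_right ?_
      rw [div_le_iff₀ hep]
      have h5 : ‖N.coeff i‖ ≤ m := hm i (coeff_eq_zero_of_natDegree_lt hgt)
      have h6 : ‖z‖ ^ i ≤ ‖z‖ ^ N.natDegree := pow_le_pow_right₀ hz1.le (by omega)
      have h7 : 1 ≤ ‖z‖ ^ e := one_le_pow₀ hz1.le
      calc ‖N.coeff i‖ * ‖z‖ ^ i ≤ m * ‖z‖ ^ N.natDegree := by gcongr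
        _ ≤ m * ‖z‖ ^ N.natDegree * ‖z‖ ^ e :=
            le_mul_of_one_le_right (by positivity) h7
  have h2 := (near_one (R := R) hlead hdiff).1
  rw [norm_div, norm_pow, div_eq_one_iff_eq (by positivity)] at h2
  exact h2

/-! ### multiplicities -/

private theorem coe_map {F : Type*} (s : Multiset F) :
    Multiset.map (fun z : OnePoint F => z) (s >>= fun a => pure (a : OnePoint F)) =
      s.map (fun z : F => (z : OnePoint F)) := by
  rw [Multiset.map_id']
  exact Multiset.bind_singleton s (fun a => (a : OnePoint F))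

private theorem count_coe {F : Type*} [Field F] [DecidableEq (OnePoint F)] [DecidableEq F]
    (g : F[X]) (n : ℕ) (u : F) :
    (Multiset.map (fun z : OnePoint F => z) (g.roots >>= fun a => pure (a : OnePoint F)) +
      Multiset.replicate n OnePoint.infty).count (u : OnePoint F) = g.rootMultiplicity u := by
  rw [coe_map, Multiset.count_add, Multiset.count_replicate, if_neg (OnePoint.infty_ne_coe u),
    add_zero, Multiset.count_map_eq_count' _ _ OnePoint.coe_injective, count_roots]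

private theorem count_infty {F : Type*} [Field F] [DecidableEq (OnePoint F)]
    (g : F[X]) (n : ℕ) :
    (Multiset.map (fun z : OnePoint F => z) (g.roots >>= fun a => pure (a : OnePoint F)) +
      Multiset.replicate n OnePoint.infty).count OnePoint.infty = n := by
  rw [coe_map, Multiset.count_add, Multiset.count_replicate_self, Multiset.count_eq_zero.2,
    zero_add]
  intro h
  obtain ⟨x, _, hx⟩ := Multiset.mem_map.1 h
  exact OnePoint.coe_ne_infty x hx

private theorem mult_cc {F : Type*} [Field F] (T : RM F) {u u' : F}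
    (h : T.map (u : OnePoint F) = (u' : OnePoint F)) :
    T.mult (u : OnePoint F) = (T.p - C u' * T.q).rootMultiplicity u := by
  classical
  unfold RM.mult
  rw [h, RM.fibM_coe]
  exact count_coe (T.p - C u' * T.q) _ u

private theorem mult_ci {F : Type*} [Field F] (T : RM F) {u : F}
    (h : T.map (u : OnePoint F) = OnePoint.infty) :
    T.mult (u : OnePoint F) = T.q.rootMultiplicity u := by
  classical
  unfold RM.mult
  rw [h, RM.fibM_infty]
  exact count_coe T.q _ u

private theorem mult_ic {F : Type*} [Field F] (T : RM F) {u' : F}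
    (h : T.map OnePoint.infty = (u' : OnePoint F)) :
    T.mult OnePoint.infty = T.deg - (T.p - C u' * T.q).natDegree := by
  classical
  unfold RM.mult
  rw [h, RM.fibM_coe]
  exact count_infty (T.p - C u' * T.q) _

private theorem mult_ii {F : Type*} [Field F] (T : RM F)
    (h : T.map OnePoint.infty = OnePoint.infty) :
    T.mult OnePoint.infty = T.deg - T.q.natDegree := by
  classical
  unfold RM.mult
  rw [h, RM.fibM_infty]
  exact count_infty T.q _

private theorem q_ne_zero {F : Type*} [Field F] (T : RM F) (hd : 1 ≤ T.deg) : T.q ≠ 0 := by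
  intro h
  have h1 := T.cop
  rw [h, isCoprime_zero_right] at h1
  have h2 : T.p.natDegree = 0 := natDegree_eq_zero_of_isUnit h1
  unfold RM.deg at hd
  rw [h2, h] at hd
  simp at hd

/-! ### quotients near the boundary -/

omit [IsAlgClosed K] [IsAlgClosed k] in
private theorem quot_fin {A B : K[X]} {h a b : k[X]} (hA : IsRed R A (h * a))
    (hB : IsRed R B (h * b)) (h0 : h ≠ 0) (ha : a ≠ 0) (hb : b ≠ 0) {x : K} {u : k}
    (hx : ‖x‖ ≤ 1) (hxu : R.red x = u) {m : ℕ}
    (hm : a.rootMultiplicity u = b.rootMultiplicity u + m) :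
    ∃ t : ℝ, 0 ≤ t ∧ t < 1 ∧ ∀ z : K, t < ‖z - x‖ → ‖z - x‖ < 1 →
      B.eval z ≠ 0 ∧ ‖A.eval z‖ = ‖z - x‖ ^ m * ‖B.eval z‖ := by
  obtain ⟨a₁, ha₁, ha₂⟩ := exists_eq_pow_rootMultiplicity_mul_and_not_dvd (h * a) (mul_ne_zero h0 ha) u
  obtain ⟨b₁, hb₁, hb₂⟩ := exists_eq_pow_rootMultiplicity_mul_and_not_dvd (h * b) (mul_ne_zero h0 hb) u
  rw [dvd_iff_isRoot, IsRoot.def] at ha₂ hb₂
  obtain ⟨t₁, ht₁0, ht₁1, ht₁⟩ := bd_fin hA hx hxu ha₁ ha₂
  obtain ⟨t₂, ht₂0, ht₂1, ht₂⟩ := bd_fin hB hx hxu hb₁ hb₂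
  refine ⟨max t₁ t₂, le_max_of_le_left ht₁0, max_lt ht₁1 ht₂1, fun z hz hz1 => ?_⟩
  have h1 := (ht₁ z (lt_of_le_of_lt (le_max_left _ _) hz) hz1).1
  have h2 := (ht₂ z (lt_of_le_of_lt (le_max_right _ _) hz) hz1).1
  have hpos : 0 < ‖z - x‖ := lt_of_le_of_lt (le_max_of_le_left ht₁0) hz
  constructor
  · intro h3
    rw [h3, norm_zero] at h2
    exact absurd h2 (by positivity)
  · rw [h1, h2, ← pow_add, rootMultiplicity_mul (mul_ne_zero h0 ha),
      rootMultiplicity_mul (mul_ne_zero h0 hb), hm]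
    congr 1
    omega

omit [IsAlgClosed K] [IsAlgClosed k] in
private theorem quot_inf {A B : K[X]} {h a b : k[X]} (hA : IsRed R A (h * a))
    (hB : IsRed R B (h * b)) (h0 : h ≠ 0) (ha : a ≠ 0) (hb : b ≠ 0) {m : ℕ}
    (hm : b.natDegree = a.natDegree + m) :
    ∃ t : ℝ, 0 ≤ t ∧ t < 1 ∧ ∀ z : K, t < ‖z‖⁻¹ → 1 < ‖z‖ →
      B.eval z ≠ 0 ∧ ‖A.eval z‖ = ‖z‖⁻¹ ^ m * ‖B.eval z‖ := by
  obtain ⟨t₁, ht₁0, ht₁1, ht₁⟩ := bd_inf hA (mul_ne_zero h0 ha)
  obtain ⟨t₂, ht₂0, ht₂1, ht₂⟩ := bd_inf hB (mul_ne_zero h0 hb)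
  refine ⟨max t₁ t₂, le_max_of_le_left ht₁0, max_lt ht₁1 ht₂1, fun z hz hz1 => ?_⟩
  have h1 := ht₁ z (lt_of_le_of_lt (le_max_left _ _) hz) hz1
  have h2 := ht₂ z (lt_of_le_of_lt (le_max_right _ _) hz) hz1
  have hpos : 0 < ‖z‖ := by linarith
  constructor
  · intro h3
    rw [h3, norm_zero] at h2
    exact absurd h2 (by positivity)
  · rw [h1, h2, natDegree_mul h0 ha, natDegree_mul h0 hb, hm, inv_pow]
    rw [← add_assoc, pow_add _ (h.natDegree + a.natDegree) m]
    field_simp

/-! ### the image of a point near the boundary -/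

omit [IsAlgClosed K] [IsAlgClosed k] in
private theorem image_fin {g : RM K} {c : K} (hc : c ≠ 0) {z y : K} {u' : k} (hy : ‖y‖ ≤ 1)
    (hyu : R.red y = u') {ρ : ℝ} (hρ1 : ρ < 1) (hB : (C c * g.q).eval z ≠ 0)
    (h : ‖(C c * g.p - C y * (C c * g.q)).eval z‖ = ρ * ‖(C c * g.q).eval z‖) :
    g.q.eval z ≠ 0 ∧ ‖g.ev z - y‖ = ρ ∧ ‖g.ev z‖ ≤ 1 ∧ R.red (g.ev z) = u' := by
  have hq : g.q.eval z ≠ 0 := by
    intro h1
    apply hB
    rw [eval_mul, h1, mul_zero]
  have h1 : g.ev z - y = (C c * g.p - C y * (C c * g.q)).eval z / (C c * g.q).eval z := by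
    unfold RM.ev
    simp only [eval_sub, eval_mul, eval_C]
    field_simp
  have h2 : ‖g.ev z - y‖ = ρ := by
    rw [h1, norm_div, h, mul_div_assoc, div_self (norm_ne_zero_iff.2 hB), mul_one]
  have h3 : ‖g.ev z‖ ≤ 1 := by
    have := IsUltrametricDist.norm_add_le_max (g.ev z - y) y
    rw [sub_add_cancel] at this
    exact this.trans (max_le (by rw [h2]; exact hρ1.le) hy)
  refine ⟨hq, h2, h3, ?_⟩
  rw [← hyu]
  exact (R.eq_iff h3 hy).2 (by rw [h2]; exact hρ1)

omit [IsUltrametricDist K] [IsAlgClosed K] [IsAlgClosed k] in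
private theorem image_inf {g : RM K} {c : K} (hc : c ≠ 0) {z : K} {ρ : ℝ} (hρ0 : 0 < ρ)
    (hρ1 : ρ < 1) (hB : (C c * g.p).eval z ≠ 0)
    (h : ‖(C c * g.q).eval z‖ = ρ * ‖(C c * g.p).eval z‖) :
    g.q.eval z ≠ 0 ∧ ‖g.ev z‖⁻¹ = ρ ∧ 1 < ‖g.ev z‖ := by
  have hpn : 0 < ‖(C c * g.p).eval z‖ := norm_pos_iff.2 hB
  have hq : g.q.eval z ≠ 0 := by
    intro h1
    rw [eval_mul, h1, mul_zero, norm_zero] at h
    exact absurd h (by positivity)
  have h1 : ‖g.ev z‖⁻¹ = ρ := by
    have h2 : (g.ev z)⁻¹ = (C c * g.q).eval z / (C c * g.p).eval z := by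
      unfold RM.ev
      simp only [eval_mul, eval_C]
      rw [inv_div, mul_div_mul_left _ _ hc]
    rw [← norm_inv, h2, norm_div, h, mul_div_assoc, div_self hpn.ne', mul_one]
  refine ⟨hq, h1, ?_⟩
  rw [← inv_lt_one₀]
  · rw [h1]; exact hρ1
  · rw [← inv_pos, h1]; exact hρ0

omit [IsAlgClosed K] in
/-- the general statement -/
private theorem core {g : RM K} {h : k[X]} {T : RM k} (hg : GoodRed R g h T) (u : OnePoint k) :
    ∃ t : ℝ, 0 ≤ t ∧ t < 1 ∧ ∀ z, dirR R z = u → t < radR R u z →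
      dirR R (g.map z) = T.map u ∧ radR R (T.map u) (g.map z) = radR R u z ^ T.mult u := by
  obtain ⟨h0, hd, c, hc, hP, hQ⟩ := hg
  have hmult := T.one_le_mult hd u
  have hq0 := q_ne_zero T hd
  -- the statement for finite points
  suffices H : ∃ t : ℝ, 0 ≤ t ∧ t < 1 ∧ ∀ x : K, dirR R (x : OnePoint K) = u →
      t < radR R u (x : OnePoint K) →
      (∀ u' : k, T.map u = (u' : OnePoint k) → (C c * g.q).eval x ≠ 0 ∧
        ‖(C c * g.p - C (R.lift u') * (C c * g.q)).eval x‖ =
          radR R u (x : OnePoint K) ^ T.mult u * ‖(C c * g.q).eval x‖) ∧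
      (T.map u = OnePoint.infty → (C c * g.p).eval x ≠ 0 ∧
        ‖(C c * g.q).eval x‖ = radR R u (x : OnePoint K) ^ T.mult u * ‖(C c * g.p).eval x‖) by
    obtain ⟨t, ht0, ht1, ht⟩ := H
    refine ⟨t, ht0, ht1, fun z hz hzt => ?_⟩
    have hrad : radR R u z < 1 := radR_lt_one R hz
    have hρ0 : 0 < radR R u z ^ T.mult u := pow_pos (lt_of_le_of_lt ht0 hzt) _
    have hρ1 : radR R u z ^ T.mult u < 1 :=
      pow_lt_one₀ (radR_nonneg R u z) hrad (by omega)
    -- `z` is finite
    obtain ⟨x, rfl⟩ : ∃ x : K, z = (x : OnePoint K) := by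
      cases z using OnePoint.rec with
      | coe x => exact ⟨x, rfl⟩
      | infty =>
        exfalso
        rw [dirR_infty] at hz
        subst hz
        have : radR R (OnePoint.infty : OnePoint k) (OnePoint.infty : OnePoint K) = 0 := rfl
        rw [this] at hzt
        linarith
    obtain ⟨H1, H2⟩ := ht x hz hzt
    cases hu' : T.map u using OnePoint.rec with
    | infty =>
      obtain ⟨h1, h2⟩ := H2 hu'
      obtain ⟨h3, h4, h5⟩ := image_inf hc hρ0 hρ1 h1 h2
      rw [g.map_coe h3, dirR_coe_of_lt R h5, radR_infty_coe]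
      exact ⟨rfl, h4⟩
    | coe u' =>
      obtain ⟨h1, h2⟩ := H1 u' hu'
      obtain ⟨h3, h4, h5, h6⟩ := image_fin (R := R) hc (R.norm_lift u') (R.red_lift u') hρ1 h1 h2
      rw [g.map_coe h3, dirR_coe R h5, radR_coe, h6]
      exact ⟨rfl, h4⟩
  have hPQ : ∀ u' : k, IsRed R (C c * g.p - C (R.lift u') * (C c * g.q))
      (h * (T.p - C u' * T.q)) := by
    intro u'
    have h1 := hP.sub (hQ.C_mul (R.norm_lift u'))
    rw [R.red_lift] at h1
    have h2 : h * (T.p - C u' * T.q) = h * T.p - C u' * (h * T.q) := by ring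
    rw [h2]
    exact h1
  cases u using OnePoint.rec with
  | coe u =>
    cases hu' : T.map (u : OnePoint k) using OnePoint.rec with
    | coe u' =>
      obtain ⟨hqu, hev⟩ := T.map_eq_coe hu'
      have hm : (T.p - C u' * T.q).rootMultiplicity u =
          T.q.rootMultiplicity u + T.mult (u : OnePoint k) := by
        rw [mult_cc T hu', rootMultiplicity_eq_zero hqu, zero_add]
      obtain ⟨t, ht0, ht1, ht⟩ := quot_fin (hPQ u') hQ h0 (CR.fib_ne_zero T hd u') hq0
        (R.norm_lift u) (R.red_lift u) hm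
      refine ⟨t, ht0, ht1, fun x hx hxt => ⟨fun v hv => ?_, fun hv => ?_⟩⟩
      · rw [OnePoint.coe_injective hv.symm]
        rw [radR_coe] at hxt ⊢
        exact ht x hxt (radR_coe R u x ▸ radR_lt_one R hx)
      · exact absurd hv (OnePoint.coe_ne_infty u')
    | infty =>
      have hqu : T.q.eval u = 0 := by
        by_contra hne
        rw [T.map_coe hne] at hu'
        exact OnePoint.coe_ne_infty _ hu'
      have hpu : T.p.eval u ≠ 0 := RM.p_ne hqu
      have hp0 : T.p ≠ 0 := by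
        rintro hp
        rw [hp, eval_zero] at hpu
        exact hpu rfl
      have hm : T.q.rootMultiplicity u = T.p.rootMultiplicity u + T.mult (u : OnePoint k) := by
        rw [mult_ci T hu', rootMultiplicity_eq_zero hpu, zero_add]
      obtain ⟨t, ht0, ht1, ht⟩ := quot_fin hQ hP h0 hq0 hp0
        (R.norm_lift u) (R.red_lift u) hm
      refine ⟨t, ht0, ht1, fun x hx hxt => ⟨fun v hv => ?_, fun _ => ?_⟩⟩
      · exact absurd hv (OnePoint.infty_ne_coe v)
      · rw [radR_coe] at hxt ⊢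
        exact ht x hxt (radR_coe R u x ▸ radR_lt_one R hx)
  | infty =>
    have hxn : ∀ x : K, dirR R (x : OnePoint K) = OnePoint.infty → 1 < ‖x‖ := by
      intro x hx
      by_contra hle
      rw [dirR_coe R (not_lt.1 hle)] at hx
      exact OnePoint.coe_ne_infty _ hx
    cases hu' : T.map OnePoint.infty using OnePoint.rec with
    | coe u' =>
      have hqd : T.q.natDegree = T.deg := by
        by_contra hne
        rw [T.map_infty_pole hne] at hu'
        exact OnePoint.infty_ne_coe _ hu'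
      have hle : (T.p - C u' * T.q).natDegree ≤ T.deg := by
        refine (natDegree_sub_le _ _).trans (max_le (le_max_left _ _) ?_)
        exact (natDegree_C_mul_le _ _).trans (le_max_right _ _)
      have hm : T.q.natDegree = (T.p - C u' * T.q).natDegree + T.mult OnePoint.infty := by
        rw [mult_ic T hu', hqd]
        omega
      obtain ⟨t, ht0, ht1, ht⟩ := quot_inf (hPQ u') hQ h0 (CR.fib_ne_zero T hd u') hq0 hm
      refine ⟨t, ht0, ht1, fun x hx hxt => ⟨fun v hv => ?_, fun hv => ?_⟩⟩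
      · rw [OnePoint.coe_injective hv.symm]
        rw [radR_infty_coe] at hxt ⊢
        exact ht x hxt (hxn x hx)
      · exact absurd hv (OnePoint.coe_ne_infty u')
    | infty =>
      have hqd : T.q.natDegree ≠ T.deg := by
        intro he
        rw [T.map_infty he] at hu'
        exact OnePoint.coe_ne_infty _ hu'
      have hqd' : T.q.natDegree ≤ T.deg := le_max_right _ _
      have hpd : T.p.natDegree = T.deg := by
        unfold RM.deg at hqd hqd' ⊢
        omega
      have hp0 : T.p ≠ 0 := by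
        rintro hp
        rw [hp, natDegree_zero] at hpd
        omega
      have hm : T.p.natDegree = T.q.natDegree + T.mult OnePoint.infty := by
        rw [mult_ii T hu', hpd]
        omega
      obtain ⟨t, ht0, ht1, ht⟩ := quot_inf hQ hP h0 hq0 hp0 hm
      refine ⟨t, ht0, ht1, fun x hx hxt => ⟨fun v hv => ?_, fun _ => ?_⟩⟩
      · exact absurd hv (OnePoint.infty_ne_coe v)
      · rw [radR_infty_coe] at hxt ⊢
        exact ht x hxt (hxn x hx)

/-- near the boundary of a direction, the direction of the image is the image of the direction -/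
theorem thin_dir {g : RM K} {h : k[X]} {T : RM k} (hg : GoodRed R g h T) (u : OnePoint k) :
    ∃ t < 1, ∀ z, dirR R z = u → t < radR R u z → dirR R (g.map z) = T.map u := by
  obtain ⟨t, _, ht1, ht⟩ := core hg u
  exact ⟨t, ht1, fun z hz hzt => (ht z hz hzt).1⟩

/-- near the boundary of a direction where `T` has multiplicity one, the radius is preserved -/
theorem thin {g : RM K} {h : k[X]} {T : RM k} (hg : GoodRed R g h T) {u : OnePoint k}
    (hu : T.mult u = 1) : ∃ t < 1, ∀ z, dirR R z = u → t < radR R u z →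
      dirR R (g.map z) = T.map u ∧ radR R (T.map u) (g.map z) = radR R u z := by
  obtain ⟨t, _, ht1, ht⟩ := core hg u
  refine ⟨t, ht1, fun z hz hzt => ?_⟩
  have h1 := ht z hz hzt
  rw [hu, pow_one] at h1
  exact h1

/-- near the boundary of a direction where `T` has multiplicity one, the difference quotients reduce
to the derivative -/
theorem thin_der {g : RM K} {h : k[X]} {T : RM k} (hg : GoodRed R g h T) {u : k}
    (hq : T.q.eval u ≠ 0) (hw : T.wr.eval u ≠ 0) {x y : K} (hx : ‖x‖ ≤ 1) (hxu : R.red x = u)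
    (hy : ‖y‖ ≤ 1) (hyu : R.red y = T.ev u) :
    ∃ t < 1, ∀ z : K, t < ‖z - x‖ → ‖z - x‖ < 1 → g.q.eval z ≠ 0 ∧ ‖g.ev z - y‖ = ‖z - x‖ ∧
      R.red ((g.ev z - y) / (z - x)) = T.der u := by
  obtain ⟨h0, hd, c, hc, hP, hQ⟩ := hg
  -- factor `h`
  obtain ⟨h₁, hh₁, hh₂⟩ := exists_eq_pow_rootMultiplicity_mul_and_not_dvd h h0 u
  set s := h.rootMultiplicity u with hs
  rw [dvd_iff_isRoot, IsRoot.def] at hh₂
  -- factor `T.p - u' T.q`
  set u' := T.ev u with hu'
  have hroot : (T.p - C u' * T.q).eval u = 0 := by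
    rw [eval_sub, eval_mul, eval_C, hu']
    unfold RM.ev
    field_simp
    ring
  obtain ⟨r, hr⟩ := dvd_iff_isRoot.2 hroot
  have hder : r.eval u = (derivative (T.p - C u' * T.q)).eval u := by
    rw [hr, derivative_mul, eval_add, eval_mul, eval_mul]
    simp
  have hder2 : r.eval u / T.q.eval u = T.der u := by
    rw [hder, RM.der, RM.wr, hu', RM.ev]
    simp only [derivative_sub, derivative_mul, derivative_C, eval_sub, eval_mul, eval_add, eval_C,
      eval_zero]
    field_simp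
    ring
  have hr0 : r.eval u ≠ 0 := by
    intro h1
    rw [h1, zero_div] at hder2
    unfold RM.der at hder2
    exact (div_ne_zero hw (pow_ne_zero 2 hq)) hder2.symm
  have hN : IsRed R (C c * g.p - C y * (C c * g.q)) (h * (T.p - C u' * T.q)) := by
    have h1 := hP.sub (hQ.C_mul hy)
    rw [hyu] at h1
    have h2 : h * (T.p - C u' * T.q) = h * T.p - C u' * (h * T.q) := by ring
    rw [h2]
    exact h1
  obtain ⟨t₁, ht₁0, ht₁1, ht₁⟩ := bd_fin hN hx hxu (s := s + 1) (b := h₁ * r)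
    (by rw [hr, hh₁]; ring) (by rw [eval_mul]; exact mul_ne_zero hh₂ hr0)
  obtain ⟨t₂, ht₂0, ht₂1, ht₂⟩ := bd_fin hQ hx hxu (s := s) (b := h₁ * T.q)
    (by rw [hh₁]; ring) (by rw [eval_mul]; exact mul_ne_zero hh₂ hq)
  refine ⟨max t₁ t₂, max_lt ht₁1 ht₂1, fun z hz hz1 => ?_⟩
  obtain ⟨ha1, ha2, ha3⟩ := ht₁ z (lt_of_le_of_lt (le_max_left _ _) hz) hz1
  obtain ⟨hb1, hb2, hb3⟩ := ht₂ z (lt_of_le_of_lt (le_max_right _ _) hz) hz1
  have hpos : 0 < ‖z - x‖ := lt_of_le_of_lt (le_max_of_le_left ht₁0) hz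
  have hzx : z - x ≠ 0 := norm_pos_iff.1 hpos
  have hB : (C c * g.q).eval z ≠ 0 := by
    intro h3
    rw [h3, norm_zero] at hb1
    exact absurd hb1 (by positivity)
  have hab : ‖(C c * g.p - C y * (C c * g.q)).eval z‖ = ‖z - x‖ * ‖(C c * g.q).eval z‖ := by
    rw [ha1, hb1, pow_succ]
    ring
  obtain ⟨h3, h4, h5, h6⟩ := image_fin (R := R) hc hy hyu hz1 hB hab
  refine ⟨h3, h4, ?_⟩
  have h7 : (g.ev z - y) / (z - x) = ((C c * g.p - C y * (C c * g.q)).eval z / (z - x) ^ (s + 1)) /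
      ((C c * g.q).eval z / (z - x) ^ s) := by
    have h8 : g.ev z - y = (C c * g.p - C y * (C c * g.q)).eval z / (C c * g.q).eval z := by
      unfold RM.ev
      simp only [eval_sub, eval_mul, eval_C]
      field_simp
    rw [h8, pow_succ]
    field_simp
  rw [h7, R.div ha2.le hb2, ha3, hb3, eval_mul, eval_mul, mul_div_mul_left _ _ hh₂]
  exact hder2

end FS16
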