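import Pool.Agent.FS16.NCrit
import Pool.Agent.FS16.NThin

/-!
# Critical points captured by infinite orbits of directions

MODULE N-CAP.
* `crit_dir`: let `x`, `y` be lifts of `u`, `u'` and apply `crit_poly` to `p = g.p - y g.q`, `q = g.q`
  (`W = g.wr ≠ 0`).  The points of direction `u` are the `z` with `‖z - x‖ < 1`.  By `dircount` for
  `b = y`: `nro p x 1 = spl u + T.mult u`, and for `b = ∞`: `nro q x 1 = spl u`
  (`T u = u' ≠ ∞`); `T.mult u ≥ 1`.  Near the boundary of the disc `‖g z - y‖ < 1` by `thin_dir`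
  (and `q z ≠ 0`).  The result is a root `z` of `g.wr` of direction `u` with `‖g z - y‖ < 1`
  (`q z ≠ 0` as `‖p z‖ < ‖q z‖`), that is, `g z` has direction `u'`; `z` is critical by `isCrit_coe`.
* `exists_capture`: the set of the `n` with `2 ≤ spl + mult` at the direction `w n` is finite: `Ξ` is
  finite, for each `ξ` there are finitely many directions `u` with `spl u ≠ 0` (`finite_spl`) or
  `T.mult u ≥ 2` (`crit_card`), and `n` is determined by `s^[n] ξ` and `w n` (`hinj`).  It contains `0`;
  let `n` be its maximum.  `crit_dir` for `g = f.cj (c (s^[n] ξ)) (c (s^[n+1] ξ))` gives a critical point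
  of `g`, of direction `w n`, whose image has direction `w (n + 1)`; its image `z` under the inverse of
  the chart is a critical point of `f` (`cj_mult`, `cj_map`).  For the later `l` the
  direction of `f.map^[l+1] z` is `w (n + l + 1)` by induction with `follow`, because `spl = 0`.
* `capture_unique`: let `ξ ≠ ξ'`.  `s` is a permutation of a finite set, so there is `N ≥ 1` with
  `s^[N] = id`.  By `sep`, for every `n` one of
  `w (n N) = u` and `w' (n N) = u'` holds, but each of them holds for at most one `n` (`hinj`,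
  `hinj'`): contradiction for three values of `n`.  So `ξ = ξ'` and `w l = w' l` are the
  directions of the same point in the same chart.
-/

open Polynomial

noncomputable section

namespace FS16

universe u

variable {K k : Type u} [NontriviallyNormedField K] [Field k] {R : Residue K k}
  [IsUltrametricDist K] [IsAlgClosed K] [IsAlgClosed k]

omit [IsAlgClosed K] [IsAlgClosed k] in
theorem cap_dir_iff {x z : K} {u : k} (hx : ‖x‖ ≤ 1) (hxu : R.red x = u) :
    dirR R (z : OnePoint K) = (u : OnePoint k) ↔ ‖z - x‖ < 1 := by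
  constructor
  · intro h
    obtain ⟨w, hw, hw1, hwu⟩ := dirR_eq_coe R h
    have hzw : z = w := OnePoint.coe_injective hw
    subst hzw
    exact (R.eq_iff hw1 hx).1 (hwu.trans hxu.symm)
  · intro h
    have hz : ‖z‖ ≤ 1 := by
      have h1 := IsUltrametricDist.norm_add_le_max (z - x) x
      rw [sub_add_cancel] at h1
      exact h1.trans (max_le h.le hx)
    rw [dirR_coe R hz, (R.eq_iff hz hx).2 h, hxu]

open Classical in
theorem cap_card_filter (P : K[X]) (n : ℕ) {x : K} {u : k} (hx : ‖x‖ ≤ 1) (hxu : R.red x = u) :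
    Multiset.card ((P.roots.map (fun z : K => (z : OnePoint K)) +
      Multiset.replicate n OnePoint.infty).filter fun z => dirR R z = (u : OnePoint k)) =
      nro P x 1 := by
  have h1 : (Multiset.replicate n (OnePoint.infty : OnePoint K)).filter
      (fun z => dirR R z = (u : OnePoint k)) = 0 := by
    rw [Multiset.filter_eq_nil]
    intro a ha h
    rw [Multiset.eq_of_mem_replicate ha, dirR_infty] at h
    exact OnePoint.infty_ne_coe u h
  rw [Multiset.filter_add, h1, add_zero, Multiset.filter_map, Multiset.card_map]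
  unfold nro
  exact congrArg (fun s : Multiset K => Multiset.card s)
    (Multiset.filter_congr fun z _ => cap_dir_iff hx hxu)

theorem cap_fibM_coe (g : RM K) (w : K) : g.fibM (w : OnePoint K) =
    (g.p - C w * g.q).roots.map (fun z : K => (z : OnePoint K)) +
      Multiset.replicate (g.deg - (g.p - C w * g.q).natDegree) OnePoint.infty := by
  rw [RM.fibM_coe]
  first | rfl | simp only [Multiset.bind_def, Multiset.pure_def, Multiset.bind_singleton, Multiset.map_id']

theorem cap_fibM_infty (g : RM K) : g.fibM OnePoint.infty =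
    g.q.roots.map (fun z : K => (z : OnePoint K)) +
      Multiset.replicate (g.deg - g.q.natDegree) OnePoint.infty := by
  rw [RM.fibM_infty]
  first | rfl | simp only [Multiset.bind_def, Multiset.pure_def, Multiset.bind_singleton, Multiset.map_id']

omit [IsUltrametricDist K] [IsAlgClosed K] in
theorem cap_charZero (hK : ∀ n : ℕ, n ≠ 0 → ‖(n : K)‖ = 1) : CharZero K :=
  charZero_of_inj_zero fun n hn => by
    by_contra h
    have h1 := hK n h
    rw [hn, norm_zero] at h1
    exact zero_ne_one h1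

theorem crit_dir (hK : ∀ n : ℕ, n ≠ 0 → ‖(n : K)‖ = 1) {g : RM K} {h : k[X]} {T : RM k}
    (hg : GoodRed R g h T) {u u' : k} (hT : T.map (u : OnePoint k) = (u' : OnePoint k))
    (h2 : 2 ≤ spl g h T (u : OnePoint k) + T.mult (u : OnePoint k)) :
    ∃ z, g.IsCrit z ∧ dirR R z = (u : OnePoint k) ∧ dirR R (g.map z) = (u' : OnePoint k) := by
  classical
  have : CharZero K := cap_charZero hK
  set x : K := R.lift u with hxdef
  set y : K := R.lift u' with hydef
  have hx : ‖x‖ ≤ 1 := R.norm_lift u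
  have hxu : R.red x = u := R.red_lift u
  have hy : ‖y‖ ≤ 1 := R.norm_lift u'
  have hyu : R.red y = u' := R.red_lift u'
  have hcop : IsCoprime (g.p - C y * g.q) g.q := by
    obtain ⟨a, b, hab⟩ := g.cop
    exact ⟨a, b + a * C y, by linear_combination hab⟩
  have hW : derivative (g.p - C y * g.q) * g.q - (g.p - C y * g.q) * derivative g.q = g.wr := by
    unfold RM.wr
    rw [derivative_sub, derivative_mul, derivative_C]
    ring
  have hW0 : derivative (g.p - C y * g.q) * g.q - (g.p - C y * g.q) * derivative g.q ≠ 0 := by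
    rw [hW]
    exact g.wr_ne_zero hg.one_le_deg
  have hev : ∀ z : K, g.q.eval z ≠ 0 →
      ‖(g.p - C y * g.q).eval z‖ = ‖g.ev z - y‖ * ‖g.q.eval z‖ := by
    intro z hz
    rw [← norm_mul]
    congr 1
    rw [eval_sub, eval_mul, eval_C]
    unfold RM.ev
    field_simp
  obtain ⟨t, ht, hthin⟩ := thin_dir hg (u : OnePoint k)
  have hnear : ∀ z, t < ‖z - x‖ → ‖z - x‖ < 1 → ‖(g.p - C y * g.q).eval z‖ < ‖g.q.eval z‖ := by
    intro z h1 h3
    have hd : dirR R (z : OnePoint K) = (u : OnePoint k) := (cap_dir_iff hx hxu).2 h3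
    have h4 := hthin (z : OnePoint K) hd (by rw [radR_coe]; exact h1)
    rw [hT] at h4
    obtain ⟨w, hw, hw1, hwu⟩ := dirR_eq_coe R h4
    obtain ⟨hq, hwe⟩ := g.map_eq_coe hw
    have h5 : ‖w - y‖ < 1 := (R.eq_iff hw1 hy).1 (hwu.trans hyu.symm)
    rw [hev z hq, hwe]
    have h6 : 0 < ‖g.q.eval z‖ := norm_pos_iff.2 hq
    nlinarith
  have hnp : nro (g.p - C y * g.q) x 1 = spl g h T (u : OnePoint k) + T.mult (u : OnePoint k) := by
    have h1 := dircount hg (y : OnePoint K) (u : OnePoint k)
    rw [cap_fibM_coe, cap_card_filter _ _ hx hxu, dirR_coe R hy, hyu, if_pos hT] at h1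
    exact h1
  have hnq : nro g.q x 1 = spl g h T (u : OnePoint k) := by
    have h1 := dircount hg OnePoint.infty (u : OnePoint k)
    rw [cap_fibM_infty, cap_card_filter _ _ hx hxu, dirR_infty, hT,
      if_neg (OnePoint.coe_ne_infty u'), add_zero] at h1
    exact h1
  have hm : 1 ≤ T.mult (u : OnePoint k) := T.one_le_mult hg.2.1 _
  obtain ⟨z, hz1, hz2, hz3⟩ := crit_poly hK hcop hW0 ht hnear (by omega) (by omega)
  have hq : g.q.eval z ≠ 0 := by
    intro h0
    rw [h0, norm_zero] at hz3
    exact absurd hz3 (not_lt.2 (norm_nonneg _))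
  have h7 : ‖g.ev z - y‖ < 1 := by
    rw [hev z hq] at hz3
    have h6 : 0 < ‖g.q.eval z‖ := norm_pos_iff.2 hq
    by_contra hc
    push Not at hc
    nlinarith
  refine ⟨(z : OnePoint K), ?_, (cap_dir_iff hx hxu).2 hz1, ?_⟩
  · rw [hW] at hz2
    exact (g.isCrit_coe hg.one_le_deg z).2 hz2
  · rw [g.map_coe hq]
    exact (cap_dir_iff hy hyu).2 h7

theorem exists_capture (hK : ∀ n : ℕ, n ≠ 0 → ‖(n : K)‖ = 1) [CharZero k] {Ξ : Type*} [Finite Ξ]
    (f : RM K) (s : Ξ → Ξ) (c : Ξ → Chart K) (T : Ξ → RM k) (h : Ξ → k[X])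
    (good : ∀ ξ, GoodRed R (f.cj (c ξ) (c (s ξ))) (h ξ) (T ξ)) (ξ : Ξ) (w : ℕ → k)
    (hw : ∀ l, (T (s^[l] ξ)).map (w l : OnePoint k) = (w (l + 1) : OnePoint k))
    (hinj : ∀ a b, s^[a] ξ = s^[b] ξ → w a = w b → a = b)
    (h0 : 2 ≤ spl (f.cj (c ξ) (c (s ξ))) (h ξ) (T ξ) (w 0 : OnePoint k) +
      (T ξ).mult (w 0 : OnePoint k)) :
    ∃ n z, f.IsCrit z ∧
      ∀ l, dirR R ((c (s^[n + l] ξ)).to (f.map^[l] z)) = (w (n + l) : OnePoint k) := by
  classical
  have hf : 1 ≤ f.deg := by
    have h1 := (good ξ).one_le_deg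
    rwa [RM.cj_deg] at h1
  -- the finite set of bad times
  have hbadfin : {n : ℕ | 2 ≤ spl (f.cj (c (s^[n] ξ)) (c (s (s^[n] ξ)))) (h (s^[n] ξ)) (T (s^[n] ξ))
      (w n : OnePoint k) + (T (s^[n] ξ)).mult (w n : OnePoint k)}.Finite := by
    have hB : ∀ η : Ξ, {v : k | 2 ≤ spl (f.cj (c η) (c (s η))) (h η) (T η) (v : OnePoint k) +
        (T η).mult (v : OnePoint k)}.Finite := by
      intro η
      obtain ⟨S, -, hS⟩ := (T η).crit_card (good η).2.1
      have h1 : ({u : OnePoint k | spl (f.cj (c η) (c (s η))) (h η) (T η) u ≠ 0} ∪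
          (S : Set (OnePoint k))).Finite := (finite_spl (good η)).union S.finite_toSet
      refine (h1.preimage (f := fun v : k => (v : OnePoint k))
        (OnePoint.coe_injective.injOn)).subset ?_
      intro v hv
      simp only [Set.mem_ofPred_eq] at hv
      simp only [Set.mem_preimage, Set.mem_union, Set.mem_ofPred_eq]
      by_cases h2 : spl (f.cj (c η) (c (s η))) (h η) (T η) (v : OnePoint k) = 0
      · right
        rw [h2, zero_add] at hv
        exact Finset.mem_coe.2 (hS _ hv)
      · left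
        exact h2
    have hU : (⋃ η : Ξ, (fun v : k => (η, v)) '' {v : k | 2 ≤ spl (f.cj (c η) (c (s η))) (h η) (T η)
        (v : OnePoint k) + (T η).mult (v : OnePoint k)}).Finite :=
      Set.finite_iUnion fun η => (hB η).image _
    have hinj' : Function.Injective (fun n : ℕ => (s^[n] ξ, w n)) := by
      intro a b hab
      have hab' := Prod.mk.injEq _ _ _ _ ▸ hab
      exact hinj a b hab'.1 hab'.2
    refine (hU.preimage hinj'.injOn).subset ?_
    intro n hn
    simp only [Set.mem_preimage, Set.mem_iUnion, Set.mem_image]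
    exact ⟨s^[n] ξ, w n, hn, rfl⟩
  obtain ⟨n, hn, hmax⟩ := Set.exists_max_image _ (fun n : ℕ => n) hbadfin ⟨0, h0⟩
  have hspl : ∀ m, n < m → spl (f.cj (c (s^[m] ξ)) (c (s (s^[m] ξ)))) (h (s^[m] ξ)) (T (s^[m] ξ))
      (w m : OnePoint k) = 0 := by
    intro m hm
    have h1 : ¬ (2 ≤ spl (f.cj (c (s^[m] ξ)) (c (s (s^[m] ξ)))) (h (s^[m] ξ)) (T (s^[m] ξ))
      (w m : OnePoint k) + (T (s^[m] ξ)).mult (w m : OnePoint k)) := by
      intro h2
      have h3 : m ≤ n := hmax m h2
      omega
    have h4 := (T (s^[m] ξ)).one_le_mult (good (s^[m] ξ)).2.1 (w m : OnePoint k)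
    omega
  obtain ⟨z₀, hz1, hz2, hz3⟩ := crit_dir hK (good (s^[n] ξ)) (hw n) hn
  refine ⟨n, (c (s^[n] ξ)).fro z₀, ?_, ?_⟩
  · unfold RM.IsCrit at hz1 ⊢
    rw [← f.cj_mult hf (c (s^[n] ξ)) (c (s (s^[n] ξ))), Chart.to_fro]
    exact hz1
  · have key : ∀ l, dirR R ((c (s^[n + l + 1] ξ)).to (f.map^[l + 1] ((c (s^[n] ξ)).fro z₀))) =
        (w (n + l + 1) : OnePoint k) := by
      intro l
      induction l with
      | zero =>
        rw [add_zero, zero_add, Function.iterate_one, Function.iterate_succ_apply',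
          ← f.cj_map hf (c (s^[n] ξ)) (c (s (s^[n] ξ))), Chart.to_fro]
        exact hz3
      | succ l ih =>
        have e1 : s^[n + (l + 1) + 1] ξ = s (s^[n + l + 1] ξ) := by
          rw [show n + (l + 1) + 1 = (n + l + 1) + 1 from by ring, Function.iterate_succ_apply']
        have e2 : f.map^[l + 1 + 1] ((c (s^[n] ξ)).fro z₀) =
            f.map (f.map^[l + 1] ((c (s^[n] ξ)).fro z₀)) := Function.iterate_succ_apply' _ _ _
        rw [e1, e2, ← f.cj_map hf (c (s^[n + l + 1] ξ)) (c (s (s^[n + l + 1] ξ)))]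
        have h5 := follow (good (s^[n + l + 1] ξ))
          (z := (c (s^[n + l + 1] ξ)).to (f.map^[l + 1] ((c (s^[n] ξ)).fro z₀)))
          (by rw [ih]; exact hspl _ (by omega))
        rw [h5, ih, hw (n + l + 1)]
        rw [show n + l + 1 + 1 = n + (l + 1) + 1 from by ring]
    intro l
    rcases Nat.eq_zero_or_pos l with hl | hl
    · subst hl
      rw [add_zero, Function.iterate_zero, id, Chart.to_fro]
      exact hz2
    · obtain ⟨m, rfl⟩ : ∃ m, l = m + 1 := ⟨l - 1, by omega⟩
      exact key m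

theorem capture_unique {Ξ : Type*} [Finite Ξ] (f : RM K) (s : Equiv.Perm Ξ) (c : Ξ → Chart K)
    (sep : ∀ ξ ξ', ξ ≠ ξ' → ∃ u u' : OnePoint k, ∀ z, dirR R ((c ξ).to z) = u ∨
      dirR R ((c ξ').to z) = u') {ξ ξ' : Ξ} {w w' : ℕ → k} {z : OnePoint K}
    (hinj : ∀ a b, s^[a] ξ = s^[b] ξ → w a = w b → a = b)
    (hinj' : ∀ a b, s^[a] ξ' = s^[b] ξ' → w' a = w' b → a = b)
    (h : ∀ l, dirR R ((c (s^[l] ξ)).to (f.map^[l] z)) = (w l : OnePoint k))
    (h' : ∀ l, dirR R ((c (s^[l] ξ')).to (f.map^[l] z)) = (w' l : OnePoint k)) :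
    ξ = ξ' ∧ w = w' := by
  classical
  have hξ : ξ = ξ' := by
    by_contra hne
    obtain ⟨u, u', hsep⟩ := sep ξ ξ' hne
    have hN : 0 < orderOf s := orderOf_pos s
    have hper : ∀ (η : Ξ) (n : ℕ), s^[n * orderOf s] η = η := by
      intro η n
      have h1 : (s ^ (n * orderOf s)) η = η := by
        rw [mul_comm, pow_mul, pow_orderOf_eq_one, one_pow]
        rfl
      rw [← Equiv.Perm.iterate_eq_pow] at h1
      exact h1
    have halt : ∀ n : ℕ, (w (n * orderOf s) : OnePoint k) = u ∨
        (w' (n * orderOf s) : OnePoint k) = u' := by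
      intro n
      have h1 := h (n * orderOf s)
      have h2 := h' (n * orderOf s)
      rw [hper] at h1 h2
      rw [← h1, ← h2]
      exact hsep _
    have hw1 : ∀ a b : ℕ, (w (a * orderOf s) : OnePoint k) = u →
        (w (b * orderOf s) : OnePoint k) = u → a = b := by
      intro a b ha hb
      have h1 : a * orderOf s = b * orderOf s := hinj _ _ (by rw [hper, hper])
        (OnePoint.coe_injective (ha.trans hb.symm))
      exact Nat.eq_of_mul_eq_mul_right hN h1
    have hw2 : ∀ a b : ℕ, (w' (a * orderOf s) : OnePoint k) = u' →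
        (w' (b * orderOf s) : OnePoint k) = u' → a = b := by
      intro a b ha hb
      have h1 : a * orderOf s = b * orderOf s := hinj' _ _ (by rw [hper, hper])
        (OnePoint.coe_injective (ha.trans hb.symm))
      exact Nat.eq_of_mul_eq_mul_right hN h1
    rcases halt 0 with h0 | h0 <;> rcases halt 1 with h1 | h1 <;> rcases halt 2 with h2 | h2
    · exact absurd (hw1 0 1 h0 h1) (by norm_num)
    · exact absurd (hw1 0 1 h0 h1) (by norm_num)
    · exact absurd (hw1 0 2 h0 h2) (by norm_num)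
    · exact absurd (hw2 1 2 h1 h2) (by norm_num)
    · exact absurd (hw1 1 2 h1 h2) (by norm_num)
    · exact absurd (hw2 0 2 h0 h2) (by norm_num)
    · exact absurd (hw2 0 1 h0 h1) (by norm_num)
    · exact absurd (hw2 0 1 h0 h1) (by norm_num)
  subst hξ
  refine ⟨rfl, funext fun l => ?_⟩
  exact OnePoint.coe_injective ((h l).symm.trans (h' l))

end FS16
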