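import Pool.Agent.FS16.NProj

/-!
# Charts of the projective line over a field

MODULE N-CHART.  A chart is `z ↦ (z - a)/ρ` or (`inv`) `z ↦ ρ/(z - a)`.  `f.cj c c'` is the rational
map `c' ∘ f ∘ c⁻¹`.

Proofs.
* `Chart.fro` is the inverse of `Chart.to`.
* `preP`: for a polynomial `g` of degree `≤ d`, `preP c d g` is `g (a + ρ X)` or (`inv`)
  `X^d g (a + ρ / X)`.  For `g = lead ∏ (X - r_i)`, `deg g = e ≤ d`: `g (a + ρ X) = lead ρ^e ∏ (X - (r_i - a)/ρ)`
  and `X^d g (a + ρ/X) = lead X^(d-e) ∏ ((a - r_i) X + ρ)`: the roots are the `ρ/(r_i - a)` for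
  `r_i ≠ a`, and `0` with multiplicity `d - e`; the degree is `d - #{i | r_i = a}`.
  `roots_preP`: in other words, with `div d g := roots g + (d - deg g) ∞` (for `g ≠ 0`, `deg g ≤ d`),
  `div d (preP c d g) = (div d g).map c.to`.
* `cj`: the pair `(P̃, Q̃) = (preP d P, preP d Q)`, then `(P̃ - a' Q̃, ρ' Q̃)` or the swapped pair;
  coprime: no common root (`F` algebraically closed), because there is none of `P, Q` and
  `P_d, Q_d` are not both zero.
* `cj_deg`: the maximum of the degrees of `u P̃ + v Q̃` is `d`; (at least one of them has degree `d` as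
  there is no common root at infinity).
* `cj_fibM`: for `b` finite or not, `fibM b = div d (P - b Q)` (or `div d Q`), and for `c'.to b = b'`,
  `(f.cj c c').fibM b' = div d (nonzero constant * preP c d (P - b Q))`.
* `cj_map`: by `mem_fibM` and `cj_fibM`.
* `cj_mult`: by `cj_fibM` and injectivity of `c.to`.
-/

open Polynomial

noncomputable section

namespace FS16

/-- a chart `z ↦ (z - a)/ρ` or `z ↦ ρ/(z - a)` -/
structure Chart (F : Type*) [Field F] where
  a : F
  ρ : F
  hρ : ρ ≠ 0
  inv : Bool

variable {F : Type*} [Field F]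

open Classical in
/-- the chart as a map of the projective line -/
def Chart.to (c : Chart F) : OnePoint F → OnePoint F
  | OnePoint.some z => if c.inv = true then
      (if z = c.a then OnePoint.infty else ((c.ρ / (z - c.a) : F) : OnePoint F))
      else (((z - c.a) / c.ρ : F) : OnePoint F)
  | OnePoint.infty => if c.inv = true then ((0 : F) : OnePoint F) else OnePoint.infty

open Classical in
/-- the inverse of the chart -/
def Chart.fro (c : Chart F) : OnePoint F → OnePoint F
  | OnePoint.some w => if c.inv = true then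
      (if w = 0 then OnePoint.infty else ((c.a + c.ρ / w : F) : OnePoint F))
      else ((c.a + c.ρ * w : F) : OnePoint F)
  | OnePoint.infty => if c.inv = true then ((c.a : F) : OnePoint F) else OnePoint.infty

/-- the point which the chart maps to infinity -/
def Chart.pole (c : Chart F) : OnePoint F := c.fro OnePoint.infty

namespace NC

theorem to_coe_of_not_inv (c : Chart F) (h : c.inv = false) (z : F) :
    c.to (z : OnePoint F) = (((z - c.a) / c.ρ : F) : OnePoint F) := by
  classical
  change (if c.inv = true then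
      (if z = c.a then OnePoint.infty else ((c.ρ / (z - c.a) : F) : OnePoint F))
      else (((z - c.a) / c.ρ : F) : OnePoint F)) = _
  rw [h, if_neg (by simp)]

theorem to_coe_of_inv (c : Chart F) (h : c.inv = true) {z : F} (hz : z ≠ c.a) :
    c.to (z : OnePoint F) = ((c.ρ / (z - c.a) : F) : OnePoint F) := by
  classical
  change (if c.inv = true then
      (if z = c.a then OnePoint.infty else ((c.ρ / (z - c.a) : F) : OnePoint F))
      else (((z - c.a) / c.ρ : F) : OnePoint F)) = _
  rw [h, if_pos rfl, if_neg hz]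

theorem to_a_of_inv (c : Chart F) (h : c.inv = true) :
    c.to (c.a : OnePoint F) = OnePoint.infty := by
  classical
  change (if c.inv = true then
      (if c.a = c.a then OnePoint.infty else ((c.ρ / (c.a - c.a) : F) : OnePoint F))
      else (((c.a - c.a) / c.ρ : F) : OnePoint F)) = _
  rw [h, if_pos rfl, if_pos rfl]

theorem to_infty_of_inv (c : Chart F) (h : c.inv = true) :
    c.to OnePoint.infty = ((0 : F) : OnePoint F) := by
  classical
  change (if c.inv = true then ((0 : F) : OnePoint F) else OnePoint.infty) = _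
  rw [if_pos h]

theorem to_infty_of_not_inv (c : Chart F) (h : c.inv = false) :
    c.to OnePoint.infty = OnePoint.infty := by
  classical
  change (if c.inv = true then ((0 : F) : OnePoint F) else OnePoint.infty) = _
  rw [h, if_neg (by simp)]

theorem fro_coe_of_not_inv (c : Chart F) (h : c.inv = false) (w : F) :
    c.fro (w : OnePoint F) = ((c.a + c.ρ * w : F) : OnePoint F) := by
  classical
  change (if c.inv = true then
      (if w = 0 then OnePoint.infty else ((c.a + c.ρ / w : F) : OnePoint F))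
      else ((c.a + c.ρ * w : F) : OnePoint F)) = _
  rw [h, if_neg (by simp)]

theorem fro_coe_of_inv (c : Chart F) (h : c.inv = true) {w : F} (hw : w ≠ 0) :
    c.fro (w : OnePoint F) = ((c.a + c.ρ / w : F) : OnePoint F) := by
  classical
  change (if c.inv = true then
      (if w = 0 then OnePoint.infty else ((c.a + c.ρ / w : F) : OnePoint F))
      else ((c.a + c.ρ * w : F) : OnePoint F)) = _
  rw [h, if_pos rfl, if_neg hw]

theorem fro_zero_of_inv (c : Chart F) (h : c.inv = true) :
    c.fro ((0 : F) : OnePoint F) = OnePoint.infty := by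
  classical
  change (if c.inv = true then
      (if (0 : F) = 0 then OnePoint.infty else ((c.a + c.ρ / 0 : F) : OnePoint F))
      else ((c.a + c.ρ * 0 : F) : OnePoint F)) = _
  rw [h, if_pos rfl, if_pos rfl]

theorem fro_infty_of_inv (c : Chart F) (h : c.inv = true) :
    c.fro OnePoint.infty = ((c.a : F) : OnePoint F) := by
  classical
  change (if c.inv = true then ((c.a : F) : OnePoint F) else OnePoint.infty) = _
  rw [if_pos h]

theorem fro_infty_of_not_inv (c : Chart F) (h : c.inv = false) :
    c.fro OnePoint.infty = OnePoint.infty := by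
  classical
  change (if c.inv = true then ((c.a : F) : OnePoint F) else OnePoint.infty) = _
  rw [h, if_neg (by simp)]

end NC

theorem Chart.fro_to (c : Chart F) (z : OnePoint F) : c.fro (c.to z) = z := by
  have hρ := c.hρ
  rcases Bool.eq_false_or_eq_true c.inv with hi | hi
  · cases z using OnePoint.rec with
    | infty => rw [NC.to_infty_of_inv c hi, NC.fro_zero_of_inv c hi]
    | coe z =>
      by_cases hz : z = c.a
      · rw [hz, NC.to_a_of_inv c hi, NC.fro_infty_of_inv c hi]
      · have hz' : z - c.a ≠ 0 := sub_ne_zero.2 hz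
        rw [NC.to_coe_of_inv c hi hz, NC.fro_coe_of_inv c hi (div_ne_zero hρ hz')]
        congr 1
        rw [div_div_cancel₀ hρ]
        ring
  · cases z using OnePoint.rec with
    | infty => rw [NC.to_infty_of_not_inv c hi, NC.fro_infty_of_not_inv c hi]
    | coe z =>
      rw [NC.to_coe_of_not_inv c hi, NC.fro_coe_of_not_inv c hi]
      congr 1
      rw [mul_div_cancel₀ _ hρ]
      ring

theorem Chart.to_fro (c : Chart F) (z : OnePoint F) : c.to (c.fro z) = z := by
  have hρ := c.hρ
  rcases Bool.eq_false_or_eq_true c.inv with hi | hi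
  · cases z using OnePoint.rec with
    | infty => rw [NC.fro_infty_of_inv c hi, NC.to_a_of_inv c hi]
    | coe z =>
      by_cases hz : z = 0
      · rw [hz, NC.fro_zero_of_inv c hi, NC.to_infty_of_inv c hi]
      · have h1 : c.a + c.ρ / z ≠ c.a := by
          intro h
          exact div_ne_zero hρ hz (by simpa using h)
        rw [NC.fro_coe_of_inv c hi hz, NC.to_coe_of_inv c hi h1]
        congr 1
        rw [add_sub_cancel_left, div_div_cancel₀ hρ]
  · cases z using OnePoint.rec with
    | infty => rw [NC.fro_infty_of_not_inv c hi, NC.to_infty_of_not_inv c hi]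
    | coe z =>
      rw [NC.fro_coe_of_not_inv c hi, NC.to_coe_of_not_inv c hi]
      congr 1
      rw [add_sub_cancel_left, mul_div_cancel_left₀ _ hρ]

theorem Chart.to_injective (c : Chart F) : Function.Injective c.to := fun x y h => by
  rw [← c.fro_to x, ← c.fro_to y, h]

theorem Chart.to_pole (c : Chart F) : c.to c.pole = OnePoint.infty := c.to_fro _

theorem Chart.pole_of_inv (c : Chart F) (h : c.inv = true) : c.pole = ((c.a : F) : OnePoint F) :=
  NC.fro_infty_of_inv c h

theorem Chart.pole_of_not_inv (c : Chart F) (h : c.inv = false) : c.pole = OnePoint.infty :=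
  NC.fro_infty_of_not_inv c h

/-- the constant `(c z - c (pole c₁)) (c₁ z - c₁ (pole c))` -/
def Chart.tw (c c₁ : Chart F) : F :=
  if c.inv = true then (if c₁.inv = true then - (c.ρ * c₁.ρ) / (c.a - c₁.a) ^ 2 else c.ρ / c₁.ρ)
    else c₁.ρ / c.ρ

theorem Chart.tw_spec (c c₁ : Chart F) (hne : c.pole ≠ c₁.pole) : c.tw c₁ ≠ 0 ∧
    ∃ P P₁ : F, c.to c₁.pole = (P : OnePoint F) ∧ c₁.to c.pole = (P₁ : OnePoint F) ∧
      ∀ z : OnePoint F, ∀ x x₁ : F, c.to z = (x : OnePoint F) → c₁.to z = (x₁ : OnePoint F) →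
        (x - P) * (x₁ - P₁) = c.tw c₁ := by
  have hρ := c.hρ
  have hρ₁ := c₁.hρ
  unfold Chart.tw
  rcases Bool.eq_false_or_eq_true c.inv with hi | hi <;>
    rcases Bool.eq_false_or_eq_true c₁.inv with hi₁ | hi₁
  · rw [c.pole_of_inv hi, c₁.pole_of_inv hi₁] at *
    have ha : c.a ≠ c₁.a := fun h => hne (by rw [h])
    have ha1 : c.a - c₁.a ≠ 0 := sub_ne_zero.2 ha
    have ha2 : c₁.a - c.a ≠ 0 := sub_ne_zero.2 ha.symm
    rw [if_pos hi, if_pos hi₁]
    refine ⟨div_ne_zero (neg_ne_zero.2 (mul_ne_zero hρ hρ₁)) (pow_ne_zero _ ha1), _, _,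
      NC.to_coe_of_inv c hi ha.symm, NC.to_coe_of_inv c₁ hi₁ ha, ?_⟩
    intro z x x₁ hx hx₁
    cases z using OnePoint.rec with
    | infty =>
      rw [NC.to_infty_of_inv c hi] at hx
      rw [NC.to_infty_of_inv c₁ hi₁] at hx₁
      have hx' : x = 0 := (OnePoint.coe_injective hx).symm
      have hx₁' : x₁ = 0 := (OnePoint.coe_injective hx₁).symm
      subst hx' hx₁'
      field_simp
      ring
    | coe z =>
      have hz : z ≠ c.a := by
        rintro rfl
        rw [NC.to_a_of_inv c hi] at hx
        exact OnePoint.infty_ne_coe _ hx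
      have hz₁ : z ≠ c₁.a := by
        rintro rfl
        rw [NC.to_a_of_inv c₁ hi₁] at hx₁
        exact OnePoint.infty_ne_coe _ hx₁
      rw [NC.to_coe_of_inv c hi hz] at hx
      rw [NC.to_coe_of_inv c₁ hi₁ hz₁] at hx₁
      have hx' := (OnePoint.coe_injective hx).symm
      have hx₁' := (OnePoint.coe_injective hx₁).symm
      subst hx' hx₁'
      have hz' : z - c.a ≠ 0 := sub_ne_zero.2 hz
      have hz₁' : z - c₁.a ≠ 0 := sub_ne_zero.2 hz₁
      have e1 : c.ρ / (z - c.a) - c.ρ / (c₁.a - c.a) =
          c.ρ * (c₁.a - z) / ((z - c.a) * (c₁.a - c.a)) := by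
        rw [div_sub_div _ _ hz' ha2]
        congr 1
        ring
      have e2 : c₁.ρ / (z - c₁.a) - c₁.ρ / (c.a - c₁.a) =
          c₁.ρ * (c.a - z) / ((z - c₁.a) * (c.a - c₁.a)) := by
        rw [div_sub_div _ _ hz₁' ha1]
        congr 1
        ring
      rw [e1, e2, div_mul_div_comm, div_eq_div_iff
        (mul_ne_zero (mul_ne_zero hz' ha2) (mul_ne_zero hz₁' ha1)) (pow_ne_zero 2 ha1)]
      ring
  · rw [c.pole_of_inv hi, c₁.pole_of_not_inv hi₁]
    rw [if_pos hi, if_neg (by simp [hi₁])]
    refine ⟨div_ne_zero hρ hρ₁, _, _, NC.to_infty_of_inv c hi, NC.to_coe_of_not_inv c₁ hi₁ _, ?_⟩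
    intro z x x₁ hx hx₁
    cases z using OnePoint.rec with
    | infty =>
      rw [NC.to_infty_of_not_inv c₁ hi₁] at hx₁
      exact absurd hx₁ (OnePoint.infty_ne_coe _)
    | coe z =>
      have hz : z ≠ c.a := by
        rintro rfl
        rw [NC.to_a_of_inv c hi] at hx
        exact OnePoint.infty_ne_coe _ hx
      rw [NC.to_coe_of_inv c hi hz] at hx
      rw [NC.to_coe_of_not_inv c₁ hi₁] at hx₁
      have hx' := (OnePoint.coe_injective hx).symm
      have hx₁' := (OnePoint.coe_injective hx₁).symm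
      subst hx' hx₁'
      have hz' : z - c.a ≠ 0 := sub_ne_zero.2 hz
      field_simp
      ring
  · rw [c.pole_of_not_inv hi, c₁.pole_of_inv hi₁]
    rw [if_neg (by simp [hi])]
    refine ⟨div_ne_zero hρ₁ hρ, _, _, NC.to_coe_of_not_inv c hi _, NC.to_infty_of_inv c₁ hi₁, ?_⟩
    intro z x x₁ hx hx₁
    cases z using OnePoint.rec with
    | infty =>
      rw [NC.to_infty_of_not_inv c hi] at hx
      exact absurd hx (OnePoint.infty_ne_coe _)
    | coe z =>
      have hz : z ≠ c₁.a := by
        rintro rfl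
        rw [NC.to_a_of_inv c₁ hi₁] at hx₁
        exact OnePoint.infty_ne_coe _ hx₁
      rw [NC.to_coe_of_inv c₁ hi₁ hz] at hx₁
      rw [NC.to_coe_of_not_inv c hi] at hx
      have hx' := (OnePoint.coe_injective hx).symm
      have hx₁' := (OnePoint.coe_injective hx₁).symm
      subst hx' hx₁'
      have hz' : z - c₁.a ≠ 0 := sub_ne_zero.2 hz
      field_simp
      ring
  · exact absurd (by rw [c.pole_of_not_inv hi, c₁.pole_of_not_inv hi₁]) hne

/-- `g (a + ρ X)` or `X^d g (a + ρ / X)` -/
def Chart.preP (c : Chart F) (d : ℕ) (g : F[X]) : F[X] :=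
  if c.inv = true then (g.comp (C c.a + C c.ρ * X)).reflect d else g.comp (C c.a + C c.ρ * X)

/-- the numerator of the composition with the chart -/
def Chart.num (c : Chart F) (p q : F[X]) : F[X] :=
  if c.inv = true then C c.ρ * q else p - C c.a * q

/-- the denominator of the composition with the chart -/
def Chart.den (c : Chart F) (p q : F[X]) : F[X] :=
  if c.inv = true then p - C c.a * q else C c.ρ * q

variable [IsAlgClosed F]

namespace NC

/-- the divisor of a polynomial of degree at most `d` -/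
def dv (d : ℕ) (g : F[X]) : Multiset (OnePoint F) :=
  g.roots.map (fun z : F => (z : OnePoint F)) + Multiset.replicate (d - g.natDegree) OnePoint.infty

omit [IsAlgClosed F] in
theorem fibM_coe' (T : RM F) (w : F) : T.fibM (w : OnePoint F) = dv T.deg (T.p - C w * T.q) := by
  rw [RM.fibM_coe]
  unfold dv
  congr 1
  rw [Multiset.map_id']
  exact Multiset.bind_singleton _ _

omit [IsAlgClosed F] in
theorem fibM_infty' (T : RM F) : T.fibM OnePoint.infty = dv T.deg T.q := by
  rw [RM.fibM_infty]
  unfold dv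
  congr 1
  rw [Multiset.map_id']
  exact Multiset.bind_singleton _ _

omit [IsAlgClosed F] in
theorem dv_mul {d e : ℕ} {g h : F[X]} (hg : g ≠ 0) (hh : h ≠ 0) (hgd : g.natDegree ≤ d)
    (hhe : h.natDegree ≤ e) : dv (d + e) (g * h) = dv d g + dv e h := by
  unfold dv
  rw [roots_mul (mul_ne_zero hg hh), natDegree_mul hg hh, Multiset.map_add]
  have : d + e - (g.natDegree + h.natDegree) = (d - g.natDegree) + (e - h.natDegree) := by omega
  rw [this, Multiset.replicate_add]
  abel

omit [IsAlgClosed F] in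
theorem dv_C_mul (d : ℕ) (g : F[X]) {u : F} (hu : u ≠ 0) : dv d (C u * g) = dv d g := by
  unfold dv
  rw [roots_C_mul _ hu, natDegree_C_mul hu]

omit [IsAlgClosed F] in
theorem infty_mem_dv {d : ℕ} {g : F[X]} : OnePoint.infty ∈ dv d g ↔ g.natDegree < d := by
  unfold dv
  rw [Multiset.mem_add, Multiset.mem_replicate]
  constructor
  · rintro (h | h)
    · obtain ⟨z, -, hz⟩ := Multiset.mem_map.1 h
      exact absurd hz (OnePoint.coe_ne_infty z)
    · omega
  · intro h
    right
    exact ⟨by omega, rfl⟩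

omit [IsAlgClosed F] in
theorem coe_mem_dv {d : ℕ} {g : F[X]} (hg : g ≠ 0) {z : F} :
    (z : OnePoint F) ∈ dv d g ↔ g.eval z = 0 := by
  unfold dv
  rw [Multiset.mem_add, Multiset.mem_replicate, Multiset.mem_map]
  constructor
  · rintro (⟨w, hw, hwz⟩ | ⟨-, h⟩)
    · rw [← OnePoint.coe_injective hwz]
      exact (mem_roots hg).1 hw
    · exact absurd h (OnePoint.coe_ne_infty z)
  · intro h
    left
    exact ⟨z, (mem_roots hg).2 h, rfl⟩

omit [IsAlgClosed F] in
theorem natDegree_lin (c : Chart F) : (C c.a + C c.ρ * X : F[X]).natDegree = 1 := by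
  rw [add_comm]
  exact natDegree_linear c.hρ

omit [IsAlgClosed F] in
theorem comp_lin_ne (c : Chart F) {g : F[X]} (hg : g ≠ 0) : g.comp (C c.a + C c.ρ * X) ≠ 0 := by
  intro h
  have hl : (C c.a + C c.ρ * X : F[X]).leadingCoeff = c.ρ := by
    rw [add_comm]
    exact leadingCoeff_linear c.hρ
  have h1 := leadingCoeff_comp (p := g) (q := C c.a + C c.ρ * X) (by rw [natDegree_lin]; exact one_ne_zero)
  rw [h, leadingCoeff_zero, hl] at h1
  exact mul_ne_zero (leadingCoeff_ne_zero.2 hg) (pow_ne_zero _ c.hρ) h1.symm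

omit [IsAlgClosed F] in
theorem natDegree_comp_lin (c : Chart F) (g : F[X]) :
    (g.comp (C c.a + C c.ρ * X)).natDegree = g.natDegree := by
  rw [natDegree_comp, natDegree_lin, mul_one]

omit [IsAlgClosed F] in
theorem preP_of_inv (c : Chart F) (h : c.inv = true) (d : ℕ) (g : F[X]) :
    c.preP d g = (g.comp (C c.a + C c.ρ * X)).reflect d := by
  unfold Chart.preP
  rw [if_pos h]

omit [IsAlgClosed F] in
theorem preP_of_not_inv (c : Chart F) (h : c.inv = false) (d : ℕ) (g : F[X]) :
    c.preP d g = g.comp (C c.a + C c.ρ * X) := by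
  unfold Chart.preP
  rw [if_neg (by simp [h])]

omit [IsAlgClosed F] in
theorem preP_ne (c : Chart F) (d : ℕ) {g : F[X]} (hg : g ≠ 0) : c.preP d g ≠ 0 := by
  rcases Bool.eq_false_or_eq_true c.inv with hi | hi
  · rw [preP_of_inv c hi, ne_eq, reflect_eq_zero_iff]
    exact comp_lin_ne c hg
  · rw [preP_of_not_inv c hi]
    exact comp_lin_ne c hg

omit [IsAlgClosed F] in
theorem preP_natDegree_le (c : Chart F) {d : ℕ} {g : F[X]} (hd : g.natDegree ≤ d) :
    (c.preP d g).natDegree ≤ d := by
  rcases Bool.eq_false_or_eq_true c.inv with hi | hi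
  · rw [preP_of_inv c hi]
    refine natDegree_reflect_le.trans (max_le le_rfl ?_)
    rw [natDegree_comp_lin]
    exact hd
  · rw [preP_of_not_inv c hi, natDegree_comp_lin]
    exact hd

omit [IsAlgClosed F] in
theorem preP_sub (c : Chart F) (d : ℕ) (g h : F[X]) : c.preP d (g - h) = c.preP d g - c.preP d h := by
  rcases Bool.eq_false_or_eq_true c.inv with hi | hi
  · rw [preP_of_inv c hi, preP_of_inv c hi, preP_of_inv c hi, sub_comp, reflect_sub]
  · rw [preP_of_not_inv c hi, preP_of_not_inv c hi, preP_of_not_inv c hi, sub_comp]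

omit [IsAlgClosed F] in
theorem preP_C_mul (c : Chart F) (d : ℕ) (u : F) (g : F[X]) :
    c.preP d (C u * g) = C u * c.preP d g := by
  rcases Bool.eq_false_or_eq_true c.inv with hi | hi
  · rw [preP_of_inv c hi, preP_of_inv c hi, mul_comp, C_comp, reflect_C_mul]
  · rw [preP_of_not_inv c hi, preP_of_not_inv c hi, mul_comp, C_comp]

omit [IsAlgClosed F] in
theorem preP_mul (c : Chart F) {d e : ℕ} {g h : F[X]} (hgd : g.natDegree ≤ d)
    (hhe : h.natDegree ≤ e) : c.preP (d + e) (g * h) = c.preP d g * c.preP e h := by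
  rcases Bool.eq_false_or_eq_true c.inv with hi | hi
  · rw [preP_of_inv c hi, preP_of_inv c hi, preP_of_inv c hi, mul_comp,
      reflect_mul _ _ (by rw [natDegree_comp_lin]; exact hgd) (by rw [natDegree_comp_lin]; exact hhe)]
  · rw [preP_of_not_inv c hi, preP_of_not_inv c hi, preP_of_not_inv c hi, mul_comp]

omit [IsAlgClosed F] in
theorem dv_const (c : Chart F) (d : ℕ) {u : F} (hu : u ≠ 0) :
    dv d (c.preP d (C u)) = Multiset.replicate d (c.to OnePoint.infty) := by
  rcases Bool.eq_false_or_eq_true c.inv with hi | hi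
  · rw [preP_of_inv c hi, C_comp, reflect_C, dv_C_mul _ _ hu, to_infty_of_inv c hi]
    unfold dv
    rw [roots_X_pow, natDegree_X_pow, Nat.sub_self, Multiset.replicate_zero, add_zero,
      Multiset.map_nsmul, Multiset.map_singleton, Multiset.nsmul_singleton]
  · rw [preP_of_not_inv c hi, C_comp, to_infty_of_not_inv c hi]
    unfold dv
    rw [roots_C, natDegree_C, Multiset.map_zero, zero_add, Nat.sub_zero]

omit [IsAlgClosed F] in
theorem dv_linear (c : Chart F) (r : F) :
    dv 1 (c.preP 1 (X - C r)) = {c.to (r : OnePoint F)} := by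
  have hρ := c.hρ
  have h0 : (X - C r : F[X]).comp (C c.a + C c.ρ * X) = C c.ρ * X + C (c.a - r) := by
    rw [sub_comp, X_comp, C_comp, C_sub]
    ring
  rcases Bool.eq_false_or_eq_true c.inv with hi | hi
  · rw [preP_of_inv c hi, h0, reflect_add, reflect_C_mul, reflect_one_X, mul_one, reflect_C, pow_one]
    by_cases hr : r = c.a
    · rw [hr, sub_self, C_0, zero_mul, add_zero, to_a_of_inv c hi]
      unfold dv
      rw [roots_C, natDegree_C, Multiset.map_zero, zero_add, Nat.sub_zero, Multiset.replicate_one]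
    · have hr' : c.a - r ≠ 0 := sub_ne_zero.2 (Ne.symm hr)
      have hr'' : r - c.a ≠ 0 := sub_ne_zero.2 hr
      have e : C c.ρ + C (c.a - r) * X = C (c.a - r) * (X - C (c.ρ / (r - c.a))) := by
        rw [mul_sub, ← C_mul]
        have : (c.a - r) * (c.ρ / (r - c.a)) = - c.ρ := by
          field_simp
          ring
        rw [this, C_neg]
        ring
      rw [e, dv_C_mul _ _ hr', to_coe_of_inv c hi hr]
      unfold dv
      rw [roots_X_sub_C, natDegree_X_sub_C, Nat.sub_self, Multiset.replicate_zero, add_zero,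
        Multiset.map_singleton]
  · have e : C c.ρ * X + C (c.a - r) = C c.ρ * (X - C ((r - c.a) / c.ρ)) := by
      rw [mul_sub, ← C_mul, mul_div_cancel₀ _ hρ, C_sub, C_sub]
      ring
    rw [preP_of_not_inv c hi, h0, e, dv_C_mul _ _ hρ, to_coe_of_not_inv c hi]
    unfold dv
    rw [roots_X_sub_C, natDegree_X_sub_C, Nat.sub_self, Multiset.replicate_zero, add_zero,
      Multiset.map_singleton]

omit [IsAlgClosed F] in
theorem dv_prod (c : Chart F) {u : F} (hu : u ≠ 0) (M : Multiset F) : ∀ d, Multiset.card M ≤ d →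
    dv d (c.preP d (C u * (M.map fun r => X - C r).prod)) =
      M.map (fun r : F => c.to (r : OnePoint F)) +
        Multiset.replicate (d - Multiset.card M) (c.to OnePoint.infty) := by
  induction M using Multiset.induction_on with
  | empty =>
    intro d _
    rw [Multiset.map_zero, Multiset.prod_zero, mul_one, dv_const c d hu, Multiset.map_zero, zero_add,
      Multiset.card_zero, Nat.sub_zero]
  | cons r M ih =>
    intro d hd
    rw [Multiset.card_cons] at hd
    obtain ⟨e, rfl⟩ : ∃ e, d = 1 + e := ⟨d - 1, by omega⟩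
    have hG0 : C u * (M.map fun r => X - C r).prod ≠ 0 := by
      apply mul_ne_zero (C_ne_zero.2 hu)
      exact (monic_multiset_prod_of_monic _ _ fun i _ => monic_X_sub_C i).ne_zero
    have hGd : (C u * (M.map fun r => X - C r).prod).natDegree ≤ e := by
      rw [natDegree_C_mul hu, natDegree_multiset_prod_X_sub_C_eq_card]
      omega
    have hX : (X - C r : F[X]).natDegree ≤ 1 := (natDegree_X_sub_C r).le
    have e1 : C u * ((r ::ₘ M).map fun r => X - C r).prod =
        (X - C r) * (C u * (M.map fun r => X - C r).prod) := by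
      rw [Multiset.map_cons, Multiset.prod_cons]
      ring
    rw [e1, preP_mul c hX hGd, dv_mul (preP_ne c 1 (X_sub_C_ne_zero r)) (preP_ne c e hG0)
      (preP_natDegree_le c hX) (preP_natDegree_le c hGd), dv_linear, ih e (by omega),
      Multiset.map_cons, Multiset.card_cons]
    have : 1 + e - (Multiset.card M + 1) = e - Multiset.card M := by omega
    rw [this, ← Multiset.singleton_add, add_assoc]

theorem dv_preP (c : Chart F) {d : ℕ} {g : F[X]} (hg : g ≠ 0) (hd : g.natDegree ≤ d) :
    dv d (c.preP d g) = (dv d g).map c.to := by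
  have hs : Multiset.card g.roots = g.natDegree := (splits_iff_card_roots.1 (IsAlgClosed.splits g))
  have e := C_leadingCoeff_mul_prod_multiset_X_sub_C hs
  have h1 := dv_prod c (leadingCoeff_ne_zero.2 hg) g.roots d (by rw [hs]; exact hd)
  rw [e, hs] at h1
  rw [h1]
  unfold dv
  rw [Multiset.map_add, Multiset.map_map, Multiset.map_replicate]
  rfl

omit [IsAlgClosed F] in
theorem cop_zero {p q : F[X]} (h : IsCoprime p q) (hp : p = 0) : q ≠ 0 ∧ q.natDegree = 0 := by
  rw [hp, isCoprime_zero_left] at h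
  exact ⟨h.ne_zero, natDegree_eq_zero_of_isUnit h⟩

/-- numerator and denominator have no common point of the divisors -/
theorem no_common (c : Chart F) (f : RM F) (y : OnePoint F) :
    ¬ ((f.p = 0 ∨ y ∈ dv f.deg (c.preP f.deg f.p)) ∧
      (f.q = 0 ∨ y ∈ dv f.deg (c.preP f.deg f.q))) := by
  have hpd : f.p.natDegree ≤ f.deg := le_max_left _ _
  have hqd : f.q.natDegree ≤ f.deg := le_max_right _ _
  rintro ⟨h1, h2⟩
  by_cases hp : f.p = 0
  · obtain ⟨hq, hq0⟩ := cop_zero f.cop hp
    have hd : f.deg = 0 := by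
      unfold RM.deg
      rw [hq0, hp, natDegree_zero, max_self]
    rcases h2 with h2 | h2
    · exact hq h2
    · rw [dv_preP c hq hqd, Multiset.mem_map] at h2
      obtain ⟨z, hz, -⟩ := h2
      cases z using OnePoint.rec with
      | infty =>
        rw [infty_mem_dv] at hz
        omega
      | coe z =>
        rw [coe_mem_dv hq, eq_C_of_natDegree_eq_zero hq0, eval_C] at hz
        apply hq
        rw [eq_C_of_natDegree_eq_zero hq0, hz, C_0]
  by_cases hq : f.q = 0
  · obtain ⟨-, hp0⟩ := cop_zero f.cop.symm hq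
    have hd : f.deg = 0 := by
      unfold RM.deg
      rw [hp0, hq, natDegree_zero, max_self]
    rcases h1 with h1 | h1
    · exact hp h1
    · rw [dv_preP c hp hpd, Multiset.mem_map] at h1
      obtain ⟨z, hz, -⟩ := h1
      cases z using OnePoint.rec with
      | infty =>
        rw [infty_mem_dv] at hz
        omega
      | coe z =>
        rw [coe_mem_dv hp, eq_C_of_natDegree_eq_zero hp0, eval_C] at hz
        apply hp
        rw [eq_C_of_natDegree_eq_zero hp0, hz, C_0]
  replace h1 := h1.resolve_left hp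
  replace h2 := h2.resolve_left hq
  rw [dv_preP c hp hpd, Multiset.mem_map] at h1
  rw [dv_preP c hq hqd, Multiset.mem_map] at h2
  obtain ⟨z, hz, hzy⟩ := h1
  obtain ⟨z', hz', hzy'⟩ := h2
  have hzz : z' = z := c.to_injective (by rw [hzy, hzy'])
  subst hzz
  cases z' using OnePoint.rec with
  | infty =>
    rw [infty_mem_dv] at hz hz'
    unfold RM.deg at hz hz'
    omega
  | coe z =>
    rw [coe_mem_dv hp] at hz
    rw [coe_mem_dv hq] at hz'
    exact RM.p_ne hz' hz

theorem no_common_root (c : Chart F) (f : RM F) (x : F)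
    (h1 : (c.preP f.deg f.p).eval x = 0) (h2 : (c.preP f.deg f.q).eval x = 0) : False := by
  apply no_common c f (x : OnePoint F)
  constructor
  · by_cases hp : f.p = 0
    · left; exact hp
    · right; exact (coe_mem_dv (preP_ne c _ hp)).2 h1
  · by_cases hq : f.q = 0
    · left; exact hq
    · right; exact (coe_mem_dv (preP_ne c _ hq)).2 h2

theorem no_common_infty (c : Chart F) (f : RM F)
    (h1 : (c.preP f.deg f.p).natDegree < f.deg) (h2 : (c.preP f.deg f.q).natDegree < f.deg) :
    False := by
  apply no_common c f OnePoint.infty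
  constructor
  · right; exact infty_mem_dv.2 h1
  · right; exact infty_mem_dv.2 h2

end NC

theorem Chart.cop (c c' : Chart F) (f : RM F) :
    IsCoprime (c'.num (c.preP f.deg f.p) (c.preP f.deg f.q))
      (c'.den (c.preP f.deg f.p) (c.preP f.deg f.q)) := by
  rw [Polynomial.isCoprime_iff_aeval_ne_zero_of_isAlgClosed (k := F) (K := F)]
  intro x
  by_contra hcon
  push Not at hcon
  obtain ⟨h1, h2⟩ := hcon
  rw [coe_aeval_eq_eval] at h1 h2
  have hρ := c'.hρ
  unfold Chart.num at h1
  unfold Chart.den at h2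
  rcases Bool.eq_false_or_eq_true c'.inv with hi | hi
  · rw [if_pos hi, eval_mul, eval_C] at h1
    rw [if_pos hi, eval_sub, eval_mul, eval_C] at h2
    have hq := (mul_eq_zero.1 h1).resolve_left hρ
    rw [hq, mul_zero, sub_zero] at h2
    exact NC.no_common_root c f x h2 hq
  · rw [if_neg (by simp [hi]), eval_sub, eval_mul, eval_C] at h1
    rw [if_neg (by simp [hi]), eval_mul, eval_C] at h2
    have hq := (mul_eq_zero.1 h2).resolve_left hρ
    rw [hq, mul_zero, sub_zero] at h1
    exact NC.no_common_root c f x h1 hq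

/-- `c' ∘ f ∘ c⁻¹` -/
def RM.cj (f : RM F) (c c' : Chart F) : RM F where
  p := c'.num (c.preP f.deg f.p) (c.preP f.deg f.q)
  q := c'.den (c.preP f.deg f.p) (c.preP f.deg f.q)
  cop := Chart.cop c c' f

namespace NC

omit [IsAlgClosed F] in
theorem num_den_le (c' : Chart F) {d : ℕ} {p q : F[X]} (hp : p.natDegree ≤ d) (hq : q.natDegree ≤ d) :
    (c'.num p q).natDegree ≤ d ∧ (c'.den p q).natDegree ≤ d := by
  have h1 : (C c'.ρ * q).natDegree ≤ d := (natDegree_C_mul_le _ _).trans hq
  have h2 : (p - C c'.a * q).natDegree ≤ d :=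
    (natDegree_sub_le _ _).trans (max_le hp ((natDegree_C_mul_le _ _).trans hq))
  unfold Chart.num Chart.den
  split_ifs
  · exact ⟨h1, h2⟩
  · exact ⟨h2, h1⟩

omit [IsAlgClosed F] in
theorem num_den_lt (c' : Chart F) {d : ℕ} {p q : F[X]} (h1 : (c'.num p q).natDegree < d)
    (h2 : (c'.den p q).natDegree < d) : p.natDegree < d ∧ q.natDegree < d := by
  have key : (C c'.ρ * q).natDegree < d → (p - C c'.a * q).natDegree < d →
      p.natDegree < d ∧ q.natDegree < d := by
    intro h3 h4
    rw [natDegree_C_mul c'.hρ] at h3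
    refine ⟨?_, h3⟩
    have e : p = (p - C c'.a * q) + C c'.a * q := by ring
    rw [e]
    exact (natDegree_add_le _ _).trans_lt (max_lt h4 ((natDegree_C_mul_le _ _).trans_lt h3))
  unfold Chart.num at h1
  unfold Chart.den at h2
  split_ifs at h1 h2
  · exact key h1 h2
  · exact key h2 h1

end NC

theorem RM.cj_deg (f : RM F) (c c' : Chart F) : (f.cj c c').deg = f.deg := by
  have hpd : f.p.natDegree ≤ f.deg := le_max_left _ _
  have hqd : f.q.natDegree ≤ f.deg := le_max_right _ _
  obtain ⟨h1, h2⟩ := NC.num_den_le c' (NC.preP_natDegree_le c hpd) (NC.preP_natDegree_le c hqd)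
  change max (c'.num (c.preP f.deg f.p) (c.preP f.deg f.q)).natDegree
    (c'.den (c.preP f.deg f.p) (c.preP f.deg f.q)).natDegree = f.deg
  apply le_antisymm (max_le h1 h2)
  by_contra hcon
  rw [not_le, max_lt_iff] at hcon
  obtain ⟨h3, h4⟩ := NC.num_den_lt c' hcon.1 hcon.2
  exact NC.no_common_infty c f h3 h4

theorem RM.cj_fibM (f : RM F) (hd : 1 ≤ f.deg) (c c' : Chart F) (b : OnePoint F) :
    (f.cj c c').fibM (c'.to b) = (f.fibM b).map c.to := by
  have hpd : f.p.natDegree ≤ f.deg := le_max_left _ _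
  have hqd : f.q.natDegree ≤ f.deg := le_max_right _ _
  have hρ := c'.hρ
  have hq0 : f.q ≠ 0 := by
    intro hq
    obtain ⟨-, hp0⟩ := NC.cop_zero f.cop.symm hq
    unfold RM.deg at hd
    rw [hp0, hq, natDegree_zero, max_self] at hd
    omega
  have hG : ∀ b : F, f.p - C b * f.q ≠ 0 ∧ (f.p - C b * f.q).natDegree ≤ f.deg := fun b =>
    ⟨CR.fib_ne_zero f hd b, (natDegree_sub_le _ _).trans
      (max_le hpd ((natDegree_C_mul_le _ _).trans hqd))⟩
  have eL : ∀ w : F, (f.cj c c').fibM (w : OnePoint F) =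
      NC.dv f.deg ((f.cj c c').p - C w * (f.cj c c').q) := by
    intro w
    rw [NC.fibM_coe', RM.cj_deg]
  have eLi : (f.cj c c').fibM OnePoint.infty = NC.dv f.deg (f.cj c c').q := by
    rw [NC.fibM_infty', RM.cj_deg]
  have eb : ∀ b : F, (f.fibM (b : OnePoint F)).map c.to =
      NC.dv f.deg (c.preP f.deg f.p - C b * c.preP f.deg f.q) := by
    intro b
    rw [← NC.preP_C_mul, ← NC.preP_sub, NC.dv_preP c (hG b).1 (hG b).2, NC.fibM_coe']
  have ebi : (f.fibM OnePoint.infty).map c.to = NC.dv f.deg (c.preP f.deg f.q) := by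
    rw [NC.dv_preP c hq0 hqd, NC.fibM_infty']
  have hp : (f.cj c c').p = c'.num (c.preP f.deg f.p) (c.preP f.deg f.q) := rfl
  have hq : (f.cj c c').q = c'.den (c.preP f.deg f.p) (c.preP f.deg f.q) := rfl
  unfold Chart.num at hp
  unfold Chart.den at hq
  rcases Bool.eq_false_or_eq_true c'.inv with hi | hi
  · rw [if_pos hi] at hp hq
    cases b using OnePoint.rec with
    | infty =>
      rw [NC.to_infty_of_inv c' hi, eL, hp, hq, C_0, zero_mul, sub_zero, NC.dv_C_mul _ _ hρ, ebi]
    | coe b =>
      by_cases hb : b = c'.a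
      · rw [hb, NC.to_a_of_inv c' hi, eLi, hq, eb]
      · have hb' : b - c'.a ≠ 0 := sub_ne_zero.2 hb
        have hw : c'.ρ / (b - c'.a) ≠ 0 := div_ne_zero hρ hb'
        rw [NC.to_coe_of_inv c' hi hb, eL, hp, hq, eb]
        have e : C c'.ρ * c.preP f.deg f.q - C (c'.ρ / (b - c'.a)) *
            (c.preP f.deg f.p - C c'.a * c.preP f.deg f.q) =
            C (-(c'.ρ / (b - c'.a))) * (c.preP f.deg f.p - C b * c.preP f.deg f.q) := by
          have e1 : c'.ρ = c'.ρ / (b - c'.a) * (b - c'.a) := by field_simp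
          have e2 : C c'.ρ = C (c'.ρ / (b - c'.a)) * (C b - C c'.a) := by
            rw [← C_sub, ← C_mul, ← e1]
          rw [e2, C_neg]
          ring
        rw [e, NC.dv_C_mul _ _ (neg_ne_zero.2 hw)]
  · rw [if_neg (by simp [hi])] at hp hq
    cases b using OnePoint.rec with
    | infty =>
      rw [NC.to_infty_of_not_inv c' hi, eLi, hq, NC.dv_C_mul _ _ hρ, ebi]
    | coe b =>
      rw [NC.to_coe_of_not_inv c' hi, eL, hp, hq, eb]
      have e : c.preP f.deg f.p - C c'.a * c.preP f.deg f.q - C ((b - c'.a) / c'.ρ) *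
          (C c'.ρ * c.preP f.deg f.q) = c.preP f.deg f.p - C b * c.preP f.deg f.q := by
        have e2 : C ((b - c'.a) / c'.ρ) * C c'.ρ = C b - C c'.a := by
          rw [← C_mul, div_mul_cancel₀ _ hρ, C_sub]
        rw [← mul_assoc, e2]
        ring
      rw [e]

theorem RM.cj_map (f : RM F) (hd : 1 ≤ f.deg) (c c' : Chart F) (z : OnePoint F) :
    (f.cj c c').map (c.to z) = c'.to (f.map z) := by
  rw [← RM.mem_fibM _ (by rw [RM.cj_deg]; exact hd), f.cj_fibM hd c c']
  exact Multiset.mem_map_of_mem _ ((f.mem_fibM hd _ _).2 rfl)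

theorem RM.cj_mult (f : RM F) (hd : 1 ≤ f.deg) (c c' : Chart F) (z : OnePoint F) :
    (f.cj c c').mult (c.to z) = f.mult z := by
  classical
  unfold RM.mult
  rw [f.cj_map hd, f.cj_fibM hd]
  exact Multiset.count_map_eq_count' _ _ c.to_injective _

end FS16
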