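import Pool.Agent.FS16.NRoot

/-!
# Critical points in a disc which are mapped into the disc `|w| < 1` (residue characteristic zero)

MODULE N-CRIT.  `crit_poly`: let `p`, `q` be coprime, `D = {‖z - x‖ < 1}`, and suppose that
`‖p z‖ < ‖q z‖` near the boundary of `D`, that `p` has more roots in `D` than `q` and at least two.
Then there is a root `z ∈ D` of `W = p' q - p q'` with `‖p z‖ < ‖q z‖`.

Proof.  (1) `count_wr`: let `r < r'` be such that `p`, `q`, `W` have no roots in the annulus
`r < ‖z - x‖ < r'` and suppose `nr p x r ≠ nr q x r`.  Then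
`nr W x r + 1 = nr p x r + nr q x r`: by `logDeriv_ann`,
`(z - x) W z / (p z q z) = (z - x) p' z/p z - (z - x) q' z/q z` is, up to elements of norm `< 1`, the
nonzero integer `nr p x r - nr q x r`, of norm `1` by `hK`.  So `‖W z‖ ‖z - x‖ = ‖p z‖ ‖q z‖` on the
annulus and `norm_eval_ann` for the three polynomials gives
`M ‖z - x‖ ^ (nr W + 1) = M' ‖z - x‖ ^ (nr p + nr q)` for all `z` of the annulus; there are `z` of the
annulus with different norms `‖z - x‖` (the norms of `K` are dense: `K` is algebraically closed,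
nontrivially normed), so the exponents agree.
(2) By `exists_inner_ann`, `n_W + 1 = n_p + n_q` for the numbers `nro · x 1` of the roots in `D`.
(3) Let `c ∈ D` with `‖q c‖ ≤ ‖p c‖`, and let
`A t = ‖lead p‖ ∏ max ‖c - α‖ t`, `B t` similarly for `q` (Gauss norms, continuous and positive for
`t > 0`; if `z` is on the circle `‖z - c‖ = t` and there are no roots on this circle then `‖p z‖ = A t`,
`‖q z‖ = B t`).  By hypothesis `A t < B t` for `t < 1` close to `1`.  Let
`r_c = sup {t ∈ [0, 1) | B t ≤ A t} < 1` (the set contains `0`): so `B r_c ≤ A r_c` and `A t < B t` for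
`r_c < t < 1`.  Then `nr p c r_c < nr q c r_c`: for `t > r_c` close to `r_c`,
`A t / B t = const * t ^ (nr p c r_c - nr q c r_c)` is smaller than one, and by continuity this tends to
`A r_c / B r_c ≥ 1` for `t → r_c` if `r_c > 0`; for `r_c = 0`, `‖p c‖ = A 0 ≥ B 0 = ‖q c‖` and
by continuity `A 0 ≤ B 0`, so `p c`, `q c` are not zero (they are coprime) and `A`, `B` are constant
near `0`, a contradiction to `A t < B t`.
So by (1), the disc `E_c = {‖z - c‖ ≤ r_c}` contains
`nr p + nr q - 1 ≤ 2 nr q c r_c - 2` roots of `W`.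
(4) For two such points `c`, `c'` the discs `E_c`, `E_c'` are disjoint or equal: if
`‖c - c'‖ ≤ max r_c r_c'` then `A_c t = A_c' t`, `B_c t = B_c' t` for `t ≥ ‖c - c'‖`, and so
`r_c = r_c'`.
(5) Suppose that all roots `z ∈ D` of `W` have `‖q z‖ ≤ ‖p z‖`.  Choose representatives `c` of the
different discs `E_c` of the roots `c` of `W` in `D`.  Then
`n_W = ∑ (number of roots of W in E_c) ≤ ∑ (2 nr q c r_c - 2) ≤ 2 n_q - 2 #discs`, but
`n_W = n_p + n_q - 1 ≥ 2 n_q`.  So there are no discs, no roots of `W` in `D`, so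
`0 = n_W = n_p + n_q - 1 ≥ 1`, a contradiction.
-/

open Polynomial

noncomputable section

namespace FS16

universe u

variable {K : Type u} [NontriviallyNormedField K] [IsUltrametricDist K] [IsAlgClosed K]

/-! ### Density of the norms -/

omit [IsUltrametricDist K] in
/-- the norms of an algebraically closed nontrivially normed field are dense -/
theorem ncrit_dense {a b : ℝ} (ha : 0 ≤ a) (hab : a < b) : ∃ y : K, a < ‖y‖ ∧ ‖y‖ < b := by
  obtain ⟨w, hw⟩ := NormedField.exists_one_lt_norm K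
  obtain ⟨c, hc⟩ : ∃ c, c = max a (b / 2) := ⟨_, rfl⟩
  have hb : 0 < b := lt_of_le_of_lt ha hab
  have hc0 : 0 < c := by rw [hc]; exact lt_max_of_lt_right (by linarith)
  have hcb : c < b := by rw [hc]; exact max_lt hab (by linarith)
  have hac : a ≤ c := by rw [hc]; exact le_max_left _ _
  have hrat : 1 < b / c := by rw [lt_div_iff₀ hc0]; linarith
  obtain ⟨n, hn⟩ := pow_unbounded_of_one_lt ‖w‖ hrat
  have hn0 : n ≠ 0 := by
    rintro rfl
    rw [pow_zero] at hn
    linarith
  obtain ⟨u, hu⟩ := IsAlgClosed.exists_pow_nat_eq w (Nat.pos_of_ne_zero hn0)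
  have hun : ‖u‖ ^ n = ‖w‖ := by rw [← norm_pow, hu]
  have hu1 : 1 < ‖u‖ := by
    by_contra hcon
    have := pow_le_one₀ (n := n) (norm_nonneg u) (not_lt.1 hcon)
    linarith
  have hu2 : ‖u‖ < b / c := by
    by_contra hcon
    have := pow_le_pow_left₀ (by positivity) (not_lt.1 hcon) n
    linarith
  obtain ⟨m, hm1, hm2⟩ := exists_mem_Ico_zpow hc0 hu1
  refine ⟨u ^ (m + 1), ?_, ?_⟩
  · rw [norm_zpow]
    exact lt_of_le_of_lt hac hm2
  · rw [norm_zpow, zpow_add₀ (by linarith), zpow_one]
    calc ‖u‖ ^ m * ‖u‖ ≤ c * ‖u‖ := by gcongr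
      _ < c * (b / c) := by gcongr
      _ = b := by field_simp

omit [IsUltrametricDist K] in
theorem ncrit_dense' (x : K) {a b : ℝ} (ha : 0 ≤ a) (hab : a < b) :
    ∃ z : K, a < ‖z - x‖ ∧ ‖z - x‖ < b := by
  obtain ⟨y, h1, h2⟩ := ncrit_dense (K := K) ha hab
  exact ⟨y + x, by simpa using h1, by simpa using h2⟩

omit [IsUltrametricDist K] [IsAlgClosed K] in
theorem ncrit_int_norm (hK : ∀ n : ℕ, n ≠ 0 → ‖(n : K)‖ = 1) {a b : ℕ} (h : a ≠ b) :
    ‖(a : K) - (b : K)‖ = 1 := by
  rcases lt_or_gt_of_ne h with h | h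
  · have h1 : (a : K) - (b : K) = -((b - a : ℕ) : K) := by
      rw [Nat.cast_sub h.le]; ring
    rw [h1, norm_neg]
    exact hK _ (by omega)
  · have h1 : (a : K) - (b : K) = ((a - b : ℕ) : K) := by
      rw [Nat.cast_sub h.le]
    rw [h1]
    exact hK _ (by omega)

theorem count_wr (hK : ∀ n : ℕ, n ≠ 0 → ‖(n : K)‖ = 1) {p q : K[X]} (hp : p ≠ 0) (hq : q ≠ 0)
    {x : K} {r r' : ℝ} (hr : 0 ≤ r) (hr' : r < r')
    (hW : derivative p * q - p * derivative q ≠ 0)
    (h : ∀ z, r < ‖z - x‖ → ‖z - x‖ < r' → p.eval z ≠ 0 ∧ q.eval z ≠ 0 ∧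
      (derivative p * q - p * derivative q).eval z ≠ 0)
    (hn : nr p x r ≠ nr q x r) :
    nr (derivative p * q - p * derivative q) x r + 1 = nr p x r + nr q x r := by
  set W := derivative p * q - p * derivative q with hWdef
  -- the norm identity
  have key : ∀ z, r < ‖z - x‖ → ‖z - x‖ < r' → ‖z - x‖ * ‖W.eval z‖ = ‖p.eval z‖ * ‖q.eval z‖ := by
    intro z h1 h2
    obtain ⟨hpz, hqz, hWz⟩ := h z h1 h2
    have e1 := logDeriv_ann hp (fun z h1 h2 => (h z h1 h2).1) h1 h2
    have e2 := logDeriv_ann hq (fun z h1 h2 => (h z h1 h2).2.1) h1 h2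
    set P := (z - x) * (derivative p).eval z / p.eval z with hP
    set Q := (z - x) * (derivative q).eval z / q.eval z with hQ
    have e3 : ‖(P - Q) - ((nr p x r : K) - (nr q x r : K))‖ < 1 := by
      have e4 : (P - Q) - ((nr p x r : K) - (nr q x r : K))
          = (P - (nr p x r : K)) + -(Q - (nr q x r : K)) := by ring
      rw [e4]
      refine lt_of_le_of_lt (IsUltrametricDist.norm_add_le_max _ _) (max_lt e1 ?_)
      rw [norm_neg]
      exact e2
    have e5 : ‖P - Q‖ = 1 := by
      have e6 := ncrit_int_norm hK hn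
      have e7 : P - Q = ((P - Q) - ((nr p x r : K) - (nr q x r : K)))
          + ((nr p x r : K) - (nr q x r : K)) := by ring
      rw [e7, IsUltrametricDist.norm_add_eq_max_of_norm_ne_norm (by rw [e6]; exact ne_of_lt e3), e6]
      exact max_eq_right e3.le
    have e8 : P - Q = (z - x) * W.eval z / (p.eval z * q.eval z) := by
      rw [hP, hQ, hWdef]
      simp only [eval_sub, eval_mul]
      field_simp
    rw [e8, norm_div, norm_mul, norm_mul, div_eq_one_iff_eq] at e5
    · exact e5
    · exact mul_ne_zero (norm_ne_zero_iff.2 hpz) (norm_ne_zero_iff.2 hqz)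
  obtain ⟨Mp, hMp, hp1⟩ := norm_eval_ann hp (fun z h1 h2 => (h z h1 h2).1)
  obtain ⟨Mq, hMq, hq1⟩ := norm_eval_ann hq (fun z h1 h2 => (h z h1 h2).2.1)
  obtain ⟨Mw, hMw, hw1⟩ := norm_eval_ann hW (fun z h1 h2 => (h z h1 h2).2.2)
  have key2 : ∀ z, r < ‖z - x‖ → ‖z - x‖ < r' →
      Mw * ‖z - x‖ ^ (nr W x r + 1) = Mp * Mq * ‖z - x‖ ^ (nr p x r + nr q x r) := by
    intro z h1 h2
    have e1 := key z h1 h2
    rw [hp1 z h1 h2, hq1 z h1 h2, hw1 z h1 h2] at e1
    rw [pow_succ, pow_add]
    linear_combination e1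
  obtain ⟨z1, h1, h1'⟩ := ncrit_dense' x hr hr'
  obtain ⟨z2, h2, h2'⟩ := ncrit_dense' x (norm_nonneg (z1 - x)) h1'
  have f1 := key2 z1 h1 h1'
  have f2 := key2 z2 (h1.trans h2) h2'
  set a := ‖z1 - x‖ with ha
  set b := ‖z2 - x‖ with hb
  have ha0 : 0 < a := lt_of_le_of_lt hr h1
  have hb0 : 0 < b := ha0.trans h2
  set m := nr W x r + 1 with hm
  set n := nr p x r + nr q x r with hnn
  -- a ^ m b ^ n = b ^ m a ^ n
  have f3 : a ^ m * b ^ n = b ^ m * a ^ n := by
    have g1 : (Mw * a ^ m) * (Mp * Mq * b ^ n) = (Mp * Mq * a ^ n) * (Mw * b ^ m) := by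
      rw [f1, f2]
    have g2 : 0 < Mw * Mp * Mq := by positivity
    apply mul_left_cancel₀ g2.ne'
    linear_combination g1
  have f4 : (b / a) ^ m = (b / a) ^ n := by
    rw [div_pow, div_pow, div_eq_div_iff (by positivity) (by positivity)]
    linear_combination -f3
  have f5 : 1 < b / a := by rw [lt_div_iff₀ ha0]; linarith
  exact pow_right_injective₀ (by positivity) f5.ne' f4

/-! ### Norms of values in terms of the roots -/

omit [IsUltrametricDist K] in
theorem ncrit_norm_eval (g : K[X]) (z : K) :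
    ‖g.eval z‖ = ‖g.leadingCoeff‖ * (g.roots.map fun α => ‖z - α‖).prod := by
  rw [(IsAlgClosed.splits g).eval_eq_prod_roots z, norm_mul]
  congr 1
  have h1 := Multiset.prod_hom (g.roots.map fun α => z - α) (normHom (α := K))
  rw [Multiset.map_map] at h1
  exact h1.symm

/-- comparison of products of an antitone function `≥ 1` over dominated multisets -/
theorem ncrit_prod_le (φ : ℝ → ℝ) (h1 : ∀ x, 1 ≤ φ x) (hφ : ∀ x y, 0 < x → x ≤ y → φ y ≤ φ x) :
    ∀ (n : ℕ) (a b : Multiset ℝ), Multiset.card b = n → (∀ x ∈ a, 0 < x) →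
      (∀ ρ, Multiset.card (b.filter (· ≤ ρ)) ≤ Multiset.card (a.filter (· ≤ ρ))) →
      (b.map φ).prod ≤ (a.map φ).prod := by
  intro n
  induction n with
  | zero =>
    intro a b hb _ _
    rw [Multiset.card_eq_zero] at hb
    subst hb
    simp only [Multiset.map_zero, Multiset.prod_zero]
    have : ∀ s : Multiset ℝ, 1 ≤ (s.map φ).prod := by
      intro s
      induction s using Multiset.induction_on with
      | empty => simp
      | cons x s ih =>
        rw [Multiset.map_cons, Multiset.prod_cons]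
        exact one_le_mul_of_one_le_of_one_le (h1 x) ih
    exact this a
  | succ n ih =>
    intro a b hb ha hc
    -- the least element of `b`
    have hbne : b.toFinset.Nonempty := by
      rw [Multiset.toFinset_nonempty]
      rintro rfl
      simp at hb
    obtain ⟨β, hβ, hβmin⟩ := b.toFinset.exists_min_image id hbne
    rw [Multiset.mem_toFinset] at hβ
    have hcβ := hc β
    have hb1 : 0 < Multiset.card (b.filter (· ≤ β)) := by
      rw [Multiset.card_pos_iff_exists_mem]
      exact ⟨β, Multiset.mem_filter.2 ⟨hβ, le_rfl⟩⟩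
    have hane : a.toFinset.Nonempty := by
      rw [Multiset.toFinset_nonempty]
      intro h0
      rw [h0] at hcβ
      simp only [Multiset.filter_zero, Multiset.card_zero] at hcβ
      omega
    obtain ⟨α, hα, hαmin⟩ := a.toFinset.exists_min_image id hane
    rw [Multiset.mem_toFinset] at hα
    have hαβ : α ≤ β := by
      obtain ⟨x, hx⟩ := Multiset.card_pos_iff_exists_mem.1 (lt_of_lt_of_le hb1 hcβ)
      rw [Multiset.mem_filter] at hx
      exact (hαmin x (Multiset.mem_toFinset.2 hx.1)).trans hx.2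
    obtain ⟨b', rfl⟩ := Multiset.exists_cons_of_mem hβ
    obtain ⟨a', rfl⟩ := Multiset.exists_cons_of_mem hα
    have hα0 : 0 < α := ha α (Multiset.mem_cons_self _ _)
    rw [Multiset.map_cons, Multiset.map_cons, Multiset.prod_cons, Multiset.prod_cons]
    have hb' : Multiset.card b' = n := by simpa using hb
    have h2 := ih a' b' hb' (fun x hx => ha x (Multiset.mem_cons_of_mem hx)) ?_
    · have h3 : 0 ≤ (b'.map φ).prod := by
        apply Multiset.prod_nonneg
        intro x hx
        obtain ⟨y, _, rfl⟩ := Multiset.mem_map.1 hx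
        linarith [h1 y]
      exact mul_le_mul (hφ α β hα0 hαβ) h2 h3 (by linarith [h1 α])
    · intro ρ
      have h3 := hc ρ
      by_cases hρ : β ≤ ρ
      · have h5 : Multiset.filter (fun x => x ≤ ρ) (β ::ₘ b') = β ::ₘ b'.filter (· ≤ ρ) :=
          Multiset.filter_cons_of_pos (p := fun x : ℝ => x ≤ ρ) b' hρ
        have h6 : Multiset.filter (fun x => x ≤ ρ) (α ::ₘ a') = α ::ₘ a'.filter (· ≤ ρ) :=
          Multiset.filter_cons_of_pos (p := fun x : ℝ => x ≤ ρ) a' (hαβ.trans hρ)
        rw [h5, h6, Multiset.card_cons, Multiset.card_cons] at h3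
        omega
      · have h4 : b'.filter (· ≤ ρ) = 0 := by
          rw [Multiset.filter_eq_nil]
          intro x hx hxρ
          have h5 := hβmin x (Multiset.mem_toFinset.2 (Multiset.mem_cons_of_mem hx))
          exact hρ (h5.trans hxρ)
        rw [h4]
        simp

open Classical in
/-- a disc around `c` with more poles than zeros -/
theorem ncrit_radius {p q : K[X]} (hpq : IsCoprime p q) {c : K} {t : ℝ} (ht : t < 1)
    (h : ∀ z, t < ‖z - c‖ → ‖z - c‖ < 1 → ‖p.eval z‖ < ‖q.eval z‖)
    (hc : ‖q.eval c‖ ≤ ‖p.eval c‖) : ∃ ρ, 0 ≤ ρ ∧ ρ < 1 ∧ nr p c ρ < nr q c ρ := by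
  by_contra hcon
  push Not at hcon
  -- both values at `c` are nonzero
  have hpc : p.eval c ≠ 0 := by
    intro h0
    rw [h0, norm_zero] at hc
    have hq0 : q.eval c = 0 := norm_le_zero_iff.1 hc
    obtain ⟨u, v, huv⟩ := hpq
    have := congrArg (fun f => f.eval c) huv
    simp [h0, hq0] at this
  have hp : p ≠ 0 := by rintro rfl; simp at hpc
  -- there is a point z with few restrictions
  obtain ⟨r, hr0, hr1, hr, -⟩ := exists_inner_ann p hp c one_pos
  obtain ⟨z, hz1, hz2⟩ := ncrit_dense' c (a := max r t) (b := 1) (le_trans hr0.le (le_max_left _ _))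
    (max_lt hr1 ht)
  have hzr : r < ‖z - c‖ := (le_max_left _ _).trans_lt hz1
  have hzt : t < ‖z - c‖ := (le_max_right _ _).trans_lt hz1
  have hlt := h z hzt hz2
  set s := ‖z - c‖ with hs
  have hs0 : 0 < s := hr0.trans hzr
  by_cases hqc : q.eval c = 0
  · by_cases hq : q = 0
    · rw [hq] at hlt
      simp only [eval_zero, norm_zero] at hlt
      exact absurd hlt (not_lt.2 (norm_nonneg _))
    -- radius zero
    have h0 := hcon 0 le_rfl one_pos
    have h1 : 0 < nr q c 0 := by
      unfold nr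
      rw [Multiset.card_pos_iff_exists_mem]
      refine ⟨c, Multiset.mem_filter.2 ⟨(mem_roots hq).2 hqc, by simp⟩⟩
    have h2 : nr p c 0 = 0 := by
      unfold nr
      rw [Multiset.card_eq_zero, Multiset.filter_eq_nil]
      intro α hα h3
      have h4 : α = c := by
        rw [← sub_eq_zero]; exact norm_le_zero_iff.1 h3
      rw [mem_roots hp, h4] at hα
      exact hpc hα
    omega
  have hq : q ≠ 0 := by rintro rfl; simp at hqc
  let φ : ℝ → ℝ := fun x => max 1 (s / x)
  have hφ1 : ∀ x, 1 ≤ φ x := fun x => le_max_left _ _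
  have hφ2 : ∀ x y, 0 < x → x ≤ y → φ y ≤ φ x := by
    intro x y hx hxy
    apply max_le_max le_rfl
    exact div_le_div_of_nonneg_left hs0.le hx hxy
  -- roots of p are different from c
  have hpr : ∀ α ∈ p.roots, 0 < ‖c - α‖ := by
    intro α hα
    rw [norm_pos_iff, sub_ne_zero]
    rintro rfl
    exact hpc ((mem_roots hp).1 hα)
  have hqr : ∀ α ∈ q.roots, 0 < ‖c - α‖ := by
    intro α hα
    rw [norm_pos_iff, sub_ne_zero]
    rintro rfl
    exact hqc ((mem_roots hq).1 hα)
  -- upper bound for q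
  have hqz : ‖q.eval z‖ ≤ ‖q.eval c‖ * ((q.roots.map fun α => ‖c - α‖).map φ).prod := by
    rw [ncrit_norm_eval q z, ncrit_norm_eval q c, mul_assoc, Multiset.map_map,
      ← Multiset.prod_map_mul]
    apply mul_le_mul_of_nonneg_left _ (norm_nonneg _)
    apply Multiset.prod_map_le_prod_map₀
    · intro α _; exact norm_nonneg _
    · intro α hα
      have h1 := hqr α hα
      have h2 : z - α = (z - c) + (c - α) := by ring
      rw [h2]
      refine (IsUltrametricDist.norm_add_le_max _ _).trans ?_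
      simp only [Function.comp, φ]
      rw [mul_max_of_nonneg _ _ h1.le, mul_one, mul_div_cancel₀ _ h1.ne', max_comm]
  -- lower bound for p
  have hpz : ‖p.eval c‖ * ((p.roots.map fun α => ‖c - α‖).map φ).prod ≤ ‖p.eval z‖ := by
    rw [ncrit_norm_eval p z, ncrit_norm_eval p c, mul_assoc, Multiset.map_map,
      ← Multiset.prod_map_mul]
    apply mul_le_mul_of_nonneg_left _ (norm_nonneg _)
    apply Multiset.prod_map_le_prod_map₀
    · intro α hα
      have h1 := hpr α hα
      have h2 := hφ1 ‖c - α‖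
      simp only [Function.comp]
      positivity
    · intro α hα
      have h1 := hpr α hα
      have h2 : z - α = (z - c) + (c - α) := by ring
      have h3 : ‖z - c‖ ≠ ‖c - α‖ := by
        intro h4
        rw [norm_sub_rev c α] at h4
        exact hr α (by rw [← h4]; exact hzr) (by rw [← h4]; exact hz2) ((mem_roots hp).1 hα)
      rw [h2, IsUltrametricDist.norm_add_eq_max_of_norm_ne_norm h3]
      simp only [Function.comp, φ]
      rw [mul_max_of_nonneg _ _ h1.le, mul_one, mul_div_cancel₀ _ h1.ne', max_comm]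
  -- comparison
  have hcmp : ((q.roots.map fun α => ‖c - α‖).map φ).prod ≤
      ((p.roots.map fun α => ‖c - α‖).map φ).prod := by
    set b := q.roots.map fun α => ‖c - α‖ with hb
    set a := p.roots.map fun α => ‖c - α‖ with ha
    have e1 : (b.map φ).prod = ((b.filter (· ≤ s)).map φ).prod := by
      have e2 : b = b.filter (· ≤ s) + b.filter (fun x => ¬ x ≤ s) :=
        (Multiset.filter_add_not _ b).symm
      conv_lhs => rw [e2]
      rw [Multiset.map_add, Multiset.prod_add]
      have e3 : ((b.filter (fun x => ¬ x ≤ s)).map φ).prod = 1 := by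
        apply Multiset.prod_eq_one
        intro y hy
        obtain ⟨x, hx, rfl⟩ := Multiset.mem_map.1 hy
        have hxs : s < x := not_le.1 (Multiset.mem_filter.1 hx).2
        show max 1 (s / x) = 1
        apply max_eq_left
        rw [div_le_one (hs0.trans hxs)]
        exact hxs.le
      rw [e3, mul_one]
    rw [e1]
    have hcnt : ∀ ρ, 0 ≤ ρ → ρ < 1 → Multiset.card (b.filter (· ≤ ρ)) ≤
        Multiset.card (a.filter (· ≤ ρ)) := by
      intro ρ h0 h1
      have h2 := hcon ρ h0 h1
      unfold nr at h2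
      rw [hb, ha, Multiset.filter_map, Multiset.filter_map, Multiset.card_map, Multiset.card_map]
      simp only [Function.comp_def]
      simp only [norm_sub_rev c]
      exact h2
    apply ncrit_prod_le φ hφ1 hφ2 _ a _ rfl
    · intro x hx
      obtain ⟨α, hα, rfl⟩ := Multiset.mem_map.1 hx
      exact hpr α hα
    · intro ρ
      rw [Multiset.filter_filter]
      rcases lt_or_ge ρ 0 with hρ0 | hρ0
      · have e2 : b.filter (fun x => x ≤ ρ ∧ x ≤ s) = 0 := by
          rw [Multiset.filter_eq_nil]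
          intro x hx h3
          obtain ⟨α, hα, rfl⟩ := Multiset.mem_map.1 hx
          have := norm_nonneg (c - α)
          linarith [h3.1]
        rw [e2]; simp
      rcases le_total ρ s with hρ | hρ
      · have e2 : b.filter (fun x => x ≤ ρ ∧ x ≤ s) = b.filter (· ≤ ρ) := by
          apply Multiset.filter_congr
          intro x _
          exact ⟨fun h => h.1, fun h => ⟨h, h.trans hρ⟩⟩
        rw [e2]
        exact hcnt ρ hρ0 (lt_of_le_of_lt hρ hz2)
      · have e2 : b.filter (fun x => x ≤ ρ ∧ x ≤ s) = b.filter (· ≤ s) := by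
          apply Multiset.filter_congr
          intro x _
          exact ⟨fun h => h.2, fun h => ⟨h.trans hρ, h⟩⟩
        rw [e2]
        refine (hcnt s hs0.le hz2).trans ?_
        exact Multiset.card_le_card (Multiset.monotone_filter_right a fun x hx => le_trans hx hρ)
  have hfin : ‖q.eval z‖ ≤ ‖p.eval z‖ := by
    refine hqz.trans (le_trans ?_ hpz)
    apply mul_le_mul hc hcmp _ (norm_nonneg _)
    apply Multiset.prod_nonneg
    intro y hy
    obtain ⟨x, _, rfl⟩ := Multiset.mem_map.1 hy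
    linarith [hφ1 x]
  exact absurd hlt (not_lt.2 hfin)

/-! ### Covering by discs -/

omit [IsAlgClosed K] in
open Classical in
theorem ncrit_cover (ρ : K → ℝ) : ∀ (n : ℕ) (mW mq : Multiset K), Multiset.card mW = n →
    (∀ c ∈ mW, 0 ≤ ρ c ∧ Multiset.card (mW.filter fun z => ‖z - c‖ ≤ ρ c) + 2 ≤
      2 * Multiset.card (mq.filter fun z => ‖z - c‖ ≤ ρ c)) →
    Multiset.card mW ≤ 2 * Multiset.card mq ∧
      (mW ≠ 0 → Multiset.card mW + 2 ≤ 2 * Multiset.card mq) := by
  intro n
  induction n using Nat.strong_induction_on with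
  | _ n ih =>
    intro mW mq hn h
    by_cases h0 : mW = 0
    · subst h0
      simp
    have hne : mW.toFinset.Nonempty := by rwa [Multiset.toFinset_nonempty]
    obtain ⟨c, hc, hmax⟩ := mW.toFinset.exists_max_image ρ hne
    rw [Multiset.mem_toFinset] at hc
    obtain ⟨hρc, hcnt⟩ := h c hc
    set mW' := mW.filter fun z => ¬ ‖z - c‖ ≤ ρ c with hW'
    set mq' := mq.filter fun z => ¬ ‖z - c‖ ≤ ρ c with hq'
    have eW : Multiset.card mW = Multiset.card (mW.filter fun z => ‖z - c‖ ≤ ρ c) +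
        Multiset.card mW' := by
      rw [← Multiset.card_add, hW', Multiset.filter_add_not]
    have eq' : Multiset.card mq = Multiset.card (mq.filter fun z => ‖z - c‖ ≤ ρ c) +
        Multiset.card mq' := by
      rw [← Multiset.card_add, hq', Multiset.filter_add_not]
    have hpos : 0 < Multiset.card (mW.filter fun z => ‖z - c‖ ≤ ρ c) := by
      rw [Multiset.card_pos_iff_exists_mem]
      exact ⟨c, Multiset.mem_filter.2 ⟨hc, by simpa using hρc⟩⟩
    have h1 := ih (Multiset.card mW') (by omega) mW' mq' rfl ?_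
    · have h2 := h1.1
      constructor
      · omega
      · intro _; omega
    · intro c' hc'
      have hc'W : c' ∈ mW := (Multiset.mem_filter.1 hc').1
      have hc'c : ρ c < ‖c' - c‖ := not_le.1 (Multiset.mem_filter.1 hc').2
      obtain ⟨h2, h3⟩ := h c' hc'W
      have h4 : ρ c' ≤ ρ c := hmax c' (Multiset.mem_toFinset.2 hc'W)
      have hdisj : ∀ z, ‖z - c'‖ ≤ ρ c' → ¬ ‖z - c‖ ≤ ρ c := by
        intro z hz hz'
        have h5 : c' - c = -(z - c') + (z - c) := by ring
        have h6 := IsUltrametricDist.norm_add_le_max (-(z - c')) (z - c)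
        rw [← h5, norm_neg] at h6
        have h7 := max_le (hz.trans h4) hz'
        linarith
      have e3 : (mW'.filter fun z => ‖z - c'‖ ≤ ρ c') = mW.filter fun z => ‖z - c'‖ ≤ ρ c' := by
        rw [hW', Multiset.filter_filter]
        apply Multiset.filter_congr
        intro z _
        exact ⟨fun h => h.1, fun h => ⟨h, hdisj z h⟩⟩
      have e4 : (mq'.filter fun z => ‖z - c'‖ ≤ ρ c') = mq.filter fun z => ‖z - c'‖ ≤ ρ c' := by
        rw [hq', Multiset.filter_filter]
        apply Multiset.filter_congr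
        intro z _
        exact ⟨fun h => h.1, fun h => ⟨h, hdisj z h⟩⟩
      rw [e3, e4]
      exact ⟨h2, h3⟩

omit [IsUltrametricDist K] [IsAlgClosed K] in
open Classical in
theorem ncrit_nr_mono (g : K[X]) (x : K) {r r' : ℝ} (h : r ≤ r') : nr g x r ≤ nr g x r' := by
  unfold nr
  exact Multiset.card_le_card (Multiset.monotone_filter_right _ fun z hz => le_trans hz h)

omit [IsUltrametricDist K] [IsAlgClosed K] in
open Classical in
theorem ncrit_nr_le_nro (g : K[X]) (x : K) {r r' : ℝ} (h : r < r') : nr g x r ≤ nro g x r' := by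
  unfold nr nro
  exact Multiset.card_le_card (Multiset.monotone_filter_right _ fun z hz => lt_of_le_of_lt hz h)

theorem crit_poly (hK : ∀ n : ℕ, n ≠ 0 → ‖(n : K)‖ = 1) {p q : K[X]} (hpq : IsCoprime p q)
    (hW : derivative p * q - p * derivative q ≠ 0)
    {x : K} {t : ℝ} (ht : t < 1) (h : ∀ z, t < ‖z - x‖ → ‖z - x‖ < 1 → ‖p.eval z‖ < ‖q.eval z‖)
    (h1 : nro q x 1 < nro p x 1) (h2 : 2 ≤ nro p x 1) :
    ∃ z, ‖z - x‖ < 1 ∧ (derivative p * q - p * derivative q).eval z = 0 ∧
      ‖p.eval z‖ < ‖q.eval z‖ := by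
  classical
  by_contra hcon
  push Not at hcon
  set W := derivative p * q - p * derivative q with hWdef
  have hp : p ≠ 0 := by rintro rfl; simp [hWdef] at hW
  have hq : q ≠ 0 := by rintro rfl; simp [hWdef] at hW
  -- (1), (2): the number of roots of `W` in the open disc
  have hn : nro W x 1 + 1 = nro p x 1 + nro q x 1 := by
    obtain ⟨r1, a1, b1, c1, d1⟩ := exists_inner_ann p hp x one_pos
    obtain ⟨r2, a2, b2, c2, d2⟩ := exists_inner_ann q hq x one_pos
    obtain ⟨r3, a3, b3, c3, d3⟩ := exists_inner_ann W hW x one_pos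
    obtain ⟨r, hr⟩ : ∃ r, r = max r1 (max r2 r3) := ⟨_, rfl⟩
    have hr1 : r1 ≤ r := by rw [hr]; exact le_max_left _ _
    have hr2 : r2 ≤ r := by rw [hr]; exact (le_max_left _ _).trans (le_max_right _ _)
    have hr3 : r3 ≤ r := by rw [hr]; exact (le_max_right _ _).trans (le_max_right _ _)
    have hrlt : r < 1 := by rw [hr]; exact max_lt b1 (max_lt b2 b3)
    have e1 : nr p x r = nro p x 1 := le_antisymm (ncrit_nr_le_nro _ _ hrlt)
      (d1 ▸ ncrit_nr_mono _ _ hr1)
    have e2 : nr q x r = nro q x 1 := le_antisymm (ncrit_nr_le_nro _ _ hrlt)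
      (d2 ▸ ncrit_nr_mono _ _ hr2)
    have e3 : nr W x r = nro W x 1 := le_antisymm (ncrit_nr_le_nro _ _ hrlt)
      (d3 ▸ ncrit_nr_mono _ _ hr3)
    have e4 := count_wr hK hp hq (x := x) (r := r) (r' := 1) (a1.le.trans hr1) hrlt hW
      (fun z g1 g2 => ⟨c1 z (lt_of_le_of_lt hr1 g1) g2, c2 z (lt_of_le_of_lt hr2 g1) g2,
        c3 z (lt_of_le_of_lt hr3 g1) g2⟩) (by rw [e1, e2]; omega)
    rw [← hWdef, e1, e2, e3] at e4
    exact e4
  -- (3): the discs
  have hdisc : ∀ c, ‖c - x‖ < 1 → W.eval c = 0 → ∃ ρ, 0 ≤ ρ ∧ ρ < 1 ∧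
      nr W c ρ + 2 ≤ 2 * nr q c ρ := by
    intro c hc hWc
    have hc1 := hcon c hc hWc
    have hiso : ∀ z, max t ‖c - x‖ < ‖z - c‖ → ‖z - x‖ = ‖z - c‖ := by
      intro z hz
      have g1 : ‖c - x‖ < ‖z - c‖ := (le_max_right _ _).trans_lt hz
      have g2 : z - x = (z - c) + (c - x) := by ring
      rw [g2, IsUltrametricDist.norm_add_eq_max_of_norm_ne_norm g1.ne']
      exact max_eq_left g1.le
    obtain ⟨ρ, hρ0, hρ1, hρ⟩ := ncrit_radius hpq (c := c) (t := max t ‖c - x‖) (max_lt ht hc)
      (fun z g1 g2 => h z (by rw [hiso z g1]; exact (le_max_left _ _).trans_lt g1)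
        (by rw [hiso z g1]; exact g2)) hc1
    obtain ⟨r1, b1, c1⟩ := exists_outer_ann p hp c ρ
    obtain ⟨r2, b2, c2⟩ := exists_outer_ann q hq c ρ
    obtain ⟨r3, b3, c3⟩ := exists_outer_ann W hW c ρ
    have e4 := count_wr hK hp hq (x := c) (r := ρ) (r' := min r1 (min r2 r3)) hρ0
      (lt_min b1 (lt_min b2 b3)) hW
      (fun z g1 g2 => ⟨c1 z g1 (lt_of_lt_of_le g2 (min_le_left _ _)),
        c2 z g1 (lt_of_lt_of_le g2 ((min_le_right _ _).trans (min_le_left _ _))),
        c3 z g1 (lt_of_lt_of_le g2 ((min_le_right _ _).trans (min_le_right _ _)))⟩) hρ.ne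
    rw [← hWdef] at e4
    exact ⟨ρ, hρ0, hρ1, by omega⟩
  choose! ρ hρ0 hρ1 hρ2 using hdisc
  set mW := W.roots.filter fun z => ‖z - x‖ < 1 with hmW
  set mq := q.roots.filter fun z => ‖z - x‖ < 1 with hmq
  have hsub : ∀ (g : K[X]) (c : K), ‖c - x‖ < 1 → W.eval c = 0 →
      Multiset.card ((g.roots.filter fun z => ‖z - x‖ < 1).filter fun z => ‖z - c‖ ≤ ρ c)
        = nr g c (ρ c) := by
    intro g c hc hWc
    unfold nr
    rw [Multiset.filter_filter]
    congr 1
    apply Multiset.filter_congr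
    intro z _
    refine ⟨fun g => g.1, fun g => ⟨g, ?_⟩⟩
    have g2 : z - x = (z - c) + (c - x) := by ring
    rw [g2]
    exact lt_of_le_of_lt (IsUltrametricDist.norm_add_le_max _ _)
      (max_lt (lt_of_le_of_lt g (hρ1 c hc hWc)) hc)
  obtain ⟨g1, g2⟩ := ncrit_cover ρ _ mW mq rfl (by
    intro c hc
    rw [hmW, Multiset.mem_filter, mem_roots hW] at hc
    refine ⟨hρ0 c hc.2 hc.1, ?_⟩
    rw [hmW, hmq, hsub W c hc.2 hc.1, hsub q c hc.2 hc.1]
    exact hρ2 c hc.2 hc.1)
  have g3 : Multiset.card mW = nro W x 1 := rfl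
  have g4 : Multiset.card mq = nro q x 1 := rfl
  rw [g3, g4] at g1 g2
  by_cases h0 : mW = 0
  · have g5 : nro W x 1 = 0 := by rw [← g3, h0]; rfl
    omega
  · have := g2 h0
    omega

end FS16
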