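import Pool.Agent.FS16.NGood

/-!
# Charts at the same type II point

MODULE N-SAME.  The chart `c` belongs to the type II point `ζ(c.a, ‖c.ρ‖)`.
* `exists_theta`: for a non-inverted chart `c` and an inverted chart `c'` with the same `a`, `ρ` the
  coordinates are inverse, and `dirR (1/w) = 1/(dirR w)`, with `1/0 = ∞`, `1/∞ = 0` (`dirR` of a point
  of norm `< 1` is `0`).  For two non-inverted charts, `w' = (ρ w + a - a')/ρ'` and `θ u = α u + β`,
  `θ ∞ = ∞`, where `α ≠ 0`, `β` are the reductions of `ρ/ρ'`, `(a - a')/ρ'`.  Compose.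
* `exists_chart_at`: let `c₀ = ⟨c.a, c.ρ, hρ, false⟩` and let `u₀` be the direction at `c₀` that
  corresponds to `u`.  If `u₀ = ∞` take `c' = c₀`, otherwise `c' = ⟨c.a + c.ρ * R.lift u₀, c.ρ, _, true⟩`.
* `sep_of_not_same`: let `c = (a, r)`, `c' = (a', r')` (`r = ‖ρ‖`, ...), by `exists_theta` we may assume
  that the charts are not inverted.  `‖a - a'‖ > max r r'`: `u = ∞`, `u' = ∞` (if both directions are
  finite then `‖z - a‖ ≤ r`, `‖z - a'‖ ≤ r'`).  `‖a - a'‖ ≤ r`, `r' < r`: `u` = direction of `a'` at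
  `c` (the residue of `(a' - a)/ρ`) and `u' = ∞`: if the direction at `c'` is finite then
  `‖z - a'‖ ≤ r' < r`.  The remaining cases are symmetric (`‖a - a'‖ ≤ r'`, `r < r'`).
* `transfer`: by `dircount` the number of the elements of a fibre of `f` in a direction is (with
  `β = dirR (c₁'.to b)`)
  `spl₁ u + [T₁ u = β] mult₁ u = spl₂ (θ u) + [T₂ (θ u) = θ' β] mult₂ (θ u)`, for all `β` (every
  direction contains points: `exists_dirR_eq`).  Choose `β` different from `T₁ u` and
  `θ'⁻¹ (T₂ (θ u))`: `spl₁ u = spl₂ (θ u)`; then `β = T₁ u` (`one_le_mult`).  The fibres of `T₂` are the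
  images of those of `T₁`, so the degrees agree (`card_fibM`).
-/

open Polynomial

noncomputable section

namespace FS16

universe u

variable {K k : Type u} [NormedField K] [Field k] {R : Residue K k}

/-- the charts belong to the same type II point -/
def SamePt (c c' : Chart K) : Prop := ‖c.ρ‖ = ‖c'.ρ‖ ∧ ‖c.a - c'.a‖ ≤ ‖c.ρ‖

theorem exists_dirR_eq (R : Residue K k) (c : Chart K) (u : OnePoint k) :
    ∃ z, dirR R (c.to z) = u := by
  cases u using OnePoint.rec with
  | infty =>
    refine ⟨c.fro OnePoint.infty, ?_⟩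
    rw [c.to_fro, dirR_infty]
  | coe u =>
    refine ⟨c.fro ((R.lift u : K) : OnePoint K), ?_⟩
    rw [c.to_fro, dirR_coe R (R.norm_lift u), R.red_lift]

/-! ### auxiliary maps of the projective line -/

open Classical in
/-- the inversion -/
def sInv {F : Type*} [Field F] : OnePoint F → OnePoint F
  | OnePoint.some x => if x = 0 then OnePoint.infty else ((x⁻¹ : F) : OnePoint F)
  | OnePoint.infty => ((0 : F) : OnePoint F)

theorem sInv_zero {F : Type*} [Field F] : sInv ((0 : F) : OnePoint F) = OnePoint.infty := by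
  classical
  change (if (0 : F) = 0 then OnePoint.infty else (((0 : F)⁻¹ : F) : OnePoint F)) = _
  rw [if_pos rfl]

theorem sInv_coe {F : Type*} [Field F] {x : F} (hx : x ≠ 0) :
    sInv (x : OnePoint F) = ((x⁻¹ : F) : OnePoint F) := by
  classical
  change (if x = 0 then OnePoint.infty else ((x⁻¹ : F) : OnePoint F)) = _
  rw [if_neg hx]

theorem sInv_infty {F : Type*} [Field F] :
    sInv (OnePoint.infty : OnePoint F) = ((0 : F) : OnePoint F) := rfl

theorem sInv_sInv {F : Type*} [Field F] (z : OnePoint F) : sInv (sInv z) = z := by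
  cases z using OnePoint.rec with
  | infty => rw [sInv_infty, sInv_zero]
  | coe x =>
    by_cases hx : x = 0
    · rw [hx, sInv_zero, sInv_infty]
    · rw [sInv_coe hx, sInv_coe (inv_ne_zero hx), inv_inv]

/-- the inversion as a permutation -/
def sInvE {F : Type*} [Field F] : OnePoint F ≃ OnePoint F where
  toFun := sInv
  invFun := sInv
  left_inv := sInv_sInv
  right_inv := sInv_sInv

/-- the affine map -/
def sAff {F : Type*} [Field F] (α β : F) : OnePoint F → OnePoint F
  | OnePoint.some x => ((α * x + β : F) : OnePoint F)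
  | OnePoint.infty => OnePoint.infty

theorem sAff_coe {F : Type*} [Field F] (α β x : F) :
    sAff α β (x : OnePoint F) = ((α * x + β : F) : OnePoint F) := rfl

theorem sAff_infty {F : Type*} [Field F] (α β : F) :
    sAff α β (OnePoint.infty : OnePoint F) = OnePoint.infty := rfl

/-- the affine map as a permutation -/
def sAffE {F : Type*} [Field F] (α β : F) (hα : α ≠ 0) : OnePoint F ≃ OnePoint F where
  toFun := sAff α β
  invFun := sAff α⁻¹ (-(α⁻¹ * β))
  left_inv z := by
    cases z using OnePoint.rec with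
    | infty => rfl
    | coe x =>
      rw [sAff_coe, sAff_coe]
      congr 1
      field_simp
      ring
  right_inv z := by
    cases z using OnePoint.rec with
    | infty => rfl
    | coe x =>
      rw [sAff_coe, sAff_coe]
      congr 1
      field_simp
      ring

/-- the chart, not inverted -/
def Chart.plain {F : Type*} [Field F] (c : Chart F) : Chart F := ⟨c.a, c.ρ, c.hρ, false⟩

theorem Chart.to_coe_false {F : Type*} [Field F] (c : Chart F) (h : c.inv = false) (z : F) :
    c.to (z : OnePoint F) = (((z - c.a) / c.ρ : F) : OnePoint F) := by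
  classical
  change (if c.inv = true then
      (if z = c.a then OnePoint.infty else ((c.ρ / (z - c.a) : F) : OnePoint F))
      else (((z - c.a) / c.ρ : F) : OnePoint F)) = _
  rw [if_neg (by rw [h]; exact Bool.false_ne_true)]

theorem Chart.to_infty_false {F : Type*} [Field F] (c : Chart F) (h : c.inv = false) :
    c.to OnePoint.infty = OnePoint.infty := by
  classical
  change (if c.inv = true then ((0 : F) : OnePoint F) else OnePoint.infty) = _
  rw [if_neg (by rw [h]; exact Bool.false_ne_true)]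

theorem Chart.to_coe_true {F : Type*} [Field F] (c : Chart F) (h : c.inv = true) {z : F}
    (hz : z ≠ c.a) : c.to (z : OnePoint F) = ((c.ρ / (z - c.a) : F) : OnePoint F) := by
  classical
  change (if c.inv = true then
      (if z = c.a then OnePoint.infty else ((c.ρ / (z - c.a) : F) : OnePoint F))
      else (((z - c.a) / c.ρ : F) : OnePoint F)) = _
  rw [if_pos h, if_neg hz]

theorem Chart.to_a_true {F : Type*} [Field F] (c : Chart F) (h : c.inv = true) :
    c.to (c.a : OnePoint F) = OnePoint.infty := by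
  classical
  change (if c.inv = true then
      (if c.a = c.a then OnePoint.infty else ((c.ρ / (c.a - c.a) : F) : OnePoint F))
      else (((c.a - c.a) / c.ρ : F) : OnePoint F)) = _
  rw [if_pos h, if_pos rfl]

theorem Chart.to_infty_true {F : Type*} [Field F] (c : Chart F) (h : c.inv = true) :
    c.to OnePoint.infty = ((0 : F) : OnePoint F) := by
  classical
  change (if c.inv = true then ((0 : F) : OnePoint F) else OnePoint.infty) = _
  rw [if_pos h]

theorem Chart.to_eq_sInv {F : Type*} [Field F] (c : Chart F) (h : c.inv = true) (z : OnePoint F) :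
    c.to z = sInv (c.plain.to z) := by
  cases z using OnePoint.rec with
  | infty => rw [c.to_infty_true h, c.plain.to_infty_false rfl, sInv_infty]
  | coe z =>
    rw [c.plain.to_coe_false rfl]
    change _ = sInv (((z - c.a) / c.ρ : F) : OnePoint F)
    by_cases hz : z = c.a
    · rw [hz, c.to_a_true h, sub_self, zero_div, sInv_zero]
    · rw [c.to_coe_true h hz, sInv_coe (div_ne_zero (sub_ne_zero.2 hz) c.hρ), inv_div]

theorem Chart.to_eq_plain {F : Type*} [Field F] (c : Chart F) (h : c.inv = false)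
    (z : OnePoint F) : c.to z = c.plain.to z := by
  cases z using OnePoint.rec with
  | infty => rw [c.to_infty_false h, c.plain.to_infty_false rfl]
  | coe z => rw [c.plain.to_coe_false rfl, c.to_coe_false h]; rfl

theorem dirR_sInv (R : Residue K k) (w : OnePoint K) : dirR R (sInv w) = sInv (dirR R w) := by
  cases w using OnePoint.rec with
  | infty =>
    rw [sInv_infty, dirR_infty, sInv_infty, dirR_coe R (by rw [norm_zero]; exact zero_le_one),
      R.zero]
  | coe x =>
    by_cases hx0 : x = 0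
    · rw [hx0, sInv_zero, dirR_infty, dirR_coe R (by rw [norm_zero]; exact zero_le_one), R.zero,
        sInv_zero]
    rw [sInv_coe hx0]
    have hpos : 0 < ‖x‖ := norm_pos_iff.2 hx0
    rcases lt_trichotomy ‖x‖ 1 with h | h | h
    · rw [dirR_coe R h.le, (R.zero_iff x h.le).2 h, sInv_zero,
        dirR_coe_of_lt R (by rw [norm_inv]; exact (one_lt_inv₀ hpos).2 h)]
    · rw [dirR_coe R h.le, dirR_coe R (by rw [norm_inv, h, inv_one]),
        sInv_coe ((R.norm_eq_one h.le).2 h), R.inv h]
    · have h1 : ‖x⁻¹‖ < 1 := by rw [norm_inv]; exact inv_lt_one_of_one_lt₀ h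
      rw [dirR_coe_of_lt R h, sInv_infty, dirR_coe R h1.le, (R.zero_iff _ h1.le).2 h1]

theorem exists_plain (R : Residue K k) (c : Chart K) :
    ∃ θ : OnePoint k ≃ OnePoint k, ∀ z, dirR R (c.to z) = θ (dirR R (c.plain.to z)) := by
  cases h : c.inv with
  | false => exact ⟨Equiv.refl _, fun z => by rw [c.to_eq_plain h]; rfl⟩
  | true => exact ⟨sInvE, fun z => by rw [c.to_eq_sInv h, dirR_sInv]; rfl⟩

variable [IsUltrametricDist K]

theorem dirR_sAff (R : Residue K k) {α β : K} (hα : ‖α‖ = 1) (hβ : ‖β‖ ≤ 1) (w : OnePoint K) :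
    dirR R (sAff α β w) = sAff (R.red α) (R.red β) (dirR R w) := by
  cases w using OnePoint.rec with
  | infty => rw [sAff_infty, dirR_infty, sAff_infty]
  | coe x =>
    rw [sAff_coe]
    by_cases hx : ‖x‖ ≤ 1
    · have h1 : ‖α * x‖ ≤ 1 := by rw [norm_mul, hα, one_mul]; exact hx
      have h2 : ‖α * x + β‖ ≤ 1 :=
        (IsUltrametricDist.norm_add_le_max _ _).trans (max_le h1 hβ)
      rw [dirR_coe R hx, dirR_coe R h2, sAff_coe, R.add _ _ h1 hβ, R.mul _ _ hα.le hx]
    · have hx1 : 1 < ‖x‖ := not_le.1 hx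
      have h1 : ‖α * x‖ = ‖x‖ := by rw [norm_mul, hα, one_mul]
      have h2 : 1 < ‖α * x + β‖ := by
        rw [IsUltrametricDist.norm_add_eq_max_of_norm_ne_norm
          (by rw [h1]; exact (hβ.trans_lt hx1).ne'), h1]
        exact lt_max_of_lt_left hx1
      rw [dirR_coe_of_lt R hx1, dirR_coe_of_lt R h2, sAff_infty]

omit [IsUltrametricDist K] in
theorem plain_to_plain (c c' : Chart K) (z : OnePoint K) :
    c'.plain.to z = sAff (c.ρ / c'.ρ) ((c.a - c'.a) / c'.ρ) (c.plain.to z) := by
  cases z using OnePoint.rec with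
  | infty => rw [c'.plain.to_infty_false rfl, c.plain.to_infty_false rfl, sAff_infty]
  | coe z =>
    rw [c'.plain.to_coe_false rfl, c.plain.to_coe_false rfl, sAff_coe]
    change (((z - c'.a) / c'.ρ : K) : OnePoint K) =
      ((c.ρ / c'.ρ * ((z - c.a) / c.ρ) + (c.a - c'.a) / c'.ρ : K) : OnePoint K)
    congr 1
    have h1 := c.hρ
    have h2 := c'.hρ
    field_simp
    ring

theorem exists_theta (R : Residue K k) {c c' : Chart K} (h : SamePt c c') :
    ∃ θ : OnePoint k ≃ OnePoint k, ∀ z, dirR R (c'.to z) = θ (dirR R (c.to z)) := by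
  obtain ⟨θ₁, h₁⟩ := exists_plain R c
  obtain ⟨θ₂, h₂⟩ := exists_plain R c'
  have hρ : 0 < ‖c'.ρ‖ := norm_pos_iff.2 c'.hρ
  have hα : ‖c.ρ / c'.ρ‖ = 1 := by rw [norm_div, h.1, div_self hρ.ne']
  have hβ : ‖(c.a - c'.a) / c'.ρ‖ ≤ 1 := by
    rw [norm_div, div_le_one hρ, ← h.1]
    exact h.2
  refine ⟨(θ₁.symm.trans (sAffE (R.red (c.ρ / c'.ρ)) (R.red ((c.a - c'.a) / c'.ρ))
    ((R.norm_eq_one hα.le).2 hα))).trans θ₂, fun z => ?_⟩
  rw [h₁ z, h₂ z, plain_to_plain c c' z, dirR_sAff R hα hβ]
  simp only [Equiv.trans_apply, Equiv.symm_apply_apply]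
  rfl

theorem exists_chart_at (R : Residue K k) (c : Chart K) (u : OnePoint k) :
    ∃ c' : Chart K, SamePt c c' ∧ ∀ z, dirR R (c'.to z) = OnePoint.infty ↔ dirR R (c.to z) = u := by
  obtain ⟨θ, hθ⟩ := exists_plain R c
  have hu : ∀ z, dirR R (c.to z) = u ↔ dirR R (c.plain.to z) = θ.symm u := by
    intro z
    rw [hθ z, Equiv.eq_symm_apply]
  generalize θ.symm u = v at hu
  cases v using OnePoint.rec with
  | infty =>
    refine ⟨c.plain, ⟨rfl, ?_⟩, fun z => (hu z).symm⟩
    change ‖c.a - c.a‖ ≤ ‖c.ρ‖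
    rw [sub_self, norm_zero]
    exact norm_nonneg _
  | coe v =>
    refine ⟨⟨c.a + c.ρ * R.lift v, c.ρ, c.hρ, true⟩, ⟨rfl, ?_⟩, fun z => ?_⟩
    · change ‖c.a - (c.a + c.ρ * R.lift v)‖ ≤ ‖c.ρ‖
      rw [sub_add_cancel_left, norm_neg, norm_mul]
      exact mul_le_of_le_one_right (norm_nonneg _) (R.norm_lift v)
    · rw [hu z]
      set c' : Chart K := ⟨c.a + c.ρ * R.lift v, c.ρ, c.hρ, true⟩ with hc'
      rw [c'.to_eq_sInv rfl, dirR_sInv, plain_to_plain c c' z]
      have e1 : c.ρ / c'.ρ = 1 := div_self c.hρ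
      have e2 : (c.a - c'.a) / c'.ρ = - R.lift v := by
        change (c.a - (c.a + c.ρ * R.lift v)) / c.ρ = - R.lift v
        have := c.hρ
        field_simp
        ring
      rw [e1, e2, dirR_sAff R norm_one (by rw [norm_neg]; exact R.norm_lift v), R.one,
        R.neg (R.norm_lift v), R.red_lift]
      generalize dirR R (c.plain.to z) = w
      cases w using OnePoint.rec with
      | infty =>
        rw [sAff_infty, sInv_infty]
        exact ⟨fun h => absurd h (OnePoint.coe_ne_infty _), fun h => absurd h (OnePoint.infty_ne_coe _)⟩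
      | coe w =>
        rw [sAff_coe]
        by_cases hw : w = v
        · rw [hw, one_mul, add_neg_cancel, sInv_zero]
          exact ⟨fun _ => rfl, fun _ => rfl⟩
        · rw [sInv_coe (by rw [one_mul, ← sub_eq_add_neg]; exact sub_ne_zero.2 hw)]
          exact ⟨fun h => absurd h (OnePoint.coe_ne_infty _),
            fun h => absurd (OnePoint.coe_injective h) hw⟩

/-- two directions at discs which are not equal, not inverted, the first disc is the larger one -/
theorem sep_aux (R : Residue K k) {c c' : Chart K} (h : ‖c'.ρ‖ < ‖c.ρ‖)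
    (h' : ‖c'.a - c.a‖ ≤ ‖c.ρ‖) : ∃ u u' : OnePoint k, ∀ z,
      dirR R (c.plain.to z) = u ∨ dirR R (c'.plain.to z) = u' := by
  have hρ : 0 < ‖c.ρ‖ := norm_pos_iff.2 c.hρ
  have hρ' : 0 < ‖c'.ρ‖ := norm_pos_iff.2 c'.hρ
  have h1 : ‖(c'.a - c.a) / c.ρ‖ ≤ 1 := by
    rw [norm_div, div_le_one hρ]
    exact h'
  refine ⟨(R.red ((c'.a - c.a) / c.ρ) : OnePoint k), OnePoint.infty, fun z => ?_⟩
  cases z using OnePoint.rec with
  | infty =>
    right
    rw [c'.plain.to_infty_false rfl, dirR_infty]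
  | coe z =>
    rw [c.plain.to_coe_false rfl, c'.plain.to_coe_false rfl]
    change dirR R (((z - c.a) / c.ρ : K) : OnePoint K) = _ ∨
      dirR R (((z - c'.a) / c'.ρ : K) : OnePoint K) = _
    by_cases hz : ‖(z - c'.a) / c'.ρ‖ ≤ 1
    · left
      have h2 : ‖z - c'.a‖ ≤ ‖c'.ρ‖ := by
        rwa [norm_div, div_le_one hρ'] at hz
      have h3 : ‖(z - c.a) / c.ρ - (c'.a - c.a) / c.ρ‖ < 1 := by
        rw [← sub_div, norm_div, div_lt_one hρ]
        have e : z - c.a - (c'.a - c.a) = z - c'.a := by ring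
        rw [e]
        exact h2.trans_lt h
      have h4 : ‖(z - c.a) / c.ρ‖ ≤ 1 := by
        have e : (z - c.a) / c.ρ = ((z - c.a) / c.ρ - (c'.a - c.a) / c.ρ) + (c'.a - c.a) / c.ρ := by
          ring
        rw [e]
        exact (IsUltrametricDist.norm_add_le_max _ _).trans (max_le h3.le h1)
      rw [dirR_coe R h4, (R.eq_iff h4 h1).2 h3]
    · right
      exact dirR_coe_of_lt R (not_le.1 hz)

theorem sep_of_not_same (R : Residue K k) {c c' : Chart K} (h : ¬ SamePt c c') :
    ∃ u u' : OnePoint k, ∀ z, dirR R (c.to z) = u ∨ dirR R (c'.to z) = u' := by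
  obtain ⟨θ, hθ⟩ := exists_plain R c
  obtain ⟨θ', hθ'⟩ := exists_plain R c'
  suffices hs : ∃ u u' : OnePoint k, ∀ z,
      dirR R (c.plain.to z) = u ∨ dirR R (c'.plain.to z) = u' by
    obtain ⟨u, u', hs⟩ := hs
    refine ⟨θ u, θ' u', fun z => ?_⟩
    rcases hs z with h1 | h1
    · left; rw [hθ z, h1]
    · right; rw [hθ' z, h1]
  have hρ : 0 < ‖c.ρ‖ := norm_pos_iff.2 c.hρ
  have hρ' : 0 < ‖c'.ρ‖ := norm_pos_iff.2 c'.hρ
  by_cases hd : ‖c.a - c'.a‖ ≤ max ‖c.ρ‖ ‖c'.ρ‖
  · rcases lt_trichotomy ‖c'.ρ‖ ‖c.ρ‖ with h1 | h1 | h1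
    · apply sep_aux R h1
      rw [max_eq_left h1.le] at hd
      rwa [← norm_neg, neg_sub]
    · exfalso
      apply h
      rw [max_eq_left h1.le] at hd
      exact ⟨h1.symm, hd⟩
    · rw [max_eq_right h1.le] at hd
      obtain ⟨u, u', hs⟩ := sep_aux R h1 hd
      exact ⟨u', u, fun z => (hs z).symm⟩
  · refine ⟨OnePoint.infty, OnePoint.infty, fun z => ?_⟩
    cases z using OnePoint.rec with
    | infty =>
      right
      rw [c'.plain.to_infty_false rfl, dirR_infty]
    | coe z =>
      rw [c.plain.to_coe_false rfl, c'.plain.to_coe_false rfl]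
      change dirR R (((z - c.a) / c.ρ : K) : OnePoint K) = _ ∨
        dirR R (((z - c'.a) / c'.ρ : K) : OnePoint K) = _
      by_cases hz : ‖(z - c'.a) / c'.ρ‖ ≤ 1
      · by_cases hz' : ‖(z - c.a) / c.ρ‖ ≤ 1
        · exfalso
          apply hd
          have h2 : ‖z - c'.a‖ ≤ ‖c'.ρ‖ := by
            rwa [norm_div, div_le_one hρ'] at hz
          have h3 : ‖z - c.a‖ ≤ ‖c.ρ‖ := by
            rwa [norm_div, div_le_one hρ] at hz'
          have e : c.a - c'.a = -(z - c.a) + (z - c'.a) := by ring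
          rw [e]
          refine (IsUltrametricDist.norm_add_le_max _ _).trans (max_le_max ?_ h2)
          rw [norm_neg]
          exact h3
        · left
          exact dirR_coe_of_lt R (not_le.1 hz')
      · right
        exact dirR_coe_of_lt R (not_le.1 hz)

open Classical in
theorem same_count [IsAlgClosed K] [IsAlgClosed k] {f : RM K} {c₁ c₁' : Chart K} {h₁ : k[X]}
    {T₁ : RM k} (g₁ : GoodRed R (f.cj c₁ c₁') h₁ T₁) (b : OnePoint K) (u : OnePoint k) :
    Multiset.card ((f.fibM b).filter fun z => dirR R (c₁.to z) = u) =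
      spl (f.cj c₁ c₁') h₁ T₁ u + if T₁.map u = dirR R (c₁'.to b) then T₁.mult u else 0 := by
  have hd : 1 ≤ f.deg := by
    rw [← f.cj_deg c₁ c₁']
    exact g₁.one_le_deg
  have h1 := dircount g₁ (c₁'.to b) u
  rw [f.cj_fibM hd c₁ c₁' b, Multiset.filter_map, Multiset.card_map] at h1
  exact h1

theorem transfer [IsAlgClosed K] [IsAlgClosed k] {f : RM K} {c₁ c₂ c₁' c₂' : Chart K}
    {θ θ' : OnePoint k ≃ OnePoint k} (hθ : ∀ z, dirR R (c₂.to z) = θ (dirR R (c₁.to z)))
    (hθ' : ∀ z, dirR R (c₂'.to z) = θ' (dirR R (c₁'.to z))) {h₁ h₂ : k[X]} {T₁ T₂ : RM k}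
    (g₁ : GoodRed R (f.cj c₁ c₁') h₁ T₁) (g₂ : GoodRed R (f.cj c₂ c₂') h₂ T₂) :
    (∀ u, T₂.map (θ u) = θ' (T₁.map u)) ∧
    (∀ u, spl (f.cj c₂ c₂') h₂ T₂ (θ u) = spl (f.cj c₁ c₁') h₁ T₁ u) ∧
    (∀ u, T₂.mult (θ u) = T₁.mult u) ∧ T₂.deg = T₁.deg := by
  classical
  have key : ∀ u β : OnePoint k,
      (spl (f.cj c₁ c₁') h₁ T₁ u + if T₁.map u = β then T₁.mult u else 0) =
      (spl (f.cj c₂ c₂') h₂ T₂ (θ u) + if T₂.map (θ u) = θ' β then T₂.mult (θ u) else 0) := by
    intro u β
    obtain ⟨b, hb⟩ := exists_dirR_eq R c₁' β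
    have h1 := same_count g₁ b u
    have h2 := same_count g₂ b (θ u)
    rw [hθ' b] at h2
    rw [hb] at h1 h2
    rw [← h1, ← h2]
    refine congrArg Multiset.card (Multiset.filter_congr fun z _ => ?_)
    rw [hθ z, θ.apply_eq_iff_eq]
  have : Infinite (OnePoint k) := by
    have : Infinite k := IsAlgClosed.instInfinite
    exact Infinite.of_injective (fun x : k => (x : OnePoint k)) OnePoint.coe_injective
  have hspl : ∀ u, spl (f.cj c₂ c₂') h₂ T₂ (θ u) = spl (f.cj c₁ c₁') h₁ T₁ u := by
    intro u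
    obtain ⟨β, hβ⟩ := Infinite.exists_notMem_finset ({T₁.map u, θ'.symm (T₂.map (θ u))} :
      Finset (OnePoint k))
    rw [Finset.mem_insert, Finset.mem_singleton, not_or] at hβ
    have h1 := key u β
    rw [if_neg (fun e => hβ.1 e.symm),
      if_neg (fun e => hβ.2 (by rw [e, Equiv.symm_apply_apply])), add_zero, add_zero] at h1
    exact h1.symm
  have hmul : ∀ u, T₁.mult u = if T₂.map (θ u) = θ' (T₁.map u) then T₂.mult (θ u) else 0 := by
    intro u
    have h1 := key u (T₁.map u)
    rw [if_pos rfl, hspl u] at h1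
    exact Nat.add_left_cancel h1
  have hmap : ∀ u, T₂.map (θ u) = θ' (T₁.map u) := by
    intro u
    by_contra hne
    have h1 := hmul u
    rw [if_neg hne] at h1
    have h2 := T₁.one_le_mult g₁.2.1 u
    omega
  have hmult : ∀ u, T₂.mult (θ u) = T₁.mult u := by
    intro u
    have h1 := hmul u
    rw [if_pos (hmap u)] at h1
    exact h1.symm
  refine ⟨hmap, hspl, hmult, ?_⟩
  have hfib : T₂.fibM (θ' OnePoint.infty) = (T₁.fibM OnePoint.infty).map θ := by
    ext v
    obtain ⟨u, rfl⟩ := θ.surjective v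
    rw [Multiset.count_map_eq_count' _ _ θ.injective, gd_count_eq T₂ g₂.2.1,
      gd_count_eq T₁ g₁.2.1, hmap u, hmult u]
    by_cases hu : T₁.map u = OnePoint.infty
    · rw [if_pos hu, if_pos (by rw [hu])]
    · rw [if_neg hu, if_neg (fun e => hu (θ'.injective e))]
  rw [← T₂.card_fibM g₂.2.1 (θ' OnePoint.infty), ← T₁.card_fibM g₁.2.1 OnePoint.infty, hfib,
    Multiset.card_map]

end FS16
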