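import Pool.Agent.FS16.NThin
import Pool.Agent.FS16.NSame

/-!
# Cycles of type II points where all maps have degree one

MODULE N-DEG-ONE.  `Ξ` finite, `s` a permutation, all `T ξ` have degree one.  `Per ξ` are sets of
directions such that the directions outside of `Per ξ` have no surplus and are mapped to directions
outside of `Per (s ξ)`, and the directions in `Per ξ` are mapped to `Per (s ξ)`.
* `exists_common`: for `z : OnePoint K` let `J z = {ξ | dirR ((c ξ).to z) ∉ Per ξ}`.  Suppose that all `J z` are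
  nonempty.  For every `b` and every `ξ`, the number `N b ξ` of the elements `z` of the fibre `f.fibM b` with
  `ξ ∈ J z` is `1` if `s ξ ∈ J b` and `0` otherwise: let `u'` be the direction of `b` at `s ξ`; by
  `dircount` (with `cj_fibM`), for a direction `u ∉ Per ξ` the number of the elements of the fibre in
  the direction `u` is `0 + [T u = u'] 1` (degree one: `mult = 1`, `card_fibM`, `one_le_mult`),
  and `u' = T u` for exactly one `u`
  (`map_injective`, `map_surjective`), which is in `Per ξ` iff `u' ∈ Per (s ξ)`.  (So only finitely many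
  directions contribute: the multiset `f.fibM b` filtered by `dirR ∉ Per ξ` is the multiset filtered by
  `dirR = u` if `u' ∉ Per (s ξ)`, because an element `z` with direction `u₁ ∉ Per ξ` has
  `u' = T u₁` by `follow`, so `u₁ = u`.)
  Hence `∑_{z ∈ f.fibM b} |J z| = ∑_ξ N b ξ = |J b|`.  Choose `b` with `|J b|` minimal: the left side is
  `≥ deg f * |J b| ≥ 2 |J b| > |J b|`, a contradiction.
* `exists_inv`: let `S ξ t` be the set of the `z` such that the direction `u` of `z` at `c ξ` is not in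
  `Per ξ` or the radius of `z` is `> t`.  By `thin` (for the finitely many `u ∈ Per ξ`, `mult = 1`) and
  `follow` (for `u ∉ Per ξ`) there is `t₀ < 1` with `f (S ξ t) ⊆ S (s ξ) t` for all `t₀ ≤ t < 1`.  Let
  `z₀` be as in `exists_common`; `t ≥ t₀` larger than the radii of `z₀` in the directions at the `c ξ`
  (`radR_lt_one`).  A neighbourhood of `z₀` has the same properties: the set
  `{z | dirR (c.to z) = u ∧ radR u (c.to z) < t'}` is open for `t' < 1` (`hole`-like sets; in each case a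
  disc or the complement of a closed disc in `z`), so it contains a disc `{‖z - a‖ < r}` (if
  `z₀ = ∞` then it contains `{‖z‖ > M}`, and such a disc).
-/

open Polynomial

noncomputable section

namespace FS16

universe u

variable {K k : Type u} [NontriviallyNormedField K] [Field k] {R : Residue K k}
  [IsUltrametricDist K] [IsAlgClosed K] [IsAlgClosed k]

/-- maps of degree one have multiplicity one everywhere -/
theorem d1_mult {F : Type*} [Field F] [IsAlgClosed F] (T : RM F) (hd : T.deg = 1)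
    (z : OnePoint F) : T.mult z = 1 := by
  classical
  apply le_antisymm _ (T.one_le_mult hd.ge z)
  have h := Multiset.count_le_card z (T.fibM (T.map z))
  rw [T.card_fibM hd.ge, hd] at h
  have : T.mult z = (T.fibM (T.map z)).count z := by
    unfold RM.mult
    congr
  rw [this]
  exact h

open Classical in
theorem d1_card_fib {Ξ : Type} {f : RM K} (hf : 1 ≤ f.deg) (s : Equiv.Perm Ξ)
    (c : Ξ → Chart K) (T : Ξ → RM k) (h : Ξ → k[X])
    (good : ∀ ξ, GoodRed R (f.cj (c ξ) (c (s ξ))) (h ξ) (T ξ)) (hT : ∀ ξ, (T ξ).deg = 1)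
    (Per : Ξ → Set (OnePoint k))
    (h1 : ∀ ξ u, u ∉ Per ξ → spl (f.cj (c ξ) (c (s ξ))) (h ξ) (T ξ) u = 0 ∧ (T ξ).map u ∉ Per (s ξ))
    (h2 : ∀ ξ, ∀ u ∈ Per ξ, (T ξ).map u ∈ Per (s ξ)) (b : OnePoint K) (ξ : Ξ) :
    Multiset.card ((f.fibM b).filter fun z => dirR R ((c ξ).to z) ∉ Per ξ) =
      if dirR R ((c (s ξ)).to b) ∉ Per (s ξ) then 1 else 0 := by
  -- elements of the fibre in directions outside of `Per`
  have key : ∀ z ∈ f.fibM b, dirR R ((c ξ).to z) ∉ Per ξ →
      (T ξ).map (dirR R ((c ξ).to z)) = dirR R ((c (s ξ)).to b) := by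
    intro z hz hu
    have hz' : f.map z = b := (f.mem_fibM hf b z).1 hz
    have h3 := follow (good ξ) (z := (c ξ).to z) (h1 ξ _ hu).1
    rw [f.cj_map hf (c ξ) (c (s ξ)) z, hz'] at h3
    exact h3.symm
  by_cases hb : dirR R ((c (s ξ)).to b) ∈ Per (s ξ)
  · rw [if_neg (by simpa using hb)]
    rw [Multiset.card_eq_zero, Multiset.filter_eq_nil]
    intro z hz hu
    have := (h1 ξ _ hu).2
    rw [key z hz hu] at this
    exact this hb
  · rw [if_pos hb]
    obtain ⟨u, hu⟩ := (T ξ).map_surjective (hT ξ).ge (dirR R ((c (s ξ)).to b))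
    have huP : u ∉ Per ξ := fun h' => hb (by rw [← hu]; exact h2 ξ u h')
    have e1 : ((f.fibM b).filter fun z => dirR R ((c ξ).to z) ∉ Per ξ) =
        ((f.fibM b).filter fun z => dirR R ((c ξ).to z) = u) := by
      apply Multiset.filter_congr
      intro z hz
      constructor
      · intro hz1
        apply (T ξ).map_injective (hT ξ)
        rw [key z hz hz1, hu]
      · intro hz1
        rw [hz1]
        exact huP
    rw [e1]
    have h3 := dircount (good ξ) ((c (s ξ)).to b) u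
    rw [f.cj_fibM hf (c ξ) (c (s ξ)) b, Multiset.filter_map, Multiset.card_map, if_pos hu,
      (h1 ξ u huP).1, d1_mult (T ξ) (hT ξ) u] at h3
    exact h3

theorem exists_common {Ξ : Type} [Fintype Ξ] {f : RM K} (hf : 2 ≤ f.deg) (s : Equiv.Perm Ξ)
    (c : Ξ → Chart K) (T : Ξ → RM k) (h : Ξ → k[X])
    (good : ∀ ξ, GoodRed R (f.cj (c ξ) (c (s ξ))) (h ξ) (T ξ)) (hT : ∀ ξ, (T ξ).deg = 1)
    (Per : Ξ → Set (OnePoint k))
    (h1 : ∀ ξ u, u ∉ Per ξ → spl (f.cj (c ξ) (c (s ξ))) (h ξ) (T ξ) u = 0 ∧ (T ξ).map u ∉ Per (s ξ))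
    (h2 : ∀ ξ, ∀ u ∈ Per ξ, (T ξ).map u ∈ Per (s ξ)) :
    ∃ z, ∀ ξ, dirR R ((c ξ).to z) ∈ Per ξ := by
  classical
  by_contra hcon
  push Not at hcon
  let J : OnePoint K → Finset Ξ := fun z => Finset.univ.filter fun ξ => dirR R ((c ξ).to z) ∉ Per ξ
  have hJpos : ∀ z, 1 ≤ (J z).card := by
    intro z
    obtain ⟨ξ, hξ⟩ := hcon z
    exact Finset.card_pos.2 ⟨ξ, Finset.mem_filter.2 ⟨Finset.mem_univ _, hξ⟩⟩
  -- choose `b` with `|J b|` minimal
  obtain ⟨b, hb⟩ : ∃ b, ∀ z, (J b).card ≤ (J z).card := by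
    have hne : (Set.range fun z => (J z).card).Nonempty := ⟨_, OnePoint.infty, rfl⟩
    obtain ⟨b, hb⟩ := Nat.sInf_mem hne
    refine ⟨b, fun z => ?_⟩
    have : sInf (Set.range fun z => (J z).card) ≤ (J z).card := Nat.sInf_le ⟨z, rfl⟩
    rw [← hb] at this
    exact this
  -- double counting
  have hJcard : ∀ z, (J z).card = ∑ ξ, if dirR R ((c ξ).to z) ∉ Per ξ then 1 else 0 := by
    intro z
    rw [Finset.card_filter]
  have hsum : ((f.fibM b).map fun z => (J z).card).sum = (J b).card := by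
    have e1 : ∀ M : Multiset (OnePoint K), (M.map fun z => (J z).card).sum =
        ∑ ξ, Multiset.card (M.filter fun z => dirR R ((c ξ).to z) ∉ Per ξ) := by
      intro M
      induction M using Multiset.induction_on with
      | empty => simp
      | cons a M ih =>
        rw [Multiset.map_cons, Multiset.sum_cons, ih, hJcard, ← Finset.sum_add_distrib]
        apply Finset.sum_congr rfl
        intro ξ _
        by_cases hξ : dirR R ((c ξ).to a) ∉ Per ξ
        · rw [if_pos hξ, Multiset.filter_cons_of_pos (p := fun z => dirR R ((c ξ).to z) ∉ Per ξ) M hξ,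
            Multiset.card_cons, add_comm]
        · rw [if_neg hξ, Multiset.filter_cons_of_neg (p := fun z => dirR R ((c ξ).to z) ∉ Per ξ) M hξ,
            zero_add]
    rw [e1, hJcard]
    rw [Finset.sum_congr rfl fun ξ _ => d1_card_fib (R := R) (by omega) s c T h good hT Per h1 h2 b ξ]
    exact Equiv.sum_comp s fun ξ => if dirR R ((c ξ).to b) ∉ Per ξ then 1 else 0
  have hlow : Multiset.card (f.fibM b) * (J b).card ≤ ((f.fibM b).map fun z => (J z).card).sum := by
    have := Multiset.card_nsmul_le_sum (s := (f.fibM b).map fun z => (J z).card) (a := (J b).card)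
      (by
        intro x hx
        obtain ⟨z, -, rfl⟩ := Multiset.mem_map.1 hx
        exact hb z)
    rw [Multiset.card_map, smul_eq_mul] at this
    exact this
  rw [f.card_fibM (by omega), hsum] at hlow
  have := hJpos b
  nlinarith

/-- the neighbourhoods of the type II point -/
def nbh (R : Residue K k) (c : Chart K) (Per : Set (OnePoint k)) (t : ℝ) : Set (OnePoint K) :=
  {z | dirR R (c.to z) ∈ Per → t < radR R (dirR R (c.to z)) (c.to z)}

/-- the sets of the points with given direction and small radius are open -/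
theorem d1_near {w₀ w : K} {u : OnePoint k} {t : ℝ} (ht1 : t ≤ 1)
    (hu : dirR R (w₀ : OnePoint K) = u) (hr : radR R u (w₀ : OnePoint K) < t) (hw : ‖w - w₀‖ < t) :
    dirR R (w : OnePoint K) = u ∧ radR R u (w : OnePoint K) < t := by
  by_cases h0 : ‖w₀‖ ≤ 1
  · rw [dirR_coe R h0] at hu
    subst hu
    have hw1 : ‖w‖ ≤ 1 := by
      have := IsUltrametricDist.norm_add_le_max (w - w₀) w₀
      rw [sub_add_cancel] at this
      exact this.trans (max_le (hw.le.trans ht1) h0)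
    have e : R.red w = R.red w₀ := (R.eq_iff hw1 h0).2 (hw.trans_le ht1)
    refine ⟨by rw [dirR_coe R hw1, e], ?_⟩
    rw [radR_coe] at hr ⊢
    have := IsUltrametricDist.norm_add_le_max (w - w₀) (w₀ - R.lift (R.red w₀))
    rw [sub_add_sub_cancel] at this
    exact this.trans_lt (max_lt hw hr)
  · have h0' := not_le.1 h0
    rw [dirR_coe_of_lt R h0'] at hu
    subst hu
    have e : ‖w‖ = ‖w₀‖ := by
      have h3 : ‖w - w₀‖ < ‖w₀‖ := (hw.trans_le ht1).trans h0'
      have := IsUltrametricDist.norm_add_eq_max_of_norm_ne_norm (x := w - w₀) (y := w₀) h3.ne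
      rw [sub_add_cancel, max_eq_right h3.le] at this
      exact this
    refine ⟨dirR_coe_of_lt R (by rw [e]; exact h0'), ?_⟩
    rw [radR_infty_coe] at hr ⊢
    rw [e]
    exact hr

theorem Chart.d1_coe_not_inv (c : Chart K) (h : c.inv = false) (z : K) :
    c.to (z : OnePoint K) = (((z - c.a) / c.ρ : K) : OnePoint K) := by
  classical
  change (if c.inv = true then
      (if z = c.a then OnePoint.infty else ((c.ρ / (z - c.a) : K) : OnePoint K))
      else (((z - c.a) / c.ρ : K) : OnePoint K)) = _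
  rw [h, if_neg (by simp)]

theorem Chart.d1_coe_inv (c : Chart K) (h : c.inv = true) {z : K} (hz : z ≠ c.a) :
    c.to (z : OnePoint K) = ((c.ρ / (z - c.a) : K) : OnePoint K) := by
  classical
  change (if c.inv = true then
      (if z = c.a then OnePoint.infty else ((c.ρ / (z - c.a) : K) : OnePoint K))
      else (((z - c.a) / c.ρ : K) : OnePoint K)) = _
  rw [h, if_pos rfl, if_neg hz]

theorem Chart.d1_a_inv (c : Chart K) (h : c.inv = true) :
    c.to (c.a : OnePoint K) = OnePoint.infty := by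
  classical
  change (if c.inv = true then
      (if c.a = c.a then OnePoint.infty else ((c.ρ / (c.a - c.a) : K) : OnePoint K))
      else (((c.a - c.a) / c.ρ : K) : OnePoint K)) = _
  rw [h, if_pos rfl, if_pos rfl]

theorem Chart.d1_infty_inv (c : Chart K) (h : c.inv = true) :
    c.to OnePoint.infty = ((0 : K) : OnePoint K) := by
  classical
  change (if c.inv = true then ((0 : K) : OnePoint K) else OnePoint.infty) = _
  rw [if_pos h]

theorem Chart.d1_infty_not_inv (c : Chart K) (h : c.inv = false) :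
    c.to OnePoint.infty = OnePoint.infty := by
  classical
  change (if c.inv = true then ((0 : K) : OnePoint K) else OnePoint.infty) = _
  rw [h, if_neg (by simp)]

theorem d1_open_coe (c : Chart K) {x₀ : K} {u : OnePoint k} {t : ℝ} (ht0 : 0 < t) (ht1 : t ≤ 1)
    (hu : dirR R (c.to (x₀ : OnePoint K)) = u) (hr : radR R u (c.to (x₀ : OnePoint K)) < t) :
    ∃ r : ℝ, 0 < r ∧ ∀ z : K, ‖z - x₀‖ < r →
      dirR R (c.to (z : OnePoint K)) = u ∧ radR R u (c.to (z : OnePoint K)) < t := by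
  have hρ : 0 < ‖c.ρ‖ := norm_pos_iff.2 c.hρ
  rcases Bool.eq_false_or_eq_true c.inv with hi | hi
  · by_cases hx : x₀ = c.a
    · subst hx
      rw [c.d1_a_inv hi] at hu hr
      rw [dirR_infty] at hu
      subst hu
      refine ⟨‖c.ρ‖ * t, by positivity, fun z hz => ?_⟩
      by_cases hz0 : z = c.a
      · subst hz0
        rw [c.d1_a_inv hi]
        exact ⟨dirR_infty R, hr⟩
      · rw [c.d1_coe_inv hi hz0]
        have hz1 : 0 < ‖z - c.a‖ := norm_pos_iff.2 (sub_ne_zero.2 hz0)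
        have e : ‖c.ρ / (z - c.a)‖⁻¹ = ‖z - c.a‖ / ‖c.ρ‖ := by
          rw [norm_div, inv_div]
        have e1 : ‖c.ρ / (z - c.a)‖⁻¹ < t := by
          rw [e, div_lt_iff₀ hρ, mul_comm]
          exact hz
        have e2 : 1 < ‖c.ρ / (z - c.a)‖ := by
          rw [norm_div, one_lt_div hz1]
          calc ‖z - c.a‖ < ‖c.ρ‖ * t := hz
            _ ≤ ‖c.ρ‖ := mul_le_of_le_one_right hρ.le ht1
        exact ⟨dirR_coe_of_lt R e2, by rw [radR_infty_coe]; exact e1⟩
    · rw [c.d1_coe_inv hi hx] at hu hr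
      have hx1 : 0 < ‖x₀ - c.a‖ := norm_pos_iff.2 (sub_ne_zero.2 hx)
      refine ⟨min ‖x₀ - c.a‖ (t * ‖x₀ - c.a‖ ^ 2 / ‖c.ρ‖), by positivity, fun z hz => ?_⟩
      have hz1 : ‖z - x₀‖ < ‖x₀ - c.a‖ := hz.trans_le (min_le_left _ _)
      have hz2 : ‖z - x₀‖ < t * ‖x₀ - c.a‖ ^ 2 / ‖c.ρ‖ := hz.trans_le (min_le_right _ _)
      have e : ‖z - c.a‖ = ‖x₀ - c.a‖ := by
        have := IsUltrametricDist.norm_add_eq_max_of_norm_ne_norm (x := z - x₀) (y := x₀ - c.a) hz1.ne
        rw [sub_add_sub_cancel, max_eq_right hz1.le] at this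
        exact this
      have hz0 : z ≠ c.a := by
        rintro rfl
        rw [sub_self, norm_zero] at e
        exact hx1.ne e
      rw [c.d1_coe_inv hi hz0]
      apply d1_near ht1 hu hr
      have e3 : c.ρ / (z - c.a) - c.ρ / (x₀ - c.a) = - (c.ρ * (z - x₀)) / ((z - c.a) * (x₀ - c.a)) := by
        rw [div_sub_div _ _ (sub_ne_zero.2 hz0) (sub_ne_zero.2 hx)]
        congr 1
        ring
      rw [e3, norm_div, norm_neg, norm_mul, norm_mul, e, div_lt_iff₀ (by positivity)]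
      rw [lt_div_iff₀ hρ] at hz2
      nlinarith
  · rw [c.d1_coe_not_inv hi] at hu hr
    refine ⟨‖c.ρ‖ * t, by positivity, fun z hz => ?_⟩
    rw [c.d1_coe_not_inv hi]
    apply d1_near ht1 hu hr
    rw [← sub_div, sub_sub_sub_cancel_right, norm_div, div_lt_iff₀ hρ, mul_comm]
    exact hz

theorem d1_open_infty (c : Chart K) {u : OnePoint k} {t : ℝ} (ht0 : 0 < t) (ht1 : t ≤ 1)
    (hu : dirR R (c.to OnePoint.infty) = u) (hr : radR R u (c.to OnePoint.infty) < t) :
    ∃ M : ℝ, 0 < M ∧ ∀ z : K, M < ‖z‖ →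
      dirR R (c.to (z : OnePoint K)) = u ∧ radR R u (c.to (z : OnePoint K)) < t := by
  have hρ : 0 < ‖c.ρ‖ := norm_pos_iff.2 c.hρ
  have hM : 0 < max ‖c.a‖ (‖c.ρ‖ / t) := lt_max_of_lt_right (by positivity)
  have hz3 : ∀ z : K, max ‖c.a‖ (‖c.ρ‖ / t) < ‖z‖ → ‖z - c.a‖ = ‖z‖ ∧ ‖c.ρ‖ / ‖z‖ < t := by
    intro z hz
    have hz1 : ‖c.a‖ < ‖z‖ := (le_max_left _ _).trans_lt hz
    have hz2 : ‖c.ρ‖ / t < ‖z‖ := (le_max_right _ _).trans_lt hz
    constructor
    · have := IsUltrametricDist.norm_add_eq_max_of_norm_ne_norm (x := z) (y := -c.a)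
        (by rw [norm_neg]; exact hz1.ne')
      rw [norm_neg, max_eq_left hz1.le, ← sub_eq_add_neg] at this
      exact this
    · rw [div_lt_iff₀ ht0] at hz2
      rw [div_lt_iff₀ (hM.trans hz), mul_comm]
      exact hz2
  refine ⟨_, hM, fun z hz => ?_⟩
  obtain ⟨e1, e2⟩ := hz3 z hz
  have hz0 : 0 < ‖z‖ := hM.trans hz
  have hza : z ≠ c.a := by
    rintro rfl
    rw [sub_self, norm_zero] at e1
    exact hz0.ne e1
  rcases Bool.eq_false_or_eq_true c.inv with hi | hi
  · rw [c.d1_infty_inv hi] at hu hr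
    rw [c.d1_coe_inv hi hza]
    apply d1_near ht1 hu hr
    rw [sub_zero, norm_div, e1]
    exact e2
  · rw [c.d1_infty_not_inv hi, dirR_infty] at hu
    subst hu
    rw [c.d1_coe_not_inv hi]
    have e3 : ‖(z - c.a) / c.ρ‖⁻¹ < t := by
      rw [norm_div, inv_div, e1]
      exact e2
    have e4 : 1 < ‖(z - c.a) / c.ρ‖ := by
      rw [norm_div, e1, one_lt_div hρ]
      have : ‖c.ρ‖ / ‖z‖ < 1 := e2.trans_le ht1
      rwa [div_lt_one hz0] at this
    exact ⟨dirR_coe_of_lt R e4, by rw [radR_infty_coe]; exact e3⟩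

theorem d1_exists_disc {Ξ : Type} [Fintype Ξ] (c : Ξ → Chart K) (z₀ : OnePoint K) {t : ℝ} (ht0 : 0 < t)
    (ht1 : t ≤ 1) (hr : ∀ ξ, radR R (dirR R ((c ξ).to z₀)) ((c ξ).to z₀) < t) :
    ∃ (a : K) (r : ℝ), 0 < r ∧ ∀ z : K, ‖z - a‖ < r → ∀ ξ,
      dirR R ((c ξ).to (z : OnePoint K)) = dirR R ((c ξ).to z₀) ∧
      radR R (dirR R ((c ξ).to z₀)) ((c ξ).to (z : OnePoint K)) < t := by
  classical
  cases z₀ using OnePoint.rec with
  | infty =>
    have h1 := fun ξ => d1_open_infty (R := R) (c ξ) ht0 ht1 rfl (hr ξ)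
    choose M hM h2 using h1
    obtain ⟨a, ha⟩ := NormedField.exists_lt_norm K (∑ ξ, M ξ)
    have hsum : 0 ≤ ∑ ξ, M ξ := Finset.sum_nonneg fun ξ _ => (hM ξ).le
    refine ⟨a, ‖a‖, hsum.trans_lt ha, fun z hz ξ => h2 ξ z ?_⟩
    have e : ‖z‖ = ‖a‖ := by
      have := IsUltrametricDist.norm_add_eq_max_of_norm_ne_norm (x := z - a) (y := a) hz.ne
      rw [sub_add_cancel, max_eq_right hz.le] at this
      exact this
    rw [e]
    exact (Finset.single_le_sum (fun ξ _ => (hM ξ).le) (Finset.mem_univ ξ)).trans_lt ha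
  | coe x =>
    have h1 := fun ξ => d1_open_coe (R := R) (c ξ) ht0 ht1 rfl (hr ξ)
    choose r hr0 h2 using h1
    rcases isEmpty_or_nonempty Ξ with hE | hE
    · exact ⟨0, 1, one_pos, fun z _ ξ => (hE.false ξ).elim⟩
    · obtain ⟨ξ₀, -, hξ₀⟩ := Finset.exists_min_image Finset.univ r Finset.univ_nonempty
      exact ⟨x, r ξ₀, hr0 ξ₀, fun z hz ξ => h2 ξ z (hz.trans_le (hξ₀ ξ (Finset.mem_univ _)))⟩

theorem exists_inv {Ξ : Type} [Fintype Ξ] {f : RM K} (hf : 2 ≤ f.deg) (s : Equiv.Perm Ξ)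
    (c : Ξ → Chart K) (T : Ξ → RM k) (h : Ξ → k[X])
    (good : ∀ ξ, GoodRed R (f.cj (c ξ) (c (s ξ))) (h ξ) (T ξ)) (hT : ∀ ξ, (T ξ).deg = 1)
    (Per : Ξ → Set (OnePoint k)) (hfin : ∀ ξ, (Per ξ).Finite)
    (h1 : ∀ ξ u, u ∉ Per ξ → spl (f.cj (c ξ) (c (s ξ))) (h ξ) (T ξ) u = 0 ∧ (T ξ).map u ∉ Per (s ξ))
    (h2 : ∀ ξ, ∀ u ∈ Per ξ, (T ξ).map u ∈ Per (s ξ)) :
    ∃ t : ℝ, 0 < t ∧ t < 1 ∧ (∀ ξ, Set.MapsTo f.map (nbh R (c ξ) (Per ξ) t) (nbh R (c (s ξ)) (Per (s ξ)) t)) ∧
      ∃ (a : K) (r : ℝ), 0 < r ∧ ∀ z : K, ‖z - a‖ < r → ∀ ξ, (z : OnePoint K) ∉ nbh R (c ξ) (Per ξ) t := by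
  classical
  obtain ⟨z₀, hz₀⟩ := exists_common hf s c T h good hT Per h1 h2
  -- the thin annuli
  have h3 := fun (ξ : Ξ) (u : OnePoint k) =>
    thin (good ξ) (u := u) (d1_mult (T ξ) (hT ξ) u)
  choose t' ht' h4 using h3
  -- a common bound
  have hS : ∃ t : ℝ, 0 < t ∧ t < 1 ∧ (∀ ξ, ∀ u ∈ Per ξ, t' ξ u < t) ∧
      ∀ ξ, radR R (dirR R ((c ξ).to z₀)) ((c ξ).to z₀) < t := by
    let F1 : Finset ℝ := Finset.univ.biUnion fun ξ => (hfin ξ).toFinset.image (t' ξ)
    let F2 : Finset ℝ := Finset.univ.image fun ξ => radR R (dirR R ((c ξ).to z₀)) ((c ξ).to z₀)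
    let F : Finset ℝ := insert 0 (F1 ∪ F2)
    have hF : ∀ x ∈ F, x < 1 := by
      intro x hx
      rcases Finset.mem_insert.1 hx with rfl | hx
      · exact one_pos
      rcases Finset.mem_union.1 hx with hx | hx
      · obtain ⟨ξ, -, hx⟩ := Finset.mem_biUnion.1 hx
        obtain ⟨u, -, rfl⟩ := Finset.mem_image.1 hx
        exact ht' ξ u
      · obtain ⟨ξ, -, rfl⟩ := Finset.mem_image.1 hx
        exact radR_lt_one R rfl
    have hne : F.Nonempty := ⟨0, Finset.mem_insert_self _ _⟩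
    have hm := hF _ (F.max'_mem hne)
    obtain ⟨t, ht1, ht2⟩ := exists_between hm
    refine ⟨t, (F.le_max' 0 (Finset.mem_insert_self _ _)).trans_lt ht1, ht2, ?_, ?_⟩
    · intro ξ u hu
      refine (F.le_max' _ ?_).trans_lt ht1
      apply Finset.mem_insert_of_mem
      apply Finset.mem_union_left
      exact Finset.mem_biUnion.2 ⟨ξ, Finset.mem_univ _, Finset.mem_image.2 ⟨u, (hfin ξ).mem_toFinset.2 hu, rfl⟩⟩
    · intro ξ
      refine (F.le_max' _ ?_).trans_lt ht1
      apply Finset.mem_insert_of_mem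
      apply Finset.mem_union_right
      exact Finset.mem_image.2 ⟨ξ, Finset.mem_univ _, rfl⟩
  obtain ⟨t, ht0, ht1, htu, htr⟩ := hS
  refine ⟨t, ht0, ht1, ?_, ?_⟩
  · intro ξ z hz
    by_cases hu : dirR R ((c ξ).to z) ∈ Per ξ
    · have hz1 : t < radR R (dirR R ((c ξ).to z)) ((c ξ).to z) := hz hu
      obtain ⟨h5, h6⟩ := h4 ξ _ ((c ξ).to z) rfl ((htu ξ _ hu).trans hz1)
      rw [f.cj_map (by omega) (c ξ) (c (s ξ)) z] at h5 h6
      intro _
      rw [h5, h6]
      exact hz1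
    · have h5 := follow (good ξ) (z := (c ξ).to z) (h1 ξ _ hu).1
      rw [f.cj_map (by omega) (c ξ) (c (s ξ)) z] at h5
      intro h6
      rw [h5] at h6
      exact absurd h6 (h1 ξ _ hu).2
  · obtain ⟨a, r, hr, h5⟩ := d1_exists_disc c z₀ ht0 ht1.le htr
    refine ⟨a, r, hr, fun z hz ξ hmem => ?_⟩
    obtain ⟨e1, e2⟩ := h5 z hz ξ
    have h6 : dirR R ((c ξ).to (z : OnePoint K)) ∈ Per ξ := by
      rw [e1]
      exact hz₀ ξ
    have h7 := hmem h6
    rw [e1] at h7
    exact absurd h7 (not_lt.2 e2.le)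

end FS16
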