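import Pool.Agent.FS16.NStep

/-!
# The multipliers at two ends of a component

MODULE N-ENDS.  `S : Step R f ι`, `x ≠ y` in `ι`, such that `v x`, `v y`, `v' x`, `v' y` are finite.  Then the
product of the derivatives of `T x`, `T y` at `v x`, `v y` is the reduction of
`tw (c' x) (c' y) / tw (c x) (c y)`.

Proof.  The pole of `c x` is in the direction `∞ ≠ v x` at `c x`, so it is in the hole `x`, and the pole of
`c y` is in the hole `y`; the poles are different.  Let `P = c x (pole (c y))`, `P₁ = c y (pole (c x))` as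
in `tw_spec`; `P` is finite with residue `v x` (the hole `y` is in the direction `v x` at `c x`), `P₁` has
residue `v y`.  Similarly `P'`, `P₁'` for `c' x`, `c' y`.
Let `g = f.cj (c x) (c' x)`, and `G w = (g.ev w - P') / (w - P)` for `w` in the image of `U` under `c x` (for
`z ∈ U` the coordinate `w = c x z` is finite and `f z ∈ U'` has finite coordinate).  Up to a constant
`G w = ∏ (w - a) / ∏ (w - b)`, where `a` runs over the finite elements of `Z = g.fibM P' + {∞}` and `b` over
those of `Q = g.fibM ∞ + {P}`: the roots of `g.p - P' g.q` and of `g.q`.  So, for `w`, `w'` in the image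
of `U`, `G w / G w' = ∏_Z cr w w' a / ∏_Q cr w w' b`.
The holes, in the coordinate of `c x`: the hole `x` is `{‖w - v̄‖ ≥ 1} ∪ {∞}` (`v̄` a lift of `v x`), the other
holes are discs by `hole_disk`; they are disjoint.  All elements of `Z` and `Q` are in holes (`S.zero`
for the poles of `c' y`, `c' x`, which are not in `U'`).  Every hole contains as many elements of `Z` as
of `Q`:
* hole `i ≠ x, y`: `pole (c' x)` and `pole (c' y)` are both in the direction `v' i` at `c' i`, so by `dircount`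
  both fibres have `deg - spl - mult` elements in the hole;
* hole `x`: `pole (c' y)` is in the direction `v' x` and `pole (c' x)` is not: `deg - spl - 1`
  (`mult_one`) and `deg - spl`, and `∞` is an element of `Z` in the hole `x`, `P` is in the hole `y`;
* hole `y`: `deg - spl` and `deg - spl - 1`, and `P`.
So by `cr_prod`, `‖G w / G w' - 1‖ < 1`.
Take `z₁ ∈ U` near the boundary of the direction `v x` at `c x` (`thin_subset`), `w₁ = c x z₁`: by `thin_der`
for `g` and the lifts `P`, `P'`: `‖G w₁‖ = 1`, and its reduction is `T_x.der v_x`.  Take `z₂ ∈ U` near the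
boundary of the direction `v y` at `c y`: the reduction of `(c' y (f z₂) - P₁') / (c y z₂ - P₁)` is
`T_y.der v_y`, and by `tw_spec` this is `(tw'/tw) / G (c x z₂)`.  Hence the result.
(`der v_x = wr / q²`; `T.q ≠ 0` at `v x` because `v' x` is finite, and `T.wr ≠ 0` by `mult_one`.)
Points near the boundary exist: the norms of `K` are dense, `K` is algebraically closed and
nontrivially normed.
-/

open Polynomial

noncomputable section

namespace FS16

universe u

namespace NE

theorem exists_norm_near (K : Type u) [NontriviallyNormedField K] [IsAlgClosed K] {t : ℝ}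
    (ht : t < 1) : ∃ α : K, t < ‖α‖ ∧ ‖α‖ < 1 ∧ α ≠ 0 := by
  obtain ⟨π, h0, h1⟩ := NormedField.exists_norm_lt_one K
  have ht' : max t 0 < 1 := max_lt ht one_pos
  obtain ⟨n, hn⟩ := exists_pow_lt_of_lt_one h0 ht'
  have hn0 : 0 < n := by
    rcases Nat.eq_zero_or_pos n with h | h
    · rw [h, pow_zero] at hn
      linarith
    · exact h
  obtain ⟨α, hα⟩ := IsAlgClosed.exists_pow_nat_eq π hn0
  have hα' : ‖α‖ ^ n = ‖π‖ := by rw [← norm_pow, hα]
  refine ⟨α, ?_, ?_, ?_⟩
  · by_contra hcon
    have h2 : ‖α‖ ≤ max t 0 := (not_lt.1 hcon).trans (le_max_left _ _)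
    have h3 := pow_le_pow_left₀ (norm_nonneg α) h2 n
    rw [hα'] at h3
    linarith
  · by_contra hcon
    have h3 := one_le_pow₀ (not_lt.1 hcon) (n := n)
    rw [hα'] at h3
    linarith
  · rintro rfl
    rw [zero_pow hn0.ne'] at hα
    rw [← hα] at h0
    simp at h0

section

variable {K k : Type u} [NormedField K] [Field k] {R : Residue K k} [IsUltrametricDist K]

theorem norm_sub_le' {a b : K} {r : ℝ} (ha : ‖a‖ ≤ r) (hb : ‖b‖ ≤ r) : ‖a - b‖ ≤ r := by
  have := IsUltrametricDist.norm_add_le_max a (-b)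
  rw [norm_neg, ← sub_eq_add_neg] at this
  exact this.trans (max_le ha hb)

/-- the direction of a finite point -/
theorem dir_iff {a w : K} {v : k} (ha : ‖a‖ ≤ 1) (hav : R.red a = v) :
    dirR R (w : OnePoint K) = (v : OnePoint k) ↔ ‖w - a‖ < 1 := by
  constructor
  · intro h
    obtain ⟨x, h1, h2, h3⟩ := dirR_eq_coe R h
    have h4 : w = x := OnePoint.coe_injective h1
    subst h4
    rw [← R.eq_iff h2 ha, h3, hav]
  · intro h
    have h1 : ‖w‖ ≤ 1 := by
      have h2 : w = (w - a) + a := by ring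
      rw [h2]
      exact (IsUltrametricDist.norm_add_le_max _ _).trans (max_le h.le ha)
    rw [dirR_coe R h1, (R.eq_iff h1 ha).2 h, hav]

theorem coe_sub_mem {a b w : K} (h : ‖a - b‖ < 1) : ‖w - a‖ < 1 ↔ ‖w - b‖ < 1 := by
  constructor
  · intro h1
    have h2 : w - b = (w - a) + (a - b) := by ring
    rw [h2]
    exact lt_of_le_of_lt (IsUltrametricDist.norm_add_le_max _ _) (max_lt h1 h)
  · intro h1
    have h2 : w - a = (w - b) - (a - b) := by ring
    rw [h2, sub_eq_add_neg]
    refine lt_of_le_of_lt (IsUltrametricDist.norm_add_le_max _ _) (max_lt h1 ?_)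
    rwa [norm_neg]

end

section

variable {K : Type u} [NormedField K]

theorem cr_infty (x x' : K) : cr x x' OnePoint.infty = 1 := by
  unfold cr
  rw [if_pos rfl]

theorem cr_coe (x x' a : K) : cr x x' (a : OnePoint K) = (x - a) / (x' - a) := by
  unfold cr
  rw [if_neg (OnePoint.coe_ne_infty a)]
  rfl

theorem fibM_coe' (T : RM K) (w : K) : T.fibM (w : OnePoint K) =
    (T.p - C w * T.q).roots.map (fun z : K => (z : OnePoint K)) +
      Multiset.replicate (T.deg - (T.p - C w * T.q).natDegree) OnePoint.infty := by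
  rw [RM.fibM_coe]
  congr 1
  change Multiset.map (fun z => z) (Multiset.bind (T.p - C w * T.q).roots
    (fun a => {((a : K) : OnePoint K)})) = _
  rw [Multiset.bind_singleton, Multiset.map_id']

theorem fibM_infty' (T : RM K) : T.fibM OnePoint.infty =
    T.q.roots.map (fun z : K => (z : OnePoint K)) +
      Multiset.replicate (T.deg - T.q.natDegree) OnePoint.infty := by
  rw [RM.fibM_infty]
  congr 1
  change Multiset.map (fun z => z) (Multiset.bind T.q.roots
    (fun a => {((a : K) : OnePoint K)})) = _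
  rw [Multiset.bind_singleton, Multiset.map_id']

theorem prod_cr [IsAlgClosed K] {N : K[X]} (hN : N ≠ 0) (w w' : K) (n : ℕ) :
    (((N.roots.map (fun z : K => (z : OnePoint K)) +
      Multiset.replicate n OnePoint.infty : Multiset (OnePoint K))).map (cr w w')).prod =
      N.eval w / N.eval w' := by
  rw [Multiset.map_add, Multiset.prod_add, Multiset.map_replicate, Multiset.prod_replicate,
    cr_infty, one_pow, mul_one, Multiset.map_map]
  have h1 : (cr w w' ∘ fun z : K => (z : OnePoint K)) = fun z => (w - z) / (w' - z) := by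
    funext z
    exact cr_coe w w' z
  rw [h1, Multiset.prod_map_div]
  have hs := IsAlgClosed.splits N
  rw [hs.eval_eq_prod_roots w, hs.eval_eq_prod_roots w']
  rw [mul_div_mul_left _ _ (leadingCoeff_ne_zero.2 hN)]

end

end NE


namespace NE

set_option linter.unusedSectionVars false

variable {K k : Type u} [NontriviallyNormedField K] [Field k] {R : Residue K k}
  [IsUltrametricDist K] [IsAlgClosed K] [IsAlgClosed k] {f : RM K} {ι : Type} [Fintype ι]

/-- the component -/
def InU (S : Step R f ι) (z : OnePoint K) : Prop := ∀ i, dirR R ((S.c i).to z) = S.v i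

/-- the image component -/
def InU' (S : Step R f ι) (z : OnePoint K) : Prop := ∀ i, dirR R ((S.c' i).to z) = S.v' i

theorem not_mem_U (S : Step R f ι) {b z : OnePoint K} (hb : ¬ InU' S b) (hz : z ∈ f.fibM b) :
    ∃ i, dirR R ((S.c i).to z) ≠ S.v i := by
  by_contra hcon
  push Not at hcon
  have h := (@Multiset.filter_eq_nil _ _ (fun _ => Classical.propDecidable _) _).1
    (Multiset.card_eq_zero.1 (S.zero b hb))
  exact h z hz hcon

theorem map_mem (S : Step R f ι) (i : ι) {z : OnePoint K} (hz : InU S z) : InU' S (f.map z) := by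
  by_contra hcon
  obtain ⟨j, hj⟩ := not_mem_U S hcon ((f.mem_fibM (S.one_le_deg i) _ _).2 rfl)
  exact hj (hz j)

open Classical in
theorem hole_card (S : Step R f ι) (i : ι) (b : OnePoint K) :
    Multiset.card ((f.fibM b).filter fun z => dirR R ((S.c i).to z) ≠ S.v i) +
      spl (f.cj (S.c i) (S.c' i)) (S.h i) (S.T i) (S.v i) +
      (if dirR R ((S.c' i).to b) = S.v' i then 1 else 0) = f.deg := by
  have hd := S.one_le_deg i
  have h1 := dircount (S.good i) ((S.c' i).to b) (S.v i)
  rw [f.cj_fibM hd, Multiset.filter_map, Multiset.card_map, S.Tv, S.mult_one i] at h1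
  have h2 := congrArg Multiset.card (Multiset.filter_add_not
    (fun z => dirR R ((S.c i).to z) = S.v i) (f.fibM b))
  rw [Multiset.card_add, f.card_fibM hd] at h2
  have h3 : (if S.v' i = dirR R ((S.c' i).to b) then 1 else 0) =
      (if dirR R ((S.c' i).to b) = S.v' i then 1 else 0) := by
    by_cases h : dirR R ((S.c' i).to b) = S.v' i
    · rw [if_pos h, if_pos h.symm]
    · rw [if_neg h, if_neg (fun h' => h h'.symm)]
  rw [h3] at h1
  simp only [Function.comp_def] at h1
  rw [h1] at h2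
  simp only [ne_eq]
  omega

theorem pole_self (S : Step R f ι) {i : ι} (hi : S.v i ≠ OnePoint.infty) :
    dirR R ((S.c i).to (S.c i).pole) ≠ S.v i := by
  rw [Chart.to_pole, dirR_infty]
  exact hi.symm

theorem pole_other (S : Step R f ι) {i j : ι} (hi : S.v i ≠ OnePoint.infty) (hij : i ≠ j) :
    dirR R ((S.c j).to (S.c i).pole) = S.v j := S.disj i j hij _ (pole_self S hi)

theorem pole_self' (S : Step R f ι) {i : ι} (hi : S.v' i ≠ OnePoint.infty) :
    dirR R ((S.c' i).to (S.c' i).pole) ≠ S.v' i := by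
  rw [Chart.to_pole, dirR_infty]
  exact hi.symm

theorem pole_other' (S : Step R f ι) {i j : ι} (hi : S.v' i ≠ OnePoint.infty) (hij : i ≠ j) :
    dirR R ((S.c' j).to (S.c' i).pole) = S.v' j := S.disj' i j hij _ (pole_self' S hi)

/-- the product formula -/
theorem ratio (S : Step R f ι) {x y : ι} (hxy : x ≠ y) (hx : S.v x ≠ OnePoint.infty)
    (hy : S.v y ≠ OnePoint.infty) (hx' : S.v' x ≠ OnePoint.infty) (hy' : S.v' y ≠ OnePoint.infty)
    {P P' : K} (hP : (S.c x).to (S.c y).pole = (P : OnePoint K))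
    (hP' : (S.c' x).to (S.c' y).pole = (P' : OnePoint K)) {z1 z2 : OnePoint K}
    (h1 : InU S z1) (h2 : InU S z2) {w1 w2 : K} (hw1 : (S.c x).to z1 = (w1 : OnePoint K))
    (hw2 : (S.c x).to z2 = (w2 : OnePoint K)) :
    ‖(((f.cj (S.c x) (S.c' x)).p - C P' * (f.cj (S.c x) (S.c' x)).q).eval w1 /
      ((f.cj (S.c x) (S.c' x)).p - C P' * (f.cj (S.c x) (S.c' x)).q).eval w2) /
      (((f.cj (S.c x) (S.c' x)).q.eval w1 / (f.cj (S.c x) (S.c' x)).q.eval w2) *
        ((w1 - P) / (w2 - P))) - 1‖ < 1 := by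
  classical
  have hd := S.one_le_deg x
  obtain ⟨g, hg⟩ : ∃ g : RM K, g = f.cj (S.c x) (S.c' x) := ⟨_, rfl⟩
  rw [← hg]
  have hgd : 1 ≤ g.deg := by rw [hg, f.cj_deg]; exact hd
  obtain ⟨vx, hvx⟩ : ∃ vx : k, S.v x = (vx : OnePoint k) := ⟨_, (coe_toFin hx).symm⟩
  -- fibres
  have hZ0 : g.fibM (P' : OnePoint K) = (f.fibM (S.c' y).pole).map (S.c x).to := by
    rw [hg, ← hP', f.cj_fibM hd]
  have hQ0 : g.fibM OnePoint.infty = (f.fibM (S.c' x).pole).map (S.c x).to := by
    rw [hg, ← (S.c' x).to_pole, f.cj_fibM hd]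
  have hb1 : ¬ InU' S (S.c' y).pole := fun h => pole_self' S hy' (h y)
  have hb2 : ¬ InU' S (S.c' x).pole := fun h => pole_self' S hx' (h x)
  -- the holes
  obtain ⟨V, hV⟩ : ∃ V : ι → Set (OnePoint K), ∀ i u, u ∈ V i ↔
      dirR R ((S.c i).to ((S.c x).fro u)) ≠ S.v i :=
    ⟨fun i => {u | dirR R ((S.c i).to ((S.c x).fro u)) ≠ S.v i}, fun _ _ => Iff.rfl⟩
  have hVto : ∀ i z, (S.c x).to z ∈ V i ↔ dirR R ((S.c i).to z) ≠ S.v i := by
    intro i z
    rw [hV, Chart.fro_to]
  have hVform : ∀ i, (∃ (a : K) (r : ℝ), V i = {z | ∃ x : K, z = (x : OnePoint K) ∧ ‖x - a‖ ≤ r}) ∨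
      ∃ (a : K) (r : ℝ), V i = {z | ∀ x : K, z = (x : OnePoint K) → r ≤ ‖x - a‖} := by
    intro i
    by_cases hi : i = x
    · right
      subst hi
      refine ⟨R.lift vx, 1, ?_⟩
      ext u
      rw [hV, Chart.to_fro, hvx]
      change _ ↔ ∀ x : K, u = (x : OnePoint K) → 1 ≤ ‖x - R.lift vx‖
      cases u using OnePoint.rec with
      | infty =>
        rw [dirR_infty]
        constructor
        · intro _ x hx
          exact absurd hx (OnePoint.infty_ne_coe x)
        · intro _
          exact OnePoint.infty_ne_coe vx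
      | coe u =>
        rw [ne_eq, dir_iff (R.norm_lift vx) (R.red_lift vx), not_lt]
        constructor
        · intro h x hx
          rw [← OnePoint.coe_injective hx]
          exact h
        · intro h
          exact h u rfl
    · left
      obtain ⟨a, r, _, _, _, _, h5⟩ := hole_disk R (c := S.c x) (c₁ := S.c i) (v := vx)
        (v₁ := S.v i) (fun z hz => by rw [← hvx]; exact S.disj i x hi z hz)
      refine ⟨a, r, ?_⟩
      ext u
      rw [hV, h5, Chart.to_fro]
      rfl
  have hdisj : ∀ i j, i ≠ j → Disjoint (V i) (V j) := by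
    intro i j hij
    rw [Set.disjoint_left]
    intro u hu hu'
    rw [hV] at hu hu'
    exact hu' (S.disj i j hij _ hu)
  have hcount : ∀ (b : OnePoint K) (i : ι),
      Multiset.card (((f.fibM b).map (S.c x).to).filter (· ∈ V i)) =
        Multiset.card ((f.fibM b).filter fun z => dirR R ((S.c i).to z) ≠ S.v i) := by
    intro b i
    rw [Multiset.filter_map, Multiset.card_map]
    congr 1
    apply Multiset.filter_congr
    intro z _
    exact hVto i z
  have hinf : ∀ i, (OnePoint.infty : OnePoint K) ∈ V i ↔ i = x := by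
    intro i
    rw [← (S.c x).to_pole, hVto]
    constructor
    · intro h
      by_contra hcon
      exact h (pole_other S hx (Ne.symm hcon))
    · rintro rfl
      exact pole_self S hx
  have hPV : ∀ i, ((P : K) : OnePoint K) ∈ V i ↔ i = y := by
    intro i
    rw [← hP, hVto]
    constructor
    · intro h
      by_contra hcon
      exact h (pole_other S hy (Ne.symm hcon))
    · rintro rfl
      exact pole_self S hy
  have hmain := cr_prod V hVform hdisj (g.fibM (P' : OnePoint K) + {OnePoint.infty})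
    (g.fibM OnePoint.infty + {(P : OnePoint K)}) (by
      intro z hz
      rw [Multiset.mem_add, hZ0, Multiset.mem_map, Multiset.mem_singleton] at hz
      rcases hz with ⟨b, hb, rfl⟩ | rfl
      · obtain ⟨i, hi⟩ := not_mem_U S hb1 hb
        exact ⟨i, (hVto i b).2 hi⟩
      · exact ⟨x, (hinf x).2 rfl⟩) (by
      intro z hz
      rw [Multiset.mem_add, hQ0, Multiset.mem_map, Multiset.mem_singleton] at hz
      rcases hz with ⟨b, hb, rfl⟩ | rfl
      · obtain ⟨i, hi⟩ := not_mem_U S hb2 hb
        exact ⟨i, (hVto i b).2 hi⟩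
      · exact ⟨y, (hPV y).2 rfl⟩) (by
      intro i
      rw [Multiset.filter_add, Multiset.filter_add, Multiset.card_add, Multiset.card_add,
        Multiset.filter_singleton, Multiset.filter_singleton, hZ0, hQ0, hcount, hcount]
      have c1 := hole_card S i (S.c' y).pole
      have c2 := hole_card S i (S.c' x).pole
      by_cases hix : i = x
      · subst hix
        have e1 : dirR R ((S.c' i).to (S.c' y).pole) = S.v' i := pole_other' S hy' (Ne.symm hxy)
        rw [if_pos e1] at c1
        rw [if_neg (pole_self' S hx')] at c2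
        rw [if_pos ((hinf i).2 rfl), if_neg (fun h => hxy ((hPV i).1 h))]
        simp only [Multiset.card_singleton, Multiset.empty_eq_zero, Multiset.card_zero]
        omega
      · by_cases hiy : i = y
        · subst hiy
          have e1 : dirR R ((S.c' i).to (S.c' x).pole) = S.v' i := pole_other' S hx' hxy
          rw [if_pos e1] at c2
          rw [if_neg (pole_self' S hy')] at c1
          rw [if_pos ((hPV i).2 rfl), if_neg (fun h => hix ((hinf i).1 h))]
          simp only [Multiset.card_singleton, Multiset.empty_eq_zero, Multiset.card_zero]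
          omega
        · have e1 : dirR R ((S.c' i).to (S.c' x).pole) = S.v' i :=
            pole_other' S hx' (Ne.symm hix)
          have e2 : dirR R ((S.c' i).to (S.c' y).pole) = S.v' i :=
            pole_other' S hy' (Ne.symm hiy)
          rw [if_pos e1] at c2
          rw [if_pos e2] at c1
          rw [if_neg (fun h => hiy ((hPV i).1 h)), if_neg (fun h => hix ((hinf i).1 h))]
          simp only [Multiset.empty_eq_zero, Multiset.card_zero]
          omega) (x := w1) (x' := w2) (by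
      intro i hi
      rw [← hw1, hVto] at hi
      exact hi (h1 i)) (by
      intro i hi
      rw [← hw2, hVto] at hi
      exact hi (h2 i))
  obtain ⟨_, _, hr⟩ := hmain
  rw [Multiset.map_add, Multiset.prod_add, Multiset.map_singleton, Multiset.prod_singleton,
    cr_infty, mul_one, Multiset.map_add, Multiset.prod_add, Multiset.map_singleton,
    Multiset.prod_singleton, cr_coe, fibM_coe', fibM_infty',
    prod_cr (CR.fib_ne_zero g hgd P')] at hr
  have hq0 : g.q ≠ 0 := by
    intro h0
    -- then `f` maps everything to infinity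
    have h3 : g.map (w1 : OnePoint K) = OnePoint.infty := g.map_pole (by rw [h0]; simp)
    have h4 : (w1 : OnePoint K) ∈ g.fibM OnePoint.infty := (g.mem_fibM hgd _ _).2 h3
    rw [hQ0, ← hw1, Multiset.mem_map_of_injective (S.c x).to_injective] at h4
    obtain ⟨i, hi⟩ := not_mem_U S hb2 h4
    exact hi (h1 i)
  rw [prod_cr hq0] at hr
  exact hr

/-- the data of a point of the component -/
theorem pt_data (S : Step R f ι) {x y : ι} (hx : S.v x ≠ OnePoint.infty)
    (hy : S.v y ≠ OnePoint.infty) (hx' : S.v' x ≠ OnePoint.infty) (hy' : S.v' y ≠ OnePoint.infty)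
    {z : OnePoint K} (hz : InU S z) : ∃ w s w' s' : K, (S.c x).to z = (w : OnePoint K) ∧
      (S.c y).to z = (s : OnePoint K) ∧ (S.c' x).to (f.map z) = (w' : OnePoint K) ∧
      (S.c' y).to (f.map z) = (s' : OnePoint K) ∧
      (f.cj (S.c x) (S.c' x)).q.eval w ≠ 0 ∧ (f.cj (S.c x) (S.c' x)).ev w = w' ∧
      (f.cj (S.c y) (S.c' y)).q.eval s ≠ 0 ∧ (f.cj (S.c y) (S.c' y)).ev s = s' := by
  have hd := S.one_le_deg x
  have hz' := map_mem S x hz
  have key : ∀ {u : OnePoint K} {v : OnePoint k}, dirR R u = v → v ≠ OnePoint.infty →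
      ∃ w : K, u = (w : OnePoint K) := by
    intro u v h1 h2
    cases u using OnePoint.rec with
    | infty => rw [dirR_infty] at h1; exact absurd h1.symm h2
    | coe u => exact ⟨u, rfl⟩
  obtain ⟨w, hw⟩ := key (hz x) hx
  obtain ⟨s, hs⟩ := key (hz y) hy
  obtain ⟨w', hw'⟩ := key (hz' x) hx'
  obtain ⟨s', hs'⟩ := key (hz' y) hy'
  have e1 := f.cj_map hd (S.c x) (S.c' x) z
  rw [hw, hw'] at e1
  have e2 := f.cj_map hd (S.c y) (S.c' y) z
  rw [hs, hs'] at e2
  obtain ⟨a1, a2⟩ := RM.map_eq_coe _ e1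
  obtain ⟨b1, b2⟩ := RM.map_eq_coe _ e2
  exact ⟨w, s, w', s', hw, hs, hw', hs', a1, a2, b1, b2⟩

/-- a point of the component near the boundary of the direction `v i` at `c i`, where the
difference quotient reduces to the derivative -/
theorem near (S : Step R f ι) {i : ι} (hi : S.v i ≠ OnePoint.infty) (hi' : S.v' i ≠ OnePoint.infty)
    {P P' : K} (hP : dirR R (P : OnePoint K) = S.v i) (hP' : dirR R (P' : OnePoint K) = S.v' i) :
    ∃ (z : OnePoint K) (w : K), InU S z ∧ (S.c i).to z = (w : OnePoint K) ∧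
      ‖((f.cj (S.c i) (S.c' i)).ev w - P') / (w - P)‖ = 1 ∧
      R.red (((f.cj (S.c i) (S.c' i)).ev w - P') / (w - P)) = (S.T i).der (toFin (S.v i)) := by
  obtain ⟨v, hv⟩ : ∃ v : k, S.v i = (v : OnePoint k) := ⟨_, (coe_toFin hi).symm⟩
  obtain ⟨v', hv'⟩ : ∃ v' : k, S.v' i = (v' : OnePoint k) := ⟨_, (coe_toFin hi').symm⟩
  have hTv := S.Tv i
  rw [hv, hv'] at hTv
  obtain ⟨hq, hev⟩ := RM.map_eq_coe _ hTv
  have hTd := (S.good i).2.1
  have hwr : (S.T i).wr.eval v ≠ 0 := by
    intro h0
    have h1 := ((S.T i).isCrit_coe hTd v).2 h0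
    unfold RM.IsCrit at h1
    have h2 := S.mult_one i
    rw [hv] at h2
    omega
  rw [hv] at hP
  rw [hv'] at hP'
  obtain ⟨P0, hP0, hP1, hP2⟩ := dirR_eq_coe R hP
  rw [← OnePoint.coe_injective hP0] at hP1 hP2
  obtain ⟨P0', hP0', hP1', hP2'⟩ := dirR_eq_coe R hP'
  rw [← OnePoint.coe_injective hP0'] at hP1' hP2'
  obtain ⟨t1, ht1, hthin⟩ := thin_der (S.good i) hq hwr hP1 hP2 hP1' (by rw [hP2', hev])
  obtain ⟨t2, ht2, hsub⟩ := S.thin_subset i
  have hlift : ‖P - R.lift v‖ < 1 := by
    rw [← R.eq_iff hP1 (R.norm_lift v), hP2, R.red_lift]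
  obtain ⟨α, hα1, hα2, hα0⟩ := exists_norm_near K (max_lt ht1 (max_lt ht2 hlift))
  have hα3 : t1 < ‖α‖ := lt_of_le_of_lt (le_max_left _ _) hα1
  have hα4 : t2 < ‖α‖ := lt_of_le_of_lt ((le_max_left _ _).trans (le_max_right _ _)) hα1
  have hα5 : ‖P - R.lift v‖ < ‖α‖ :=
    lt_of_le_of_lt ((le_max_right _ _).trans (le_max_right _ _)) hα1
  have hw : P + α - P = α := by ring
  obtain ⟨k1, k2, k3⟩ := hthin (P + α) (by rw [hw]; exact hα3) (by rw [hw]; exact hα2)
  refine ⟨(S.c i).fro ((P + α : K) : OnePoint K), P + α, ?_, Chart.to_fro _ _, ?_, ?_⟩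
  · apply hsub
    · rw [Chart.to_fro, hv, dir_iff hP1 hP2, hw]
      exact hα2
    · rw [Chart.to_fro, hv, radR_coe]
      have h1 : P + α - R.lift v = α + (P - R.lift v) := by ring
      rw [h1, IsUltrametricDist.norm_add_eq_max_of_norm_ne_norm hα5.ne', max_eq_left hα5.le]
      exact hα4
  · rw [norm_div, k2, div_self]
    rw [hw]
    exact (norm_pos_iff.2 hα0).ne'
  · rw [k3, hv]
    rfl

end NE

variable {K k : Type u} [NontriviallyNormedField K] [Field k] {R : Residue K k}
  [IsUltrametricDist K] [IsAlgClosed K] [IsAlgClosed k] {f : RM K} {ι : Type} [Fintype ι]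

open _root_.FS16.NE in
theorem Step.two_ends (S : Step R f ι) {x y : ι} (hxy : x ≠ y) (hx : S.v x ≠ OnePoint.infty)
    (hy : S.v y ≠ OnePoint.infty) (hx' : S.v' x ≠ OnePoint.infty) (hy' : S.v' y ≠ OnePoint.infty) :
    (S.c x).tw (S.c y) ≠ 0 ∧ (S.c' x).tw (S.c' y) ≠ 0 ∧
    ‖(S.c' x).tw (S.c' y) / (S.c x).tw (S.c y)‖ = 1 ∧
    (S.T x).der (toFin (S.v x)) * (S.T y).der (toFin (S.v y)) =
      R.red ((S.c' x).tw (S.c' y) / (S.c x).tw (S.c y)) := by
  have hne : (S.c x).pole ≠ (S.c y).pole := by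
    intro h
    have h1 := pole_other S hx hxy
    rw [h] at h1
    exact pole_self S hy h1
  have hne' : (S.c' x).pole ≠ (S.c' y).pole := by
    intro h
    have h1 := pole_other' S hx' hxy
    rw [h] at h1
    exact pole_self' S hy' h1
  obtain ⟨ht, P, P₁, hP, hP₁, hsp⟩ := Chart.tw_spec (S.c x) (S.c y) hne
  obtain ⟨ht', P', P₁', hP', hP₁', hsp'⟩ := Chart.tw_spec (S.c' x) (S.c' y) hne'
  have dP : dirR R (P : OnePoint K) = S.v x := by
    rw [← hP]; exact pole_other S hy (Ne.symm hxy)
  have dP₁ : dirR R (P₁ : OnePoint K) = S.v y := by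
    rw [← hP₁]; exact pole_other S hx hxy
  have dP' : dirR R (P' : OnePoint K) = S.v' x := by
    rw [← hP']; exact pole_other' S hy' (Ne.symm hxy)
  have dP₁' : dirR R (P₁' : OnePoint K) = S.v' y := by
    rw [← hP₁']; exact pole_other' S hx' hxy
  obtain ⟨z1, w1, hz1, hw1, n1, r1⟩ := near S hx hx' dP dP'
  obtain ⟨z2, s2, hz2, hs2, n2, r2⟩ := near S hy hy' dP₁ dP₁'
  obtain ⟨w1a, s1, w1', s1', a1, a2, a3, a4, a5, a6, a7, a8⟩ := pt_data S hx hy hx' hy' hz1
  obtain ⟨w2, s2a, w2', s2', b1, b2, b3, b4, b5, b6, b7, b8⟩ := pt_data S hx hy hx' hy' hz2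
  have e1 : w1a = w1 := OnePoint.coe_injective (a1.symm.trans hw1)
  have e2 : s2a = s2 := OnePoint.coe_injective (b2.symm.trans hs2)
  subst e1 e2
  obtain ⟨T, hT⟩ : ∃ T, T = (S.c x).tw (S.c y) := ⟨_, rfl⟩
  obtain ⟨T', hT'⟩ : ∃ T', T' = (S.c' x).tw (S.c' y) := ⟨_, rfl⟩
  have m1 := hsp z1 _ _ a1 a2
  have m1' := hsp' (f.map z1) _ _ a3 a4
  have m2 := hsp z2 _ _ b1 b2
  have m2' := hsp' (f.map z2) _ _ b3 b4
  have hrat := ratio S hxy hx hy hx' hy' hP hP' hz1 hz2 a1 b1
  rw [← hT] at ht m1 m2 ⊢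
  rw [← hT'] at ht' m1' m2' ⊢
  refine ⟨ht, ht', ?_⟩
  -- non vanishing
  have q1 : w1a - P ≠ 0 := by rintro h; rw [h, zero_mul] at m1; exact ht m1.symm
  have q1' : w1' - P' ≠ 0 := by rintro h; rw [h, zero_mul] at m1'; exact ht' m1'.symm
  have q2 : w2 - P ≠ 0 := by rintro h; rw [h, zero_mul] at m2; exact ht m2.symm
  have q2' : w2' - P' ≠ 0 := by rintro h; rw [h, zero_mul] at m2'; exact ht' m2'.symm
  have q3 : s2a - P₁ ≠ 0 := by rintro h; rw [h, mul_zero] at m2; exact ht m2.symm
  have q3' : s2' - P₁' ≠ 0 := by rintro h; rw [h, mul_zero] at m2'; exact ht' m2'.symm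
  rw [a6] at n1 r1
  rw [b8] at n2 r2
  -- the ratio
  obtain ⟨G1, hG1⟩ : ∃ G1, G1 = (w1' - P') / (w1a - P) := ⟨_, rfl⟩
  obtain ⟨G2, hG2⟩ : ∃ G2, G2 = (w2' - P') / (w2 - P) := ⟨_, rfl⟩
  obtain ⟨D2, hD2⟩ : ∃ D2, D2 = (s2' - P₁') / (s2a - P₁) := ⟨_, rfl⟩
  have hG2ne : G2 ≠ 0 := by rw [hG2]; exact div_ne_zero q2' q2
  have hN : ∀ {w w' : K}, (f.cj (S.c x) (S.c' x)).q.eval w ≠ 0 →
      (f.cj (S.c x) (S.c' x)).ev w = w' →
      ((f.cj (S.c x) (S.c' x)).p - C P' * (f.cj (S.c x) (S.c' x)).q).eval w =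
        (f.cj (S.c x) (S.c' x)).q.eval w * (w' - P') := by
    intro w w' hq hev
    unfold RM.ev at hev
    rw [eval_sub, eval_mul, eval_C, ← hev]
    field_simp
  rw [hN a5 a6, hN b5 b6] at hrat
  have hrat2 : (f.cj (S.c x) (S.c' x)).q.eval w1a * (w1' - P') /
      ((f.cj (S.c x) (S.c' x)).q.eval w2 * (w2' - P')) /
      (((f.cj (S.c x) (S.c' x)).q.eval w1a / (f.cj (S.c x) (S.c' x)).q.eval w2) *
        ((w1a - P) / (w2 - P))) = G1 / G2 := by
    rw [hG1, hG2]
    field_simp
  rw [hrat2] at hrat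
  rw [← hG1] at n1 r1
  rw [← hD2] at n2 r2
  -- `‖G2‖ = 1`
  have hn : ‖G1 / G2‖ = 1 := by
    have h1 : G1 / G2 = 1 + (G1 / G2 - 1) := by ring
    rw [h1, IsUltrametricDist.norm_add_eq_max_of_norm_ne_norm (by rw [norm_one]; exact hrat.ne'),
      norm_one, max_eq_left hrat.le]
  have hnG2 : ‖G2‖ = 1 := by
    rw [norm_div, n1] at hn
    have h1 : ‖G2‖ ≠ 0 := norm_ne_zero_iff.2 hG2ne
    field_simp at hn
    exact hn.symm
  have hTT : T' / T = G2 * D2 := by
    rw [hG2, hD2, ← m2, ← m2']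
    field_simp
  have hred : R.red G1 = R.red G2 := by
    rw [R.eq_iff n1.le hnG2.le]
    have h1 : G1 - G2 = (G1 / G2 - 1) * G2 := by field_simp
    rw [h1, norm_mul, hnG2, mul_one]
    exact hrat
  constructor
  · rw [hTT, norm_mul, hnG2, n2, mul_one]
  · rw [hTT, R.mul _ _ hnG2.le n2.le, ← hred, r1, r2]

end FS16
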