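import Pool.Agent.FS16.NStep
import Pool.Agent.FS16.NSame

/-!
# Families of cycles of components, independently of the choice of the charts

`Fam R f Ξ I`: `Ξ` is a finite set of type II points, permuted by `f`; `c₀ ξ` is a chart at `ξ`; `I` is a finite
set of cycles of components with holes; `e i b l`, `b : Bool`, are two boundary points of the
component number `l` of the cycle `i`, and `pnt i l` is a point (of `P¹(K)`) of this component.  The
Berkovich side of the proof constructs such a family from a finite set of cycles of components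
(`BFace.lean`); `World`s are constructed from it by choosing good charts (`NFamWorld.lean`).
-/

open Polynomial

noncomputable section

namespace FS16

universe u

variable {K k : Type u} [NontriviallyNormedField K] [Field k] (R : Residue K k)
  [IsUltrametricDist K] [IsAlgClosed K] [IsAlgClosed k]

structure Fam (f : RM K) (Ξ I : Type) [Fintype Ξ] [Fintype I] where
  s : Equiv.Perm Ξ
  /-- a chart at every point -/
  c₀ : Ξ → Chart K
  /-- the points are different -/
  sep : ∀ ξ ξ', SamePt (c₀ ξ) (c₀ ξ') → ξ = ξ'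
  /-- for all charts at `ξ` and `s ξ` there is a reduction -/
  ex_good : ∀ ξ (c c' : Chart K), SamePt (c₀ ξ) c → SamePt (c₀ (s ξ)) c' →
    ∃ (h : k[X]) (T : RM k), GoodRed R (f.cj c c') h T
  /-- the periods of the cycles -/
  P : I → ℕ
  P_pos : ∀ i, 0 < P i
  /-- two boundary points -/
  e : I → Bool → ℕ → Ξ
  e_s : ∀ i b l, e i b (l + 1) = s (e i b l)
  e_per : ∀ i b l, e i b (l + P i) = e i b l
  e_surj : ∀ ξ, ∃ i b l, e i b l = ξ
  /-- a point of the component -/
  pnt : I → ℕ → OnePoint K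
  pnt_per : ∀ i l, pnt i (l + P i) = pnt i l
  /-- a boundary point and the direction determine the component -/
  v_disj : ∀ i i' b b' l l', e i b l = e i' b' l' → ∀ c : Chart K, SamePt (c₀ (e i b l)) c →
    dirR R (c.to (pnt i l)) = dirR R (c.to (pnt i' l')) → i = i'
  /-- the component is mapped one-to-one -/
  step : ∀ (i : I) (l : ℕ) (c c' : Bool → Chart K), (∀ b, SamePt (c₀ (e i b l)) (c b)) →
    (∀ b, SamePt (c₀ (e i b (l + 1))) (c' b)) → ∀ (T : Bool → RM k) (h : Bool → k[X]),
    (∀ b, GoodRed R (f.cj (c b) (c' b)) (h b) (T b)) →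
    ∃ (ι : Type) (_ : Fintype ι) (S : Step R f ι) (x : Bool → ι), x true ≠ x false ∧
      ∀ b, S.c (x b) = c b ∧ S.c' (x b) = c' b ∧ S.T (x b) = T b ∧ S.h (x b) = h b ∧
        S.v (x b) = dirR R ((c b).to (pnt i l)) ∧ S.v' (x b) = dirR R ((c' b).to (pnt i (l + 1)))
  /-- the type II points are not in the Fatou set: if all maps on the cycle have degree one, there is a
  direction of positive surplus with an infinite orbit -/
  julia : ∀ (T : Ξ → RM k) (h : Ξ → k[X]),
    (∀ ξ, GoodRed R (f.cj (c₀ ξ) (c₀ (s ξ))) (h ξ) (T ξ)) →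
    ∀ ξ, (∀ n : ℕ, (T (s^[n] ξ)).deg = 1) → ∃ (n : ℕ) (w : ℕ → OnePoint k),
      spl (f.cj (c₀ (s^[n] ξ)) (c₀ (s (s^[n] ξ)))) (h (s^[n] ξ)) (T (s^[n] ξ)) (w 0) ≠ 0 ∧
      (∀ l, (T (s^[n + l] ξ)).map (w l) = w (l + 1)) ∧
      ∀ a b, s^[a] ξ = s^[b] ξ → w a = w b → a = b

variable {R}
variable {f : RM K} {Ξ I : Type} [Fintype Ξ] [Fintype I]

/-- charts at all points with reductions -/
structure Fam.Charts (F : Fam R f Ξ I) where
  c : Ξ → Chart K
  same : ∀ ξ, SamePt (F.c₀ ξ) (c ξ)
  T : Ξ → RM k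
  h : Ξ → k[X]
  good : ∀ ξ, GoodRed R (f.cj (c ξ) (c (F.s ξ))) (h ξ) (T ξ)

/-- the direction of the component at the boundary point -/
def Fam.Charts.v {F : Fam R f Ξ I} (D : F.Charts) (i : I) (b : Bool) (l : ℕ) : OnePoint k :=
  dirR R ((D.c (F.e i b l)).to (F.pnt i l))

end FS16
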