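import Pool.Agent.FS16.NFam
import Pool.Agent.FS16.NEnds

/-!
# Facts about the directions of a family of components

MODULE N-FAM-FACTS.
* `exists_charts`: `ex_good` and choice.
* `v_T`, `v_one`: from the field `step`, applied to `D.c (e i b l)`, `D.c (e i b (l+1))` (note
  `e i b (l+1) = s (e i b l)`), `D.T (e i b l)`, `D.h (e i b l)`: `Step.Tv` and `Step.mult_one`.
* `v_per`: `e_per`, `pnt_per`.
* `v_disj`: the field `v_disj`.
* `mult_mul`: let `tw l = (D.c (e i true l)).tw (D.c (e i false l))`.  By `Step.two_ends` all `tw l ≠ 0`,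
  `‖tw (l+1) / tw l‖ = 1` and the product of the derivatives at time `l` is
  `R.red (tw (l+1) / tw l)`.  The product over `l < P` of the reductions is the reduction of the product
  (`R.mul`, norms are one), `tw P / tw 0 = 1` because `e i b P = e i b 0`, and `R.red 1 = 1`.
-/

open Polynomial

noncomputable section

namespace FS16

universe u

variable {K k : Type u} [NontriviallyNormedField K] [Field k] {R : Residue K k}
  [IsUltrametricDist K] [IsAlgClosed K] [IsAlgClosed k]
  {f : RM K} {Ξ I : Type} [Fintype Ξ] [Fintype I]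

theorem Fam.exists_charts (F : Fam R f Ξ I) (c : Ξ → Chart K) (hc : ∀ ξ, SamePt (F.c₀ ξ) (c ξ)) :
    ∃ D : F.Charts, D.c = c := by
  choose h T hg using fun ξ => F.ex_good ξ (c ξ) (c (F.s ξ)) (hc ξ) (hc (F.s ξ))
  exact ⟨⟨c, hc, T, h, hg⟩, rfl⟩

variable {F : Fam R f Ξ I} (D : F.Charts)

/-- the field `step`, for the charts of `D` -/
theorem Fam.Charts.exists_step (i : I) (l : ℕ) :
    ∃ (ι : Type) (_ : Fintype ι) (S : Step R f ι) (x : Bool → ι), x true ≠ x false ∧
      ∀ b, S.c (x b) = D.c (F.e i b l) ∧ S.c' (x b) = D.c (F.e i b (l + 1)) ∧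
        S.T (x b) = D.T (F.e i b l) ∧ S.v (x b) = D.v i b l ∧ S.v' (x b) = D.v i b (l + 1) := by
  obtain ⟨ι, inst, S, x, hx, hS⟩ := F.step i l (fun b => D.c (F.e i b l))
    (fun b => D.c (F.e i b (l + 1))) (fun b => D.same _) (fun b => D.same _)
    (fun b => D.T (F.e i b l)) (fun b => D.h (F.e i b l)) (fun b => by
      have h1 := D.good (F.e i b l)
      rw [← F.e_s] at h1
      exact h1)
  refine ⟨ι, inst, S, x, hx, fun b => ?_⟩
  obtain ⟨h1, h2, h3, _, h5, h6⟩ := hS b
  exact ⟨h1, h2, h3, h5, h6⟩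

theorem Fam.Charts.v_T (i : I) (b : Bool) (l : ℕ) :
    (D.T (F.e i b l)).map (D.v i b l) = D.v i b (l + 1) := by
  obtain ⟨ι, inst, S, x, _, hS⟩ := D.exists_step i l
  obtain ⟨_, _, h3, h4, h5⟩ := hS b
  rw [← h3, ← h4, ← h5]
  exact S.Tv (x b)

theorem Fam.Charts.v_one (i : I) (b : Bool) (l : ℕ) :
    (D.T (F.e i b l)).mult (D.v i b l) = 1 := by
  obtain ⟨ι, inst, S, x, _, hS⟩ := D.exists_step i l
  obtain ⟨_, _, h3, h4, _⟩ := hS b
  rw [← h3, ← h4]
  exact S.mult_one (x b)

theorem Fam.Charts.v_per (i : I) (b : Bool) (l : ℕ) : D.v i b (l + F.P i) = D.v i b l := by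
  unfold Fam.Charts.v
  rw [F.e_per, F.pnt_per]

theorem Fam.Charts.v_disj (i i' : I) (b b' : Bool) (l l' : ℕ) (h : F.e i b l = F.e i' b' l')
    (h' : D.v i b l = D.v i' b' l') : i = i' := by
  refine F.v_disj i i' b b' l l' h (D.c (F.e i b l)) (D.same _) ?_
  unfold Fam.Charts.v at h'
  rw [← h] at h'
  exact h'

theorem Fam.Charts.mult_mul (i : I) (h : ∀ b l, D.v i b l ≠ OnePoint.infty) :
    (∏ l ∈ Finset.range (F.P i), (D.T (F.e i true l)).der (toFin (D.v i true l))) *
    (∏ l ∈ Finset.range (F.P i), (D.T (F.e i false l)).der (toFin (D.v i false l))) = 1 := by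
  obtain ⟨tw, htw⟩ : ∃ tw : ℕ → K, ∀ l, tw l = (D.c (F.e i true l)).tw (D.c (F.e i false l)) :=
    ⟨_, fun _ => rfl⟩
  have key : ∀ l, tw l ≠ 0 ∧ tw (l + 1) ≠ 0 ∧ ‖tw (l + 1) / tw l‖ = 1 ∧
      (D.T (F.e i true l)).der (toFin (D.v i true l)) *
        (D.T (F.e i false l)).der (toFin (D.v i false l)) = R.red (tw (l + 1) / tw l) := by
    intro l
    obtain ⟨ι, inst, S, x, hx, hS⟩ := D.exists_step i l
    obtain ⟨a1, a2, a3, a4, a5⟩ := hS true
    obtain ⟨b1, b2, b3, b4, b5⟩ := hS false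
    have h1 := S.two_ends hx (by rw [a4]; exact h true l) (by rw [b4]; exact h false l)
      (by rw [a5]; exact h true (l + 1)) (by rw [b5]; exact h false (l + 1))
    rw [a1, a2, a3, a4, b1, b2, b3, b4, ← htw, ← htw] at h1
    exact h1
  rw [← Finset.prod_mul_distrib]
  have hind : ∀ n, ‖tw n / tw 0‖ = 1 ∧ ∏ l ∈ Finset.range n,
      ((D.T (F.e i true l)).der (toFin (D.v i true l)) *
        (D.T (F.e i false l)).der (toFin (D.v i false l))) = R.red (tw n / tw 0) := by
    intro n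
    induction n with
    | zero =>
      rw [div_self (key 0).1, norm_one, Finset.prod_range_zero, R.one]
      exact ⟨rfl, rfl⟩
    | succ n ih =>
      have e : tw (n + 1) / tw 0 = tw n / tw 0 * (tw (n + 1) / tw n) := by
        have h1 := (key n).1
        have h2 := (key 0).1
        field_simp
      rw [Finset.prod_range_succ, ih.2, (key n).2.2.2, e]
      refine ⟨?_, ?_⟩
      · rw [norm_mul, ih.1, (key n).2.2.1, mul_one]
      · rw [R.mul _ _ ih.1.le (key n).2.2.1.le]
  rw [(hind (F.P i)).2]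
  have e : tw (F.P i) = tw 0 := by
    have h1 := F.e_per i true 0
    have h2 := F.e_per i false 0
    rw [zero_add] at h1 h2
    rw [htw, htw, h1, h2]
  rw [e, div_self (key 0).1, R.one]

end FS16
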