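import Pool.Agent.FS16.NRoot
import Pool.Agent.FS16.NChart

/-!
# Reduction of a rational map at a type II point: directions

MODULE N-GOOD.  `GoodRed R g h T`: up to a scalar, the reduction of the pair `(g.p, g.q)` is
`(h T.p, h T.q)`, where the reduced map `T` has degree `≥ 1` and `h ≠ 0`.  `dirR z` is the residue class
(direction) of `z`, `spl u` is the number of the preimages of a general point in the direction `u`
(surplus), and `T.mult u` more for the points in the direction `T u`.

* `dircount`: for `b` finite with `‖b‖ ≤ 1`: the pair `(c g.p, c g.q)` is integral and the reduction of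
  `c (g.p - b g.q)` is `h (T.p - b̄ T.q) ≠ 0` (`CR.fib_ne_zero`).  `u` finite: `card_residue_disc`, the
  multiplicity of the root `u` in the product is the sum of the multiplicities; the multiplicity in
  `T.p - b̄ T.q` is `T.mult u` if `T u = b̄` and `0` otherwise.  `u = ∞`: the number of the elements of the
  fibre is `g.deg` (`card_fibM`), the number of those in the closed unit disc is
  `deg h + deg (T.p - b̄ T.q)` (`card_unit_disc`), so there are
  `(g.deg - T.deg - deg h) + (T.deg - deg (T.p - b̄ T.q))` others.
  For `‖b‖ > 1`: consider `c b⁻¹ (g.p - b g.q) = b⁻¹ (c g.p) - c g.q` with reduction `- h T.q`; and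
  `c g.q` for `b = ∞`.
* `follow`: `z` is an element of the fibre of `g.map z`, of direction `u`, so the number in `dircount` is
  positive.
* `finite_spl`: `h` has finitely many roots.
-/

open Polynomial

noncomputable section

namespace FS16

universe u

variable {K k : Type u} [NormedField K] [Field k] (R : Residue K k)

open Classical in
/-- the direction (residue class) of a point of the projective line -/
def dirR (z : OnePoint K) : OnePoint k :=
  match z with
  | OnePoint.some x => if ‖x‖ ≤ 1 then ((R.red x : k) : OnePoint k) else OnePoint.infty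
  | OnePoint.infty => OnePoint.infty

theorem dirR_infty : dirR R OnePoint.infty = OnePoint.infty := rfl

theorem dirR_coe {x : K} (hx : ‖x‖ ≤ 1) : dirR R (x : OnePoint K) = ((R.red x : k) : OnePoint k) := by
  classical
  change (if ‖x‖ ≤ 1 then ((R.red x : k) : OnePoint k) else OnePoint.infty) = _
  rw [if_pos hx]

theorem dirR_coe_of_lt {x : K} (hx : 1 < ‖x‖) : dirR R (x : OnePoint K) = OnePoint.infty := by
  classical
  change (if ‖x‖ ≤ 1 then ((R.red x : k) : OnePoint k) else OnePoint.infty) = _
  rw [if_neg (not_le.2 hx)]

theorem dirR_eq_coe {z : OnePoint K} {u : k} (h : dirR R z = (u : OnePoint k)) :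
    ∃ x : K, z = (x : OnePoint K) ∧ ‖x‖ ≤ 1 ∧ R.red x = u := by
  cases z using OnePoint.rec with
  | infty => exact absurd h (OnePoint.infty_ne_coe u)
  | coe x =>
    by_cases hx : ‖x‖ ≤ 1
    · rw [dirR_coe R hx] at h
      exact ⟨x, rfl, hx, OnePoint.coe_injective h⟩
    · rw [dirR_coe_of_lt R (not_le.1 hx)] at h
      exact absurd h (OnePoint.infty_ne_coe u)

/-- the radius of a point in its direction -/
def radR (u : OnePoint k) (z : OnePoint K) : ℝ :=
  match u, z with
  | OnePoint.some u, OnePoint.some x => ‖x - R.lift u‖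
  | OnePoint.some _, OnePoint.infty => 1
  | OnePoint.infty, OnePoint.some x => ‖x‖⁻¹
  | OnePoint.infty, OnePoint.infty => 0

theorem radR_coe (u : k) (x : K) : radR R (u : OnePoint k) (x : OnePoint K) = ‖x - R.lift u‖ := rfl

theorem radR_infty_coe (x : K) : radR R OnePoint.infty (x : OnePoint K) = ‖x‖⁻¹ := rfl

variable [IsUltrametricDist K]

theorem radR_lt_one {u : OnePoint k} {z : OnePoint K} (h : dirR R z = u) : radR R u z < 1 := by
  cases u using OnePoint.rec with
  | infty =>
    cases z using OnePoint.rec with
    | infty => exact one_pos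
    | coe x =>
      change ‖x‖⁻¹ < 1
      by_cases hx : ‖x‖ ≤ 1
      · rw [dirR_coe R hx] at h
        exact absurd h (OnePoint.coe_ne_infty _)
      · exact inv_lt_one_of_one_lt₀ (not_le.1 hx)
  | coe u =>
    obtain ⟨x, rfl, hx, hu⟩ := dirR_eq_coe R h
    change ‖x - R.lift u‖ < 1
    exact (R.eq_iff hx (R.norm_lift u)).1 (by rw [hu, R.red_lift])

theorem radR_nonneg (u : OnePoint k) (z : OnePoint K) : 0 ≤ radR R u z := by
  cases u using OnePoint.rec with
  | infty =>
    cases z using OnePoint.rec with
    | infty => exact le_refl _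
    | coe x => exact inv_nonneg.2 (norm_nonneg _)
  | coe u =>
    cases z using OnePoint.rec with
    | infty => exact zero_le_one
    | coe x => exact norm_nonneg _

/-- `h` is the common factor of the reductions of numerator and denominator of `g` (up to a constant),
and `T` is the reduced map -/
def GoodRed (g : RM K) (h : k[X]) (T : RM k) : Prop :=
  h ≠ 0 ∧ 1 ≤ T.deg ∧ ∃ c : K, c ≠ 0 ∧ IsRed R (C c * g.p) (h * T.p) ∧ IsRed R (C c * g.q) (h * T.q)

/-- the surplus in the direction `u` -/
def spl (g : RM K) (h : k[X]) (T : RM k) : OnePoint k → ℕ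
  | OnePoint.some u => h.rootMultiplicity u
  | OnePoint.infty => g.deg - T.deg - h.natDegree

variable {R}

theorem finite_spl {g : RM K} {h : k[X]} {T : RM k} (hg : GoodRed R g h T) :
    {u | spl g h T u ≠ 0}.Finite := by
  classical
  refine ((h.roots.toFinset.finite_toSet.image (fun u : k => (u : OnePoint k))).insert
    OnePoint.infty).subset ?_
  intro u hu
  cases u using OnePoint.rec with
  | infty => exact Set.mem_insert _ _
  | coe u =>
    refine Set.mem_insert_of_mem _ ⟨u, ?_, rfl⟩
    have h1 : h.rootMultiplicity u ≠ 0 := hu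
    rw [Finset.mem_coe, Multiset.mem_toFinset, ← Multiset.count_pos, count_roots]
    omega

omit [IsUltrametricDist K] in
theorem gd_natDegree_le {c : K} {g : K[X]} {a : k[X]} (h : IsRed R (C c * g) a) :
    a.natDegree ≤ g.natDegree := by
  by_cases ha : a = 0
  · rw [ha, natDegree_zero]
    exact Nat.zero_le _
  apply le_natDegree_of_ne_zero
  intro h0
  have h1 := (h a.natDegree).2
  rw [coeff_C_mul, h0, mul_zero, R.zero] at h1
  exact leadingCoeff_ne_zero.2 ha h1.symm

theorem GoodRed.deg_le {g : RM K} {h : k[X]} {T : RM k} (hg : GoodRed R g h T) :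
    T.deg + h.natDegree ≤ g.deg := by
  obtain ⟨h0, h1, c, hc, hp, hq⟩ := hg
  have h2 := gd_natDegree_le hp
  have h3 := gd_natDegree_le hq
  unfold RM.deg at h1 ⊢
  rcases le_total T.p.natDegree T.q.natDegree with h4 | h4
  · rw [max_eq_right h4] at h1 ⊢
    have h5 : T.q ≠ 0 := by
      intro h6
      rw [h6, natDegree_zero] at h1
      omega
    rw [natDegree_mul h0 h5] at h3
    have := le_max_right g.p.natDegree g.q.natDegree
    omega
  · rw [max_eq_left h4] at h1 ⊢
    have h5 : T.p ≠ 0 := by
      intro h6
      rw [h6, natDegree_zero] at h1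
      omega
    rw [natDegree_mul h0 h5] at h2
    have := le_max_left g.p.natDegree g.q.natDegree
    omega

theorem GoodRed.one_le_deg {g : RM K} {h : k[X]} {T : RM k} (hg : GoodRed R g h T) : 1 ≤ g.deg :=
  le_trans hg.2.1 (le_trans (Nat.le_add_right _ _) hg.deg_le)

variable [IsAlgClosed K] [IsAlgClosed k]

/-! ### auxiliary facts: the polynomial of a fibre -/

/-- the polynomial whose roots are the finite points of the fibre of `b` -/
def gdP {F : Type*} [Field F] (T : RM F) : OnePoint F → F[X]
  | OnePoint.some w => T.p - C w * T.q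
  | OnePoint.infty => T.q

theorem gd_coe {F : Type*} [Field F] (T : RM F) (w : F) :
    gdP T (w : OnePoint F) = T.p - C w * T.q := rfl

theorem gd_infty {F : Type*} [Field F] (T : RM F) : gdP T OnePoint.infty = T.q := rfl

theorem gd_fibM {F : Type*} [Field F] (T : RM F) (b : OnePoint F) : T.fibM b =
    (gdP T b).roots.map (fun z : F => (z : OnePoint F)) +
      Multiset.replicate (T.deg - (gdP T b).natDegree) OnePoint.infty := by
  cases b using OnePoint.rec with
  | infty =>
    rw [RM.fibM_infty, gd_infty]
    first | rfl | simp only [Multiset.bind_def, Multiset.pure_def, Multiset.bind_singleton,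
      Multiset.map_id']
  | coe w =>
    rw [RM.fibM_coe, gd_coe]
    first | rfl | simp only [Multiset.bind_def, Multiset.pure_def, Multiset.bind_singleton,
      Multiset.map_id']

theorem gdP_natDegree_le {F : Type*} [Field F] (T : RM F) (b : OnePoint F) :
    (gdP T b).natDegree ≤ T.deg := by
  unfold RM.deg
  cases b using OnePoint.rec with
  | infty => exact le_max_right _ _
  | coe w =>
    rw [gd_coe]
    refine (natDegree_sub_le _ _).trans (max_le_max le_rfl ?_)
    exact natDegree_C_mul_le _ _

theorem gdP_ne_zero {F : Type*} [Field F] (T : RM F) (hd : 1 ≤ T.deg) (b : OnePoint F) :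
    gdP T b ≠ 0 := by
  cases b using OnePoint.rec with
  | infty =>
    rw [gd_infty]
    intro h
    have h1 : IsUnit T.p := by
      have := T.cop
      rw [h, isCoprime_zero_right] at this
      exact this
    unfold RM.deg at hd
    rw [h, natDegree_zero, natDegree_eq_zero_of_isUnit h1] at hd
    simp at hd
  | coe w => exact CR.fib_ne_zero T hd w

open Classical in
theorem gd_count_coe {F : Type*} [Field F] (T : RM F) (b : OnePoint F) (u : F) :
    (T.fibM b).count (u : OnePoint F) = (gdP T b).rootMultiplicity u := by
  rw [gd_fibM, Multiset.count_add,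
    Multiset.count_map_eq_count' _ _ OnePoint.coe_injective, count_roots, Multiset.count_replicate,
    if_neg (OnePoint.infty_ne_coe u), add_zero]

open Classical in
theorem gd_count_infty {F : Type*} [Field F] (T : RM F) (b : OnePoint F) :
    (T.fibM b).count OnePoint.infty = T.deg - (gdP T b).natDegree := by
  rw [gd_fibM, Multiset.count_add, Multiset.count_replicate, if_pos rfl]
  rw [Multiset.count_eq_zero_of_notMem, zero_add]
  intro h
  obtain ⟨z, _, hz⟩ := Multiset.mem_map.1 h
  exact OnePoint.coe_ne_infty z hz

open Classical in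
theorem gd_count_eq {F : Type*} [Field F] [IsAlgClosed F] (T : RM F) (hd : 1 ≤ T.deg)
    (b u : OnePoint F) : (T.fibM b).count u = if T.map u = b then T.mult u else 0 := by
  split_ifs with h
  · rw [← h]
    rfl
  · exact Multiset.count_eq_zero_of_notMem fun h1 => h ((T.mem_fibM hd b u).1 h1)

omit [IsAlgClosed K] [IsAlgClosed k] in
theorem gd_red {g : RM K} {h : k[X]} {T : RM k} (hg : GoodRed R g h T) (b : OnePoint K) :
    ∃ e : K, e ≠ 0 ∧ IsRed R (C e * gdP g b) (h * gdP T (dirR R b)) := by
  obtain ⟨h0, h1, c, hc, hp, hq⟩ := hg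
  cases b using OnePoint.rec with
  | infty =>
    rw [dirR_infty, gd_infty, gd_infty]
    exact ⟨c, hc, hq⟩
  | coe y =>
    by_cases hy : ‖y‖ ≤ 1
    · rw [dirR_coe R hy, gd_coe, gd_coe]
      refine ⟨c, hc, ?_⟩
      have h2 := hp.sub (hq.C_mul hy)
      have e1 : C c * (g.p - C y * g.q) = C c * g.p - C y * (C c * g.q) := by ring
      have e2 : h * (T.p - C (R.red y) * T.q) = h * T.p - C (R.red y) * (h * T.q) := by ring
      rw [e1, e2]
      exact h2
    · have hy1 : 1 < ‖y‖ := not_le.1 hy
      have hy0 : y ≠ 0 := by
        rintro rfl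
        rw [norm_zero] at hy1
        linarith
      rw [dirR_coe_of_lt R hy1, gd_coe, gd_infty]
      refine ⟨-(c * y⁻¹), neg_ne_zero.2 (mul_ne_zero hc (inv_ne_zero hy0)), ?_⟩
      have hy2 : ‖y⁻¹‖ < 1 := by
        rw [norm_inv]
        exact inv_lt_one_of_one_lt₀ hy1
      have h2 := hq.sub (hp.C_mul hy2.le)
      rw [(R.zero_iff _ hy2.le).2 hy2, C_0, zero_mul, sub_zero] at h2
      have e1 : C (-(c * y⁻¹)) * (g.p - C y * g.q) = C c * g.q - C y⁻¹ * (C c * g.p) := by
        rw [C_neg, C_mul]
        have e3 : (C y⁻¹ : K[X]) * C y = 1 := by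
          rw [← C_mul, inv_mul_cancel₀ hy0, C_1]
        linear_combination (C c * g.q) * e3
      rw [e1]
      exact h2

omit [IsAlgClosed K] [IsAlgClosed k] in
theorem gd_dir_iff {z : K} {u : k} :
    dirR R (z : OnePoint K) = (u : OnePoint k) ↔ ‖z‖ ≤ 1 ∧ R.red z = u := by
  constructor
  · intro h
    obtain ⟨w, hw, hw1, hwu⟩ := dirR_eq_coe R h
    have hzw : z = w := OnePoint.coe_injective hw
    subst hzw
    exact ⟨hw1, hwu⟩
  · rintro ⟨h1, h2⟩
    rw [dirR_coe R h1, h2]

open Classical in
omit [IsAlgClosed k] in
theorem gd_card_coe {P : K[X]} {e : K} (he : e ≠ 0) {a : k[X]} (h : IsRed R (C e * P) a)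
    (ha : a ≠ 0) (n : ℕ) (u : k) :
    Multiset.card ((P.roots.map (fun z : K => (z : OnePoint K)) +
      Multiset.replicate n OnePoint.infty).filter fun z => dirR R z = (u : OnePoint k)) =
      a.rootMultiplicity u := by
  have h1 : (Multiset.replicate n (OnePoint.infty : OnePoint K)).filter
      (fun z => dirR R z = (u : OnePoint k)) = 0 := by
    rw [Multiset.filter_eq_nil]
    intro a ha h
    rw [Multiset.eq_of_mem_replicate ha, dirR_infty] at h
    exact OnePoint.infty_ne_coe u h
  rw [Multiset.filter_add, h1, add_zero, Multiset.filter_map, Multiset.card_map,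
    ← card_residue_disc h ha u, roots_C_mul P he]
  exact congrArg (fun s : Multiset K => Multiset.card s)
    (Multiset.filter_congr fun z _ => gd_dir_iff)

open Classical in
omit [IsAlgClosed k] in
theorem gd_card_infty {P : K[X]} {e : K} (he : e ≠ 0) {a : k[X]} (h : IsRed R (C e * P) a)
    (ha : a ≠ 0) (n : ℕ) :
    Multiset.card ((P.roots.map (fun z : K => (z : OnePoint K)) +
      Multiset.replicate n OnePoint.infty).filter fun z => dirR R z = OnePoint.infty) +
      a.natDegree = P.natDegree + n := by
  have h1 : (Multiset.replicate n (OnePoint.infty : OnePoint K)).filter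
      (fun z => dirR R z = OnePoint.infty) = Multiset.replicate n OnePoint.infty := by
    rw [Multiset.filter_eq_self]
    intro a ha
    rw [Multiset.eq_of_mem_replicate ha, dirR_infty]
  have h2 := card_unit_disc h ha
  rw [roots_C_mul P he] at h2
  have h3 : Multiset.card (P.roots.filter fun z => ‖z‖ ≤ 1) +
      Multiset.card (P.roots.filter fun z => ¬ ‖z‖ ≤ 1) = P.natDegree := by
    rw [← Multiset.card_add, Multiset.filter_add_not, IsAlgClosed.card_roots_eq_natDegree]
  rw [Multiset.filter_add, h1, Multiset.card_add, Multiset.card_replicate, Multiset.filter_map,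
    Multiset.card_map]
  have h4 : Multiset.card (P.roots.filter ((fun z => dirR R z = OnePoint.infty) ∘
      fun z : K => (z : OnePoint K))) = Multiset.card (P.roots.filter fun z => ¬ ‖z‖ ≤ 1) := by
    refine congrArg (fun s : Multiset K => Multiset.card s)
      (Multiset.filter_congr fun z _ => ?_)
    constructor
    · intro h5 h6
      change dirR R (z : OnePoint K) = OnePoint.infty at h5
      rw [dirR_coe R h6] at h5
      exact OnePoint.coe_ne_infty _ h5
    · intro h5
      exact dirR_coe_of_lt R (not_le.1 h5)
  rw [h4]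
  omega

open Classical in
/-- the number of the elements of a fibre in a direction -/
theorem dircount {g : RM K} {h : k[X]} {T : RM k} (hg : GoodRed R g h T) (b : OnePoint K)
    (u : OnePoint k) : Multiset.card ((g.fibM b).filter fun z => dirR R z = u) =
      spl g h T u + if T.map u = dirR R b then T.mult u else 0 := by
  obtain ⟨e, he, hred⟩ := gd_red hg b
  have hB : gdP T (dirR R b) ≠ 0 := gdP_ne_zero T hg.2.1 _
  have ha : h * gdP T (dirR R b) ≠ 0 := mul_ne_zero hg.1 hB
  rw [← gd_count_eq T hg.2.1 (dirR R b) u, gd_fibM g b]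
  cases u using OnePoint.rec with
  | coe u =>
    rw [gd_count_coe]
    have h1 := gd_card_coe he hred ha (g.deg - (gdP g b).natDegree) u
    rw [rootMultiplicity_mul ha] at h1
    exact h1
  | infty =>
    rw [gd_count_infty]
    have h1 := gd_card_infty he hred ha (g.deg - (gdP g b).natDegree)
    rw [natDegree_mul hg.1 hB] at h1
    have h2 := gdP_natDegree_le g b
    have h3 := gdP_natDegree_le T (dirR R b)
    have h4 := hg.deg_le
    change _ = (g.deg - T.deg - h.natDegree) + _
    omega

/-- in a direction without surplus, the direction of the image is the image of the direction -/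
theorem follow {g : RM K} {h : k[X]} {T : RM k} (hg : GoodRed R g h T) {z : OnePoint K}
    (hu : spl g h T (dirR R z) = 0) : dirR R (g.map z) = T.map (dirR R z) := by
  classical
  have h1 := dircount hg (g.map z) (dirR R z)
  rw [hu, zero_add] at h1
  by_contra hne
  rw [if_neg (fun h2 => hne h2.symm), Multiset.card_eq_zero, Multiset.filter_eq_nil] at h1
  exact h1 z ((g.mem_fibM hg.one_le_deg _ _).2 rfl) rfl

/-- a point in a direction `u` without surplus where `T` is not critical is not critical -/
theorem mult_eq_one_of_good {g : RM K} {h : k[X]} {T : RM k} (hg : GoodRed R g h T)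
    {z : OnePoint K} (hu : spl g h T (dirR R z) = 0) (hm : T.mult (dirR R z) = 1) :
    g.mult z = 1 := by
  classical
  have h1 := dircount hg (g.map z) (dirR R z)
  rw [hu, zero_add, hm] at h1
  have h2 : g.mult z ≤ 1 := by
    have h3 : g.mult z = Multiset.card ((g.fibM (g.map z)).filter (z = ·)) := by
      rw [← Multiset.count_eq_card_filter_eq]
      unfold RM.mult
      congr
    have h4 : Multiset.card ((g.fibM (g.map z)).filter (z = ·)) ≤
        Multiset.card ((g.fibM (g.map z)).filter fun z' => dirR R z' = dirR R z) :=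
      Multiset.card_le_card (Multiset.monotone_filter_right _ fun z' hz' => by rw [hz'])
    rw [h3]
    refine h4.trans ?_
    rw [h1]
    split_ifs <;> omega
  have h5 := g.one_le_mult hg.one_le_deg z
  omega

end FS16
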