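import Pool.Agent.FS16.NSame

/-!
# Holes: complements of directions

MODULE N-HOLE.  The hole of the chart `c` and the direction `v` is the set of the `z` with
`dirR (c.to z) ≠ v`.
* `hole_form`: with `r = ‖ρ‖`: not inverted, `v = ∞`: `{‖z - a‖ ≤ r}`; not inverted, `v` finite with lift
  `ṽ`: `{‖z - (a + ρ ṽ)‖ ≥ r} ∪ {∞}`; inverted, `v = 0`: `{‖z - a‖ ≤ r}`; inverted, `v = ∞`:
  `{‖z - a‖ ≥ r} ∪ {∞}`; inverted, `v ≠ 0` finite: `{‖z - (a + ρ/ṽ)‖ ≥ r} ∪ {∞}`.
* `hole_disk`: a hole of `c₁` which is contained in the finite direction `v` at `c`.  If `c` is not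
  inverted then the hole does not contain `∞`, so it is a disc `{‖z - a₁‖ ≤ ‖s‖}` (`hole_form`), which
  is a disc in the coordinate `w = (z - a)/ρ`; its radius `‖s/ρ‖` is `< 1` since `a₁` and `a₁ + s` have the
  same direction at `c`.  If `c` is inverted, `w = ρ/(z - a)`, the hole does not contain `a`: for a hole
  `{‖z - a₁‖ ≤ ‖s‖}` we have `‖s‖ < ‖a - a₁‖ = ‖z - a‖` for `z` in the hole,
  `w - w₁ = ρ (a₁ - z)/((z - a)(a₁ - a))`, and the hole is `{‖w - w₁‖ ≤ ‖ρ‖ ‖s‖ / ‖a₁ - a‖^2}` (conversely, if
  `‖w - w₁‖` is so small then `‖w‖ = ‖w₁‖`, so `‖z - a‖ = ‖a₁ - a‖`); for a hole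
  `{‖z - a₁‖ ≥ ‖s‖} ∪ {∞}`, `‖a - a₁‖ < ‖s‖` and it is `{‖z - a‖ ≥ ‖s‖} ∪ {∞} = {‖w‖ ≤ ‖ρ/s‖}`.
  Again the radius is `< 1`, since it is the norm of a difference of two coordinates in the hole.
* `hole_deep`: for finite `v` by `hole_disk`: take `t = max r ‖a - R.lift v‖`.  For `v = ∞`: let `c'` be the
  chart of `exists_chart_at`... or directly with the inverted chart `c⁻ = ⟨a, ρ, _, !inv⟩`, whose
  coordinate is `1/w`, and `v⁻ = 0`.
* `two_points`: pairs of points in the same hole: `cr a = (x - a)/(x' - a)` (`1` for `a = ∞`).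
-/

open Polynomial

noncomputable section

namespace FS16

universe u

variable {K k : Type u} [NormedField K] [Field k] (R : Residue K k) [IsUltrametricDist K]

private theorem nsub_le_max (x y : K) : ‖x - y‖ ≤ max ‖x‖ ‖y‖ := by
  have h := IsUltrametricDist.norm_add_le_max x (-y)
  rwa [norm_neg, ← sub_eq_add_neg] at h

private theorem dir_coe_iff {x : K} {v : k} :
    dirR R (x : OnePoint K) = (v : OnePoint k) ↔ ‖x - R.lift v‖ < 1 := by
  constructor
  · intro h
    obtain ⟨y, hy, hy1, hyv⟩ := dirR_eq_coe R h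
    obtain rfl : x = y := OnePoint.coe_injective hy
    rw [← R.eq_iff hy1 (R.norm_lift v), R.red_lift]
    exact hyv
  · intro h
    have hx : ‖x‖ ≤ 1 := by
      have h1 := IsUltrametricDist.norm_add_le_max (x - R.lift v) (R.lift v)
      rw [sub_add_cancel] at h1
      exact h1.trans (max_le h.le (R.norm_lift v))
    rw [dirR_coe R hx, (R.eq_iff hx (R.norm_lift v)).2 h, R.red_lift]

omit [IsUltrametricDist K] in
private theorem dir_infty_iff {x : K} :
    dirR R (x : OnePoint K) = OnePoint.infty ↔ 1 < ‖x‖ := by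
  constructor
  · intro h
    by_contra hx
    rw [dirR_coe R (not_lt.1 hx)] at h
    exact OnePoint.coe_ne_infty _ h
  · intro h
    exact dirR_coe_of_lt R h

omit [IsUltrametricDist K] in
private theorem dir_zero_iff {x : K} :
    dirR R (x : OnePoint K) = ((0 : k) : OnePoint k) ↔ ‖x‖ < 1 := by
  constructor
  · intro h
    obtain ⟨y, hy, hy1, hyv⟩ := dirR_eq_coe R h
    obtain rfl : x = y := OnePoint.coe_injective hy
    exact (R.zero_iff x hy1).1 hyv
  · intro h
    rw [dirR_coe R h.le, (R.zero_iff x h.le).2 h]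

omit [IsUltrametricDist K] in
private theorem to_coe_f (c : Chart K) (h : c.inv = false) (z : K) :
    c.to (z : OnePoint K) = (((z - c.a) / c.ρ : K) : OnePoint K) := by
  classical
  change (if c.inv = true then
      (if z = c.a then OnePoint.infty else ((c.ρ / (z - c.a) : K) : OnePoint K))
      else (((z - c.a) / c.ρ : K) : OnePoint K)) = _
  rw [h]
  simp

omit [IsUltrametricDist K] in
private theorem to_infty_f (c : Chart K) (h : c.inv = false) :
    c.to OnePoint.infty = OnePoint.infty := by
  classical
  change (if c.inv = true then ((0 : K) : OnePoint K) else OnePoint.infty) = _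
  rw [h]
  simp

omit [IsUltrametricDist K] in
private theorem to_coe_t (c : Chart K) (h : c.inv = true) {z : K} (hz : z ≠ c.a) :
    c.to (z : OnePoint K) = ((c.ρ / (z - c.a) : K) : OnePoint K) := by
  classical
  change (if c.inv = true then
      (if z = c.a then OnePoint.infty else ((c.ρ / (z - c.a) : K) : OnePoint K))
      else (((z - c.a) / c.ρ : K) : OnePoint K)) = _
  rw [if_pos h, if_neg hz]

omit [IsUltrametricDist K] in
private theorem to_a_t (c : Chart K) (h : c.inv = true) :
    c.to (c.a : OnePoint K) = OnePoint.infty := by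
  classical
  change (if c.inv = true then
      (if c.a = c.a then OnePoint.infty else ((c.ρ / (c.a - c.a) : K) : OnePoint K))
      else (((c.a - c.a) / c.ρ : K) : OnePoint K)) = _
  rw [if_pos h, if_pos rfl]

omit [IsUltrametricDist K] in
private theorem to_infty_t (c : Chart K) (h : c.inv = true) :
    c.to OnePoint.infty = ((0 : K) : OnePoint K) := by
  classical
  change (if c.inv = true then ((0 : K) : OnePoint K) else OnePoint.infty) = _
  rw [if_pos h]

omit [IsUltrametricDist K] in
private theorem norm_rho_pos (c : Chart K) : 0 < ‖c.ρ‖ := norm_pos_iff.2 c.hρ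

/-- the form of a hole -/
theorem hole_form (c : Chart K) (v : OnePoint k) :
    ∃ a s : K, ‖s‖ = ‖c.ρ‖ ∧ ‖a - c.a‖ ≤ ‖s‖ ∧
      ((∀ z : K, dirR R (c.to (z : OnePoint K)) ≠ v ↔ ‖z - a‖ ≤ ‖s‖) ∧
          dirR R (c.to OnePoint.infty) = v ∨
        (∀ z : K, dirR R (c.to (z : OnePoint K)) ≠ v ↔ ‖s‖ ≤ ‖z - a‖) ∧
          dirR R (c.to OnePoint.infty) ≠ v) := by
  have hρ := norm_rho_pos c
  cases hinv : c.inv with
  | false =>
    cases v using OnePoint.rec with
    | infty =>
      refine ⟨c.a, c.ρ, rfl, by simp, Or.inl ⟨fun z => ?_, ?_⟩⟩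
      · rw [to_coe_f c hinv, ne_eq, dir_infty_iff, not_lt, norm_div, div_le_one hρ]
      · rw [to_infty_f c hinv, dirR_infty]
    | coe v =>
      refine ⟨c.a + c.ρ * R.lift v, c.ρ, rfl, ?_, Or.inr ⟨fun z => ?_, ?_⟩⟩
      · rw [add_sub_cancel_left, norm_mul]
        exact mul_le_of_le_one_right hρ.le (R.norm_lift v)
      · rw [to_coe_f c hinv, ne_eq, dir_coe_iff, not_lt]
        have h1 : (z - c.a) / c.ρ - R.lift v = (z - (c.a + c.ρ * R.lift v)) / c.ρ := by
          field_simp [c.hρ]
          ring
        rw [h1, norm_div, le_div_iff₀ hρ, one_mul]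
      · rw [to_infty_f c hinv, dirR_infty]
        exact OnePoint.infty_ne_coe v
  | true =>
    cases v using OnePoint.rec with
    | infty =>
      refine ⟨c.a, c.ρ, rfl, by simp, Or.inr ⟨fun z => ?_, ?_⟩⟩
      · by_cases hz : z = c.a
        · rw [hz, to_a_t c hinv, dirR_infty, sub_self, norm_zero]
          constructor
          · intro h
            exact absurd rfl h
          · intro h
            exact absurd h (not_le.2 hρ)
        · have hzp : 0 < ‖z - c.a‖ := norm_pos_iff.2 (sub_ne_zero.2 hz)
          rw [to_coe_t c hinv hz, ne_eq, dir_infty_iff, not_lt, norm_div, div_le_one hzp]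
      · rw [to_infty_t c hinv, ne_eq, dir_infty_iff, norm_zero]
        norm_num
    | coe v =>
      by_cases hv : v = 0
      · subst hv
        refine ⟨c.a, c.ρ, rfl, by simp, Or.inl ⟨fun z => ?_, ?_⟩⟩
        · by_cases hz : z = c.a
          · rw [hz, to_a_t c hinv, dirR_infty, sub_self, norm_zero]
            constructor
            · intro _
              exact hρ.le
            · intro _
              exact OnePoint.infty_ne_coe _
          · have hzp : 0 < ‖z - c.a‖ := norm_pos_iff.2 (sub_ne_zero.2 hz)
            rw [to_coe_t c hinv hz, ne_eq, dir_zero_iff, not_lt, norm_div, le_div_iff₀ hzp,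
              one_mul]
        · rw [to_infty_t c hinv, dir_zero_iff, norm_zero]
          norm_num
      · have hl1 : ‖R.lift v‖ = 1 := by
          rw [← R.norm_eq_one (R.norm_lift v), R.red_lift]
          exact hv
        have hl0 : R.lift v ≠ 0 := by
          intro h
          rw [h, norm_zero] at hl1
          exact zero_ne_one hl1
        have hn : ‖c.ρ / R.lift v‖ = ‖c.ρ‖ := by rw [norm_div, hl1, div_one]
        refine ⟨c.a + c.ρ / R.lift v, c.ρ, rfl, ?_, Or.inr ⟨fun z => ?_, ?_⟩⟩
        · rw [add_sub_cancel_left, hn]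
        · by_cases hz : z = c.a
          · rw [hz, to_a_t c hinv, dirR_infty]
            constructor
            · intro _
              have : c.a - (c.a + c.ρ / R.lift v) = -(c.ρ / R.lift v) := by ring
              rw [this, norm_neg, hn]
            · intro _
              exact OnePoint.infty_ne_coe _
          · have hz0 : z - c.a ≠ 0 := sub_ne_zero.2 hz
            have hzp : 0 < ‖z - c.a‖ := norm_pos_iff.2 hz0
            rw [to_coe_t c hinv hz, ← not_lt, not_iff_not, dir_coe_iff]
            have h1 : c.ρ / (z - c.a) - R.lift v =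
                -(R.lift v * (z - (c.a + c.ρ / R.lift v)) / (z - c.a)) := by
              field_simp
              ring
            rw [h1, norm_neg, norm_div, norm_mul, hl1, one_mul, div_lt_one hzp]
            set y := z - (c.a + c.ρ / R.lift v) with hy
            have h2 : z - c.a = y + c.ρ / R.lift v := by rw [hy]; ring
            constructor
            · intro h
              by_contra hcon
              rw [not_lt] at hcon
              have h3 := IsUltrametricDist.norm_add_le_max y (c.ρ / R.lift v)
              rw [← h2, hn, max_eq_left hcon] at h3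
              linarith
            · intro h
              have h3 : ‖z - c.a‖ = ‖c.ρ‖ := by
                rw [h2, ← hn]
                rw [← hn] at h
                rw [IsUltrametricDist.norm_add_eq_max_of_norm_ne_norm h.ne, max_eq_right h.le]
              rw [h3]
              exact h
        · rw [to_infty_t c hinv, ne_eq, dir_coe_iff, zero_sub, norm_neg, hl1]
          norm_num

/-- a hole in a finite direction at `c` is a disc in the coordinate of `c` -/
theorem hole_disk {c c₁ : Chart K} {v : k} {v₁ : OnePoint k}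
    (h : ∀ z, dirR R (c₁.to z) ≠ v₁ → dirR R (c.to z) = (v : OnePoint k)) :
    ∃ a : K, ∃ r : ℝ, 0 < r ∧ r < 1 ∧ ‖a‖ ≤ 1 ∧ R.red a = v ∧
      ∀ z, dirR R (c₁.to z) ≠ v₁ ↔ ∃ x : K, c.to z = (x : OnePoint K) ∧ ‖x - a‖ ≤ r := by
  have hρ := norm_rho_pos c
  obtain ⟨a₁, s, hs, -, hform⟩ := hole_form R c₁ v₁
  have hsp : 0 < ‖s‖ := by rw [hs]; exact norm_rho_pos c₁
  have hs0 : s ≠ 0 := norm_pos_iff.1 hsp
  rcases hform with ⟨hz, hinf⟩ | ⟨hz, hinf⟩
  · -- the hole is a disc
    have hin : dirR R (c₁.to (a₁ : OnePoint K)) ≠ v₁ := (hz a₁).2 (by simp)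
    have hin' : dirR R (c₁.to ((a₁ + s : K) : OnePoint K)) ≠ v₁ := (hz _).2 (by simp)
    have hd := h _ hin
    have hd' := h _ hin'
    cases hinv : c.inv with
    | false =>
      rw [to_coe_f c hinv, dir_coe_iff] at hd hd'
      have hw1 : ‖(a₁ - c.a) / c.ρ‖ ≤ 1 := by
        have h1 := IsUltrametricDist.norm_add_le_max ((a₁ - c.a) / c.ρ - R.lift v) (R.lift v)
        rw [sub_add_cancel] at h1
        exact h1.trans (max_le hd.le (R.norm_lift v))
      refine ⟨(a₁ - c.a) / c.ρ, ‖s‖ / ‖c.ρ‖, by positivity, ?_, hw1, ?_, fun z => ?_⟩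
      · have h1 : s / c.ρ = ((a₁ + s - c.a) / c.ρ - R.lift v) - ((a₁ - c.a) / c.ρ - R.lift v) := by
          field_simp [c.hρ]
          ring
        rw [← norm_div, h1]
        exact lt_of_le_of_lt (nsub_le_max _ _) (max_lt hd' hd)
      · have h1 := (R.eq_iff hw1 (R.norm_lift v)).2 hd
        rw [h1, R.red_lift]
      · cases z using OnePoint.rec with
        | infty =>
          rw [to_infty_f c hinv]
          constructor
          · intro h1
            exact absurd hinf h1
          · rintro ⟨x, hx, -⟩
            exact absurd hx (OnePoint.infty_ne_coe x)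
        | coe z =>
          rw [hz z, to_coe_f c hinv]
          have h1 : (z - c.a) / c.ρ - (a₁ - c.a) / c.ρ = (z - a₁) / c.ρ := by
            field_simp [c.hρ]
            ring
          constructor
          · intro h2
            refine ⟨_, rfl, ?_⟩
            rw [h1, norm_div]
            exact div_le_div_of_nonneg_right h2 hρ.le
          · rintro ⟨x, hx, hx'⟩
            obtain rfl := OnePoint.coe_injective hx
            rw [h1, norm_div] at hx'
            exact (div_le_div_iff_of_pos_right hρ).1 hx'
    | true =>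
      have ha : ‖s‖ < ‖c.a - a₁‖ := by
        by_contra hcon
        have h1 := h _ ((hz c.a).2 (not_lt.1 hcon))
        rw [to_a_t c hinv, dirR_infty] at h1
        exact OnePoint.infty_ne_coe _ h1
      have ha1 : a₁ ≠ c.a := by
        rintro rfl
        rw [sub_self, norm_zero] at ha
        linarith
      set d : ℝ := ‖a₁ - c.a‖ with hdd
      have had : ‖s‖ < d := by rw [hdd, norm_sub_rev]; exact ha
      have hd0 : 0 < d := hsp.trans had
      have heq : ∀ z : K, ‖z - a₁‖ ≤ ‖s‖ → ‖z - c.a‖ = d := by
        intro z hz1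
        have h1 : z - c.a = (z - a₁) + (a₁ - c.a) := by ring
        have h2 : ‖z - a₁‖ < ‖a₁ - c.a‖ := lt_of_le_of_lt hz1 had
        rw [h1, IsUltrametricDist.norm_add_eq_max_of_norm_ne_norm h2.ne, max_eq_right h2.le]
      have hne : ∀ z : K, ‖z - a₁‖ ≤ ‖s‖ → z ≠ c.a := by
        rintro z hz1 rfl
        have := heq _ hz1
        rw [sub_self, norm_zero] at this
        linarith
      have hdiff : ∀ z : K, z ≠ c.a → ‖c.ρ / (z - c.a) - c.ρ / (a₁ - c.a)‖ =
          ‖c.ρ‖ * ‖z - a₁‖ / (‖z - c.a‖ * d) := by
        intro z hz1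
        have h1 : c.ρ / (z - c.a) - c.ρ / (a₁ - c.a) =
            -(c.ρ * (z - a₁) / ((z - c.a) * (a₁ - c.a))) := by
          have h2 : z - c.a ≠ 0 := sub_ne_zero.2 hz1
          have h3 : a₁ - c.a ≠ 0 := sub_ne_zero.2 ha1
          field_simp
          ring
        rw [h1, norm_neg, norm_div, norm_mul, norm_mul]
      have hns : a₁ + s ≠ c.a := hne _ (by simp)
      rw [to_coe_t c hinv ha1, dir_coe_iff] at hd
      rw [to_coe_t c hinv hns, dir_coe_iff] at hd'
      have hw1 : ‖c.ρ / (a₁ - c.a)‖ ≤ 1 := by
        have h1 := IsUltrametricDist.norm_add_le_max (c.ρ / (a₁ - c.a) - R.lift v) (R.lift v)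
        rw [sub_add_cancel] at h1
        exact h1.trans (max_le hd.le (R.norm_lift v))
      refine ⟨c.ρ / (a₁ - c.a), ‖c.ρ‖ * ‖s‖ / (d * d), by positivity, ?_, hw1, ?_, fun z => ?_⟩
      · have h1 := hdiff (a₁ + s) hns
        rw [heq _ (by simp), add_sub_cancel_left] at h1
        rw [← h1]
        have h2 : c.ρ / (a₁ + s - c.a) - c.ρ / (a₁ - c.a) =
            (c.ρ / (a₁ + s - c.a) - R.lift v) - (c.ρ / (a₁ - c.a) - R.lift v) := by ring
        rw [h2]
        exact lt_of_le_of_lt (nsub_le_max _ _) (max_lt hd' hd)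
      · have h1 := (R.eq_iff hw1 (R.norm_lift v)).2 hd
        rw [h1, R.red_lift]
      · cases z using OnePoint.rec with
        | infty =>
          rw [to_infty_t c hinv]
          constructor
          · intro h1
            exact absurd hinf h1
          · rintro ⟨x, hx, hx'⟩
            exfalso
            obtain rfl := OnePoint.coe_injective hx
            rw [zero_sub, norm_neg, norm_div, ← hdd, div_le_div_iff₀ hd0 (by positivity)] at hx'
            have : ‖c.ρ‖ * d * (d - ‖s‖) ≤ 0 := by nlinarith
            have h2 : 0 < ‖c.ρ‖ * d * (d - ‖s‖) := by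
              have : 0 < d - ‖s‖ := by linarith
              positivity
            linarith
        | coe z =>
          rw [hz z]
          constructor
          · intro h2
            refine ⟨_, to_coe_t c hinv (hne z h2), ?_⟩
            rw [hdiff z (hne z h2), heq z h2]
            have : ‖c.ρ‖ * ‖z - a₁‖ ≤ ‖c.ρ‖ * ‖s‖ := mul_le_mul_of_nonneg_left h2 hρ.le
            exact div_le_div_of_nonneg_right this (by positivity)
          · rintro ⟨x, hx, hx'⟩
            have hzc : z ≠ c.a := by
              rintro rfl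
              rw [to_a_t c hinv] at hx
              exact OnePoint.infty_ne_coe _ hx
            rw [to_coe_t c hinv hzc] at hx
            obtain rfl := OnePoint.coe_injective hx
            have hzp : 0 < ‖z - c.a‖ := norm_pos_iff.2 (sub_ne_zero.2 hzc)
            rw [hdiff z hzc, div_le_div_iff₀ (by positivity) (by positivity)] at hx'
            have h3 : ‖z - a₁‖ * d ≤ ‖s‖ * ‖z - c.a‖ := by
              have h4 : (‖c.ρ‖ * d) * (‖z - a₁‖ * d) ≤ (‖c.ρ‖ * d) * (‖s‖ * ‖z - c.a‖) := by
                nlinarith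
              exact le_of_mul_le_mul_left h4 (by positivity)
            have h5 := IsUltrametricDist.norm_add_le_max (z - a₁) (a₁ - c.a)
            rw [sub_add_sub_cancel, ← hdd] at h5
            rcases le_total d ‖z - a₁‖ with h6 | h6
            · exfalso
              rw [max_eq_left h6] at h5
              have h7 : ‖s‖ * ‖z - c.a‖ ≤ ‖s‖ * ‖z - a₁‖ := mul_le_mul_of_nonneg_left h5 hsp.le
              have h8 : ‖z - a₁‖ * ‖s‖ < ‖z - a₁‖ * d :=
                mul_lt_mul_of_pos_left had (lt_of_lt_of_le hd0 h6)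
              linarith
            · rw [max_eq_right h6] at h5
              have h7 : ‖s‖ * ‖z - c.a‖ ≤ ‖s‖ * d := mul_le_mul_of_nonneg_left h5 hsp.le
              exact le_of_mul_le_mul_right (h3.trans h7) hd0
  · -- the hole contains infinity
    have hd := h _ hinf
    cases hinv : c.inv with
    | false =>
      rw [to_infty_f c hinv, dirR_infty] at hd
      exact absurd hd (OnePoint.infty_ne_coe _)
    | true =>
      rw [to_infty_t c hinv] at hd
      have hv0 : R.red 0 = v := by
        obtain ⟨x, hx, hx1, hxv⟩ := dirR_eq_coe R hd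
        obtain rfl := OnePoint.coe_injective hx
        exact hxv
      have hv : v = 0 := by rw [← hv0, R.zero]
      have ha : ‖c.a - a₁‖ < ‖s‖ := by
        by_contra hcon
        have h1 := h _ ((hz c.a).2 (not_lt.1 hcon))
        rw [to_a_t c hinv, dirR_infty] at h1
        exact OnePoint.infty_ne_coe _ h1
      have hiff : ∀ z : K, ‖s‖ ≤ ‖z - a₁‖ ↔ ‖s‖ ≤ ‖z - c.a‖ := by
        intro z
        constructor
        · intro h1
          by_contra hcon
          rw [not_le] at hcon
          have h2 := IsUltrametricDist.norm_add_le_max (z - c.a) (c.a - a₁)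
          rw [sub_add_sub_cancel] at h2
          exact absurd (lt_of_le_of_lt h2 (max_lt hcon ha)) (not_lt.2 h1)
        · intro h1
          by_contra hcon
          rw [not_le] at hcon
          have h2 := nsub_le_max (z - a₁) (c.a - a₁)
          rw [sub_sub_sub_cancel_right] at h2
          exact absurd (lt_of_le_of_lt h2 (max_lt hcon ha)) (not_lt.2 h1)
      refine ⟨0, ‖c.ρ‖ / ‖s‖, by positivity, ?_, by simp, hv0, fun z => ?_⟩
      · have h1 := h _ ((hz (c.a + s)).2 ((hiff _).2 (by simp)))
        have h2 : c.a + s ≠ c.a := by simpa using hs0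
        rw [to_coe_t c hinv h2, add_sub_cancel_left, hv, dir_zero_iff, norm_div] at h1
        exact h1
      · cases z using OnePoint.rec with
        | infty =>
          constructor
          · intro _
            exact ⟨0, to_infty_t c hinv, by rw [sub_zero, norm_zero]; positivity⟩
          · intro _
            exact hinf
        | coe z =>
          rw [hz z, hiff z]
          constructor
          · intro h1
            have hzc : z ≠ c.a := by
              rintro rfl
              rw [sub_self, norm_zero] at h1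
              linarith
            refine ⟨_, to_coe_t c hinv hzc, ?_⟩
            rw [sub_zero, norm_div]
            exact div_le_div_of_nonneg_left hρ.le hsp h1
          · rintro ⟨x, hx, hx'⟩
            have hzc : z ≠ c.a := by
              rintro rfl
              rw [to_a_t c hinv] at hx
              exact OnePoint.infty_ne_coe _ hx
            rw [to_coe_t c hinv hzc] at hx
            obtain rfl := OnePoint.coe_injective hx
            have hzp : 0 < ‖z - c.a‖ := norm_pos_iff.2 (sub_ne_zero.2 hzc)
            rw [sub_zero, norm_div, div_le_div_iff_of_pos_left hρ hzp hsp] at hx'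
            exact hx'

/-- a hole in the direction `v` at `c` is away from the boundary of the direction -/
theorem hole_deep {c c₁ : Chart K} {v v₁ : OnePoint k}
    (h : ∀ z, dirR R (c₁.to z) ≠ v₁ → dirR R (c.to z) = v) :
    ∃ t < 1, ∀ z, dirR R (c₁.to z) ≠ v₁ → radR R v (c.to z) ≤ t := by
  cases v using OnePoint.rec with
  | coe v =>
    obtain ⟨a, r, hr0, hr1, ha1, hav, hz⟩ := hole_disk R h
    refine ⟨max r ‖a - R.lift v‖, ?_, fun z hzh => ?_⟩
    · refine max_lt hr1 ?_
      rw [← R.eq_iff ha1 (R.norm_lift v), R.red_lift]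
      exact hav
    · obtain ⟨x, hx, hx'⟩ := (hz z).1 hzh
      rw [hx, radR_coe]
      have h1 : x - R.lift v = (x - a) + (a - R.lift v) := by ring
      rw [h1]
      exact (IsUltrametricDist.norm_add_le_max _ _).trans (max_le_max hx' le_rfl)
  | infty =>
    set c' : Chart K := ⟨c.a, c.ρ, c.hρ, !c.inv⟩ with hc'
    -- relation of the two coordinates
    have key : ∀ z : OnePoint K, dirR R (c.to z) = OnePoint.infty →
        ∃ x : K, c'.to z = (x : OnePoint K) ∧ ‖x‖ < 1 ∧
          radR R OnePoint.infty (c.to z) = ‖x‖ := by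
      intro z hzd
      cases hinv : c.inv with
      | false =>
        have hinv' : c'.inv = true := by rw [hc']; simp [hinv]
        cases z using OnePoint.rec with
        | infty =>
          refine ⟨0, to_infty_t c' hinv', by simp, ?_⟩
          rw [to_infty_f c hinv, norm_zero]
          rfl
        | coe z =>
          rw [to_coe_f c hinv, dir_infty_iff] at hzd
          have hzc : z ≠ c.a := by
            rintro rfl
            rw [sub_self, zero_div, norm_zero] at hzd
            linarith
          have hz0 : z - c.a ≠ 0 := sub_ne_zero.2 hzc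
          have h1 : c.ρ / (z - c.a) = ((z - c.a) / c.ρ)⁻¹ := by rw [inv_div]
          refine ⟨c.ρ / (z - c.a), to_coe_t c' hinv' hzc, ?_, ?_⟩
          · rw [h1, norm_inv]
            exact inv_lt_one_of_one_lt₀ hzd
          · rw [to_coe_f c hinv, radR_infty_coe, h1, norm_inv]
      | true =>
        have hinv' : c'.inv = false := by rw [hc']; simp [hinv]
        cases z using OnePoint.rec with
        | infty =>
          rw [to_infty_t c hinv, dir_infty_iff, norm_zero] at hzd
          linarith
        | coe z =>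
          by_cases hzc : z = c.a
          · subst hzc
            refine ⟨0, ?_, by simp, ?_⟩
            · rw [to_coe_f c' hinv']
              congr 1
              rw [hc']
              simp
            · rw [to_a_t c hinv, norm_zero]
              rfl
          · rw [to_coe_t c hinv hzc, dir_infty_iff] at hzd
            have hz0 : z - c.a ≠ 0 := sub_ne_zero.2 hzc
            have h1 : (z - c.a) / c.ρ = (c.ρ / (z - c.a))⁻¹ := by rw [inv_div]
            refine ⟨(z - c.a) / c.ρ, to_coe_f c' hinv' z, ?_, ?_⟩
            · rw [h1, norm_inv]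
              exact inv_lt_one_of_one_lt₀ hzd
            · rw [to_coe_t c hinv hzc, radR_infty_coe, h1, norm_inv]
    have h' : ∀ z, dirR R (c₁.to z) ≠ v₁ → dirR R (c'.to z) = ((0 : k) : OnePoint k) := by
      intro z hzh
      obtain ⟨x, hx, hx1, -⟩ := key z (h z hzh)
      rw [hx, dir_zero_iff]
      exact hx1
    obtain ⟨a, r, hr0, hr1, ha1, hav, hz⟩ := hole_disk R h'
    refine ⟨max r ‖a‖, ?_, fun z hzh => ?_⟩
    · exact max_lt hr1 ((R.zero_iff a ha1).1 hav)
    · obtain ⟨x, hx, hx1, hrad⟩ := key z (h z hzh)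
      obtain ⟨y, hy, hy'⟩ := (hz z).1 hzh
      have hxy : x = y := by
        rw [hx] at hy
        exact OnePoint.coe_injective hy
      subst hxy
      rw [hrad]
      have h1 : x = (x - a) + a := by ring
      rw [h1]
      exact (IsUltrametricDist.norm_add_le_max _ _).trans (max_le_max hy' le_rfl)

open Classical in
/-- the quotient `(x - a)/(x' - a)` -/
def cr (x x' : K) (a : OnePoint K) : K :=
  if a = OnePoint.infty then 1 else (x - toFin a) / (x' - toFin a)

omit [IsUltrametricDist K] in
private theorem cr_infty (x x' : K) : cr x x' OnePoint.infty = 1 := by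
  unfold cr
  rw [if_pos rfl]

omit [IsUltrametricDist K] in
private theorem cr_coe (x x' a : K) : cr x x' (a : OnePoint K) = (x - a) / (x' - a) := by
  unfold cr
  rw [if_neg (OnePoint.coe_ne_infty a)]
  rfl

private theorem unit_norm {u : K} (h : ‖u - 1‖ < 1) : ‖u‖ = 1 := by
  have h1 : u = (u - 1) + 1 := by ring
  rw [h1]
  have h2 : ‖u - 1‖ < ‖(1 : K)‖ := by rwa [norm_one]
  rw [IsUltrametricDist.norm_add_eq_max_of_norm_ne_norm h2.ne, max_eq_right h2.le, norm_one]

private theorem unit_mul {u w : K} (hu : ‖u - 1‖ < 1) (hw : ‖w - 1‖ < 1) : ‖u * w - 1‖ < 1 := by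
  have h1 : u * w - 1 = u * (w - 1) + (u - 1) := by ring
  rw [h1]
  refine lt_of_le_of_lt (IsUltrametricDist.norm_add_le_max _ _) (max_lt ?_ hu)
  rw [norm_mul, unit_norm hu, one_mul]
  exact hw

private theorem unit_inv {u : K} (hu : ‖u - 1‖ < 1) : ‖u⁻¹ - 1‖ < 1 := by
  have hn := unit_norm hu
  have hu0 : u ≠ 0 := by
    rintro rfl
    rw [norm_zero] at hn
    exact zero_ne_one hn
  have h1 : u⁻¹ - 1 = -((u - 1) / u) := by
    field_simp
    ring
  rw [h1, norm_neg, norm_div, hn, div_one]
  exact hu

/-- the pair lemma -/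
private theorem cr_pair {V : Set (OnePoint K)}
    (hV : (∃ (a : K) (r : ℝ), V = {z | ∃ x : K, z = (x : OnePoint K) ∧ ‖x - a‖ ≤ r}) ∨
      ∃ (a : K) (r : ℝ), V = {z | ∀ x : K, z = (x : OnePoint K) → r ≤ ‖x - a‖})
    {x x' : K} (hx : (x : OnePoint K) ∉ V) (hx' : (x' : OnePoint K) ∉ V)
    {z p : OnePoint K} (hz : z ∈ V) (hp : p ∈ V) :
    cr x x' z ≠ 0 ∧ ‖cr x x' z / cr x x' p - 1‖ < 1 := by
  rcases hV with ⟨a, r, rfl⟩ | ⟨a, r, rfl⟩
  · obtain ⟨z, rfl, hz⟩ := hz
    obtain ⟨p, rfl, hp⟩ := hp
    have hxa : r < ‖x - a‖ := by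
      by_contra hcon
      exact hx ⟨x, rfl, not_lt.1 hcon⟩
    have hxa' : r < ‖x' - a‖ := by
      by_contra hcon
      exact hx' ⟨x', rfl, not_lt.1 hcon⟩
    have hfar : ∀ y q : K, r < ‖y - a‖ → ‖q - a‖ ≤ r → ‖y - q‖ = ‖y - a‖ := by
      intro y q hy hq
      have h1 : y - q = (y - a) + (-(q - a)) := by ring
      have h2 : ‖-(q - a)‖ < ‖y - a‖ := by
        rw [norm_neg]
        exact lt_of_le_of_lt hq hy
      rw [h1, IsUltrametricDist.norm_add_eq_max_of_norm_ne_norm h2.ne', max_eq_left h2.le]
    have hpz : ‖p - z‖ ≤ r := by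
      have h1 := nsub_le_max (p - a) (z - a)
      rw [sub_sub_sub_cancel_right] at h1
      exact h1.trans (max_le hp hz)
    have hr : 0 ≤ r := (norm_nonneg _).trans hz
    have hnz : ∀ y q : K, r < ‖y - a‖ → ‖q - a‖ ≤ r → y - q ≠ 0 := by
      intro y q hy hq h0
      have := hfar y q hy hq
      rw [h0, norm_zero] at this
      linarith
    have n1 := hnz x z hxa hz
    have n2 := hnz x p hxa hp
    have n3 := hnz x' z hxa' hz
    have n4 := hnz x' p hxa' hp
    rw [cr_coe, cr_coe]
    refine ⟨div_ne_zero n1 n3, ?_⟩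
    have h1 : (x - z) / (x' - z) / ((x - p) / (x' - p)) =
        ((x - z) / (x - p)) * ((x' - p) / (x' - z)) := by
      field_simp
    rw [h1]
    apply unit_mul
    · have h2 : (x - z) / (x - p) - 1 = (p - z) / (x - p) := by
        field_simp
        ring
      rw [h2, norm_div, hfar x p hxa hp, div_lt_one (lt_of_le_of_lt hr hxa)]
      exact lt_of_le_of_lt hpz hxa
    · have h2 : (x' - p) / (x' - z) - 1 = -((p - z) / (x' - z)) := by
        field_simp
        ring
      rw [h2, norm_neg, norm_div, hfar x' z hxa' hz, div_lt_one (lt_of_le_of_lt hr hxa')]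
      exact lt_of_le_of_lt hpz hxa'
  · have hxa : ‖x - a‖ < r := by
      by_contra hcon
      refine hx fun y hy => ?_
      obtain rfl := OnePoint.coe_injective hy
      exact not_lt.1 hcon
    have hxa' : ‖x' - a‖ < r := by
      by_contra hcon
      refine hx' fun y hy => ?_
      obtain rfl := OnePoint.coe_injective hy
      exact not_lt.1 hcon
    have hone : ∀ q : OnePoint K, q ∈ {z : OnePoint K | ∀ x : K, z = (x : OnePoint K) →
        r ≤ ‖x - a‖} → ‖cr x x' q - 1‖ < 1 := by
      intro q hq
      cases q using OnePoint.rec with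
      | infty =>
        rw [cr_infty, sub_self, norm_zero]
        exact one_pos
      | coe q =>
        have hqa : r ≤ ‖q - a‖ := hq q rfl
        have h3 : ‖x' - q‖ = ‖q - a‖ := by
          have h1 : x' - q = (x' - a) + (-(q - a)) := by ring
          have h2 : ‖x' - a‖ < ‖-(q - a)‖ := by
            rw [norm_neg]
            exact lt_of_lt_of_le hxa' hqa
          rw [h1, IsUltrametricDist.norm_add_eq_max_of_norm_ne_norm h2.ne, max_eq_right h2.le,
            norm_neg]
        have hq0 : 0 < ‖q - a‖ := lt_of_le_of_lt (norm_nonneg _) (lt_of_lt_of_le hxa' hqa)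
        have h4 : x' - q ≠ 0 := by
          intro h0
          rw [h0, norm_zero] at h3
          linarith
        have h5 : (x - q) / (x' - q) - 1 = ((x - a) - (x' - a)) / (x' - q) := by
          field_simp
          ring
        rw [cr_coe, h5, norm_div, h3, div_lt_one hq0]
        exact lt_of_lt_of_le (lt_of_le_of_lt (nsub_le_max _ _)
          (max_lt hxa hxa')) hqa
    refine ⟨?_, ?_⟩
    · intro h0
      have := unit_norm (hone z hz)
      rw [h0, norm_zero] at this
      exact zero_ne_one this
    · rw [div_eq_mul_inv]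
      exact unit_mul (hone z hz) (unit_inv (hone p hp))

private theorem unit_multiset {f : OnePoint K → K} (A : Multiset (OnePoint K)) :
    ∀ B : Multiset (OnePoint K), Multiset.card A = Multiset.card B →
    (∀ z ∈ A, ∀ p ∈ B, ‖f z / f p - 1‖ < 1) →
    ‖(A.map f).prod / (B.map f).prod - 1‖ < 1 := by
  induction A using Multiset.induction_on with
  | empty =>
    intro B hB _
    rw [Multiset.card_zero] at hB
    rw [Multiset.card_eq_zero.1 hB.symm]
    simp
  | cons z A ih =>
    intro B hB h
    obtain ⟨p, B', rfl⟩ : ∃ p B', B = p ::ₘ B' := by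
      have h1 : 0 < Multiset.card B := by
        rw [← hB, Multiset.card_cons]
        omega
      obtain ⟨p, hp⟩ := Multiset.card_pos_iff_exists_mem.1 h1
      exact ⟨p, _, (Multiset.exists_cons_of_mem hp).choose_spec⟩
    rw [Multiset.map_cons, Multiset.map_cons, Multiset.prod_cons, Multiset.prod_cons,
      mul_div_mul_comm]
    refine unit_mul (h z (Multiset.mem_cons_self _ _) p (Multiset.mem_cons_self _ _))
      (ih B' ?_ fun z' hz' p' hp' => h z' (Multiset.mem_cons_of_mem hz') p'
        (Multiset.mem_cons_of_mem hp'))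
    rw [Multiset.card_cons, Multiset.card_cons] at hB
    omega

omit [IsUltrametricDist K] in
open Classical in
private theorem prod_split {ι : Type*} [Fintype ι] (V : ι → Set (OnePoint K))
    (hdisj : ∀ i j, i ≠ j → Disjoint (V i) (V j)) (f : OnePoint K → K)
    (Z : Multiset (OnePoint K)) (hZ : ∀ z ∈ Z, ∃ i, z ∈ V i) :
    (Z.map f).prod = ∏ i, ((Z.filter (· ∈ V i)).map f).prod := by
  induction Z using Multiset.induction_on with
  | empty => simp
  | cons z Z ih =>
    have ih' := ih fun z' hz' => hZ z' (Multiset.mem_cons_of_mem hz')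
    obtain ⟨i₀, hi₀⟩ := hZ z (Multiset.mem_cons_self _ _)
    have h1 : ∀ i, (((z ::ₘ Z).filter (· ∈ V i)).map f).prod =
        (if i = i₀ then f z else 1) * ((Z.filter (· ∈ V i)).map f).prod := by
      intro i
      by_cases hi : i = i₀
      · subst hi
        rw [Multiset.filter_cons_of_pos _ hi₀, Multiset.map_cons, Multiset.prod_cons, if_pos rfl]
      · have hzi : z ∉ V i := fun hz => Set.disjoint_left.1 (hdisj i i₀ hi) hz hi₀
        rw [Multiset.filter_cons_of_neg _ hzi, if_neg hi, one_mul]
    rw [Multiset.map_cons, Multiset.prod_cons, Finset.prod_congr rfl fun i _ => h1 i,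
      Finset.prod_mul_distrib, ← ih', Finset.prod_ite_eq' Finset.univ i₀ (fun _ => f z),
      if_pos (Finset.mem_univ _)]

open Classical in
/-- the function with the zeros `Z` and the poles `P` is almost constant outside of the holes, if every
hole contains as many zeros as poles -/
theorem cr_prod {ι : Type*} [Fintype ι] (V : ι → Set (OnePoint K))
    (hV : ∀ i, (∃ (a : K) (r : ℝ), V i = {z | ∃ x : K, z = (x : OnePoint K) ∧ ‖x - a‖ ≤ r}) ∨
      ∃ (a : K) (r : ℝ), V i = {z | ∀ x : K, z = (x : OnePoint K) → r ≤ ‖x - a‖})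
    (hdisj : ∀ i j, i ≠ j → Disjoint (V i) (V j)) (Z P : Multiset (OnePoint K))
    (hZ : ∀ z ∈ Z, ∃ i, z ∈ V i) (hP : ∀ z ∈ P, ∃ i, z ∈ V i)
    (hc : ∀ i, Multiset.card (Z.filter (· ∈ V i)) = Multiset.card (P.filter (· ∈ V i)))
    {x x' : K} (hx : ∀ i, (x : OnePoint K) ∉ V i) (hx' : ∀ i, (x' : OnePoint K) ∉ V i) :
    (Z.map (cr x x')).prod ≠ 0 ∧ (P.map (cr x x')).prod ≠ 0 ∧
      ‖(Z.map (cr x x')).prod / (P.map (cr x x')).prod - 1‖ < 1 := by
  have hne : ∀ W : Multiset (OnePoint K), (∀ z ∈ W, ∃ i, z ∈ V i) →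
      (W.map (cr x x')).prod ≠ 0 := by
    intro W hW h0
    rw [Multiset.prod_eq_zero_iff, Multiset.mem_map] at h0
    obtain ⟨z, hz, hz0⟩ := h0
    obtain ⟨i, hi⟩ := hW z hz
    exact (cr_pair (hV i) (hx i) (hx' i) hi hi).1 hz0
  refine ⟨hne Z hZ, hne P hP, ?_⟩
  rw [prod_split V hdisj _ Z hZ, prod_split V hdisj _ P hP, ← Finset.prod_div_distrib]
  refine Finset.prod_induction _ (fun u => ‖u - 1‖ < 1) (fun u w hu hw => unit_mul hu hw)
    (by simp) fun i _ => ?_
  refine unit_multiset _ _ (hc i) fun z hz p hp => ?_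
  exact (cr_pair (hV i) (hx i) (hx' i) (Multiset.mem_filter.1 hz).2 (Multiset.mem_filter.1 hp).2).2

end FS16
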