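import Pool.Agent.FS16.NProj

/-!
# Maps of degree one: compositions and fixed points

MODULE N-MOEB.  A rational map of degree one is `z ↦ (α z + β)/(γ z + δ)` with `α δ - β γ ≠ 0` (`p = α X + β`,
`q = γ X + δ`, coprime); the composition of two of them is given by the product of the matrices.
Fixed point: `∞` if `γ = 0`; otherwise a root of `p - X q`, of degree `2` (`q ≠ 0` at the root, since
otherwise `p = 0` too).
`exists_fixed_cycle`: compose (induction on `m`) and take a fixed point (`m = 0`: any point).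
-/

open Polynomial

noncomputable section

namespace FS16

variable {F : Type*} [Field F]

/-- the orbit of `u` under the maps `T ξ`, `T (s ξ)`, ... -/
def orb {Ξ : Type*} (s : Ξ → Ξ) (T : Ξ → RM F) (ξ : Ξ) (u : OnePoint F) : ℕ → OnePoint F
  | 0 => u
  | n + 1 => (T (s^[n] ξ)).map (orb s T ξ u n)

namespace NMoebAux

/-- the fractional linear map with given coefficients -/
def mob (α β γ δ : F) (h : α * δ - β * γ ≠ 0) : RM F where
  p := C α * X + C β
  q := C γ * X + C δ
  cop := by
    refine ⟨C (-(γ / (α * δ - β * γ))), C (α / (α * δ - β * γ)), ?_⟩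
    have e : C (-(γ / (α * δ - β * γ))) * (C α * X + C β) +
        C (α / (α * δ - β * γ)) * (C γ * X + C δ) =
        C (-(γ / (α * δ - β * γ)) * α + α / (α * δ - β * γ) * γ) * X +
        C (-(γ / (α * δ - β * γ)) * β + α / (α * δ - β * γ) * δ) := by
      simp only [C_add, C_mul]
      ring
    rw [e]
    have e1 : -(γ / (α * δ - β * γ)) * α + α / (α * δ - β * γ) * γ = 0 := by ring
    have e2 : -(γ / (α * δ - β * γ)) * β + α / (α * δ - β * γ) * δ = 1 := by
      have e3 : -(γ / (α * δ - β * γ)) * β + α / (α * δ - β * γ) * δ =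
          (α * δ - β * γ) / (α * δ - β * γ) := by ring
      rw [e3, div_self h]
    rw [e1, e2]
    simp

open Classical in
theorem natDegree_lin (a b : F) : (C a * X + C b).natDegree = if a = 0 then 0 else 1 := by
  by_cases h : a = 0
  · subst h; simp
  · rw [if_neg h]; exact natDegree_linear h

theorem mob_deg (α β γ δ : F) (h : α * δ - β * γ ≠ 0) : (mob α β γ δ h).deg = 1 := by
  classical
  unfold RM.deg mob
  simp only [natDegree_lin]
  by_cases ha : α = 0
  · have hg : γ ≠ 0 := by
      intro hg
      apply h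
      rw [ha, hg]
      ring
    simp [ha, hg]
  · simp only [if_neg ha]
    by_cases hg : γ = 0 <;> simp [hg]

open Classical in
/-- the point with given homogeneous coordinates -/
def hpt (x y : F) : OnePoint F := if y = 0 then OnePoint.infty else ((x / y : F) : OnePoint F)

theorem exists_mk (z : OnePoint F) : ∃ x y : F, (x ≠ 0 ∨ y ≠ 0) ∧ z = hpt x y := by
  classical
  cases z using OnePoint.rec with
  | infty => exact ⟨1, 0, Or.inl one_ne_zero, by simp [hpt]⟩
  | coe z => exact ⟨z, 1, Or.inr one_ne_zero, by simp [hpt]⟩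

theorem exists_mob (T : RM F) (h : T.deg = 1) :
    ∃ (α β γ δ : F) (hd : α * δ - β * γ ≠ 0), T = mob α β γ δ hd := by
  classical
  have hp : T.p.natDegree ≤ 1 := by rw [← h]; exact le_max_left _ _
  have hq : T.q.natDegree ≤ 1 := by rw [← h]; exact le_max_right _ _
  obtain ⟨α, β, hp'⟩ := exists_eq_X_add_C_of_natDegree_le_one hp
  obtain ⟨γ, δ, hq'⟩ := exists_eq_X_add_C_of_natDegree_le_one hq
  have hdet : α * δ - β * γ ≠ 0 := by
    intro h0
    by_cases hg : γ = 0
    · have ha : α ≠ 0 := by
        intro ha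
        unfold RM.deg at h
        rw [hp', hq', natDegree_lin, natDegree_lin, if_pos ha, if_pos hg] at h
        simp at h
      have hd : δ = 0 := by
        rw [hg, mul_zero, sub_zero] at h0
        exact (mul_eq_zero.1 h0).resolve_left ha
      have e1 : T.q.eval (-β / α) = 0 := by rw [hq', hg, hd]; simp
      apply RM.p_ne e1
      rw [hp']
      simp
      field_simp
      ring
    · have e1 : T.q.eval (-δ / γ) = 0 := by
        rw [hq']; simp; field_simp; ring
      apply RM.p_ne e1
      rw [hp']
      simp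
      field_simp
      linear_combination -h0
  refine ⟨α, β, γ, δ, hdet, ?_⟩
  cases T with
  | mk p q cop =>
    simp only at hp' hq'
    subst hp' hq'
    rfl

theorem mob_map (α β γ δ : F) (h : α * δ - β * γ ≠ 0) (x y : F) (hxy : x ≠ 0 ∨ y ≠ 0) :
    (mob α β γ δ h).map (hpt x y) = hpt (α * x + β * y) (γ * x + δ * y) := by
  classical
  have hdeg := mob_deg α β γ δ h
  have hqe : ∀ z, (mob α β γ δ h).q.eval z = γ * z + δ := by intro z; simp [mob]
  have hpe : ∀ z, (mob α β γ δ h).p.eval z = α * z + β := by intro z; simp [mob]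
  have hnd : (mob α β γ δ h).q.natDegree = if γ = 0 then 0 else 1 := natDegree_lin γ δ
  by_cases hy : y = 0
  · have hx : x ≠ 0 := by
      rcases hxy with h1 | h1
      · exact h1
      · exact absurd hy h1
    subst hy
    have e1 : hpt x 0 = (OnePoint.infty : OnePoint F) := by simp [hpt]
    rw [e1]
    by_cases hg : γ = 0
    · rw [RM.map_infty_pole]
      · subst hg; simp [hpt]
      · rw [hnd, hdeg, if_pos hg]; simp
    · rw [RM.map_infty]
      · have e2 : (mob α β γ δ h).inf = α / γ := by
          unfold RM.inf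
          rw [hdeg]
          simp [mob]
        rw [e2]
        unfold hpt
        rw [if_neg (by simp [hg, hx])]
        congr 1
        field_simp
        ring
      · rw [hnd, hdeg, if_neg hg]
  · have e1 : hpt x y = ((x / y : F) : OnePoint F) := by simp [hpt, hy]
    rw [e1]
    by_cases hq : γ * x + δ * y = 0
    · rw [RM.map_pole]
      · simp [hpt, hq]
      · rw [hqe]
        field_simp
        linear_combination hq
    · rw [RM.map_coe]
      · unfold RM.ev hpt
        rw [if_neg hq, hqe, hpe]
        congr 1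
        have e3 : γ * (x / y) + δ = (γ * x + δ * y) / y := by field_simp
        have e4 : α * (x / y) + β = (α * x + β * y) / y := by field_simp
        rw [e3, e4]
        field_simp
      · rw [hqe]
        intro h0
        apply hq
        field_simp at h0
        linear_combination h0

end NMoebAux

open NMoebAux

theorem RM.exists_comp [IsAlgClosed F] (T T' : RM F) (h : T.deg = 1) (h' : T'.deg = 1) :
    ∃ T'' : RM F, T''.deg = 1 ∧ ∀ z, T''.map z = T'.map (T.map z) := by
  obtain ⟨α, β, γ, δ, hd, rfl⟩ := exists_mob T h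
  obtain ⟨α', β', γ', δ', hd', rfl⟩ := exists_mob T' h'
  have hdet : (α' * α + β' * γ) * (γ' * β + δ' * δ) - (α' * β + β' * δ) * (γ' * α + δ' * γ) ≠ 0 := by
    have : (α' * α + β' * γ) * (γ' * β + δ' * δ) - (α' * β + β' * δ) * (γ' * α + δ' * γ) =
        (α' * δ' - β' * γ') * (α * δ - β * γ) := by ring
    rw [this]
    exact mul_ne_zero hd' hd
  refine ⟨mob _ _ _ _ hdet, mob_deg _ _ _ _ _, ?_⟩
  intro z
  obtain ⟨x, y, hxy, rfl⟩ := exists_mk z
  rw [mob_map _ _ _ _ _ x y hxy, mob_map _ _ _ _ _ x y hxy, mob_map]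
  · congr 1 <;> ring
  · by_contra hcon
    push Not at hcon
    obtain ⟨h1, h2⟩ := hcon
    have hx : (α * δ - β * γ) * x = 0 := by linear_combination δ * h1 - β * h2
    have hy : (α * δ - β * γ) * y = 0 := by linear_combination α * h2 - γ * h1
    rcases hxy with h3 | h3
    · exact h3 ((mul_eq_zero.1 hx).resolve_left hd)
    · exact h3 ((mul_eq_zero.1 hy).resolve_left hd)

theorem RM.exists_fixed [IsAlgClosed F] (T : RM F) (h : T.deg = 1) : ∃ u, T.map u = u := by
  classical
  obtain ⟨α, β, γ, δ, hd, rfl⟩ := exists_mob T h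
  by_cases hg : γ = 0
  · refine ⟨OnePoint.infty, ?_⟩
    have := mob_map α β γ δ hd 1 0 (Or.inl one_ne_zero)
    have e1 : hpt (1 : F) 0 = (OnePoint.infty : OnePoint F) := by simp [hpt]
    rw [e1] at this
    rw [this]
    subst hg
    simp [hpt]
  · obtain ⟨z, hz⟩ := IsAlgClosed.exists_root (C γ * X ^ 2 + C (δ - α) * X + C (-β))
      (by rw [degree_quadratic hg]; norm_num)
    have hz' : γ * z ^ 2 + (δ - α) * z - β = 0 := by
      rw [IsRoot.def] at hz
      simp at hz
      linear_combination hz
    refine ⟨((z : F) : OnePoint F), ?_⟩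
    have e1 : hpt z 1 = ((z : F) : OnePoint F) := by simp [hpt]
    rw [← e1, mob_map _ _ _ _ _ z 1 (Or.inr one_ne_zero)]
    have hne : γ * z + δ * 1 ≠ 0 := by
      intro h0
      have h1 : α * z + β = 0 := by linear_combination z * h0 - hz'
      apply hd
      -- the determinant times gamma vanishes
      have h2 : γ * (α * δ - β * γ) = 0 := by
        linear_combination γ * α * h0 - γ * γ * h1
      exact (mul_eq_zero.1 h2).resolve_left hg
    unfold hpt
    rw [if_neg hne, if_neg one_ne_zero]
    congr 1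
    rw [div_eq_div_iff hne one_ne_zero]
    linear_combination -hz'

theorem exists_fixed_cycle [IsAlgClosed F] {Ξ : Type*} (s : Ξ → Ξ) (T : Ξ → RM F) (ξ : Ξ)
    (hT : ∀ n : ℕ, (T (s^[n] ξ)).deg = 1) (m : ℕ) : ∃ u, orb s T ξ u m = u := by
  have key : ∀ m : ℕ, ∃ T'' : RM F, T''.deg = 1 ∧ ∀ u, orb s T ξ u m = T''.map u := by
    intro m
    induction m with
    | zero =>
      have hd : (1 : F) * 1 - 0 * 0 ≠ 0 := by simp
      refine ⟨mob 1 0 0 1 hd, mob_deg _ _ _ _ _, ?_⟩
      intro u
      obtain ⟨x, y, hxy, rfl⟩ := exists_mk u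
      rw [mob_map _ _ _ _ _ x y hxy]
      simp [orb]
    | succ m ih =>
      obtain ⟨T1, h1, h2⟩ := ih
      obtain ⟨T2, h3, h4⟩ := RM.exists_comp T1 (T (s^[m] ξ)) h1 (hT m)
      refine ⟨T2, h3, ?_⟩
      intro u
      rw [h4, ← h2]
      rfl
  obtain ⟨T'', h1, h2⟩ := key m
  obtain ⟨u, hu⟩ := RM.exists_fixed T'' h1
  exact ⟨u, by rw [h2, hu]⟩

end FS16
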