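import Pool.Agent.FS16.CRoots

/-!
# Rational maps on the projective line over a field

MODULE N-PROJ.  `T.map : OnePoint F → OnePoint F` is the action of the rational map `T = p/q` on the
projective line, `T.fibM b` is the fibre of `b`, a multiset with `T.deg` elements, `T.mult z` is the
multiplicity of `z` in its fibre, and `z` is critical if `2 ≤ T.mult z`.

Proofs (`F` algebraically closed, `1 ≤ deg`):
* `card_fibM`: `p - w q ≠ 0` (`CR.fib_ne_zero`), it has as many roots as its degree, which is
  `≤ T.deg`.
* `mem_fibM`: finite `z`, finite `w`: `p z = w q z`; `q z ≠ 0` since otherwise `p z = 0`.  `z = ∞`,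
  `w` finite: `∞` is in the fibre iff `deg (p - w q) < T.deg` iff the coefficient of `X^deg` of
  `p - w q` vanishes, iff `q` has degree `T.deg` and `w = p_d / q_d` (if `deg q < T.deg`, the
  coefficient is `p_d ≠ 0`).  `w = ∞`: the finite elements are the roots of `q`; `∞` is in it iff
  `deg q < T.deg`.
* `two_le_mult`: the root `z` of `g = p - w q` is multiple iff `g' z = 0`, and
  `wr z = p' q - p q' = q z (p' z - w q' z)` as `p z = w q z`.  At a pole: `wr z = - p z q' z`.
* `crit_card`: the finite critical points are roots of `wr ≠ 0` (`RM.wr_ne_zero`), whose degree is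
  `≤ 2 deg - 2` (the coefficients of `X^(2 deg - 1)` cancel: if `deg p = deg q = d` the leading terms
  `d p_d q_d - d p_d q_d` cancel, otherwise `deg p + deg q ≤ 2 d - 1`), and `≤ 2 deg - 3` if `∞` is
  critical: then `g = p - w q` (or `g = q` when `∞` is a pole, with `p` instead of `q` in the formula
  below) has degree `≤ d - 2` and `wr = g' q - g q'`.
* `map_ext`: `p₁ q₂ - p₂ q₁` vanishes at infinitely many points so it is `0`; by coprimality
  `p₂ = c p₁`, `q₂ = c q₁` for a constant `c ≠ 0`.
-/

open Polynomial

noncomputable section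

namespace FS16

/-- the finite coordinate (`0` for infinity) -/
def toFin {F : Type*} [Zero F] : OnePoint F → F
  | OnePoint.some x => x
  | OnePoint.infty => 0

theorem coe_toFin {F : Type*} [Zero F] {z : OnePoint F} (h : z ≠ OnePoint.infty) :
    ((toFin z : F) : OnePoint F) = z := by
  cases z using OnePoint.rec with
  | infty => exact absurd rfl h
  | coe x => rfl

variable {F : Type*} [Field F]

open Classical in
/-- the action of a rational map on the projective line -/
def RM.map (T : RM F) : OnePoint F → OnePoint F
  | OnePoint.some z => if T.q.eval z = 0 then OnePoint.infty else ((T.ev z : F) : OnePoint F)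
  | OnePoint.infty => if T.q.natDegree = T.deg then ((T.inf : F) : OnePoint F) else OnePoint.infty

/-- the fibre of a point of the projective line, with multiplicities -/
def RM.fibM (T : RM F) : OnePoint F → Multiset (OnePoint F)
  | OnePoint.some w => (T.p - C w * T.q).roots.map (fun z => (z : OnePoint F)) +
      Multiset.replicate (T.deg - (T.p - C w * T.q).natDegree) OnePoint.infty
  | OnePoint.infty => T.q.roots.map (fun z => (z : OnePoint F)) +
      Multiset.replicate (T.deg - T.q.natDegree) OnePoint.infty

open Classical in
/-- the multiplicity of `T` at `z` -/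
def RM.mult (T : RM F) (z : OnePoint F) : ℕ := (T.fibM (T.map z)).count z

/-- critical points -/
def RM.IsCrit (T : RM F) (z : OnePoint F) : Prop := 2 ≤ T.mult z

theorem RM.map_coe (T : RM F) {z : F} (h : T.q.eval z ≠ 0) :
    T.map (z : OnePoint F) = ((T.ev z : F) : OnePoint F) := by
  classical
  change (if T.q.eval z = 0 then OnePoint.infty else ((T.ev z : F) : OnePoint F)) = _
  rw [if_neg h]

theorem RM.map_pole (T : RM F) {z : F} (h : T.q.eval z = 0) :
    T.map (z : OnePoint F) = OnePoint.infty := by
  classical
  change (if T.q.eval z = 0 then OnePoint.infty else ((T.ev z : F) : OnePoint F)) = _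
  rw [if_pos h]

theorem RM.map_infty (T : RM F) (h : T.q.natDegree = T.deg) :
    T.map OnePoint.infty = ((T.inf : F) : OnePoint F) := by
  classical
  change (if T.q.natDegree = T.deg then ((T.inf : F) : OnePoint F) else OnePoint.infty) = _
  rw [if_pos h]

theorem RM.map_infty_pole (T : RM F) (h : T.q.natDegree ≠ T.deg) :
    T.map OnePoint.infty = OnePoint.infty := by
  classical
  change (if T.q.natDegree = T.deg then ((T.inf : F) : OnePoint F) else OnePoint.infty) = _
  rw [if_neg h]

theorem RM.map_eq_coe (T : RM F) {z w : F} (h : T.map (z : OnePoint F) = (w : OnePoint F)) :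
    T.q.eval z ≠ 0 ∧ T.ev z = w := by
  by_cases hq : T.q.eval z = 0
  · rw [T.map_pole hq] at h
    exact absurd h (OnePoint.infty_ne_coe w)
  · rw [T.map_coe hq] at h
    exact ⟨hq, OnePoint.coe_injective h⟩

theorem RM.fibM_coe (T : RM F) (w : F) : T.fibM (w : OnePoint F) =
    (T.p - C w * T.q).roots.map (fun z => (z : OnePoint F)) +
      Multiset.replicate (T.deg - (T.p - C w * T.q).natDegree) OnePoint.infty := rfl

theorem RM.fibM_infty (T : RM F) : T.fibM OnePoint.infty =
    T.q.roots.map (fun z => (z : OnePoint F)) +
      Multiset.replicate (T.deg - T.q.natDegree) OnePoint.infty := rfl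

variable [IsAlgClosed F]

omit [IsAlgClosed F] in
theorem RM.fibM_coe' (T : RM F) (w : F) : T.fibM (w : OnePoint F) =
    (T.p - C w * T.q).roots.map (fun z : F => (z : OnePoint F)) +
      Multiset.replicate (T.deg - (T.p - C w * T.q).natDegree) OnePoint.infty := by
  change Multiset.map _ _ + _ = _
  rw [Multiset.map_id']
  congr 1
  exact Multiset.bind_singleton _ _

omit [IsAlgClosed F] in
theorem RM.fibM_infty' (T : RM F) : T.fibM OnePoint.infty =
    T.q.roots.map (fun z : F => (z : OnePoint F)) +
      Multiset.replicate (T.deg - T.q.natDegree) OnePoint.infty := by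
  change Multiset.map _ _ + _ = _
  rw [Multiset.map_id']
  congr 1
  exact Multiset.bind_singleton _ _

omit [IsAlgClosed F] in
theorem RM.q_ne_zero (T : RM F) (hd : 1 ≤ T.deg) : T.q ≠ 0 := by
  intro h
  have hu : IsUnit T.p := by
    have := T.cop
    rw [h, isCoprime_zero_right] at this
    exact this
  have h2 : T.p.natDegree = 0 := natDegree_eq_zero_of_isUnit hu
  unfold RM.deg at hd
  rw [h, h2, natDegree_zero] at hd
  simp at hd

omit [IsAlgClosed F] in
theorem RM.natDegree_fib_le (T : RM F) (w : F) : (T.p - C w * T.q).natDegree ≤ T.deg := by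
  refine (natDegree_sub_le _ _).trans (max_le (le_max_left _ _) ?_)
  exact (natDegree_C_mul_le w T.q).trans (le_max_right _ _)

theorem RM.card_fibM (T : RM F) (hd : 1 ≤ T.deg) (b : OnePoint F) :
    Multiset.card (T.fibM b) = T.deg := by
  cases b using OnePoint.rec with
  | infty =>
    rw [T.fibM_infty', Multiset.card_add, Multiset.card_map, Multiset.card_replicate,
      IsAlgClosed.card_roots_eq_natDegree]
    have : T.q.natDegree ≤ T.deg := le_max_right _ _
    omega
  | coe w =>
    rw [T.fibM_coe', Multiset.card_add, Multiset.card_map, Multiset.card_replicate,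
      IsAlgClosed.card_roots_eq_natDegree]
    have := T.natDegree_fib_le w
    omega

theorem RM.mem_fibM (T : RM F) (hd : 1 ≤ T.deg) (b z : OnePoint F) :
    z ∈ T.fibM b ↔ T.map z = b := by
  classical
  cases b using OnePoint.rec with
  | infty =>
    rw [T.fibM_infty', Multiset.mem_add, Multiset.mem_map, Multiset.mem_replicate]
    cases z using OnePoint.rec with
    | infty =>
      have h1 : T.q.natDegree ≤ T.deg := le_max_right _ _
      constructor
      · rintro (⟨x, -, hx⟩ | ⟨h, -⟩)
        · exact absurd hx (OnePoint.coe_ne_infty x)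
        · exact T.map_infty_pole (by omega)
      · intro h
        right
        refine ⟨?_, rfl⟩
        intro h2
        rw [T.map_infty (by omega)] at h
        exact OnePoint.coe_ne_infty _ h
    | coe z =>
      constructor
      · rintro (⟨x, hx, hxz⟩ | ⟨-, h⟩)
        · rw [OnePoint.coe_injective hxz] at hx
          exact T.map_pole ((mem_roots (T.q_ne_zero hd)).1 hx)
        · exact absurd h (OnePoint.coe_ne_infty z)
      · intro h
        left
        refine ⟨z, ?_, rfl⟩
        rw [mem_roots (T.q_ne_zero hd), IsRoot.def]
        by_contra hq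
        rw [T.map_coe hq] at h
        exact OnePoint.coe_ne_infty _ h
  | coe w =>
    rw [T.fibM_coe', Multiset.mem_add, Multiset.mem_map, Multiset.mem_replicate]
    have hg := CR.fib_ne_zero T hd w
    have hgd := T.natDegree_fib_le w
    cases z using OnePoint.rec with
    | infty =>
      have h1 : T.q.natDegree ≤ T.deg := le_max_right _ _
      constructor
      · rintro (⟨x, -, hx⟩ | ⟨h, -⟩)
        · exact absurd hx (OnePoint.coe_ne_infty x)
        · have h2 : (T.p - C w * T.q).natDegree < T.deg := by omega
          have h3 := coeff_eq_zero_of_natDegree_lt h2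
          rw [coeff_sub, coeff_C_mul, sub_eq_zero] at h3
          have h4 : T.q.natDegree = T.deg := by
            by_contra h5
            have h6 : T.q.natDegree < T.deg := by omega
            rw [coeff_eq_zero_of_natDegree_lt h6, mul_zero] at h3
            have h7 : T.p.natDegree = T.deg := by
              unfold RM.deg at h6 ⊢
              rcases Nat.le_total T.p.natDegree T.q.natDegree with h8 | h8
              · rw [max_eq_right h8] at h6; omega
              · rw [max_eq_left h8]
            rw [← h7] at h3
            have h8 : T.p = 0 := leadingCoeff_eq_zero.1 h3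
            rw [h8, natDegree_zero] at h7
            omega
          rw [T.map_infty h4]
          unfold RM.inf
          have h5 : T.q.coeff T.deg ≠ 0 := by
            rw [← h4]
            exact leadingCoeff_ne_zero.2 (T.q_ne_zero hd)
          rw [h3, mul_div_assoc, div_self h5, mul_one]
      · intro h
        right
        refine ⟨?_, rfl⟩
        have h4 : T.q.natDegree = T.deg := by
          by_contra h5
          rw [T.map_infty_pole h5] at h
          exact OnePoint.infty_ne_coe _ h
        have h5 : T.q.coeff T.deg ≠ 0 := by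
          rw [← h4]
          exact leadingCoeff_ne_zero.2 (T.q_ne_zero hd)
        rw [T.map_infty h4] at h
        have h6 : T.inf = w := OnePoint.coe_injective h
        intro h7
        have h8 : (T.p - C w * T.q).natDegree = T.deg := by omega
        have h9 : (T.p - C w * T.q).coeff T.deg ≠ 0 := by
          rw [← h8]
          exact leadingCoeff_ne_zero.2 hg
        apply h9
        rw [coeff_sub, coeff_C_mul, ← h6]
        unfold RM.inf
        field_simp
        ring
    | coe z =>
      have key : z ∈ (T.p - C w * T.q).roots ↔ T.q.eval z ≠ 0 ∧ T.ev z = w := by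
        have := T.mem_fib hd w z
        unfold RM.fib at this
        rw [Multiset.mem_toFinset] at this
        exact this
      constructor
      · rintro (⟨x, hx, hxz⟩ | ⟨-, h⟩)
        · rw [OnePoint.coe_injective hxz] at hx
          obtain ⟨h1, h2⟩ := key.1 hx
          rw [T.map_coe h1, h2]
        · exact absurd h (OnePoint.coe_ne_infty z)
      · intro h
        left
        exact ⟨z, key.2 (T.map_eq_coe h), rfl⟩

theorem RM.one_le_mult (T : RM F) (hd : 1 ≤ T.deg) (z : OnePoint F) : 1 ≤ T.mult z := by
  classical
  unfold RM.mult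
  exact Multiset.one_le_count_iff_mem.2 ((T.mem_fibM hd _ _).2 rfl)

theorem RM.map_surjective (T : RM F) (hd : 1 ≤ T.deg) : Function.Surjective T.map := by
  intro b
  have h := T.card_fibM hd b
  obtain ⟨z, hz⟩ := Multiset.card_pos_iff_exists_mem.1 (by omega : 0 < Multiset.card (T.fibM b))
  exact ⟨z, (T.mem_fibM hd b z).1 hz⟩

open Classical in
theorem RM.count_coe (T : RM F) (g : F[X]) (n : ℕ) (z : F) :
    Multiset.count (z : OnePoint F) (g.roots.map (fun z : F => (z : OnePoint F)) +
      Multiset.replicate n OnePoint.infty) = g.rootMultiplicity z := by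
  rw [Multiset.count_add, Multiset.count_map_eq_count' _ _ OnePoint.coe_injective, count_roots,
    Multiset.count_replicate]
  simp

open Classical in
theorem RM.count_infty (T : RM F) (g : F[X]) (n : ℕ) :
    Multiset.count (OnePoint.infty : OnePoint F) (g.roots.map (fun z : F => (z : OnePoint F)) +
      Multiset.replicate n OnePoint.infty) = n := by
  rw [Multiset.count_add, Multiset.count_replicate, Multiset.count_eq_zero_of_notMem]
  · simp
  · intro h
    obtain ⟨x, -, hx⟩ := Multiset.mem_map.1 h
    exact OnePoint.coe_ne_infty x hx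

/-- a finite point is critical iff the Wronskian vanishes -/
theorem RM.isCrit_coe (T : RM F) (hd : 1 ≤ T.deg) (z : F) :
    T.IsCrit (z : OnePoint F) ↔ T.wr.eval z = 0 := by
  classical
  unfold RM.IsCrit RM.mult
  by_cases hq : T.q.eval z = 0
  · rw [T.map_pole hq, T.fibM_infty']
    have hc := T.count_coe T.q (T.deg - T.q.natDegree) z
    have h1 : (2 ≤ T.q.rootMultiplicity z) ↔ (derivative T.q).eval z = 0 := by
      have := one_lt_rootMultiplicity_iff_isRoot (p := T.q) (t := z) (T.q_ne_zero hd)
      constructor
      · intro h
        exact (this.1 h).2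
      · intro h
        exact this.2 ⟨hq, h⟩
    have h2 : T.wr.eval z = - (T.p.eval z * (derivative T.q).eval z) := by
      unfold RM.wr
      rw [eval_sub, eval_mul, eval_mul, hq]
      ring
    have hp := T.p_ne hq
    rw [h2, neg_eq_zero, mul_eq_zero, or_iff_right hp, ← h1]
    constructor
    · intro h; rw [← hc]; convert h
    · intro h; rw [← hc] at h; convert h
  · rw [T.map_coe hq, T.fibM_coe']
    set w := T.ev z with hw
    have hg := CR.fib_ne_zero T hd w
    have hc := T.count_coe (T.p - C w * T.q) (T.deg - (T.p - C w * T.q).natDegree) z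
    have hpw : T.p.eval z = w * T.q.eval z := by
      rw [hw]; unfold RM.ev; field_simp
    have h0 : (T.p - C w * T.q).IsRoot z := by
      rw [IsRoot.def, eval_sub, eval_mul, eval_C, hpw, sub_self]
    have h1 : (2 ≤ (T.p - C w * T.q).rootMultiplicity z) ↔
        (derivative (T.p - C w * T.q)).eval z = 0 := by
      have := one_lt_rootMultiplicity_iff_isRoot (p := T.p - C w * T.q) (t := z) hg
      constructor
      · intro h
        exact (this.1 h).2
      · intro h
        exact this.2 ⟨h0, h⟩
    have h2 : T.wr.eval z = T.q.eval z * (derivative (T.p - C w * T.q)).eval z := by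
      unfold RM.wr
      rw [derivative_sub, derivative_C_mul, eval_sub, eval_mul, eval_mul, eval_sub, eval_mul,
        eval_C, hpw]
      ring
    rw [h2, mul_eq_zero, or_iff_right hq, ← h1]
    constructor
    · intro h; rw [← hc]; convert h
    · intro h; rw [← hc] at h; convert h

theorem RM.natDegree_wr_aux (g h : F[X]) {d : ℕ} (hd : 1 ≤ d) (hh : h.natDegree ≤ d) :
    (derivative g * h - g * derivative h).natDegree ≤ g.natDegree + d - 1 := by
  refine (natDegree_sub_le _ _).trans (max_le ?_ ?_)
  · rcases Nat.eq_zero_or_pos g.natDegree with h0 | h0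
    · rw [natDegree_eq_zero] at h0
      obtain ⟨c, rfl⟩ := h0
      simp
    · refine natDegree_mul_le.trans ?_
      have := natDegree_derivative_le g
      omega
  · rcases Nat.eq_zero_or_pos h.natDegree with h0 | h0
    · rw [natDegree_eq_zero] at h0
      obtain ⟨c, rfl⟩ := h0
      simp
    · refine natDegree_mul_le.trans ?_
      have := natDegree_derivative_le h
      omega

/-- the multiplicity of infinity and the degree of the Wronskian -/
theorem RM.natDegree_wr_le (T : RM F) (hd : 1 ≤ T.deg) :
    T.wr.natDegree + T.mult OnePoint.infty ≤ 2 * T.deg - 1 := by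
  classical
  have hp : T.p.natDegree ≤ T.deg := le_max_left _ _
  have hq : T.q.natDegree ≤ T.deg := le_max_right _ _
  have hone := T.one_le_mult hd OnePoint.infty
  by_cases h : T.q.natDegree = T.deg
  · have hm : T.mult OnePoint.infty = T.deg - (T.p - C T.inf * T.q).natDegree := by
      unfold RM.mult
      rw [T.map_infty h, T.fibM_coe']
      convert T.count_infty (T.p - C T.inf * T.q) (T.deg - (T.p - C T.inf * T.q).natDegree)
    have h1 : T.wr = derivative (T.p - C T.inf * T.q) * T.q -
        (T.p - C T.inf * T.q) * derivative T.q := by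
      unfold RM.wr
      rw [derivative_sub, derivative_C_mul]
      ring
    have h2 := RM.natDegree_wr_aux (T.p - C T.inf * T.q) T.q hd hq
    rw [← h1] at h2
    have h3 := T.natDegree_fib_le T.inf
    omega
  · have hm : T.mult OnePoint.infty = T.deg - T.q.natDegree := by
      unfold RM.mult
      rw [T.map_infty_pole h, T.fibM_infty']
      convert T.count_infty T.q (T.deg - T.q.natDegree)
    have h1 : T.wr = -(derivative T.q * T.p - T.q * derivative T.p) := by
      unfold RM.wr
      ring
    have h2 := RM.natDegree_wr_aux T.q T.p hd hp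
    rw [← natDegree_neg, ← h1] at h2
    omega

/-- there are at most `2 deg - 2` critical points -/
theorem RM.crit_card [CharZero F] (T : RM F) (hd : 1 ≤ T.deg) :
    ∃ S : Finset (OnePoint F), S.card ≤ 2 * T.deg - 2 ∧ ∀ z, T.IsCrit z → z ∈ S := by
  classical
  have hw := T.wr_ne_zero hd
  have hdeg := T.natDegree_wr_le hd
  have hone := T.one_le_mult hd OnePoint.infty
  have hc1 : (T.wr.roots.toFinset.image (fun z : F => (z : OnePoint F))).card ≤ T.wr.natDegree :=
    Finset.card_image_le.trans ((Multiset.toFinset_card_le _).trans (card_roots' _))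
  have hmem : ∀ z : F, T.IsCrit (z : OnePoint F) →
      (z : OnePoint F) ∈ T.wr.roots.toFinset.image (fun z : F => (z : OnePoint F)) := by
    intro z hz
    refine Finset.mem_image.2 ⟨z, ?_, rfl⟩
    rw [Multiset.mem_toFinset, mem_roots hw]
    exact (T.isCrit_coe hd z).1 hz
  by_cases hinf : T.IsCrit OnePoint.infty
  · refine ⟨insert OnePoint.infty (T.wr.roots.toFinset.image (fun z : F => (z : OnePoint F))), ?_, ?_⟩
    · have h2 : 2 ≤ T.mult OnePoint.infty := hinf
      refine (Finset.card_insert_le _ _).trans ?_
      omega
    · intro z hz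
      cases z using OnePoint.rec with
      | infty => exact Finset.mem_insert_self _ _
      | coe z => exact Finset.mem_insert_of_mem (hmem z hz)
  · refine ⟨T.wr.roots.toFinset.image (fun z : F => (z : OnePoint F)), by omega, ?_⟩
    intro z hz
    cases z using OnePoint.rec with
    | infty => exact absurd hz hinf
    | coe z => exact hmem z hz

/-- maps of degree one are injective -/
theorem RM.map_injective (T : RM F) (hd : T.deg = 1) : Function.Injective T.map := by
  intro z z' h
  have h1 := T.card_fibM (by omega) (T.map z)
  rw [hd, Multiset.card_eq_one] at h1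
  obtain ⟨x, hx⟩ := h1
  have h2 : z ∈ T.fibM (T.map z) := (T.mem_fibM (by omega) _ _).2 rfl
  have h3 : z' ∈ T.fibM (T.map z) := (T.mem_fibM (by omega) _ _).2 h.symm
  rw [hx, Multiset.mem_singleton] at h2 h3
  rw [h2, h3]

/-- maps of degree at least two are not injective, more precisely: regular values have at least two
preimages -/
theorem RM.exists_ne_of_mult (T : RM F) (hd : 2 ≤ T.deg) {z : OnePoint F} (hz : T.mult z = 1) :
    ∃ z', z' ≠ z ∧ T.map z' = T.map z := by
  classical
  by_contra hcon
  push Not at hcon
  have h1 := T.card_fibM (by omega) (T.map z)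
  have h2 : ∀ x ∈ T.fibM (T.map z), x = z := by
    intro x hx
    by_contra hne
    exact hcon x hne ((T.mem_fibM (by omega) _ _).1 hx)
  have h3 := Multiset.eq_replicate_card.2 h2
  unfold RM.mult at hz
  have h4 : Multiset.count z (T.fibM (T.map z)) = T.deg := by
    conv_lhs => rw [h3]
    rw [Multiset.count_replicate_self, h1]
  have h5 : Multiset.count z (T.fibM (T.map z)) = 1 := by
    convert hz
  omega

/-- maps which agree at infinitely many points agree -/
theorem RM.map_ext (T T' : RM F) {S : Set (OnePoint F)} (hS : S.Infinite)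
    (h : ∀ z ∈ S, T.map z = T'.map z) : T.map = T'.map := by
  classical
  -- the polynomial identity
  have hS' : {z : F | (z : OnePoint F) ∈ S}.Infinite := by
    intro hfin
    apply hS
    refine ((hfin.image (fun z : F => (z : OnePoint F))).union
      (Set.finite_singleton OnePoint.infty)).subset ?_
    intro z hz
    cases z using OnePoint.rec with
    | infty => exact Or.inr rfl
    | coe z => exact Or.inl ⟨z, hz, rfl⟩
  have hpoly : T.p * T'.q - T'.p * T.q = 0 := by
    apply eq_zero_of_infinite_isRoot
    refine hS'.mono ?_
    intro z hz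
    have h1 := h z hz
    rw [Set.mem_setOf_eq, IsRoot.def, eval_sub, eval_mul, eval_mul]
    by_cases hq : T.q.eval z = 0
    · rw [T.map_pole hq] at h1
      by_cases hq' : T'.q.eval z = 0
      · rw [hq, hq']; ring
      · rw [T'.map_coe hq'] at h1
        exact absurd h1 (OnePoint.infty_ne_coe _)
    · rw [T.map_coe hq] at h1
      by_cases hq' : T'.q.eval z = 0
      · rw [T'.map_pole hq'] at h1
        exact absurd h1 (OnePoint.coe_ne_infty _)
      · rw [T'.map_coe hq'] at h1
        have h2 := OnePoint.coe_injective h1
        unfold RM.ev at h2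
        rw [div_eq_div_iff hq hq'] at h2
        rw [h2, sub_self]
  have hpq : T.p * T'.q = T'.p * T.q := sub_eq_zero.1 hpoly
  obtain ⟨c, hc0, hcp, hcq⟩ : ∃ c : F, c ≠ 0 ∧ T'.p = C c * T.p ∧ T'.q = C c * T.q := by
    have d1 : T.q ∣ T'.q := T.cop.symm.dvd_of_dvd_mul_left ⟨T'.p, by rw [hpq]; ring⟩
    have d2 : T'.q ∣ T.q := T'.cop.symm.dvd_of_dvd_mul_left ⟨T.p, by rw [← hpq]; ring⟩
    by_cases hq : T.q = 0
    · have hq' : T'.q = 0 := by
        rw [hq] at d1
        exact zero_dvd_iff.1 d1
      have u1 : IsUnit T.p := by
        have := T.cop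
        rw [hq, isCoprime_zero_right] at this
        exact this
      have u2 : IsUnit T'.p := by
        have := T'.cop
        rw [hq', isCoprime_zero_right] at this
        exact this
      obtain ⟨a, ha, ha'⟩ := Polynomial.isUnit_iff.1 u1
      obtain ⟨b, hb, hb'⟩ := Polynomial.isUnit_iff.1 u2
      refine ⟨b / a, div_ne_zero hb.ne_zero ha.ne_zero, ?_, by rw [hq, hq', mul_zero]⟩
      rw [← ha', ← hb', ← C_mul]
      congr 1
      have := ha.ne_zero
      field_simp
    · have ha := associated_of_dvd_dvd d1 d2
      obtain ⟨u, hu⟩ := ha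
      obtain ⟨a, ha, ha'⟩ := Polynomial.isUnit_iff.1 u.isUnit
      refine ⟨a, ha.ne_zero, ?_, by rw [ha', ← hu]; ring⟩
      have : T'.p * T.q = C a * T.p * T.q := by
        rw [← hpq, ← hu, ha']; ring
      exact mul_right_cancel₀ hq this
  have hndp : T'.p.natDegree = T.p.natDegree := by
    rw [hcp]; exact natDegree_C_mul hc0
  have hndq : T'.q.natDegree = T.q.natDegree := by
    rw [hcq]; exact natDegree_C_mul hc0
  have hdeg : T'.deg = T.deg := by
    unfold RM.deg
    rw [hndp, hndq]
  funext z
  cases z using OnePoint.rec with
  | infty =>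
    by_cases hq : T.q.natDegree = T.deg
    · rw [T.map_infty hq, T'.map_infty (by rw [hndq, hdeg, hq])]
      have : T.inf = T'.inf := by
        unfold RM.inf
        rw [hdeg, hcp, hcq, coeff_C_mul, coeff_C_mul, mul_div_mul_left _ _ hc0]
      rw [this]
    · rw [T.map_infty_pole hq, T'.map_infty_pole (by rw [hndq, hdeg]; exact hq)]
  | coe z =>
    by_cases hq : T.q.eval z = 0
    · rw [T.map_pole hq, T'.map_pole (by rw [hcq, eval_mul, hq, mul_zero])]
    · have hq' : T'.q.eval z ≠ 0 := by
        rw [hcq, eval_mul, eval_C]
        exact mul_ne_zero hc0 hq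
      rw [T.map_coe hq, T'.map_coe hq']
      have : T.ev z = T'.ev z := by
        unfold RM.ev
        rw [hcp, hcq, eval_mul, eval_mul, eval_C, mul_div_mul_left _ _ hc0]
      rw [this]

/-- the degree is determined by the action on the projective line -/
theorem RM.deg_eq_one_of_injective [CharZero F] (T : RM F) (hd : 1 ≤ T.deg)
    (h : Function.Injective T.map) : T.deg = 1 := by
  classical
  by_contra hne
  have hd2 : 2 ≤ T.deg := by omega
  obtain ⟨S, -, hS⟩ := T.crit_card hd
  have hinf : Infinite (OnePoint F) :=
    Infinite.of_injective (fun z : F => (z : OnePoint F)) OnePoint.coe_injective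
  obtain ⟨z, hz⟩ := Infinite.exists_notMem_finset S
  have h1 : T.mult z = 1 := by
    have h2 : ¬ T.IsCrit z := fun hc => hz (hS z hc)
    have h3 := T.one_le_mult hd z
    unfold RM.IsCrit at h2
    omega
  obtain ⟨z', hz', hzz⟩ := T.exists_ne_of_mult hd2 h1
  exact hz' (h hzz)

end FS16
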