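import Pool.Agent.FS16.NProj

/-!
# The residue field

MODULE N-RES.  `Residue K k`: a reduction map from the closed unit ball of `K` onto the field `k`
(`red` is arbitrary outside of the unit ball).  `IsRed R g a`: the polynomial `g` has coefficients in
the closed unit ball and its reduction is `a`.

Proofs.
* `exists_residue`: the subring `{‖x‖ ≤ 1}` of `K` is local with maximal ideal `{‖x‖ < 1}` (or use
  Mathlib: `Valued.integer`, `𝒪[K]`, `𝓀[K]`, or a direct construction: `Subring`, `Ideal`,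
  `Ideal.Quotient.field`).  Algebraically closed: a monic polynomial of positive degree over `k` lifts
  to a monic polynomial over the ring, which has a root in `K`, which is in the ring (integrally closed:
  if `‖z‖ > 1` the leading term dominates).  Characteristic zero: `‖(n : K)‖ = 1` for `n ≠ 0`.
* `exists_gauss`: divide by a coefficient of maximal norm.
* `IsRed.eval`: finite sums.
-/

open Polynomial

noncomputable section

namespace FS16

universe u

/-- a residue field of the normed field `K` -/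
structure Residue (K : Type u) (k : Type u) [NormedField K] [Field k] where
  red : K → k
  add : ∀ x y, ‖x‖ ≤ 1 → ‖y‖ ≤ 1 → red (x + y) = red x + red y
  mul : ∀ x y, ‖x‖ ≤ 1 → ‖y‖ ≤ 1 → red (x * y) = red x * red y
  one : red 1 = 1
  zero_iff : ∀ x, ‖x‖ ≤ 1 → (red x = 0 ↔ ‖x‖ < 1)
  surj : ∀ a : k, ∃ x, ‖x‖ ≤ 1 ∧ red x = a

/-- the closed unit ball -/
def ballR (K : Type u) [NontriviallyNormedField K] [IsUltrametricDist K] : ValuationSubring K where
  carrier := {x | ‖x‖ ≤ 1}
  mul_mem' := fun {a b} ha hb => by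
    change ‖a * b‖ ≤ 1
    rw [norm_mul]
    exact mul_le_one₀ ha (norm_nonneg _) hb
  one_mem' := by
    change ‖(1 : K)‖ ≤ 1
    rw [norm_one]
  add_mem' := fun {a b} ha hb =>
    (IsUltrametricDist.norm_add_le_max a b).trans (max_le ha hb)
  zero_mem' := by
    change ‖(0 : K)‖ ≤ 1
    rw [norm_zero]
    exact zero_le_one
  neg_mem' := fun {a} ha => by
    change ‖-a‖ ≤ 1
    rwa [norm_neg]
  mem_or_inv_mem' := fun x => by
    change ‖x‖ ≤ 1 ∨ ‖x⁻¹‖ ≤ 1
    rw [norm_inv]
    rcases le_total ‖x‖ 1 with h | h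
    · exact Or.inl h
    · exact Or.inr (inv_le_one_of_one_le₀ h)

theorem mem_ballR {K : Type u} [NontriviallyNormedField K] [IsUltrametricDist K] {x : K} :
    x ∈ ballR K ↔ ‖x‖ ≤ 1 := Iff.rfl

theorem isUnit_ballR {K : Type u} [NontriviallyNormedField K] [IsUltrametricDist K]
    (x : ballR K) : IsUnit x ↔ ‖(x : K)‖ = 1 := by
  constructor
  · intro h
    obtain ⟨y, hy⟩ := h.exists_right_inv
    have h1 : ‖(x : K)‖ * ‖(y : K)‖ = 1 := by
      rw [← norm_mul, ← norm_one (α := K)]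
      congr 1
      exact congrArg Subtype.val hy
    have h2 : ‖(x : K)‖ ≤ 1 := x.2
    have h3 : ‖(y : K)‖ ≤ 1 := y.2
    refine le_antisymm h2 ?_
    have h4 := mul_le_mul_of_nonneg_left h3 (norm_nonneg (x : K))
    rw [h1, mul_one] at h4
    exact h4
  · intro h
    have hx : (x : K) ≠ 0 := by
      intro h0
      rw [h0, norm_zero] at h
      exact zero_ne_one h
    refine IsUnit.of_mul_eq_one (⟨(x : K)⁻¹, ?_⟩ : ballR K) ?_
    · rw [mem_ballR, norm_inv, h, inv_one]
    · apply Subtype.ext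
      exact mul_inv_cancel₀ hx

theorem exists_residue (K : Type u) [NontriviallyNormedField K] [IsUltrametricDist K]
    [IsAlgClosed K] (hK : ∀ n : ℕ, n ≠ 0 → ‖(n : K)‖ = 1) :
    ∃ (k : Type u) (_ : Field k) (_ : IsAlgClosed k) (_ : CharZero k), Nonempty (Residue K k) := by
  classical
  have hzero : ∀ x : ballR K, IsLocalRing.residue (ballR K) x = 0 ↔ ‖(x : K)‖ < 1 := by
    intro x
    rw [IsLocalRing.residue_eq_zero_iff, IsLocalRing.mem_maximalIdeal, mem_nonunits_iff,
      isUnit_ballR]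
    constructor
    · intro h
      exact lt_of_le_of_ne x.2 h
    · intro h
      exact h.ne
  refine ⟨IsLocalRing.ResidueField (ballR K), inferInstance, ?_, ?_, ⟨{
    red := fun x => if h : ‖x‖ ≤ 1 then IsLocalRing.residue (ballR K) ⟨x, h⟩ else 0
    add := ?_
    mul := ?_
    one := ?_
    zero_iff := ?_
    surj := ?_ }⟩⟩
  · apply IsAlgClosed.of_exists_root
    intro p hp hirr
    have hl : p ∈ Polynomial.lifts (IsLocalRing.residue (ballR K)) := by
      rw [Polynomial.mem_lifts]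
      exact Polynomial.map_surjective _ IsLocalRing.residue_surjective p
    obtain ⟨q, hq1, hq2, hq3⟩ := Polynomial.lifts_and_natDegree_eq_and_monic hl hp
    have hdeg : (q.map (algebraMap (ballR K) K)).degree ≠ 0 := by
      rw [hq3.degree_map, Polynomial.degree_eq_natDegree hq3.ne_zero, hq2]
      have := hirr.natDegree_pos
      exact_mod_cast this.ne'
    obtain ⟨z, hz⟩ := IsAlgClosed.exists_root _ hdeg
    have hint : IsIntegral (ballR K) z := by
      refine ⟨q, hq3, ?_⟩
      rw [← Polynomial.eval_map]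
      exact hz
    obtain ⟨y, hy⟩ := IsIntegrallyClosed.isIntegral_iff.1 hint
    refine ⟨IsLocalRing.residue (ballR K) y, ?_⟩
    rw [← hq1, Polynomial.eval_map, Polynomial.eval₂_at_apply]
    have h0 : q.eval y = 0 := by
      have h1 : algebraMap (ballR K) K (q.eval y) = 0 := by
        rw [← Polynomial.eval₂_at_apply, hy, ← Polynomial.eval_map]
        exact hz
      exact (FaithfulSMul.algebraMap_eq_zero_iff (ballR K) K).1 h1
    rw [h0, map_zero]
  · refine charZero_of_inj_zero fun n hn => ?_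
    by_contra h
    have h1 : IsLocalRing.residue (ballR K) (n : ballR K) = 0 := by
      rw [map_natCast]
      exact hn
    rw [hzero] at h1
    have h2 := hK n h
    have h3 : ((n : ballR K) : K) = (n : K) := by norm_cast
    rw [h3, h2] at h1
    exact lt_irrefl _ h1
  · intro x y hx hy
    have hxy : ‖x + y‖ ≤ 1 := (IsUltrametricDist.norm_add_le_max x y).trans (max_le hx hy)
    rw [dif_pos hx, dif_pos hy, dif_pos hxy, ← map_add]
    rfl
  · intro x y hx hy
    have hxy : ‖x * y‖ ≤ 1 := by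
      rw [norm_mul]
      exact mul_le_one₀ hx (norm_nonneg _) hy
    rw [dif_pos hx, dif_pos hy, dif_pos hxy, ← map_mul]
    rfl
  · have h1 : ‖(1 : K)‖ ≤ 1 := by rw [norm_one]
    rw [dif_pos h1, ← map_one (IsLocalRing.residue (ballR K))]
    rfl
  · intro x hx
    rw [dif_pos hx, hzero]
  · intro a
    obtain ⟨x, rfl⟩ := IsLocalRing.residue_surjective a
    refine ⟨x, x.2, ?_⟩
    have hx : ‖(x : K)‖ ≤ 1 := x.2
    rw [dif_pos hx]

variable {K k : Type u} [NormedField K] [Field k] (R : Residue K k)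

/-- a lift of an element of the residue field -/
def Residue.lift (a : k) : K := (R.surj a).choose

theorem Residue.norm_lift (a : k) : ‖R.lift a‖ ≤ 1 := (R.surj a).choose_spec.1

@[simp] theorem Residue.red_lift (a : k) : R.red (R.lift a) = a := (R.surj a).choose_spec.2

theorem Residue.zero : R.red 0 = 0 := (R.zero_iff 0 (by simp)).2 (by simp)

theorem Residue.neg {x : K} (hx : ‖x‖ ≤ 1) : R.red (-x) = - R.red x := by
  have h := R.add x (-x) hx (by rwa [norm_neg])
  rw [add_neg_cancel, R.zero] at h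
  exact (neg_eq_of_add_eq_zero_right h.symm).symm

theorem Residue.sub {x y : K} (hx : ‖x‖ ≤ 1) (hy : ‖y‖ ≤ 1) : R.red (x - y) = R.red x - R.red y := by
  rw [sub_eq_add_neg, R.add x (-y) hx (by rwa [norm_neg]), R.neg hy, sub_eq_add_neg]

theorem Residue.norm_eq_one {x : K} (hx : ‖x‖ ≤ 1) : R.red x ≠ 0 ↔ ‖x‖ = 1 := by
  rw [ne_eq, R.zero_iff x hx, not_lt]
  exact ⟨fun h => le_antisymm hx h, fun h => h.ge⟩

theorem Residue.eq_iff [IsUltrametricDist K] {x y : K} (hx : ‖x‖ ≤ 1) (hy : ‖y‖ ≤ 1) :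
    R.red x = R.red y ↔ ‖x - y‖ < 1 := by
  have h : ‖x - y‖ ≤ 1 := by
    have := IsUltrametricDist.norm_add_le_max x (-y)
    rw [norm_neg, ← sub_eq_add_neg] at this
    exact this.trans (max_le hx hy)
  rw [← R.zero_iff _ h, R.sub hx hy, sub_eq_zero]

theorem Residue.inv {x : K} (hx : ‖x‖ = 1) : R.red x⁻¹ = (R.red x)⁻¹ := by
  have hx0 : x ≠ 0 := by
    rintro rfl
    simp at hx
  have h := R.mul x x⁻¹ hx.le (by rw [norm_inv, hx, inv_one])
  rw [mul_inv_cancel₀ hx0, R.one] at h
  exact eq_inv_of_mul_eq_one_right h.symm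

theorem Residue.div {x y : K} (hx : ‖x‖ ≤ 1) (hy : ‖y‖ = 1) : R.red (x / y) = R.red x / R.red y := by
  rw [div_eq_mul_inv, R.mul x y⁻¹ hx (by rw [norm_inv, hy, inv_one]), R.inv hy, div_eq_mul_inv]

/-- `a` is the reduction of `g` -/
def IsRed (g : K[X]) (a : k[X]) : Prop := ∀ i, ‖g.coeff i‖ ≤ 1 ∧ R.red (g.coeff i) = a.coeff i

variable {R}

theorem Residue.red_sum [IsUltrametricDist K] (R : Residue K k) {ι : Type*} (s : Finset ι)
    (u : ι → K) (hu : ∀ i ∈ s, ‖u i‖ ≤ 1) :
    ‖∑ i ∈ s, u i‖ ≤ 1 ∧ R.red (∑ i ∈ s, u i) = ∑ i ∈ s, R.red (u i) := by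
  classical
  induction s using Finset.induction_on with
  | empty => simp [R.zero]
  | insert a s ha ih =>
    obtain ⟨h1, h2⟩ := ih fun i hi => hu i (Finset.mem_insert_of_mem hi)
    have h3 := hu a (Finset.mem_insert_self _ _)
    rw [Finset.sum_insert ha, Finset.sum_insert ha]
    exact ⟨(IsUltrametricDist.norm_add_le_max _ _).trans (max_le h3 h1), by
      rw [R.add _ _ h3 h1, h2]⟩

theorem Residue.red_pow (R : Residue K k) {x : K} (hx : ‖x‖ ≤ 1) (n : ℕ) :
    R.red (x ^ n) = R.red x ^ n := by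
  induction n with
  | zero => rw [pow_zero, pow_zero, R.one]
  | succ n ih =>
    have h : ‖x ^ n‖ ≤ 1 := by
      rw [norm_pow]
      exact pow_le_one₀ (norm_nonneg _) hx
    rw [pow_succ, pow_succ, R.mul _ _ h hx, ih]

theorem Residue.red_natCast [IsUltrametricDist K] (R : Residue K k) (n : ℕ) :
    R.red (n : K) = (n : k) := by
  induction n with
  | zero => rw [Nat.cast_zero, Nat.cast_zero, R.zero]
  | succ n ih =>
    rw [Nat.cast_succ, Nat.cast_succ, R.add _ _ (IsUltrametricDist.norm_natCast_le_one K n)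
      (by rw [norm_one]), ih, R.one]

theorem IsRed.add {g g' : K[X]} {a a' : k[X]} [IsUltrametricDist K] (h : IsRed R g a)
    (h' : IsRed R g' a') : IsRed R (g + g') (a + a') := by
  intro i
  rw [coeff_add, coeff_add, R.add _ _ (h i).1 (h' i).1, (h i).2, (h' i).2]
  exact ⟨(IsUltrametricDist.norm_add_le_max _ _).trans (max_le (h i).1 (h' i).1), rfl⟩

theorem IsRed.sub {g g' : K[X]} {a a' : k[X]} [IsUltrametricDist K] (h : IsRed R g a)
    (h' : IsRed R g' a') : IsRed R (g - g') (a - a') := by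
  intro i
  rw [coeff_sub, coeff_sub, R.sub (h i).1 (h' i).1, (h i).2, (h' i).2]
  refine ⟨?_, rfl⟩
  have h1 := IsUltrametricDist.norm_add_le_max (g.coeff i) (-g'.coeff i)
  rw [norm_neg, ← sub_eq_add_neg] at h1
  exact h1.trans (max_le (h i).1 (h' i).1)

theorem IsRed.mul {g g' : K[X]} {a a' : k[X]} [IsUltrametricDist K] (h : IsRed R g a)
    (h' : IsRed R g' a') : IsRed R (g * g') (a * a') := by
  intro i
  rw [coeff_mul, coeff_mul]
  obtain ⟨h1, h2⟩ := R.red_sum (Finset.HasAntidiagonal.antidiagonal i)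
    (fun x : ℕ × ℕ => g.coeff x.1 * g'.coeff x.2)
    fun x _ => by
      rw [norm_mul]
      exact mul_le_one₀ (h _).1 (norm_nonneg _) (h' _).1
  refine ⟨h1, h2.trans (Finset.sum_congr rfl fun x _ => ?_)⟩
  rw [R.mul _ _ (h _).1 (h' _).1, (h _).2, (h' _).2]

theorem IsRed.C_mul {g : K[X]} {a : k[X]} (h : IsRed R g a) {c : K} (hc : ‖c‖ ≤ 1) :
    IsRed R (C c * g) (C (R.red c) * a) := by
  intro i
  rw [coeff_C_mul, coeff_C_mul, R.mul _ _ hc (h i).1, (h i).2, norm_mul]
  exact ⟨mul_le_one₀ hc (norm_nonneg _) (h i).1, rfl⟩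

theorem IsRed.derivative {g : K[X]} {a : k[X]} [IsUltrametricDist K] (h : IsRed R g a) :
    IsRed R (Polynomial.derivative g) (Polynomial.derivative a) := by
  intro i
  have h1 : ‖((i : K) + 1)‖ ≤ 1 := by
    have := IsUltrametricDist.norm_natCast_le_one K (i + 1)
    rwa [Nat.cast_succ] at this
  have h2 : R.red ((i : K) + 1) = (i : k) + 1 := by
    rw [← Nat.cast_succ, R.red_natCast, Nat.cast_succ]
  rw [coeff_derivative, coeff_derivative, R.mul _ _ (h (i + 1)).1 h1, (h (i + 1)).2, h2, norm_mul]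
  exact ⟨mul_le_one₀ (h (i + 1)).1 (norm_nonneg _) h1, rfl⟩

theorem IsRed.unique {g : K[X]} {a a' : k[X]} (h : IsRed R g a) (h' : IsRed R g a') : a = a' := by
  ext i
  rw [← (h i).2, (h' i).2]

theorem IsRed.eval {g : K[X]} {a : k[X]} [IsUltrametricDist K] (h : IsRed R g a) {z : K}
    (hz : ‖z‖ ≤ 1) : ‖g.eval z‖ ≤ 1 ∧ R.red (g.eval z) = a.eval (R.red z) := by
  have hpow : ∀ i : ℕ, ‖z ^ i‖ ≤ 1 := fun i => by
    rw [norm_pow]
    exact pow_le_one₀ (norm_nonneg _) hz
  set n := max g.natDegree a.natDegree + 1 with hn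
  have e1 : g.eval z = ∑ i ∈ Finset.range n, g.coeff i * z ^ i :=
    eval_eq_sum_range' (by omega) z
  have e2 : a.eval (R.red z) = ∑ i ∈ Finset.range n, a.coeff i * R.red z ^ i :=
    eval_eq_sum_range' (by omega) _
  rw [e1, e2]
  obtain ⟨h1, h2⟩ := R.red_sum (Finset.range n) (fun i => g.coeff i * z ^ i) fun i _ => by
    rw [norm_mul]
    exact mul_le_one₀ (h i).1 (norm_nonneg _) (hpow i)
  refine ⟨h1, h2.trans (Finset.sum_congr rfl fun i _ => ?_)⟩
  rw [R.mul _ _ (h i).1 (hpow i), (h i).2, R.red_pow hz]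

/-- existence of the reduction -/
theorem exists_isRed {g : K[X]} (h : ∀ i, ‖g.coeff i‖ ≤ 1) : ∃ a : k[X], IsRed R g a := by
  refine ⟨∑ i ∈ Finset.range (g.natDegree + 1), monomial i (R.red (g.coeff i)), fun j => ⟨h j, ?_⟩⟩
  rw [finsetSum_coeff]
  simp only [coeff_monomial]
  rw [Finset.sum_ite_eq']
  by_cases hj : j ∈ Finset.range (g.natDegree + 1)
  · rw [if_pos hj]
  · rw [if_neg hj]
    rw [Finset.mem_range] at hj
    rw [coeff_eq_zero_of_natDegree_lt (by omega), R.zero]

/-- two polynomials, not both zero, can be multiplied with a constant so that they have reductions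
which are not both zero -/
theorem exists_gauss {p q : K[X]} (h : p ≠ 0 ∨ q ≠ 0) : ∃ c : K, c ≠ 0 ∧ ∃ a b : k[X],
    IsRed R (C c * p) a ∧ IsRed R (C c * q) b ∧ (a ≠ 0 ∨ b ≠ 0) := by
  classical
  -- all the coefficients
  set n := max p.natDegree q.natDegree + 1 with hn
  let S : Finset K := (Finset.range n).image p.coeff ∪ (Finset.range n).image q.coeff
  have hpS : ∀ i, p.coeff i ≠ 0 → p.coeff i ∈ S := fun i hi => by
    have := le_natDegree_of_ne_zero hi
    exact Finset.mem_union_left _ (Finset.mem_image_of_mem _ (Finset.mem_range.2 (by omega)))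
  have hqS : ∀ i, q.coeff i ≠ 0 → q.coeff i ∈ S := fun i hi => by
    have := le_natDegree_of_ne_zero hi
    exact Finset.mem_union_right _ (Finset.mem_image_of_mem _ (Finset.mem_range.2 (by omega)))
  have hne : ∃ x ∈ S, x ≠ 0 := by
    rcases h with h | h
    · have h1 : p.coeff p.natDegree ≠ 0 := by
        rw [coeff_natDegree]
        exact leadingCoeff_ne_zero.2 h
      exact ⟨_, hpS _ h1, h1⟩
    · have h1 : q.coeff q.natDegree ≠ 0 := by
        rw [coeff_natDegree]
        exact leadingCoeff_ne_zero.2 h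
      exact ⟨_, hqS _ h1, h1⟩
  obtain ⟨x₀, hx₀, hx₀'⟩ := hne
  obtain ⟨x, hx, hmax⟩ := S.exists_max_image (fun x => ‖x‖) ⟨x₀, hx₀⟩
  have hx0 : 0 < ‖x‖ := (norm_pos_iff.2 hx₀').trans_le (hmax x₀ hx₀)
  have hxne : x ≠ 0 := norm_pos_iff.1 hx0
  have hle : ∀ g : K[X], (∀ i, g.coeff i ≠ 0 → g.coeff i ∈ S) →
      ∀ i, ‖(C x⁻¹ * g).coeff i‖ ≤ 1 := by
    intro g hg i
    rw [coeff_C_mul, norm_mul, norm_inv]
    by_cases h0 : g.coeff i = 0
    · rw [h0, norm_zero, mul_zero]
      exact zero_le_one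
    · rw [inv_mul_le_iff₀ hx0, mul_one]
      exact hmax _ (hg i h0)
  obtain ⟨a, ha⟩ := exists_isRed (R := R) (hle p hpS)
  obtain ⟨b, hb⟩ := exists_isRed (R := R) (hle q hqS)
  refine ⟨x⁻¹, inv_ne_zero hxne, a, b, ha, hb, ?_⟩
  have key : ∀ (g : K[X]) (a : k[X]), IsRed R (C x⁻¹ * g) a → (∃ i, g.coeff i = x) → a ≠ 0 := by
    rintro g a hga ⟨i, hi⟩ h0
    have h1 := (hga i).2
    rw [coeff_C_mul, hi, inv_mul_cancel₀ hxne, R.one, h0, coeff_zero] at h1
    exact one_ne_zero h1
  rcases Finset.mem_union.1 hx with h1 | h1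
  · obtain ⟨i, _, hi⟩ := Finset.mem_image.1 h1
    exact Or.inl (key p a ha ⟨i, hi⟩)
  · obtain ⟨i, _, hi⟩ := Finset.mem_image.1 h1
    exact Or.inr (key q b hb ⟨i, hi⟩)

/-- a polynomial with non-zero reduction has Gauss norm one -/
theorem IsRed.exists_norm_eq_one {g : K[X]} {a : k[X]} (h : IsRed R g a) (ha : a ≠ 0) :
    ∃ i, ‖g.coeff i‖ = 1 := by
  by_contra hcon
  push Not at hcon
  apply ha
  ext i
  rw [← (h i).2, coeff_zero]
  by_contra h0
  exact hcon i ((R.norm_eq_one (h i).1).1 h0)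

end FS16
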