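import Pool.Agent.FS16.NRes

/-!
# Counting roots in residue discs and in discs

MODULE N-ROOT.  `K` algebraically closed with an ultrametric norm.

* `card_residue_disc`, `card_unit_disc`: factor `g = lead ∏ (X - z_i)` (`K` is algebraically closed),
  and write `g = C b * ∏_{‖z_i‖ ≤ 1} (X - z_i) * ∏_{‖z_i‖ > 1} (1 - X / z_i)`, where the second product
  reduces to `1`.  The Gauss norm is multiplicative (or: a factor with reduction `≠ 0` can be divided
  off), so `‖b‖ = 1` and the reduction `a` of `g` is `C (red b) * ∏ (X - red z_i)`.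
* `norm_eval_ann`: on an annulus `r < ‖z - x‖ < r'` without roots of `g` the norm of `g z` is
  `M ‖z - x‖ ^ n`, where `n` is the number of the roots in the closed disc of radius `r` around `x`:
  every other root `ζ` has `‖ζ - x‖ ≥ r'` and `‖z - ζ‖ = ‖ζ - x‖`.
* `ann_exists`: finitely many roots, so that slightly larger discs contain no further roots.
-/

open Polynomial

noncomputable section

namespace FS16

universe u

variable {K k : Type u} [NormedField K] [IsUltrametricDist K] [IsAlgClosed K] [Field k]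
  {R : Residue K k}

omit [IsAlgClosed K] [Field k] in
private theorem um_lt {a b : K} (h : ‖a‖ < ‖b‖) : ‖a + b‖ = ‖b‖ := by
  rw [IsUltrametricDist.norm_add_eq_max_of_norm_ne_norm h.ne, max_eq_right h.le]

omit [IsAlgClosed K] [Field k] in
private theorem um_sum {s : Multiset K} (h : ∀ x ∈ s, ‖x‖ < 1) : ‖s.sum‖ < 1 := by
  induction s using Multiset.induction_on with
  | empty => simp
  | cons a s ih =>
    rw [Multiset.sum_cons]
    refine lt_of_le_of_lt (IsUltrametricDist.norm_add_le_max _ _) (max_lt ?_ ?_)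
    · exact h a (Multiset.mem_cons_self a s)
    · exact ih fun x hx => h x (Multiset.mem_cons_of_mem hx)

omit [IsUltrametricDist K] [IsAlgClosed K] in
private theorem isRed_one : IsRed R 1 1 := by
  intro i
  rw [coeff_one, coeff_one]
  split_ifs
  · exact ⟨by simp, R.one⟩
  · exact ⟨by simp, R.zero⟩

omit [IsAlgClosed K] in
private theorem isRed_prod_in (s : Multiset K) (h : ∀ z ∈ s, ‖z‖ ≤ 1) :
    IsRed R (s.map fun z => X - C z).prod ((s.map R.red).map fun u => X - C u).prod := by
  induction s using Multiset.induction_on with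
  | empty => simpa using isRed_one
  | cons a s ih =>
    rw [Multiset.map_cons, Multiset.map_cons, Multiset.map_cons, Multiset.prod_cons,
      Multiset.prod_cons]
    refine IsRed.mul ?_ (ih fun z hz => h z (Multiset.mem_cons_of_mem hz))
    have ha := h a (Multiset.mem_cons_self a s)
    intro i
    rcases i with _ | _ | i
    · simp only [coeff_sub, coeff_X_zero, coeff_C_zero, zero_sub]
      exact ⟨by rwa [norm_neg], R.neg ha⟩
    · simp only [coeff_sub, zero_add, coeff_X_one, coeff_C_succ, sub_zero]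
      exact ⟨by simp, R.one⟩
    · have h1 : (X - C a : K[X]).coeff (i + 1 + 1) = 0 := by
        rw [coeff_sub, coeff_X_of_ne_one (by omega), coeff_C_succ, sub_zero]
      have h2 : (X - C (R.red a) : k[X]).coeff (i + 1 + 1) = 0 := by
        rw [coeff_sub, coeff_X_of_ne_one (by omega), coeff_C_succ, sub_zero]
      rw [h1, h2]
      exact ⟨by simp, R.zero⟩

omit [IsAlgClosed K] in
private theorem isRed_prod_out (s : Multiset K) (h : ∀ z ∈ s, 1 < ‖z‖) :
    IsRed R (s.map fun z => 1 - C z⁻¹ * X).prod 1 := by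
  induction s using Multiset.induction_on with
  | empty => simpa using isRed_one
  | cons a s ih =>
    rw [Multiset.map_cons, Multiset.prod_cons]
    have h0 := ih fun z hz => h z (Multiset.mem_cons_of_mem hz)
    have ha := h a (Multiset.mem_cons_self a s)
    have hinv : ‖a⁻¹‖ < 1 := by
      rw [norm_inv]
      exact inv_lt_one_of_one_lt₀ ha
    have h1 : IsRed R (1 - C a⁻¹ * X) 1 := by
      intro i
      rcases i with _ | _ | i
      · simp only [coeff_sub, coeff_one_zero, coeff_C_mul, coeff_X_zero, mul_zero, sub_zero]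
        exact ⟨by simp, R.one⟩
      · simp only [coeff_sub, zero_add, coeff_C_mul, coeff_X_one, mul_one, coeff_one, one_ne_zero,
          if_false, zero_sub]
        refine ⟨by rw [norm_neg]; exact hinv.le, ?_⟩
        rw [R.zero_iff _ (by rw [norm_neg]; exact hinv.le), norm_neg]
        exact hinv
      · have h1 : (1 - C a⁻¹ * X : K[X]).coeff (i + 1 + 1) = 0 := by
          rw [coeff_sub, coeff_C_mul, coeff_X_of_ne_one (by omega), coeff_one]
          simp
        rw [h1, coeff_one]
        exact ⟨by simp, by simpa using R.zero⟩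
    have h2 := h1.mul h0
    rwa [one_mul] at h2

omit [IsUltrametricDist K] [IsAlgClosed K] [Field k] in
private theorem prod_out (s : Multiset K) (h : ∀ z ∈ s, 1 < ‖z‖) :
    ∃ b : K, (s.map fun z => X - C z).prod = C b * (s.map fun z => 1 - C z⁻¹ * X).prod := by
  induction s using Multiset.induction_on with
  | empty => exact ⟨1, by simp⟩
  | cons a s ih =>
    obtain ⟨b, hb⟩ := ih fun z hz => h z (Multiset.mem_cons_of_mem hz)
    have ha : a ≠ 0 := by
      rintro rfl
      have := h 0 (Multiset.mem_cons_self 0 s)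
      simp at this
      linarith
    refine ⟨-a * b, ?_⟩
    rw [Multiset.map_cons, Multiset.prod_cons, Multiset.map_cons, Multiset.prod_cons, hb]
    have h1 : (X - C a : K[X]) = C (-a) * (1 - C a⁻¹ * X) := by
      have h2 : C (-a) * (C a⁻¹ * X) = (-X : K[X]) := by
        rw [← mul_assoc, ← C_mul]
        rw [neg_mul, mul_inv_cancel₀ ha]
        simp
      rw [mul_sub, h2, mul_one, C_neg]
      ring
    rw [h1, C_mul]
    ring

open Classical in
private theorem red_factor {g : K[X]} {a : k[X]} (h : IsRed R g a) (ha : a ≠ 0) :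
    ∃ c : k, c ≠ 0 ∧
      a = C c * (((g.roots.filter fun z => ‖z‖ ≤ 1).map R.red).map fun u => X - C u).prod := by
  set S1 := g.roots.filter fun z => ‖z‖ ≤ 1 with hS1
  set S2 := g.roots.filter fun z => ¬ ‖z‖ ≤ 1 with hS2
  have hin : ∀ z ∈ S1, ‖z‖ ≤ 1 := fun z hz => (Multiset.mem_filter.1 hz).2
  have hout : ∀ z ∈ S2, 1 < ‖z‖ := fun z hz => not_le.1 (Multiset.mem_filter.1 hz).2
  have hg := (IsAlgClosed.splits g).eq_prod_roots
  have hsum : S1 + S2 = g.roots := Multiset.filter_add_not _ _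
  rw [← hsum, Multiset.map_add, Multiset.prod_add] at hg
  obtain ⟨b, hb⟩ := prod_out S2 hout
  rw [hb] at hg
  set P : K[X] := (S1.map fun z => X - C z).prod * (S2.map fun z => 1 - C z⁻¹ * X).prod with hP
  set A : k[X] := ((S1.map R.red).map fun u => X - C u).prod with hA
  have hPA : IsRed R P A := by
    have := (isRed_prod_in (R := R) S1 hin).mul (isRed_prod_out (R := R) S2 hout)
    rwa [mul_one] at this
  have hg' : g = C (g.leadingCoeff * b) * P := by
    rw [C_mul]
    refine hg.trans ?_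
    rw [hP]
    ring
  set β := g.leadingCoeff * b with hβ
  have hAm : A.Monic := monic_multiset_prod_of_monic _ _ fun u _ => monic_X_sub_C u
  obtain ⟨i, hi⟩ := hPA.exists_norm_eq_one hAm.ne_zero
  have hβ1 : ‖β‖ ≤ 1 := by
    have h1 := (h i).1
    rw [hg', coeff_C_mul, norm_mul, hi, mul_one] at h1
    exact h1
  have h2 : IsRed R g (C (R.red β) * A) := by
    rw [hg']
    exact hPA.C_mul hβ1
  have h3 := h.unique h2
  refine ⟨R.red β, ?_, h3⟩
  intro h4
  apply ha
  rw [h3, h4, C_0, zero_mul]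

open Classical in
/-- the number of roots in a residue disc -/
theorem card_residue_disc {g : K[X]} {a : k[X]} (h : IsRed R g a) (ha : a ≠ 0) (u : k) :
    Multiset.card (g.roots.filter fun z => ‖z‖ ≤ 1 ∧ R.red z = u) = a.rootMultiplicity u := by
  obtain ⟨c, hc, hac⟩ := red_factor h ha
  rw [← count_roots, hac, roots_C_mul _ hc, roots_multiset_prod_X_sub_C, Multiset.count_map,
    Multiset.filter_filter]
  congr 1
  apply Multiset.filter_congr
  intro z _
  constructor
  · rintro ⟨h1, h2⟩
    exact ⟨h2.symm, h1⟩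
  · rintro ⟨h1, h2⟩
    exact ⟨h2, h1.symm⟩

open Classical in
/-- the number of roots in the closed unit disc -/
theorem card_unit_disc {g : K[X]} {a : k[X]} (h : IsRed R g a) (ha : a ≠ 0) :
    Multiset.card (g.roots.filter fun z => ‖z‖ ≤ 1) = a.natDegree := by
  obtain ⟨c, hc, hac⟩ := red_factor h ha
  rw [hac, natDegree_C_mul hc, natDegree_multiset_prod_X_sub_C_eq_card, Multiset.card_map]

open Classical in
/-- the number of roots of `g` in the closed disc of radius `r` around `x` -/
def nr (g : K[X]) (x : K) (r : ℝ) : ℕ := Multiset.card (g.roots.filter fun z => ‖z - x‖ ≤ r)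

open Classical in
/-- the number of roots of `g` in the open disc of radius `r` around `x` -/
def nro (g : K[X]) (x : K) (r : ℝ) : ℕ := Multiset.card (g.roots.filter fun z => ‖z - x‖ < r)

omit [IsAlgClosed K] [Field k] in
private theorem dist_in {x z ζ : K} (h : ‖ζ - x‖ < ‖z - x‖) : ‖z - ζ‖ = ‖z - x‖ := by
  have h1 : z - ζ = -(ζ - x) + (z - x) := by ring
  rw [h1, um_lt (by rwa [norm_neg])]

omit [IsAlgClosed K] [Field k] in
private theorem dist_out {x z ζ : K} (h : ‖z - x‖ < ‖ζ - x‖) : ‖z - ζ‖ = ‖ζ - x‖ := by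
  have h1 : z - ζ = (z - x) + -(ζ - x) := by ring
  rw [h1, um_lt (by rwa [norm_neg]), norm_neg]

/-- the norm on an annulus without roots -/
theorem norm_eval_ann {g : K[X]} (hg : g ≠ 0) {x : K} {r r' : ℝ}
    (h : ∀ z, r < ‖z - x‖ → ‖z - x‖ < r' → g.eval z ≠ 0) :
    ∃ M : ℝ, 0 < M ∧ ∀ z, r < ‖z - x‖ → ‖z - x‖ < r' → ‖g.eval z‖ = M * ‖z - x‖ ^ nr g x r := by
  classical
  by_cases hr' : r' ≤ 0
  · refine ⟨1, one_pos, fun z _ h2 => ?_⟩
    have := norm_nonneg (z - x)
    linarith
  push Not at hr'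
  have hS : ∀ ζ ∈ g.roots, ¬ ‖ζ - x‖ ≤ r → r' ≤ ‖ζ - x‖ := by
    intro ζ hζ h1
    by_contra h2
    exact h ζ (not_le.1 h1) (not_le.1 h2) ((mem_roots hg).1 hζ)
  have key : ∀ s : Multiset K, (∀ ζ ∈ s, ¬ ‖ζ - x‖ ≤ r → r' ≤ ‖ζ - x‖) →
      ∃ M : ℝ, 0 < M ∧ ∀ z, r < ‖z - x‖ → ‖z - x‖ < r' → ‖(s.map fun ζ => z - ζ).prod‖ =
        M * ‖z - x‖ ^ Multiset.card (s.filter fun ζ => ‖ζ - x‖ ≤ r) := by
    intro s
    induction s using Multiset.induction_on with
    | empty => exact fun _ => ⟨1, one_pos, fun z _ _ => by simp⟩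
    | cons a s ih =>
      intro hs
      obtain ⟨M, hM, H⟩ := ih fun ζ hζ => hs ζ (Multiset.mem_cons_of_mem hζ)
      have ha := hs a (Multiset.mem_cons_self a s)
      by_cases h1 : ‖a - x‖ ≤ r
      · refine ⟨M, hM, fun z hz hz' => ?_⟩
        rw [Multiset.map_cons, Multiset.prod_cons, norm_mul, H z hz hz',
          Multiset.filter_cons_of_pos (p := fun ζ => ‖ζ - x‖ ≤ r) _ h1, Multiset.card_cons, pow_succ,
          dist_in (lt_of_le_of_lt h1 hz)]
        ring
      · have h2 := ha h1
        refine ⟨‖a - x‖ * M, mul_pos (lt_of_lt_of_le hr' h2) hM, fun z hz hz' => ?_⟩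
        rw [Multiset.map_cons, Multiset.prod_cons, norm_mul, H z hz hz',
          Multiset.filter_cons_of_neg (p := fun ζ => ‖ζ - x‖ ≤ r) _ h1, dist_out (lt_of_lt_of_le hz' h2)]
        ring
  obtain ⟨M, hM, H⟩ := key g.roots hS
  have hlc : 0 < ‖g.leadingCoeff‖ := norm_pos_iff.2 (leadingCoeff_ne_zero.2 hg)
  refine ⟨‖g.leadingCoeff‖ * M, mul_pos hlc hM, fun z hz hz' => ?_⟩
  rw [(IsAlgClosed.splits g).eval_eq_prod_roots, norm_mul, H z hz hz', mul_assoc]
  rfl

/-- the logarithmic derivative on an annulus without roots: `z g' z / g z` is near the number of roots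
in the inner disc -/
theorem logDeriv_ann {g : K[X]} (hg : g ≠ 0) {x : K} {r r' : ℝ}
    (h : ∀ z, r < ‖z - x‖ → ‖z - x‖ < r' → g.eval z ≠ 0) {z : K} (h1 : r < ‖z - x‖)
    (h2 : ‖z - x‖ < r') :
    ‖(z - x) * (derivative g).eval z / g.eval z - (nr g x r : K)‖ < 1 := by
  classical
  have hz0 : g.eval z ≠ 0 := h z h1 h2
  have hS : ∀ ζ ∈ g.roots, ¬ ‖ζ - x‖ ≤ r → r' ≤ ‖ζ - x‖ := by
    intro ζ hζ h1
    by_contra h2
    exact h ζ (not_le.1 h1) (not_le.1 h2) ((mem_roots hg).1 hζ)
  have hne : ∀ ζ ∈ g.roots, z - ζ ≠ 0 := by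
    intro ζ hζ h3
    rw [sub_eq_zero] at h3
    apply hz0
    rw [h3]
    exact (mem_roots hg).1 hζ
  rw [mul_div_assoc, (IsAlgClosed.splits g).eval_derivative_div_eval_of_ne_zero hz0]
  have key : ∀ s : Multiset K, (∀ ζ ∈ s, ¬ ‖ζ - x‖ ≤ r → r' ≤ ‖ζ - x‖) →
      (∀ ζ ∈ s, z - ζ ≠ 0) →
      ‖(z - x) * (s.map fun ζ => 1 / (z - ζ)).sum -
        (Multiset.card (s.filter fun ζ => ‖ζ - x‖ ≤ r) : K)‖ < 1 := by
    intro s
    induction s using Multiset.induction_on with
    | empty => exact fun _ _ => by simp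
    | cons a s ih =>
      intro hs hs'
      have h3 := ih (fun ζ hζ => hs ζ (Multiset.mem_cons_of_mem hζ))
        (fun ζ hζ => hs' ζ (Multiset.mem_cons_of_mem hζ))
      have ha := hs a (Multiset.mem_cons_self a s)
      have ha' := hs' a (Multiset.mem_cons_self a s)
      have hpos : 0 < ‖z - a‖ := norm_pos_iff.2 ha'
      by_cases h4 : ‖a - x‖ ≤ r
      · rw [Multiset.map_cons, Multiset.sum_cons, Multiset.filter_cons_of_pos (p := fun ζ => ‖ζ - x‖ ≤ r) _ h4,
          Multiset.card_cons]
        have h5 : (z - x) * (1 / (z - a) + (s.map fun ζ => 1 / (z - ζ)).sum) -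
            ((Multiset.card (s.filter fun ζ => ‖ζ - x‖ ≤ r) + 1 : ℕ) : K) =
            (a - x) / (z - a) + ((z - x) * (s.map fun ζ => 1 / (z - ζ)).sum -
              (Multiset.card (s.filter fun ζ => ‖ζ - x‖ ≤ r) : K)) := by
          push_cast
          field_simp
          ring
        rw [h5]
        refine lt_of_le_of_lt (IsUltrametricDist.norm_add_le_max _ _) (max_lt ?_ h3)
        have h6 := dist_in (lt_of_le_of_lt h4 h1)
        rw [norm_div, div_lt_one hpos, h6]
        linarith
      · rw [Multiset.map_cons, Multiset.sum_cons, Multiset.filter_cons_of_neg (p := fun ζ => ‖ζ - x‖ ≤ r) _ h4]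
        have h5 : (z - x) * (1 / (z - a) + (s.map fun ζ => 1 / (z - ζ)).sum) -
            (Multiset.card (s.filter fun ζ => ‖ζ - x‖ ≤ r) : K) =
            (z - x) / (z - a) + ((z - x) * (s.map fun ζ => 1 / (z - ζ)).sum -
              (Multiset.card (s.filter fun ζ => ‖ζ - x‖ ≤ r) : K)) := by
          ring
        rw [h5]
        refine lt_of_le_of_lt (IsUltrametricDist.norm_add_le_max _ _) (max_lt ?_ h3)
        have h6 := dist_out (lt_of_lt_of_le h2 (ha h4))
        rw [norm_div, div_lt_one hpos, h6]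
        exact lt_of_lt_of_le h2 (ha h4)
  exact key g.roots hS hne

private theorem fin_outer (s : Finset ℝ) (r : ℝ) : ∃ r', r < r' ∧ ∀ t ∈ s, r < t → r' ≤ t := by
  induction s using Finset.induction_on with
  | empty => exact ⟨r + 1, by linarith, by simp⟩
  | insert a s ha ih =>
    obtain ⟨r', h1, h2⟩ := ih
    by_cases h3 : r < a
    · refine ⟨min r' a, lt_min h1 h3, fun t ht htr => ?_⟩
      rcases Finset.mem_insert.1 ht with rfl | ht
      · exact min_le_right _ _
      · exact (min_le_left _ _).trans (h2 t ht htr)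
    · refine ⟨r', h1, fun t ht htr => ?_⟩
      rcases Finset.mem_insert.1 ht with rfl | ht
      · exact absurd htr h3
      · exact h2 t ht htr

private theorem fin_inner (s : Finset ℝ) {r' : ℝ} (hr : 0 < r') :
    ∃ r, 0 < r ∧ r < r' ∧ ∀ t ∈ s, t < r' → t ≤ r := by
  induction s using Finset.induction_on with
  | empty => exact ⟨r' / 2, by linarith, by linarith, by simp⟩
  | insert a s ha ih =>
    obtain ⟨r, h0, h1, h2⟩ := ih
    by_cases h3 : a < r'
    · refine ⟨max r a, lt_max_of_lt_left h0, max_lt h1 h3, fun t ht htr => ?_⟩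
      rcases Finset.mem_insert.1 ht with rfl | ht
      · exact le_max_right _ _
      · exact (h2 t ht htr).trans (le_max_left _ _)
    · refine ⟨r, h0, h1, fun t ht htr => ?_⟩
      rcases Finset.mem_insert.1 ht with rfl | ht
      · exact absurd htr h3
      · exact h2 t ht htr

/-- there are no roots in a thin annulus outside of a closed disc -/
theorem exists_outer_ann (g : K[X]) (hg : g ≠ 0) (x : K) (r : ℝ) : ∃ r', r < r' ∧
    ∀ z, r < ‖z - x‖ → ‖z - x‖ < r' → g.eval z ≠ 0 := by
  classical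
  obtain ⟨r', h1, h2⟩ := fin_outer (g.roots.toFinset.image fun z => ‖z - x‖) r
  refine ⟨r', h1, fun z hz hz' h3 => ?_⟩
  have h4 := h2 ‖z - x‖ (Finset.mem_image.2 ⟨z, by
    rw [Multiset.mem_toFinset]
    exact (mem_roots hg).2 h3, rfl⟩) hz
  linarith

/-- there are no roots in a thin annulus inside of an open disc -/
theorem exists_inner_ann (g : K[X]) (hg : g ≠ 0) (x : K) {r' : ℝ} (hr : 0 < r') : ∃ r, 0 < r ∧ r < r' ∧
    (∀ z, r < ‖z - x‖ → ‖z - x‖ < r' → g.eval z ≠ 0) ∧ nr g x r = nro g x r' := by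
  classical
  obtain ⟨r, h0, h1, h2⟩ := fin_inner (g.roots.toFinset.image fun z => ‖z - x‖) hr
  have h3 : ∀ z ∈ g.roots, ‖z - x‖ < r' → ‖z - x‖ ≤ r := by
    intro z hz hz'
    exact h2 ‖z - x‖ (Finset.mem_image.2 ⟨z, Multiset.mem_toFinset.2 hz, rfl⟩) hz'
  refine ⟨r, h0, h1, fun z hz hz' h4 => ?_, ?_⟩
  · have h5 := h3 z ((mem_roots hg).2 h4) hz'
    linarith
  · unfold nr nro
    congr 1
    apply Multiset.filter_congr
    intro z hz
    exact ⟨fun h4 => lt_of_le_of_lt h4 h1, fun h4 => h3 z hz h4⟩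

end FS16
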