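import Pool.Agent.FS16.NHole
import Pool.Agent.FS16.NThin

/-!
# A map which is one-to-one on a component with holes

`Step R f ι`: the set `U` of the `z` which are in the direction `v i` at `c i` for all `i` is mapped
one-to-one onto the set `U'` of the `z` which are in the direction `v' i` at `c' i` for all `i`.

MODULE N-STEP.
* `mult_one`: fix `i`, let `b ∈ U'` (`ne`) and let `b'` be a point with direction `≠ v' i` at `c' i`.  Since
  the holes are disjoint, the set of the `z` in the direction `v i` at `c i` is the disjoint union of `U`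
  and of the holes `j ≠ i` (a point which is not in `U` is in exactly one hole).  Count the
  elements of the fibres of `b` and of `b'`: in the direction `v i`: `spl + mult` and `spl` by
  `dircount`; in `U`: `1` and `0`; in the hole `j ≠ i`: `deg - (spl_j + mult_j)` for both, because
  `b` and `b'` are both in the direction `v' j` at `c' j` (`disj'`).  So `mult = 1`.
* `thin_subset`: by `hole_deep` for the holes `j ≠ i`.
-/

open Polynomial

noncomputable section

namespace FS16

universe u

variable {K k : Type u} [NormedField K] [Field k] (R : Residue K k) [IsUltrametricDist K]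
  [IsAlgClosed K] [IsAlgClosed k]

open Classical in
/-- a one-to-one map between two components with holes -/
structure Step (f : RM K) (ι : Type) where
  c : ι → Chart K
  c' : ι → Chart K
  v : ι → OnePoint k
  v' : ι → OnePoint k
  T : ι → RM k
  h : ι → k[X]
  good : ∀ i, GoodRed R (f.cj (c i) (c' i)) (h i) (T i)
  Tv : ∀ i, (T i).map (v i) = v' i
  disj : ∀ i j, i ≠ j → ∀ z, dirR R ((c i).to z) ≠ v i → dirR R ((c j).to z) = v j
  disj' : ∀ i j, i ≠ j → ∀ z, dirR R ((c' i).to z) ≠ v' i → dirR R ((c' j).to z) = v' j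
  one : ∀ b, (∀ i, dirR R ((c' i).to b) = v' i) →
    Multiset.card ((f.fibM b).filter fun z => ∀ i, dirR R ((c i).to z) = v i) = 1
  zero : ∀ b, (¬ ∀ i, dirR R ((c' i).to b) = v' i) →
    Multiset.card ((f.fibM b).filter fun z => ∀ i, dirR R ((c i).to z) = v i) = 0
  ne : ∃ b, ∀ i, dirR R ((c' i).to b) = v' i

variable {R} {f : RM K} {ι : Type} [Fintype ι]

theorem Step.one_le_deg (S : Step R f ι) (i : ι) : 1 ≤ f.deg := by
  rw [← f.cj_deg (S.c i) (S.c' i)]
  exact (S.good i).one_le_deg

/-- number of elements with a property -/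
def nStepN {α : Type*} (s : Multiset α) (P : α → Prop) : ℕ :=
  Multiset.card (@Multiset.filter α P (Classical.decPred P) s)

theorem nStepN_eq {α : Type*} (s : Multiset α) (P : α → Prop) [hP : DecidablePred P] :
    Multiset.card (s.filter P) = nStepN s P := by
  unfold nStepN
  congr!

theorem nStepN_zero {α : Type*} (P : α → Prop) : nStepN (0 : Multiset α) P = 0 := by
  unfold nStepN
  simp

theorem nStepN_pos {α : Type*} (a : α) (s : Multiset α) (P : α → Prop) (h : P a) :
    nStepN (a ::ₘ s) P = 1 + nStepN s P := by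
  classical
  rw [← nStepN_eq, ← nStepN_eq]
  rw [Multiset.filter_cons_of_pos _ h, Multiset.card_cons, add_comm]

theorem nStepN_neg {α : Type*} (a : α) (s : Multiset α) (P : α → Prop) (h : ¬ P a) :
    nStepN (a ::ₘ s) P = nStepN s P := by
  classical
  rw [← nStepN_eq, ← nStepN_eq]
  rw [Multiset.filter_cons_of_neg _ h]

theorem nStepN_not {α : Type*} (s : Multiset α) (P : α → Prop) :
    nStepN s P + nStepN s (fun z => ¬ P z) = Multiset.card s := by
  induction s using Multiset.induction_on with
  | empty => simp [nStepN_zero]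
  | cons a t ih =>
    rw [Multiset.card_cons]
    by_cases h : P a
    · rw [nStepN_pos a t P h, nStepN_neg a t (fun z => ¬ P z) (not_not.mpr h)]
      omega
    · rw [nStepN_neg a t P h, nStepN_pos a t (fun z => ¬ P z) h]
      omega

theorem nStep_card {α ι : Type*} [DecidableEq ι] (s : Multiset α) (P Q : α → Prop)
    (H : ι → α → Prop) (J : Finset ι)
    (hPQ : ∀ z, P z → Q z ∨ ∃ j ∈ J, H j z) (hQ : ∀ z, Q z → P z ∧ ∀ j ∈ J, ¬ H j z)
    (hH : ∀ z, ∀ j ∈ J, H j z → P z ∧ ¬ Q z ∧ ∀ l ∈ J, l ≠ j → ¬ H l z) :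
    nStepN s P = nStepN s Q + ∑ j ∈ J, nStepN s (H j) := by
  induction s using Multiset.induction_on with
  | empty => simp [nStepN_zero]
  | cons a t ih =>
    by_cases hP : P a
    · rcases hPQ a hP with h1 | ⟨j, hj, h1⟩
      · rw [nStepN_pos a t P hP, nStepN_pos a t Q h1,
          Finset.sum_congr rfl fun j hj => nStepN_neg a t (H j) ((hQ a h1).2 j hj), ih]
        omega
      · obtain ⟨-, h2, h3⟩ := hH a j hj h1
        rw [nStepN_pos a t P hP, nStepN_neg a t Q h2, ← Finset.add_sum_erase J _ hj,
          nStepN_pos a t (H j) h1,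
          Finset.sum_congr rfl fun l hl => nStepN_neg a t (H l)
            (h3 l (Finset.mem_erase.mp hl).2 (Finset.mem_erase.mp hl).1), ih,
          ← Finset.add_sum_erase J (fun j => nStepN t (H j)) hj]
        omega
    · have h1 : ¬ Q a := fun h => hP (hQ a h).1
      have h2 : ∀ j ∈ J, ¬ H j a := fun j hj h => hP (hH a j hj h).1
      rw [nStepN_neg a t P hP, nStepN_neg a t Q h1,
        Finset.sum_congr rfl fun j hj => nStepN_neg a t (H j) (h2 j hj), ih]

theorem Step.nStep_dir_pos (S : Step R f ι) (i : ι) (b : OnePoint K)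
    (hb : dirR R ((S.c' i).to b) = S.v' i) :
    nStepN (f.fibM b) (fun z => dirR R ((S.c i).to z) = S.v i) =
      spl (f.cj (S.c i) (S.c' i)) (S.h i) (S.T i) (S.v i) + (S.T i).mult (S.v i) := by
  classical
  have h1 := dircount (S.good i) ((S.c' i).to b) (S.v i)
  rw [f.cj_fibM (S.one_le_deg i) (S.c i) (S.c' i) b, Multiset.filter_map, Multiset.card_map,
    nStepN_eq, if_pos (by rw [S.Tv i, hb])] at h1
  exact h1

theorem Step.nStep_dir_neg (S : Step R f ι) (i : ι) (b : OnePoint K)
    (hb : dirR R ((S.c' i).to b) ≠ S.v' i) :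
    nStepN (f.fibM b) (fun z => dirR R ((S.c i).to z) = S.v i) =
      spl (f.cj (S.c i) (S.c' i)) (S.h i) (S.T i) (S.v i) := by
  classical
  have h1 := dircount (S.good i) ((S.c' i).to b) (S.v i)
  rw [f.cj_fibM (S.one_le_deg i) (S.c i) (S.c' i) b, Multiset.filter_map, Multiset.card_map,
    nStepN_eq, if_neg (by rw [S.Tv i]; exact fun e => hb e.symm), add_zero] at h1
  exact h1

theorem Step.mult_one (S : Step R f ι) (i : ι) : (S.T i).mult (S.v i) = 1 := by
  classical
  obtain ⟨b, hb⟩ := S.ne
  -- a direction different from `v' i`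
  obtain ⟨u, hu⟩ : ∃ u : OnePoint k, u ≠ S.v' i := by
    by_cases h0 : S.v' i = OnePoint.infty
    · exact ⟨((0 : k) : OnePoint k), by rw [h0]; exact OnePoint.coe_ne_infty 0⟩
    · exact ⟨OnePoint.infty, fun e => h0 e.symm⟩
  obtain ⟨b', hb'⟩ := exists_dirR_eq R (S.c' i) u
  have hb'i : dirR R ((S.c' i).to b') ≠ S.v' i := by rw [hb']; exact hu
  have hb'j : ∀ j, j ≠ i → dirR R ((S.c' j).to b') = S.v' j := fun j hj =>
    S.disj' i j hj.symm b' hb'i
  have hcomp : ∀ (b : OnePoint K) (j : ι),
      nStepN (f.fibM b) (fun z => ¬ dirR R ((S.c j).to z) = S.v j) =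
        f.deg - nStepN (f.fibM b) (fun z => dirR R ((S.c j).to z) = S.v j) := by
    intro b j
    have h1 := f.card_fibM (S.one_le_deg i) b
    have h2 := nStepN_not (f.fibM b) (fun z => dirR R ((S.c j).to z) = S.v j)
    omega
  have hmain : ∀ b : OnePoint K,
      nStepN (f.fibM b) (fun z => dirR R ((S.c i).to z) = S.v i) =
      nStepN (f.fibM b) (fun z => ∀ j, dirR R ((S.c j).to z) = S.v j) +
      ∑ j ∈ Finset.univ.erase i, (f.deg -
        nStepN (f.fibM b) (fun z => dirR R ((S.c j).to z) = S.v j)) := by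
    intro b
    rw [nStep_card (f.fibM b) (fun z => dirR R ((S.c i).to z) = S.v i)
      (fun z => ∀ j, dirR R ((S.c j).to z) = S.v j)
      (fun j z => ¬ dirR R ((S.c j).to z) = S.v j) (Finset.univ.erase i)]
    · congr 1
      exact Finset.sum_congr rfl fun j _ => hcomp b j
    · intro z hz
      by_cases hU : ∀ j, dirR R ((S.c j).to z) = S.v j
      · exact Or.inl hU
      · obtain ⟨j, hj⟩ := not_forall.mp hU
        refine Or.inr ⟨j, Finset.mem_erase.mpr ⟨?_, Finset.mem_univ j⟩, hj⟩
        intro e
        rw [e] at hj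
        exact hj hz
    · intro z hz
      exact ⟨hz i, fun j _ => not_not.mpr (hz j)⟩
    · intro z j hj hjz
      refine ⟨S.disj j i (Finset.mem_erase.mp hj).1 z hjz, fun hall => hjz (hall j), ?_⟩
      intro l _ hlj
      exact not_not.mpr (S.disj j l hlj.symm z hjz)
  have m1 := hmain b
  have m2 := hmain b'
  have o1 := S.one b hb
  have o2 := S.zero b' (fun hall => hb'i (hall i))
  rw [nStepN_eq] at o1 o2
  have hsum : ∑ j ∈ Finset.univ.erase i, (f.deg -
        nStepN (f.fibM b) (fun z => dirR R ((S.c j).to z) = S.v j)) =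
      ∑ j ∈ Finset.univ.erase i, (f.deg -
        nStepN (f.fibM b') (fun z => dirR R ((S.c j).to z) = S.v j)) := by
    apply Finset.sum_congr rfl
    intro j hj
    rw [S.nStep_dir_pos j b (hb j), S.nStep_dir_pos j b' (hb'j j (Finset.mem_erase.mp hj).1)]
  rw [S.nStep_dir_pos i b (hb i), o1, hsum] at m1
  rw [S.nStep_dir_neg i b' hb'i, o2] at m2
  omega

/-- the part of the direction `v i` near the boundary is in `U` -/
theorem Step.thin_subset (S : Step R f ι) (i : ι) : ∃ t < 1, ∀ z, dirR R ((S.c i).to z) = S.v i →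
    t < radR R (S.v i) ((S.c i).to z) → ∀ j, dirR R ((S.c j).to z) = S.v j := by
  classical
  have h1 : ∀ j, j ≠ i → ∃ t < 1, ∀ z, dirR R ((S.c j).to z) ≠ S.v j →
      radR R (S.v i) ((S.c i).to z) ≤ t := fun j hj =>
    hole_deep R (fun z hz => S.disj j i hj z hz)
  have h2 : ∀ J : Finset ι, ∃ t < 1, ∀ j ∈ J, j ≠ i → ∀ z, dirR R ((S.c j).to z) ≠ S.v j →
      radR R (S.v i) ((S.c i).to z) ≤ t := by
    intro J
    induction J using Finset.induction_on with
    | empty => exact ⟨0, one_pos, fun j hj => absurd hj (Finset.notMem_empty j)⟩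
    | insert a J _ ih =>
      obtain ⟨t, ht, h3⟩ := ih
      by_cases ha : a = i
      · refine ⟨t, ht, ?_⟩
        intro j hj hji
        rcases Finset.mem_insert.mp hj with e | e
        · exact absurd (e.trans ha) hji
        · exact h3 j e hji
      · obtain ⟨t', ht', h4⟩ := h1 a ha
        refine ⟨max t t', max_lt ht ht', ?_⟩
        intro j hj hji z hz
        rcases Finset.mem_insert.mp hj with e | e
        · rw [e] at hz
          exact (h4 z hz).trans (le_max_right _ _)
        · exact (h3 j e hji z hz).trans (le_max_left _ _)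
  obtain ⟨t, ht, h3⟩ := h2 Finset.univ
  refine ⟨t, ht, ?_⟩
  intro z hz htz j
  by_contra hj
  by_cases hji : j = i
  · rw [hji] at hj
    exact hj hz
  · exact absurd (h3 j (Finset.mem_univ j) hji z hj) (not_le.mpr htz)

end FS16
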