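import Pool.Agent.FS16.NWorld

/-!
# Tails on a cycle of type A

MODULE N-WORLD-A.  Let `ξ` be of type A and let `E` be the set of the `i` such that `ξ` is on the cycle
of the boundary point `b i` of `i`, and suppose that their multipliers are at most one under an
embedding `σ` of a subfield `L` of `k` (`φ : L → k`) which contains all the coefficients.
Then there are tails, one for each element of `E`, which are disjoint.

Proof.  Apply `typeA` to get `n`, let `ξ₀ = s^[n] ξ`, `m = Function.minimalPeriod s ξ₀ ≥ 1`.  Define an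
`SData σ m E`: the line `j : ZMod m` is the point `s^[j.val] ξ₀`, `T j` is the descent of
`W.T (s^[j.val] ξ₀)` (`exists_descent`; the degree, `q.natDegree`, ... are preserved by `mapF`), `j₀ = 0`,
`deg_pos` from `good`.  `s^[j.val] ξ₀ ≠ ξ₀` for `j ≠ 0`.  `y l` is the preimage in `L` of
`v i b (l₀ + l)`, where `e i b l₀ = s ξ₀` (`typeA`), it is finite by `typeA_fin` (`degOne` is invariant),
`y_q`, `y_T` from `v_T` by `RM.map_eq_coe`; period `P i` (`m ∣ P i` since `s^[P i]` fixes the point).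
`v i l` for `i ∈ E` is the preimage in `L` of `v i (b i) (l_i + l)`, where `e i (b i) l_i = ξ₀`
(exists: `ξ` is on the cycle, and `ξ₀ = s^[n] ξ`).  `v_w`: `v_one` and `isCrit_coe`.  `v_disj`: by the
field `v_disj` of `W`.  `mult`: a product over a full period does not depend on where it starts; by
hypothesis.
`levelA` gives `j i`, `w i`; put `ζ i = s^[(j i).val] ξ₀` and map `w i` to `k` by `φ`.
-/

open Polynomial

noncomputable section

namespace FS16

universe u

variable {K k : Type u} [NontriviallyNormedField K] [Field k] {R : Residue K k}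
  [IsUltrametricDist K] [IsAlgClosed K] [IsAlgClosed k] [CharZero k]
  {f : RM K} {Ξ I : Type} [Fintype Ξ] [Fintype I]

/-! ### Auxiliary lemmas -/

omit [IsAlgClosed k] [CharZero k] in
theorem nwa_prod_shift {P : ℕ} (hP : 0 < P) {F : ℕ → k} (hF : ∀ l, F (l + P) = F l) (a : ℕ) :
    ∏ l ∈ Finset.range P, F (a + l) = ∏ l ∈ Finset.range P, F l := by
  obtain ⟨P', rfl⟩ : ∃ P', P = P' + 1 := ⟨P - 1, by omega⟩
  induction a with
  | zero => simp
  | succ a ih =>
    rw [← ih, Finset.prod_range_succ (fun l => F (a + 1 + l)),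
      Finset.prod_range_succ' (fun l => F (a + l))]
    have h1 : F (a + 1 + P') = F (a + 0) := by
      have := hF a
      have e : a + 1 + P' = a + (P' + 1) := by ring
      rw [e, this, add_zero]
    rw [h1]
    congr 1
    refine Finset.prod_congr rfl fun l _ => ?_
    congr 1
    ring

theorem nwa_iter (W : World R f Ξ I) (i : I) (b : Bool) (l a : ℕ) :
    W.e i b (l + a) = W.s^[a] (W.e i b l) := by
  induction a with
  | zero => rfl
  | succ a ih =>
    rw [← add_assoc, W.e_s, ih, Function.iterate_succ_apply']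

theorem nwa_degOne (W : World R f Ξ I) (ξ : Ξ) (n : ℕ) :
    W.degOne (W.s^[n] ξ) ↔ W.degOne ξ := by
  induction n with
  | zero => rfl
  | succ n ih => rw [Function.iterate_succ_apply', W.degOne_s, ih]

/-- a point on the cycle of a boundary point is fixed by the iterate of order `P i` -/
theorem nwa_per (W : World R f Ξ I) (i : I) (b : Bool) (l : ℕ) :
    Function.IsPeriodicPt W.s (W.P i) (W.e i b l) := by
  unfold Function.IsPeriodicPt Function.IsFixedPt
  rw [← nwa_iter, W.e_per]

theorem World.tailsA (W : World R f Ξ I) {ξ : Ξ} (hξ : ¬ W.degOne ξ) (b : I → Bool)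
    {L : Type u} [Field L] [IsAlgClosed L] [CharZero L] (φ : L →+* k) (σ : L →+* ℂ)
    (hp : ∀ ζ i, (W.T ζ).p.coeff i ∈ Set.range φ) (hq : ∀ ζ i, (W.T ζ).q.coeff i ∈ Set.range φ)
    (hv : ∀ i b l, toFin (W.v i b l) ∈ Set.range φ)
    (hm : ∀ i, W.On i (b i) ξ → ∀ x : L, φ x = ∏ l ∈ Finset.range (W.P i),
      (W.T (W.e i (b i) l)).der (toFin (W.v i (b i) l)) → ‖σ x‖ ≤ 1) :
    ∃ (ζ : I → Ξ) (w : I → ℕ → k),
      (∀ i, W.On i (b i) ξ → (∃ n, W.s^[n] ξ = ζ i) ∧ W.Tail (ζ i) (w i)) ∧
      ∀ i i', W.On i (b i) ξ → W.On i' (b i') ξ → ∀ a a' : ℕ,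
        W.s^[a] (ζ i) = W.s^[a'] (ζ i') → w i a = w i' a' → i = i' := by
  classical
  obtain ⟨n, hdeg2, hqd, ⟨i₁, b₁, l₁, he₁, hv₁⟩, hlt⟩ := W.typeA ξ hξ
  obtain ⟨ξ₀, hξ₀⟩ : ∃ ξ₀, ξ₀ = W.s^[n] ξ := ⟨_, rfl⟩
  rw [← hξ₀] at hdeg2 hqd hv₁
  have hinj : Function.Injective W.s := W.s.injective
  have he₁' : W.e i₁ b₁ l₁ = W.s ξ₀ := by
    rw [he₁, Function.iterate_succ_apply', hξ₀]
  -- the boundary points on the cycle
  have hOn : ∀ i, W.On i (b i) ξ → ∃ l, W.e i (b i) l = ξ₀ := by
    rintro i ⟨l, hl⟩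
    refine ⟨l + n, ?_⟩
    rw [nwa_iter, hl, hξ₀]
  -- the period
  have hper₁ : Function.IsPeriodicPt W.s (W.P i₁) ξ₀ := by
    have h1 := nwa_per W i₁ b₁ l₁
    rw [he₁'] at h1
    have h2 : W.s (W.s^[W.P i₁] ξ₀) = W.s ξ₀ := by
      rw [← Function.iterate_succ_apply' (⇑W.s), Function.iterate_succ_apply]
      exact h1
    exact hinj h2
  obtain ⟨m, hm0⟩ : ∃ m, m = Function.minimalPeriod W.s ξ₀ := ⟨_, rfl⟩
  have hmpos : 0 < m := by
    rw [hm0]
    exact Function.minimalPeriod_pos_of_mem_periodicPts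
      (Function.mk_mem_periodicPts (W.P_pos i₁) hper₁)
  have : NeZero m := ⟨hmpos.ne'⟩
  obtain ⟨pt, hpt⟩ : ∃ pt : ZMod m → Ξ, ∀ j, pt j = W.s^[j.val] ξ₀ := ⟨_, fun _ => rfl⟩
  have hptn : ∀ l : ℕ, pt (l : ZMod m) = W.s^[l] ξ₀ := by
    intro l
    rw [hpt, ZMod.val_natCast, hm0]
    exact Function.iterate_mod_minimalPeriod_eq
  have hpt_inj : ∀ j j', pt j = pt j' → j = j' := by
    intro j j' h
    rw [hpt, hpt] at h
    have h1 : j.val < Function.minimalPeriod W.s ξ₀ := by rw [← hm0]; exact ZMod.val_lt j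
    have h2 : j'.val < Function.minimalPeriod W.s ξ₀ := by rw [← hm0]; exact ZMod.val_lt j'
    exact ZMod.val_injective m (Function.iterate_injOn_Iio_minimalPeriod h1 h2 h)
  have hpt_add : ∀ (j : ZMod m) (l : ℕ), pt (j + l) = W.s^[l] (pt j) := by
    intro j l
    have h1 : j + l = ((j.val + l : ℕ) : ZMod m) := by
      push_cast
      rw [ZMod.natCast_zmod_val]
    rw [h1, hptn, hpt, ← Function.iterate_add_apply, add_comm]
  -- the descent
  have hTT : ∀ ζ, ∃ T' : RM L, T'.mapF φ = W.T ζ := fun ζ =>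
    exists_descent φ (W.T ζ) (hp ζ) (hq ζ)
  choose TT hTT using hTT
  have hφ : Function.Injective φ := φ.injective
  -- the directions
  choose vv hvv using hv
  have hdv : ∀ i b l, W.e i b l = W.s^[l] (W.e i b 0) := by
    intro i b l
    rw [← nwa_iter, zero_add]
  -- orbits of directions
  have orb : ∀ i b l, ¬ W.degOne (W.e i b l) → (TT (W.e i b l)).q.eval (vv i b l) ≠ 0 ∧
      (TT (W.e i b l)).ev (vv i b l) = vv i b (l + 1) := by
    intro i b l hd
    have hd' : ¬ W.degOne (W.e i b (l + 1)) := by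
      rw [W.e_s, W.degOne_s]
      exact hd
    have h1 := W.v_T i b l
    rw [← coe_toFin (W.typeA_fin i b l hd), ← coe_toFin (W.typeA_fin i b (l + 1) hd'),
      ← hvv, ← hvv] at h1
    obtain ⟨h2, h3⟩ := RM.map_eq_coe _ h1
    rw [← hTT, RM.mapF_q_eval] at h2
    rw [← hTT, RM.mapF_ev] at h3
    exact ⟨fun h => h2 (by rw [h, map_zero]), hφ h3⟩
  have nd : ∀ i l, W.e i (b i) l = ξ₀ → ∀ a, ¬ W.degOne (W.e i (b i) (l + a)) := by
    intro i l hl a
    rw [nwa_iter, hl, hξ₀, ← Function.iterate_add_apply, nwa_degOne]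
    exact hξ
  have nd₁ : ∀ a, ¬ W.degOne (W.e i₁ b₁ (l₁ + a)) := by
    intro a
    rw [nwa_iter, he₁, ← Function.iterate_add_apply, nwa_degOne]
    exact hξ
  have vvper : ∀ i b l, vv i b (l + W.P i) = vv i b l := by
    intro i b l
    apply hφ
    rw [hvv, hvv, W.v_per]
  -- the index set
  obtain ⟨l_, hl_⟩ : ∃ l_ : {i : I // W.On i (b i) ξ} → ℕ, ∀ i, W.e i.1 (b i.1) (l_ i) = ξ₀ := by
    choose l_ hl_ using fun i : {i : I // W.On i (b i) ξ} => hOn i.1 i.2
    exact ⟨l_, hl_⟩
  have hpe : ∀ (i : {i : I // W.On i (b i) ξ}) (l : ℕ),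
      W.e i.1 (b i.1) (l_ i + l) = pt (l : ZMod m) := by
    intro i l
    rw [nwa_iter, hl_, hptn]
  have hpe₁ : ∀ l : ℕ, W.e i₁ b₁ (l₁ + l) = pt (0 + 1 + (l : ZMod m)) := by
    intro l
    have h1 : (0 + 1 + (l : ZMod m)) = ((1 + l : ℕ) : ZMod m) := by push_cast; ring
    rw [h1, hptn, nwa_iter, he₁', add_comm, Function.iterate_add_apply]
    rfl
  let D : SData σ m {i : I // W.On i (b i) ξ} :=
    { T := fun j => TT (pt j)
      deg_pos := by
        intro j
        have h1 := (W.good (pt j)).2.1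
        rw [← hTT, RM.mapF_deg] at h1
        exact h1
      j₀ := 0
      deg_two := by
        have h0 : pt 0 = ξ₀ := by
          have := hptn 0
          simpa using this
        rw [h0]
        rw [← hTT, RM.mapF_deg] at hdeg2
        exact hdeg2
      inf_ne := by
        intro j hj
        have h0 : pt 0 = ξ₀ := by
          have := hptn 0
          simpa using this
        have h1 : W.s^[j.val + n] ξ = pt j := by
          rw [Function.iterate_add_apply, ← hξ₀, hpt]
        have h2 := hlt (j.val + n) (by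
          rw [h1, ← hξ₀, ← h0]
          exact fun h => hj (hpt_inj _ _ h))
        rw [h1, ← hTT, RM.mapF_deg, RM.mapF_q_natDegree] at h2
        exact h2
      inf_j₀ := by
        have h0 : pt 0 = ξ₀ := by
          have := hptn 0
          simpa using this
        rw [h0]
        rw [← hTT, RM.mapF_deg, RM.mapF_q_natDegree] at hqd
        exact hqd
      y := fun l => vv i₁ b₁ (l₁ + l)
      y_zero := by
        have h0 : pt 0 = ξ₀ := by
          have := hptn 0
          simpa using this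
        rw [h0]
        apply hφ
        rw [hvv, add_zero, hv₁, ← hTT, RM.mapF_inf]
        rfl
      y_q := by
        intro l
        rw [← hpe₁]
        exact (orb _ _ _ (nd₁ l)).1
      y_T := by
        intro l
        rw [← hpe₁]
        exact (orb _ _ _ (nd₁ l)).2
      Py := W.P i₁
      Py_pos := W.P_pos i₁
      Py_m := by
        rw [hm0]
        exact hper₁.minimalPeriod_dvd
      y_per := by
        intro l
        rw [← add_assoc, vvper]
      v := fun i l => vv i.1 (b i.1) (l_ i + l)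
      P := fun i => W.P i.1
      P_pos := fun i => W.P_pos i.1
      P_m := by
        intro i
        rw [hm0]
        have h1 := nwa_per W i.1 (b i.1) (l_ i)
        rw [hl_] at h1
        exact h1.minimalPeriod_dvd
      v_per := by
        intro i l
        rw [← add_assoc, vvper]
      v_q := by
        intro i l
        rw [← hpe i]
        exact (orb _ _ _ (nd _ _ (hl_ i) l)).1
      v_w := by
        intro i l h
        rw [← hpe i] at h
        have h1 := W.v_one i.1 (b i.1) (l_ i + l)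
        rw [← coe_toFin (W.typeA_fin i.1 (b i.1) (l_ i + l) (nd _ _ (hl_ i) l)), ← hvv] at h1
        have h2 : (W.T (W.e i.1 (b i.1) (l_ i + l))).wr.eval (φ (vv i.1 (b i.1) (l_ i + l))) = 0 := by
          rw [← hTT, RM.mapF_wr_eval, h, map_zero]
        have h3 := (RM.isCrit_coe _ (W.good (W.e i.1 (b i.1) (l_ i + l))).2.1 _).2 h2
        unfold RM.IsCrit at h3
        omega
      v_T := by
        intro i l
        rw [← hpe i]
        exact (orb _ _ _ (nd _ _ (hl_ i) l)).2
      v_disj := by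
        intro i i' l l' hll h
        have h1 : W.e i.1 (b i.1) (l_ i + l) = W.e i'.1 (b i'.1) (l_ i' + l') := by
          rw [hpe, hpe, hll]
        have h2 : W.v i.1 (b i.1) (l_ i + l) = W.v i'.1 (b i'.1) (l_ i' + l') := by
          rw [← coe_toFin (W.typeA_fin i.1 (b i.1) (l_ i + l) (nd _ _ (hl_ i) l)),
            ← coe_toFin (W.typeA_fin i'.1 (b i'.1) (l_ i' + l') (nd _ _ (hl_ i') l')),
            ← hvv, ← hvv, h]
        exact Subtype.ext (W.v_disj _ _ _ _ _ _ h1 h2)
      mult := by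
        intro i
        refine hm i.1 i.2 _ ?_
        rw [map_prod]
        have h1 : ∀ l : ℕ, φ ((TT (pt (l : ZMod m))).der (vv i.1 (b i.1) (l_ i + l))) =
            (fun l => (W.T (W.e i.1 (b i.1) l)).der (toFin (W.v i.1 (b i.1) l))) (l_ i + l) := by
          intro l
          simp only
          rw [← hvv, ← hpe i, ← RM.mapF_der, hTT]
        rw [Finset.prod_congr rfl fun l _ => h1 l]
        exact nwa_prod_shift (W.P_pos i.1) (F := fun l =>
          (W.T (W.e i.1 (b i.1) l)).der (toFin (W.v i.1 (b i.1) l))) (fun l => by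
            rw [W.e_per, W.v_per]) (l_ i) }
  obtain ⟨j, w, hw1, hw2, hw3⟩ := levelA D
  have hw1' : ∀ i, (W.T (pt (j i))).wr.eval (φ (w i 0)) = 0 := by
    intro i
    have h1 : (TT (pt (j i))).wr.eval (w i 0) = 0 := hw1 i
    rw [← hTT, RM.mapF_wr_eval, h1, map_zero]
  have hw2' : ∀ i (l : ℕ), (W.T (W.s^[l] (pt (j i)))).map ((φ (w i l) : k) : OnePoint k) =
      ((φ (w i (l + 1)) : k) : OnePoint k) := by
    intro i l
    have h1 : (TT (pt (j i + l))).q.eval (w i l) ≠ 0 ∧
      (TT (pt (j i + l))).ev (w i l) = w i (l + 1) := hw2 i l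
    rw [← hpt_add, ← h1.2, ← RM.mapF_ev, hTT]
    refine RM.map_coe _ ?_
    rw [← hTT, RM.mapF_q_eval]
    exact fun h => h1.1 (hφ (by rw [h, map_zero]))
  have hw3' : ∀ i i' (a a' : ℕ), W.s^[a] (pt (j i)) = W.s^[a'] (pt (j i')) →
      φ (w i a) = φ (w i' a') → i = i' ∧ a = a' := by
    intro i i' a a' h h'
    rw [← hpt_add, ← hpt_add] at h
    exact hw3 i i' a a' (hpt_inj _ _ h) (hφ h')
  refine ⟨fun i => if h : W.On i (b i) ξ then pt (j ⟨i, h⟩) else ξ,
    fun i l => if h : W.On i (b i) ξ then φ (w ⟨i, h⟩ l) else 0, ?_, ?_⟩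
  · intro i h
    simp only [dif_pos h]
    refine ⟨⟨(j ⟨i, h⟩).val + n, ?_⟩, ?_, ?_, ?_⟩
    · rw [Function.iterate_add_apply, ← hξ₀, hpt]
    · intro l
      exact hw2' ⟨i, h⟩ l
    · intro a a' h1 h2
      exact (hw3' _ _ _ _ h1 h2).2
    · have h3 := (RM.isCrit_coe _ (W.good (pt (j ⟨i, h⟩))).2.1 _).2 (hw1' ⟨i, h⟩)
      unfold RM.IsCrit at h3
      omega
  · intro i i' h h' a a' h1 h2
    simp only [dif_pos h, dif_pos h'] at h1 h2
    exact congrArg Subtype.val (hw3' _ _ _ _ h1 h2).1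

end FS16
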